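import Mathlib

/-! The Gauss measure is invariant; first-moment choice of a good starting point. -/

set_option autoImplicit false

open Filter Topology Set MeasureTheory

namespace Pool.Agent.H234Z.CF

/-- the Gauss map -/
noncomputable def G (y : ℝ) : ℝ := Int.fract (1 / y)

/-- distribution function of the Gauss measure -/
noncomputable def F (t : ℝ) : ℝ := Real.log (1 + max 0 (min t 1)) / Real.log 2

lemma log2_pos : 0 < Real.log 2 := Real.log_pos (by norm_num)

lemma continuous_F : Continuous F := by
  unfold F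
  refine Continuous.div_const (Continuous.log (by fun_prop) fun t => ?_) _
  have := le_max_left 0 (min t 1)
  linarith

lemma F_mono : Monotone F := by
  intro s t h
  unfold F
  have := log2_pos
  have := le_max_left 0 (min s 1)
  gcongr

lemma F_eq {t : ℝ} (h0 : 0 ≤ t) (h1 : t ≤ 1) : F t = Real.log (1 + t) / Real.log 2 := by
  unfold F; rw [min_eq_left h1, max_eq_right h0]

lemma F_neg {t : ℝ} (h : t ≤ 0) : F t = 0 := by
  unfold F; rw [min_eq_left (by linarith), max_eq_left h]; simp

lemma F_big {t : ℝ} (h : 1 ≤ t) : F t = 1 := by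
  unfold F; rw [min_eq_right h, max_eq_right zero_le_one]
  have := log2_pos
  norm_num

lemma F_nonneg (t : ℝ) : 0 ≤ F t := by
  rcases le_total t 0 with h | h
  · rw [F_neg h]
  · rw [← F_neg le_rfl]; exact F_mono h

lemma F_le_one (t : ℝ) : F t ≤ 1 := by
  rcases le_total t 1 with h | h
  · rw [← F_big le_rfl]; exact F_mono h
  · rw [F_big h]

noncomputable def sF : StieltjesFunction ℝ :=
  ⟨F, F_mono, fun _ => continuous_F.continuousWithinAt⟩

/-- the Gauss measure -/
noncomputable def mu : Measure ℝ := sF.measure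

lemma sF_bot : Tendsto sF atBot (𝓝 0) :=
  tendsto_const_nhds.congr' (by
    filter_upwards [eventually_le_atBot 0] with t ht using (F_neg ht).symm)

lemma sF_top : Tendsto sF atTop (𝓝 1) :=
  tendsto_const_nhds.congr' (by
    filter_upwards [eventually_ge_atTop 1] with t ht using (F_big ht).symm)

instance : IsProbabilityMeasure mu := sF.isProbabilityMeasure sF_bot sF_top

lemma leftLim_sF (t : ℝ) : Function.leftLim sF t = F t :=
  ContinuousWithinAt.leftLim_eq (f := F) continuous_F.continuousWithinAt

lemma mu_Iio (t : ℝ) : mu (Iio t) = ENNReal.ofReal (F t) := by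
  unfold mu; rw [sF.measure_Iio sF_bot, leftLim_sF, sub_zero]

lemma mu_Ioc (a b : ℝ) : mu (Ioc a b) = ENNReal.ofReal (F b - F a) := sF.measure_Ioc a b

lemma mu_singleton (a : ℝ) : mu {a} = 0 := by
  unfold mu; rw [sF.measure_singleton, leftLim_sF]
  change ENNReal.ofReal (F a - F a) = 0
  simp

lemma measurable_G : Measurable G := by
  unfold G
  exact measurable_fract.comp (measurable_const.div measurable_id)

lemma mu_compl : mu (Ioc 0 1)ᶜ = 0 := by
  rw [prob_compl_eq_zero_iff measurableSet_Ioc, mu_Ioc, F_big le_rfl, F_neg le_rfl]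
  simp

lemma hasSum_F (t : ℝ) (h0 : 0 ≤ t) :
    HasSum (fun k : ℕ => F (1 / ((k : ℝ) + 1)) - F (1 / ((k : ℝ) + 1 + t)))
      (Real.log (1 + t) / Real.log 2) := by
  rw [hasSum_iff_tendsto_nat_of_nonneg]
  · have e : ∀ n : ℕ, ∑ k ∈ Finset.range n, (F (1 / ((k : ℝ) + 1)) - F (1 / ((k : ℝ) + 1 + t))) =
        (Real.log (1 + t) - Real.log (1 + t / ((n : ℝ) + 1))) / Real.log 2 := by
      intro n
      induction n with
      | zero => simp
      | succ n ih =>
        have hn : (0 : ℝ) ≤ n := Nat.cast_nonneg _
        rw [Finset.sum_range_succ, ih, F_eq (by positivity), F_eq (by positivity)]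
        · rw [← sub_div, ← add_div]
          congr 1
          push_cast
          have a1 : 1 + t / ((n : ℝ) + 1) = ((n : ℝ) + 1 + t) / ((n : ℝ) + 1) := by field_simp
          have a2 : 1 + 1 / ((n : ℝ) + 1) = ((n : ℝ) + 1 + 1) / ((n : ℝ) + 1) := by field_simp
          have a3 : 1 + 1 / ((n : ℝ) + 1 + t) = ((n : ℝ) + 1 + 1 + t) / ((n : ℝ) + 1 + t) := by
            field_simp; ring
          have a4 : 1 + t / ((n : ℝ) + 1 + 1) = ((n : ℝ) + 1 + 1 + t) / ((n : ℝ) + 1 + 1) := by
            field_simp
          rw [a1, a2, a3, a4, Real.log_div (by positivity) (by positivity),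
            Real.log_div (by positivity) (by positivity),
            Real.log_div (by positivity) (by positivity),
            Real.log_div (by positivity) (by positivity)]
          ring
        · rw [div_le_one (by positivity)]; linarith
        · rw [div_le_one (by positivity)]; linarith
    simp only [e]
    have h1 : Tendsto (fun n : ℕ => 1 + t / ((n : ℝ) + 1)) atTop (𝓝 (1 + 0)) :=
      (tendsto_const_nhds.div_atTop
        (tendsto_atTop_add_const_right _ _ tendsto_natCast_atTop_atTop)).const_add 1
    have h2 := ((h1.log (by norm_num)).const_sub (Real.log (1 + t))).div_const (Real.log 2)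
    simpa using h2
  · intro k
    refine sub_nonneg.2 (F_mono ?_)
    have hn : (0 : ℝ) ≤ k := Nat.cast_nonneg _
    exact one_div_le_one_div_of_le (by positivity) (by linarith)

lemma mu_pre (t : ℝ) : mu (G ⁻¹' Iio t) = mu (Iio t) := by
  rcases le_or_gt t 0 with h0 | h0
  · have : G ⁻¹' Iio t = ∅ := by
      ext y
      simp only [mem_preimage, mem_Iio, mem_empty_iff_false, iff_false, not_lt]
      exact h0.trans (Int.fract_nonneg _)
    rw [this, mu_Iio, F_neg h0]; simp
  rcases le_or_gt 1 t with h1 | h1
  · have : G ⁻¹' Iio t = univ := by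
      ext y
      simp only [mem_preimage, mem_Iio, mem_univ, iff_true]
      exact (Int.fract_lt_one _).trans_le h1
    rw [this, mu_Iio, F_big h1]; simp
  have e1 : mu (G ⁻¹' Iio t) = mu (G ⁻¹' Iio t ∩ Ioc 0 1) :=
    (measure_inter_conull mu_compl).symm
  have e2 : G ⁻¹' Iio t ∩ Ioc 0 1 = ⋃ k : ℕ, Ioc (1 / ((k : ℝ) + 1 + t)) (1 / ((k : ℝ) + 1)) := by
    ext y
    simp only [mem_inter_iff, mem_preimage, mem_Iio, mem_Ioc, mem_iUnion, G]
    constructor
    · rintro ⟨a1, a2, a3⟩
      have b1 : 1 ≤ 1 / y := by rw [le_div_iff₀ a2]; linarith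
      have b2 : 1 ≤ ⌊1 / y⌋ := Int.le_floor.2 (by simpa using b1)
      obtain ⟨k, hk⟩ : ∃ k : ℕ, ⌊1 / y⌋ = k + 1 := ⟨(⌊1 / y⌋ - 1).toNat, by omega⟩
      have b3 := Int.floor_le (1 / y)
      rw [Int.fract, hk] at a1
      rw [hk] at b3
      push_cast at a1 b3
      have hn : (0 : ℝ) ≤ k := Nat.cast_nonneg _
      refine ⟨k, ?_, ?_⟩
      · rw [one_div_lt (by positivity) a2]; linarith
      · rw [le_one_div a2 (by positivity)]; exact b3
    · rintro ⟨k, a1, a2⟩
      have hn : (0 : ℝ) ≤ k := Nat.cast_nonneg _
      have b0 : 0 < y := lt_trans (by positivity) a1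
      rw [one_div_lt (by positivity) b0] at a1
      have a3 := a2
      rw [le_one_div b0 (by positivity)] at a2
      have b1 : ⌊1 / y⌋ = k + 1 := by
        rw [Int.floor_eq_iff]; push_cast; constructor <;> linarith
      refine ⟨?_, b0, a3.trans ?_⟩
      · rw [Int.fract, b1]; push_cast; linarith
      · rw [div_le_one (by positivity)]; linarith
  rw [e1, e2, measure_iUnion _ fun _ => measurableSet_Ioc, mu_Iio, F_eq h0.le h1.le]
  · simp only [mu_Ioc]
    rw [← ENNReal.ofReal_tsum_of_nonneg _ (hasSum_F t h0.le).summable, (hasSum_F t h0.le).tsum_eq]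
    intro k
    refine sub_nonneg.2 (F_mono ?_)
    have hn : (0 : ℝ) ≤ k := Nat.cast_nonneg _
    exact one_div_le_one_div_of_le (by positivity) (by linarith)
  · rw [pairwise_disjoint_on]
    intro i j hij
    rw [Ioc_disjoint_Ioc]
    have hi : (0 : ℝ) ≤ i := Nat.cast_nonneg _
    have h2 : (i : ℝ) + 1 ≤ j := by exact_mod_cast hij
    refine (min_le_right _ _).trans (le_trans ?_ (le_max_left _ _))
    exact one_div_le_one_div_of_le (by positivity) (by linarith)

lemma mp_G : MeasurePreserving G mu mu := by
  refine ⟨measurable_G, ?_⟩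
  have := Measure.isProbabilityMeasure_map (μ := mu) measurable_G.aemeasurable
  apply Measure.ext_of_Ici
  intro a
  rw [← compl_Iio, prob_compl_eq_one_sub measurableSet_Iio, prob_compl_eq_one_sub measurableSet_Iio,
    Measure.map_apply measurable_G measurableSet_Iio, mu_pre]

/-- centred indicator -/
noncomputable def ind (t y : ℝ) : ℝ := (if y < t then 1 else 0) - F t

lemma abs_ind (t y : ℝ) : |ind t y| ≤ 1 := by
  unfold ind
  have := F_nonneg t
  have := F_le_one t
  rw [abs_le]
  split_ifs <;> constructor <;> linarith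

lemma measurable_ind (t : ℝ) : Measurable (ind t) :=
  (Measurable.ite measurableSet_Iio measurable_const measurable_const).sub measurable_const

lemma integrable_ind (t : ℝ) (l : ℕ) : Integrable (fun y => ind t (G^[l] y)) mu :=
  Integrable.of_bound ((measurable_ind t).comp (measurable_G.iterate l)).aestronglyMeasurable 1
    (Eventually.of_forall fun y => abs_ind _ _)

lemma integral_ind (t : ℝ) (l : ℕ) : ∫ y, ind t (G^[l] y) ∂mu = 0 := by
  rw [← integral_map (measurable_G.iterate l).aemeasurable
    (measurable_ind t).aestronglyMeasurable, (mp_G.iterate l).map_eq]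
  have e : ind t = fun y => (Iio t).indicator (fun _ => (1 : ℝ)) y - F t := by
    funext y; simp [ind, indicator]
  rw [e, integral_sub ((integrable_const _).indicator measurableSet_Iio) (integrable_const _),
    integral_indicator measurableSet_Iio]
  simp [Measure.real, mu_Iio, F_nonneg]

lemma exists_start (t c : ℕ → ℝ) (J L : ℕ) : ∃ y, Irrational y ∧ 0 < y ∧ y < 1 ∧
    ∑ j ∈ Finset.range J, c j * ∑ l ∈ Finset.range L, ind (t j) (G^[l] y) ≤ 0 := by
  have hN : mu ((Ioc 0 1)ᶜ ∪ range ((↑) : ℚ → ℝ)) = 0 := by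
    refine measure_union_null mu_compl ?_
    rw [← biUnion_of_singleton (range ((↑) : ℚ → ℝ))]
    exact (measure_biUnion_null_iff (countable_range _)).2 fun a _ => mu_singleton a
  obtain ⟨y, hy, h⟩ := exists_notMem_null_le_integral (μ := mu)
    (f := fun y => ∑ j ∈ Finset.range J, c j * ∑ l ∈ Finset.range L, ind (t j) (G^[l] y))
    (integrable_finsetSum _ fun j _ =>
      (integrable_finsetSum _ fun l _ => integrable_ind _ _).const_mul _) hN
  rw [integral_finsetSum _ fun j _ =>
      (integrable_finsetSum _ fun l _ => integrable_ind _ _).const_mul _] at h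
  simp only [integral_const_mul, integral_finsetSum _ fun l _ => integrable_ind _ l,
    integral_ind, Finset.sum_const_zero, mul_zero] at h
  simp only [mem_union, mem_compl_iff, not_or, not_not, mem_Ioc] at hy
  refine ⟨y, hy.2, hy.1.1, lt_of_le_of_ne hy.1.2 ?_, h⟩
  rintro rfl
  exact hy.2 ⟨1, by simp⟩

end Pool.Agent.H234Z.CF
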