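import Pool.Agent.H234Z.CF1

/-! An equidistributed pseudo-orbit of the Gauss map with rare jumps. -/

set_option autoImplicit false

open Filter Topology Set

namespace Pool.Agent.H234Z.CF

lemma G_irr {y : ℝ} (h : Irrational y) : Irrational (G y) ∧ 0 < G y ∧ G y < 1 := by
  have h1 : Irrational (G y) := by
    unfold G
    rw [Int.fract, one_div]
    exact h.inv.sub_intCast _
  refine ⟨h1, lt_of_le_of_ne (Int.fract_nonneg _) ?_, Int.fract_lt_one _⟩
  intro e
  exact h1.ne_zero e.symm

lemma iter_irr {y : ℝ} (h : Irrational y ∧ 0 < y ∧ y < 1) (l : ℕ) :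
    Irrational (G^[l] y) ∧ 0 < G^[l] y ∧ G^[l] y < 1 := by
  induction l with
  | zero => exact h
  | succ l ih => rw [Function.iterate_succ_apply']; exact G_irr ih.1

lemma exists_blocks (t : ℕ → ℝ) : ∃ y : ℕ → ℝ, (∀ i, Irrational (y i) ∧ 0 < y i ∧ y i < 1) ∧
    ∀ j, Tendsto (fun m : ℕ =>
      (∑ i ∈ Finset.range m, ∑ l ∈ Finset.range (i + 1), ind (t j) (G^[l] (y i))) / (m : ℝ) ^ 2)
      atTop (𝓝 0) := by
  choose Y hY1 hY2 hY3 hY4 using fun (m : ℕ) (s : ℕ → ℝ) =>
    exists_start t (fun j => (1 / 2) ^ j * s j) (m + 1) (m + 1)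
  let X : ℕ → ℕ → ℝ → ℝ := fun i j y => ∑ l ∈ Finset.range (i + 1), ind (t j) (G^[l] y)
  have hX : ∀ i j y, |X i j y| ≤ i + 1 := by
    intro i j y
    refine (Finset.abs_sum_le_sum_abs _ _).trans ?_
    refine (Finset.sum_le_sum fun l _ => abs_ind _ _).trans ?_
    simp
  let S : ℕ → ℕ → ℝ := fun m => Nat.rec (fun _ => 0)
    (fun m s j => s j + if j ≤ m then X m j (Y m s) else 0) m
  have hS0 : ∀ j, S 0 j = 0 := fun _ => rfl
  have hS1 : ∀ m j, S (m + 1) j = S m j + if j ≤ m then X m j (Y m (S m)) else 0 := fun _ _ => rfl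
  have hz : ∀ m j, m ≤ j → S m j = 0 := by
    intro m
    induction m with
    | zero => intro j _; rfl
    | succ m ih => intro j hj; rw [hS1, ih j (by omega), if_neg (by omega), add_zero]
  have hΦ : ∀ m : ℕ, ∑ j ∈ Finset.range m, (1 / 2 : ℝ) ^ j * S m j ^ 2 ≤ 2 * (m : ℝ) ^ 3 := by
    intro m
    induction m with
    | zero => simp
    | succ m ih =>
      have e : ∑ j ∈ Finset.range (m + 1), (1 / 2 : ℝ) ^ j * S (m + 1) j ^ 2 =
          ∑ j ∈ Finset.range (m + 1), (1 / 2 : ℝ) ^ j * S m j ^ 2 +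
          2 * ∑ j ∈ Finset.range (m + 1), (1 / 2 : ℝ) ^ j * S m j * X m j (Y m (S m)) +
          ∑ j ∈ Finset.range (m + 1), (1 / 2 : ℝ) ^ j * X m j (Y m (S m)) ^ 2 := by
        rw [Finset.mul_sum, ← Finset.sum_add_distrib, ← Finset.sum_add_distrib]
        refine Finset.sum_congr rfl fun j hj => ?_
        rw [hS1, if_pos (by have := Finset.mem_range.1 hj; omega)]
        ring
      have h1 : ∑ j ∈ Finset.range (m + 1), (1 / 2 : ℝ) ^ j * X m j (Y m (S m)) ^ 2 ≤
          2 * ((m : ℝ) + 1) ^ 2 := by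
        have : ∀ j ∈ Finset.range (m + 1), (1 / 2 : ℝ) ^ j * X m j (Y m (S m)) ^ 2 ≤
            (1 / 2 : ℝ) ^ j * ((m : ℝ) + 1) ^ 2 := by
          intro j _
          gcongr ?_ * ?_
          rw [← sq_abs]
          gcongr
          exact hX _ _ _
        refine (Finset.sum_le_sum this).trans ?_
        rw [← Finset.sum_mul]
        gcongr
        exact sum_geometric_two_le _
      have h2 := hY4 m (S m)
      rw [e, Finset.sum_range_succ (fun j => (1 / 2 : ℝ) ^ j * S m j ^ 2), hz m m le_rfl]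
      push_cast
      have : (0 : ℝ) ≤ m := Nat.cast_nonneg _
      nlinarith
  refine ⟨fun m => Y m (S m), fun i => ⟨hY1 _ _, hY2 _ _, hY3 _ _⟩, fun j => ?_⟩
  have hsum : ∀ m, ∑ i ∈ Finset.range (j + m), X i j (Y i (S i)) =
      ∑ i ∈ Finset.range j, X i j (Y i (S i)) + S (j + m) j := by
    intro m
    induction m with
    | zero => simp [hz j j le_rfl]
    | succ m ih =>
      rw [← add_assoc, Finset.sum_range_succ, ih, hS1, if_pos (by omega), add_assoc]
  set C := ∑ i ∈ Finset.range j, X i j (Y i (S i))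
  have h1 : Tendsto (fun m : ℕ => C / (m : ℝ) ^ 2) atTop (𝓝 0) :=
    tendsto_const_nhds.div_atTop ((tendsto_pow_atTop two_ne_zero).comp tendsto_natCast_atTop_atTop)
  have h2 : Tendsto (fun m : ℕ => S m j / (m : ℝ) ^ 2) atTop (𝓝 0) := by
    have h3 : Tendsto (fun m : ℕ => √((2 * 2 ^ j : ℝ) / m)) atTop (𝓝 0) := by
      have := (tendsto_const_div_atTop_nhds_zero_nat (2 * 2 ^ j : ℝ)).sqrt
      rwa [Real.sqrt_zero] at this
    refine squeeze_zero_norm' ?_ h3
    filter_upwards [eventually_gt_atTop j] with m hm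
    have hm0 : (0 : ℝ) < m := by exact_mod_cast (by omega : 0 < m)
    apply Real.le_sqrt_of_sq_le
    rw [Real.norm_eq_abs, sq_abs, div_pow, div_le_div_iff₀ (by positivity) hm0]
    have h4 := (Finset.single_le_sum (f := fun j => (1 / 2 : ℝ) ^ j * S m j ^ 2)
      (fun _ _ => by positivity) (Finset.mem_range.2 hm)).trans (hΦ m)
    have h5 : S m j ^ 2 ≤ 2 ^ j * (2 * (m : ℝ) ^ 3) := by
      rw [one_div_pow, one_div_mul_eq_div, div_le_iff₀ (by positivity)] at h4
      linarith
    nlinarith
  have h3 := h1.add h2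
  rw [add_zero] at h3
  refine h3.congr' ?_
  filter_upwards [eventually_ge_atTop j] with m hm
  obtain ⟨m, rfl⟩ := Nat.exists_eq_add_of_le hm
  rw [← add_div, ← hsum]

/-- position in the triangular array -/
def pos : ℕ → ℕ × ℕ
  | 0 => (0, 0)
  | n + 1 => if (pos n).2 < (pos n).1 then ((pos n).1, (pos n).2 + 1) else ((pos n).1 + 1, 0)

lemma pos_le (n : ℕ) : (pos n).2 ≤ (pos n).1 := by
  induction n with
  | zero => simp [pos]
  | succ n ih => rw [pos]; split_ifs with h <;> simp; omega

lemma sum_pos (f : ℕ → ℕ → ℝ) (N : ℕ) : ∑ n ∈ Finset.range N, f (pos n).1 (pos n).2 =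
    ∑ i ∈ Finset.range (pos N).1, ∑ l ∈ Finset.range (i + 1), f i l +
      ∑ l ∈ Finset.range (pos N).2, f (pos N).1 l := by
  induction N with
  | zero => simp [pos]
  | succ n ih =>
    rw [Finset.sum_range_succ, ih, pos]
    split_ifs with h
    · simp only [Finset.sum_range_succ (fun l => f (pos n).1 l) (pos n).2]
      ring
    · have : (pos n).2 = (pos n).1 := by have := pos_le n; omega
      simp only [Finset.range_zero, Finset.sum_empty, add_zero]
      rw [Finset.sum_range_succ _ (pos n).1, Finset.sum_range_succ _ (pos n).1, this]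
      ring

lemma pos_eq (n : ℕ) : 2 * n = (pos n).1 * ((pos n).1 + 1) + 2 * (pos n).2 := by
  induction n with
  | zero => simp [pos]
  | succ n ih =>
    rw [pos]
    split_ifs with h
    · simp only; omega
    · have : (pos n).2 = (pos n).1 := by have := pos_le n; omega
      simp only
      rw [this] at ih
      nlinarith

lemma pos_tendsto : Tendsto (fun n => (pos n).1) atTop atTop := by
  rw [tendsto_atTop]
  intro k
  filter_upwards [eventually_ge_atTop ((k + 2) * (k + 2))] with n hn
  by_contra hc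
  have h1 := pos_eq n
  have h2 := pos_le n
  have h3 : (pos n).1 * ((pos n).1 + 1) ≤ k * (k + 1) := Nat.mul_le_mul (by omega) (by omega)
  nlinarith

lemma pos_small : Tendsto (fun n : ℕ => (((pos n).1 : ℝ) + 1) / n) atTop (𝓝 0) := by
  refine squeeze_zero' (Eventually.of_forall fun n => by positivity) ?_
    ((tendsto_const_div_atTop_nhds_zero_nat (2 : ℝ)).comp pos_tendsto)
  filter_upwards [pos_tendsto.eventually_gt_atTop 0, eventually_gt_atTop 0] with n h1 h2
  have a1 : (0 : ℝ) < (pos n).1 := by exact_mod_cast h1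
  have a2 : (0 : ℝ) < n := by exact_mod_cast h2
  simp only [Function.comp]
  rw [div_le_div_iff₀ a2 a1]
  have : (pos n).1 * ((pos n).1 + 1) ≤ 2 * n := by have := pos_eq n; omega
  have h3 : ((pos n).1 : ℝ) * ((pos n).1 + 1) ≤ 2 * n := by exact_mod_cast this
  linarith

theorem exists_pseudo : ∃ (g : ℕ → ℝ) (S : ℕ → Prop) (_ : DecidablePred S),
    (∀ n, Irrational (g n) ∧ 0 < g n ∧ g n < 1) ∧ (∀ n, ¬ S n → g (n + 1) = G (g n)) ∧
    (∀ q : ℚ, Tendsto (fun N : ℕ => (∑ n ∈ Finset.range N, ind q (g n)) / N) atTop (𝓝 0)) ∧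
    Tendsto (fun N : ℕ => (((Finset.range N).filter S).card : ℝ) / N) atTop (𝓝 0) ∧
    ∀ k, ∃ n, k ≤ n ∧ S n := by
  obtain ⟨en, hen⟩ := exists_surjective_nat ℚ
  obtain ⟨y, hy, hb⟩ := exists_blocks fun j => (en j : ℝ)
  have hcard : ∀ N, (((Finset.range N).filter fun n => (pos n).2 = (pos n).1).card : ℝ) =
      (pos N).1 := by
    intro N
    have := sum_pos (fun i l => if l = i then 1 else 0) N
    rw [Finset.card_filter]
    push_cast
    rw [this]
    have h1 : ∑ l ∈ Finset.range (pos N).2, (if l = (pos N).1 then (1 : ℝ) else 0) = 0 := by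
      refine Finset.sum_eq_zero fun l hl => if_neg ?_
      have := Finset.mem_range.1 hl
      have := pos_le N
      omega
    rw [h1]
    simp
  refine ⟨fun n => G^[(pos n).2] (y (pos n).1), fun n => (pos n).2 = (pos n).1, inferInstance,
    fun n => iter_irr (hy _) _, fun n hn => ?_, fun q => ?_, ?_, fun k => ?_⟩
  · have : (pos n).2 < (pos n).1 := lt_of_le_of_ne (pos_le n) hn
    simp only [pos, if_pos this, Function.iterate_succ_apply']
  · obtain ⟨j0, rfl⟩ := hen q
    have h1 := hb j0
    set q := en j0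
    have h2 := ((h1.comp pos_tendsto).abs.const_mul 2).add pos_small
    simp only [abs_zero, mul_zero, add_zero] at h2
    refine squeeze_zero_norm' ?_ h2
    filter_upwards [pos_tendsto.eventually_gt_atTop 0, eventually_gt_atTop 0] with n h3 h4
    have a1 : (0 : ℝ) < (pos n).1 := by exact_mod_cast h3
    have a2 : (0 : ℝ) < n := by exact_mod_cast h4
    have h5 := sum_pos (fun i l => ind q (G^[l] (y i))) n
    simp only [Function.comp]
    rw [h5, add_div]
    refine (norm_add_le _ _).trans (add_le_add ?_ ?_)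
    · rw [Real.norm_eq_abs, abs_div, abs_div, abs_of_pos a2, abs_of_pos (pow_pos a1 2),
        ← mul_div_assoc, div_le_div_iff₀ a2 (pow_pos a1 2)]
      have : (pos n).1 * ((pos n).1 + 1) ≤ 2 * n := by have := pos_eq n; omega
      have h6 : ((pos n).1 : ℝ) * ((pos n).1 + 1) ≤ 2 * n := by exact_mod_cast this
      have h7 : ((pos n).1 : ℝ) ^ 2 ≤ 2 * n := by nlinarith
      have h8 := abs_nonneg (∑ i ∈ Finset.range (pos n).1, ∑ l ∈ Finset.range (i + 1),
        ind q (G^[l] (y i)))
      nlinarith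
    · rw [Real.norm_eq_abs, abs_div, abs_of_pos a2]
      gcongr
      refine (Finset.abs_sum_le_sum_abs _ _).trans ?_
      refine (Finset.sum_le_sum fun l _ => abs_ind _ _).trans ?_
      have : ((pos n).2 : ℝ) ≤ (pos n).1 := by exact_mod_cast pos_le n
      simp only [Finset.sum_const, Finset.card_range, nsmul_eq_mul, mul_one]
      linarith
  · refine squeeze_zero (fun n => by positivity) (fun n => ?_) pos_small
    rw [hcard]
    gcongr
    linarith
  · by_contra hc
    push Not at hc
    obtain ⟨N, hN⟩ := (pos_tendsto.eventually_gt_atTop k).exists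
    have h1 : ((Finset.range N).filter fun n => (pos n).2 = (pos n).1).card ≤ k := by
      refine le_trans (Finset.card_le_card (t := Finset.range k) ?_) (by simp)
      intro n hn
      rw [Finset.mem_range]
      by_contra h
      exact hc n (not_lt.1 h) (Finset.mem_filter.1 hn).2
    have h2 := hcard N
    have h3 : ((Finset.range N).filter fun n => (pos n).2 = (pos n).1).card = (pos N).1 := by
      exact_mod_cast h2
    omega

end Pool.Agent.H234Z.CF
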