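import Pool.Agent.H234Z.CF2

/-! Continued fractions with given digits; normality is insensitive to rare changes. -/

set_option autoImplicit false

open Filter Topology Set

namespace Pool.Agent.H234Z.CF

lemma exists_fin (M : ℕ) : ∀ d : ℕ → ℕ, (∀ n, 1 ≤ d n) → ∃ h : ℕ → ℝ,
    (∀ n, h n ∈ Icc (0 : ℝ) 1) ∧ ∀ n < M, h n * (d n + h (n + 1)) = 1 := by
  induction M with
  | zero => intro d _; exact ⟨fun _ => 0, fun _ => by simp, fun n hn => by omega⟩
  | succ M ih =>
    intro d hd
    obtain ⟨h, h1, h2⟩ := ih (fun n => d (n + 1)) fun n => hd _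
    have a1 : (1 : ℝ) ≤ d 0 := by exact_mod_cast hd 0
    have a2 := (h1 0).1
    refine ⟨fun n => Nat.casesOn n (1 / (d 0 + h 0)) h, fun n => ?_, fun n hn => ?_⟩
    · cases n with
      | zero =>
        change 1 / (d 0 + h 0) ∈ Icc (0 : ℝ) 1
        exact ⟨by positivity, by rw [div_le_one (by positivity)]; linarith⟩
      | succ n => exact h1 n
    · cases n with
      | zero =>
        change 1 / (d 0 + h 0) * (d 0 + h 0) = 1
        exact one_div_mul_cancel (by positivity)
      | succ n => exact h2 n (by omega)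

lemma exists_cf (d : ℕ → ℕ) (hd : ∀ n, 1 ≤ d n) : ∃ h : ℕ → ℝ,
    ∀ n, 0 < h n ∧ h n < 1 ∧ h n = 1 / (d n + h (n + 1)) := by
  let K : ℕ → Set (ℕ → ℝ) := fun M =>
    (Set.pi univ fun _ => Icc (0 : ℝ) 1) ∩ ⋂ n < M, {h | h n * (d n + h (n + 1)) = 1}
  have hc : IsCompact (Set.pi univ fun _ : ℕ => Icc (0 : ℝ) 1) :=
    isCompact_univ_pi fun _ => isCompact_Icc
  have hcl : ∀ M, IsClosed (K M) := fun M =>
    hc.isClosed.inter (isClosed_iInter fun n => isClosed_iInter fun _ =>
      isClosed_eq (by fun_prop) continuous_const)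
  obtain ⟨h, hh⟩ := IsCompact.nonempty_iInter_of_sequence_nonempty_isCompact_isClosed K
    (fun M x hx => ⟨hx.1, mem_iInter₂.2 fun n hn => mem_iInter₂.1 hx.2 n (by omega)⟩)
    (fun M => by
      obtain ⟨h, h1, h2⟩ := exists_fin M d hd
      exact ⟨h, fun n _ => h1 n, mem_iInter₂.2 h2⟩)
    (hc.of_isClosed_subset (hcl 0) inter_subset_left) hcl
  rw [mem_iInter] at hh
  have h1 : ∀ n, h n ∈ Icc (0 : ℝ) 1 := fun n => (hh 0).1 n trivial
  have h2 : ∀ n, h n * (d n + h (n + 1)) = 1 := fun n => mem_iInter₂.1 (hh (n + 1)).2 n (by omega)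
  have h3 : ∀ n, 0 < h n := fun n => lt_of_le_of_ne (h1 n).1 fun e => by
    have := h2 n
    rw [← e] at this
    simp at this
  refine ⟨h, fun n => ⟨h3 n, ?_, ?_⟩⟩
  · have a1 : (1 : ℝ) ≤ d n := by exact_mod_cast hd n
    nlinarith [h2 n, h3 n, h3 (n + 1)]
  · have a1 : (1 : ℝ) ≤ d n := by exact_mod_cast hd n
    have := h3 (n + 1)
    rw [eq_div_iff (by positivity)]
    exact h2 n

lemma cf_irr (d : ℕ → ℕ) (h : ℕ → ℝ)
    (hh : ∀ n, 0 < h n ∧ h n < 1 ∧ h n = 1 / (d n + h (n + 1))) : Irrational (h 0) := by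
  have key : ∀ p : ℕ, ∀ (n : ℕ) (q : ℤ), 0 < q → h n * q ≠ p := by
    intro p
    induction p using Nat.strong_induction_on with
    | _ p ih =>
      intro n q hq e
      have hq' : (0 : ℝ) < q := by exact_mod_cast hq
      obtain ⟨a1, -, a3⟩ := hh n
      obtain ⟨b1, b2, -⟩ := hh (n + 1)
      have hp : (0 : ℝ) < p := by rw [← e]; positivity
      have a4 : h n * (d n + h (n + 1)) = 1 := by
        rw [eq_div_iff (by positivity)] at a3; exact a3
      have a5 : h (n + 1) * p = ((q - d n * p : ℤ) : ℝ) := by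
        push_cast
        rw [← e]
        linear_combination (q : ℝ) * a4
      have a6 : 0 < q - d n * p := by
        have : (0 : ℝ) < ((q - d n * p : ℤ) : ℝ) := by rw [← a5]; positivity
        exact_mod_cast this
      have a7 : q - d n * p < p := by
        have : ((q - d n * p : ℤ) : ℝ) < ((p : ℤ) : ℝ) := by
          rw [← a5]; push_cast; nlinarith
        exact_mod_cast this
      refine ih (q - d n * p).toNat (by omega) (n + 1) p (by exact_mod_cast hp) ?_
      have a8 : (((q - d n * p).toNat : ℤ) : ℝ) = ((q - d n * p : ℤ) : ℝ) := by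
        rw [Int.toNat_of_nonneg a6.le]
      rw [Int.cast_natCast] at a8 ⊢
      rw [a5, a8]
  rintro ⟨x, hx⟩
  have h0 : 0 < x := by have := (hh 0).1; rw [← hx] at this; exact_mod_cast this
  refine key x.num.toNat 0 x.den (by exact_mod_cast x.den_pos) ?_
  have a8 : ((x.num.toNat : ℤ) : ℝ) = (x.num : ℝ) := by
    rw [Int.toNat_of_nonneg (Rat.num_nonneg.2 h0.le)]
  rw [Int.cast_natCast] at a8 ⊢
  rw [a8, ← hx]
  exact_mod_cast Rat.mul_den_eq_num x

lemma G_step (a : ℕ) (v : ℝ) (h0 : 0 ≤ v) (h1 : v < 1) : G (1 / (a + v)) = v := by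
  unfold G
  rw [one_div_one_div, Int.fract_natCast_add, Int.fract_eq_self.2 ⟨h0, h1⟩]

lemma G_rec {y : ℝ} (h0 : 0 < y) (h1 : y < 1) : 1 ≤ ⌊1 / y⌋₊ ∧ y = 1 / (⌊1 / y⌋₊ + G y) := by
  have a1 : 1 ≤ 1 / y := by rw [le_div_iff₀ h0]; linarith
  refine ⟨Nat.le_floor (by simpa using a1), ?_⟩
  unfold G
  rw [natCast_floor_eq_intCast_floor (by linarith), Int.floor_add_fract, one_div_one_div]

lemma cf_orbit (d : ℕ → ℕ) (h : ℕ → ℝ)
    (hh : ∀ n, 0 < h n ∧ h n < 1 ∧ h n = 1 / (d n + h (n + 1))) (n : ℕ) : G^[n] (h 0) = h n := by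
  induction n with
  | zero => rfl
  | succ n ih =>
    rw [Function.iterate_succ_apply', ih, (hh n).2.2]
    exact G_step _ _ (hh _).1.le (hh _).2.1

lemma two_step (a b u v : ℝ) (ha : 1 ≤ a) (hb : 1 ≤ b) (hu : 0 ≤ u) (hv : 0 ≤ v) :
    |1 / (a + 1 / (b + u)) - 1 / (a + 1 / (b + v))| ≤ 1 / 4 * |u - v| := by
  have e : 1 / (a + 1 / (b + u)) - 1 / (a + 1 / (b + v)) =
      (u - v) / ((a * (b + u) + 1) * (a * (b + v) + 1)) := by
    field_simp; ring
  have h1 : 2 ≤ a * (b + u) + 1 := by nlinarith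
  have h2 : 2 ≤ a * (b + v) + 1 := by nlinarith
  rw [e, abs_div, abs_of_pos (a := (a * (b + u) + 1) * (a * (b + v) + 1)) (by positivity),
    div_le_iff₀ (by positivity)]
  have h3 : 4 ≤ (a * (b + u) + 1) * (a * (b + v) + 1) := by nlinarith
  nlinarith [abs_nonneg (u - v)]

lemma close (d : ℕ → ℕ) (hd : ∀ n, 1 ≤ d n) (h g : ℕ → ℝ) (S : ℕ → Prop)
    (hh : ∀ n, 0 < h n ∧ h n < 1 ∧ h n = 1 / (d n + h (n + 1)))
    (hg : ∀ n, 0 < g n ∧ g n < 1) (hS : ∀ n, ¬ S n → g n = 1 / (d n + g (n + 1))) (R : ℕ) :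
    ∀ n, (∀ j < 2 * R, ¬ S (n + j)) → |h n - g n| ≤ (1 / 4) ^ R := by
  induction R with
  | zero =>
    intro n _
    rw [pow_zero, abs_le]
    constructor <;> linarith [(hh n).1, (hh n).2.1, (hg n).1, (hg n).2]
  | succ R ih =>
    intro n hn
    have h1 := ih (n + 1 + 1) fun j hj => by
      rw [show n + 1 + 1 + j = n + (j + 2) by ring]; exact hn _ (by omega)
    rw [(hh n).2.2, (hh (n + 1)).2.2, hS n (hn 0 (by omega)), hS (n + 1) (hn 1 (by omega))]
    refine (two_step _ _ _ _ (by exact_mod_cast hd _) (by exact_mod_cast hd _) (hh _).1.le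
      (hg _).1.le).trans ?_
    rw [pow_succ]
    linarith

lemma card_shift (S : ℕ → Prop) [DecidablePred S] (N j : ℕ) :
    ∑ n ∈ Finset.range N, (if S (n + j) then (1 : ℝ) else 0) ≤
      (((Finset.range N).filter S).card : ℝ) + j := by
  have h1 : ∑ n ∈ Finset.range N, (if S (n + j) then (1 : ℝ) else 0) ≤
      ∑ n ∈ Finset.range (j + N), (if S n then (1 : ℝ) else 0) := by
    rw [Finset.sum_range_add]
    have : 0 ≤ ∑ n ∈ Finset.range j, (if S n then (1 : ℝ) else 0) :=
      Finset.sum_nonneg fun _ _ => by split_ifs <;> norm_num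
    simp only [add_comm j]
    linarith
  refine h1.trans ?_
  rw [add_comm j N, Finset.sum_range_add, Finset.card_filter]
  push_cast
  gcongr
  refine (Finset.sum_le_sum (g := fun _ => (1 : ℝ)) fun _ _ => by split_ifs <;> norm_num).trans ?_
  simp

theorem transfer (h g : ℕ → ℝ) (S : ℕ → Prop) [DecidablePred S]
    (hc : ∀ R n, (∀ j < 2 * R, ¬ S (n + j)) → |h n - g n| ≤ (1 / 4) ^ R)
    (hq : ∀ q : ℚ, Tendsto (fun N : ℕ => (∑ n ∈ Finset.range N, ind q (g n)) / N) atTop (𝓝 0))
    (hS : Tendsto (fun N : ℕ => (((Finset.range N).filter S).card : ℝ) / N) atTop (𝓝 0)) (t : ℝ) :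
    Tendsto (fun N : ℕ => (((Finset.range N).filter fun n => h n < t).card : ℝ) / N) atTop
      (𝓝 (F t)) := by
  let bad : ℕ → ℕ → ℝ := fun R n => ∑ j ∈ Finset.range (2 * R), if S (n + j) then (1 : ℝ) else 0
  have hb0 : ∀ R n, 0 ≤ bad R n := fun R n =>
    Finset.sum_nonneg fun _ _ => by split_ifs <;> norm_num
  have hb1 : ∀ R n, (1 / 4) ^ R < |h n - g n| → 1 ≤ bad R n := by
    intro R n hn
    by_contra hcon
    refine absurd (hc R n fun j hj hs => hcon ?_) (not_le.2 hn)
    have := Finset.single_le_sum (f := fun j => if S (n + j) then (1 : ℝ) else 0)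
      (fun _ _ => by split_ifs <;> norm_num) (Finset.mem_range.2 hj)
    simpa only [if_pos hs] using this
  have hb2 : ∀ R, Tendsto (fun N : ℕ => (∑ n ∈ Finset.range N, bad R n) / N) atTop (𝓝 0) := by
    intro R
    have h1 : Tendsto (fun N : ℕ => ∑ j ∈ Finset.range (2 * R),
        ((((Finset.range N).filter S).card : ℝ) / N + (j : ℝ) / N)) atTop
        (𝓝 (∑ _j ∈ Finset.range (2 * R), (0 + 0))) :=
      tendsto_finsetSum _ fun j _ => hS.add (tendsto_const_div_atTop_nhds_zero_nat _)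
    simp only [add_zero, Finset.sum_const_zero] at h1
    refine squeeze_zero (fun N => div_nonneg (Finset.sum_nonneg fun _ _ => hb0 _ _)
      (Nat.cast_nonneg _)) (fun N => ?_) h1
    simp only [bad]
    rw [Finset.sum_comm, Finset.sum_div]
    refine Finset.sum_le_sum fun j _ => ?_
    rw [← add_div]
    gcongr
    exact card_shift S N j
  have hcard : ∀ N, (((Finset.range N).filter fun n => h n < t).card : ℝ) =
      ∑ n ∈ Finset.range N, if h n < t then (1 : ℝ) else 0 := by
    intro N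
    rw [Finset.card_filter]; push_cast; rfl
  rw [tendsto_order]
  constructor
  · intro a ha
    obtain ⟨δ, hδ, h1⟩ := Metric.continuous_iff.1 continuous_F t (F t - a) (by linarith)
    obtain ⟨q, q1, q2⟩ := exists_rat_btwn (show t - δ < t by linarith)
    have h2 := h1 q (by rw [Real.dist_eq, abs_lt]; constructor <;> linarith)
    rw [Real.dist_eq, abs_lt] at h2
    obtain ⟨R, hR⟩ := exists_pow_lt_of_lt_one (show 0 < t - q by linarith)
      (show (1 / 4 : ℝ) < 1 by norm_num)
    have h3 := ((hq q).sub (hb2 R)).add_const (F q)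
    filter_upwards [h3.eventually_const_lt (show a < 0 - 0 + F q by linarith),
      eventually_gt_atTop 0] with N hN h0
    refine hN.trans_le ?_
    have a2 : (0 : ℝ) < N := by exact_mod_cast h0
    have e : F q = (∑ _n ∈ Finset.range N, F q) / N := by
      simp only [Finset.sum_const, Finset.card_range, nsmul_eq_mul]; field_simp
    rw [e, ← sub_div, ← add_div, ← Finset.sum_sub_distrib, ← Finset.sum_add_distrib, hcard]
    gcongr with n _
    unfold ind
    have := hb0 R n
    split_ifs with c1 c2 c2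
    · linarith
    · have := hb1 R n (by rw [lt_abs]; left; linarith)
      linarith
    · linarith
    · linarith
  · intro a ha
    obtain ⟨δ, hδ, h1⟩ := Metric.continuous_iff.1 continuous_F t (a - F t) (by linarith)
    obtain ⟨q, q1, q2⟩ := exists_rat_btwn (show t < t + δ by linarith)
    have h2 := h1 q (by rw [Real.dist_eq, abs_lt]; constructor <;> linarith)
    rw [Real.dist_eq, abs_lt] at h2
    obtain ⟨R, hR⟩ := exists_pow_lt_of_lt_one (show 0 < q - t by linarith)
      (show (1 / 4 : ℝ) < 1 by norm_num)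
    have h3 := ((hq q).add (hb2 R)).add_const (F q)
    filter_upwards [h3.eventually_lt_const (show 0 + 0 + F q < a by linarith),
      eventually_gt_atTop 0] with N hN h0
    refine lt_of_le_of_lt ?_ hN
    have a2 : (0 : ℝ) < N := by exact_mod_cast h0
    have e : F q = (∑ _n ∈ Finset.range N, F q) / N := by
      simp only [Finset.sum_const, Finset.card_range, nsmul_eq_mul]; field_simp
    rw [e, ← add_div, ← add_div, ← Finset.sum_add_distrib, ← Finset.sum_add_distrib, hcard]
    gcongr with n _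
    unfold ind
    have := hb0 R n
    split_ifs with c1 c2 c2
    · linarith
    · have := hb1 R n (by rw [lt_abs]; right; linarith)
      linarith
    · linarith
    · linarith

end Pool.Agent.H234Z.CF
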