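import Pool.Agent.H234Z.CF3

/-! Steering an irrational affine image by one giant partial quotient. -/

set_option autoImplicit false

open Filter Topology Set

namespace Pool.Agent.H234Z.CF

/-- the value of the continued fraction with first digits `e 0, ..., e (M-1)` and tail `t` -/
noncomputable def psi (e : ℕ → ℕ) : ℕ → ℝ → ℝ
  | 0, t => t
  | M + 1, t => psi e M (1 / (e M + t))

/-- consecutive denominators -/
noncomputable def den (e : ℕ → ℕ) : ℕ → ℝ × ℝ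
  | 0 => (1, 0)
  | M + 1 => (e M * (den e M).1 + (den e M).2, (den e M).1)

lemma psi_congr (e e' : ℕ → ℕ) (M : ℕ) (h : ∀ j < M, e j = e' j) : psi e M = psi e' M := by
  induction M with
  | zero => rfl
  | succ M ih =>
    funext t
    rw [psi, psi, ih fun j hj => h j (by omega), h M (by omega)]

variable {e : ℕ → ℕ}

lemma den_bd (he : ∀ n, 1 ≤ e n) (M : ℕ) :
    1 ≤ (den e M).1 ∧ 0 ≤ (den e M).2 ∧ (den e M).2 ≤ (den e M).1 := by
  induction M with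
  | zero => simp [den]
  | succ M ih =>
    have : (1 : ℝ) ≤ e M := by exact_mod_cast he M
    simp only [den]
    refine ⟨by nlinarith, by linarith, by nlinarith⟩

lemma den_grow (he : ∀ n, 1 ≤ e n) (M : ℕ) :
    (8 / 5) ^ M ≤ (den e (M + 1)).1 ∧ (8 / 5) ^ M * (5 / 8) ≤ (den e (M + 1)).2 := by
  induction M with
  | zero =>
    have : (1 : ℝ) ≤ e 0 := by exact_mod_cast he 0
    simp only [den]
    norm_num
    exact he 0
  | succ M ih =>
    have h1 : (1 : ℝ) ≤ e (M + 1) := by exact_mod_cast he (M + 1)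
    have h2 := (den_bd he (M + 1)).1
    have h3 : (0 : ℝ) < (8 / 5) ^ M := by positivity
    rw [den, pow_succ]
    simp only
    constructor <;> nlinarith [ih.1, ih.2]

lemma psi_sub (he : ∀ n, 1 ≤ e n) (M : ℕ) : ∀ s t : ℝ, 0 ≤ s → 0 ≤ t →
    psi e M s - psi e M t = (-1) ^ M * ((s - t) /
      (((den e M).1 + s * (den e M).2) * ((den e M).1 + t * (den e M).2))) := by
  induction M with
  | zero => intro s t _ _; simp [psi, den]
  | succ M ih =>
    intro s t hs ht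
    have h1 : (1 : ℝ) ≤ e M := by exact_mod_cast he M
    obtain ⟨a1, a2, -⟩ := den_bd he M
    rw [psi, psi, ih _ _ (by positivity) (by positivity), den, pow_succ]
    simp only
    field_simp
    ring

lemma psi_cont (he : ∀ n, 1 ≤ e n) (M : ℕ) : ContinuousOn (psi e M) (Ici 0) := by
  induction M with
  | zero => exact continuousOn_id
  | succ M ih =>
    have h1 : (1 : ℝ) ≤ e M := by exact_mod_cast he M
    refine ih.comp (f := fun t => 1 / ((e M : ℝ) + t))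
      (continuousOn_const.div (by fun_prop) fun t ht => ?_) fun t ht => ?_
    · have : 0 ≤ t := ht
      positivity
    · have : 0 ≤ t := ht
      exact mem_Ici.2 (by positivity)

lemma psi_mem (he : ∀ n, 1 ≤ e n) (M : ℕ) : ∀ t, 0 < t → t < 1 →
    0 < psi e M t ∧ psi e M t < 1 ∧ G^[M] (psi e M t) = t := by
  induction M with
  | zero => intro t h0 h1; exact ⟨h0, h1, rfl⟩
  | succ M ih =>
    intro t h0 h1
    have a1 : (1 : ℝ) ≤ e M := by exact_mod_cast he M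
    obtain ⟨b1, b2, b3⟩ := ih (1 / (e M + t)) (by positivity)
      (by rw [div_lt_one (by positivity)]; linarith)
    refine ⟨b1, b2, ?_⟩
    rw [Function.iterate_succ_apply', psi, b3, G_step _ _ h0.le h1]

lemma psi_rat (e : ℕ → ℕ) (M : ℕ) : ∀ x : ℚ, ∃ y : ℚ, psi e M x = y := by
  induction M with
  | zero => intro x; exact ⟨x, rfl⟩
  | succ M ih =>
    intro x
    obtain ⟨y, hy⟩ := ih (1 / (e M + x))
    refine ⟨y, ?_⟩
    rw [psi, ← hy]; push_cast; rfl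

lemma psi_nonneg (e : ℕ → ℕ) (M : ℕ) : ∀ t, 0 ≤ t → 0 ≤ psi e M t := by
  induction M with
  | zero => intro t h; exact h
  | succ M ih => intro t h; exact ih _ (by positivity)

lemma psi_eq (h : ℕ → ℝ) (hh : ∀ n, h n = 1 / (e n + h (n + 1))) (M : ℕ) :
    h 0 = psi e M (h M) := by
  induction M with
  | zero => rfl
  | succ M ih => rw [psi, ← hh, ih]

lemma golden (τ : ℝ) (h0 : τ * τ + τ = 1) (h1 : 61 / 100 < τ) (h2 : τ < 62 / 100) (i : ℕ) :
    ∀ y : ℝ, 3 ^ i * |y - τ| ≤ 1 / 30 → 1 / 2 < G^[i] y := by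
  induction i with
  | zero =>
    intro y hy
    rw [pow_zero, one_mul, abs_le] at hy
    change 1 / 2 < y
    linarith [hy.1]
  | succ i ih =>
    intro y hy
    rw [Function.iterate_succ_apply]
    apply ih
    have a1 : (1 : ℝ) ≤ 3 ^ i := one_le_pow₀ (by norm_num)
    rw [pow_succ] at hy
    have a2 : |y - τ| ≤ 1 / 30 := by nlinarith [abs_nonneg (y - τ)]
    rw [abs_le] at a2
    have a3 : 0 < y := by linarith [a2.1]
    have a4 : G y = 1 / y - 1 := by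
      have := G_step 1 (1 / y - 1) (by rw [sub_nonneg, le_div_iff₀ a3]; linarith [a2.2])
        (by rw [sub_lt_iff_lt_add, div_lt_iff₀ a3]; linarith [a2.1])
      rw [← this]; congr 1; push_cast; field_simp; ring
    have a5 : 1 / y - 1 - τ = -(y - τ) * ((1 + τ) / y) := by
      field_simp; linear_combination -h0
    have a6 : (1 + τ) / y ≤ 3 := by rw [div_le_iff₀ a3]; linarith [a2.1]
    rw [a4, a5, abs_mul, abs_neg, abs_of_pos (a := (1 + τ) / y) (by positivity)]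
    refine le_trans ?_ hy
    rw [mul_assoc, mul_comm 3]
    gcongr

lemma count_le (z : ℝ) (M j : ℕ) (h : ∀ i < j, 1 / 2 < G^[M + i] z) :
    ((Finset.range (M + j)).filter fun n => G^[n] z < 1 / 2).card ≤ M := by
  refine le_trans (Finset.card_le_card (t := Finset.range M) ?_) (by simp)
  intro n hn
  rw [Finset.mem_filter, Finset.mem_range] at hn
  rw [Finset.mem_range]
  by_contra hc
  obtain ⟨i, rfl⟩ := Nat.exists_eq_add_of_le (not_lt.1 hc)
  have := h i (by omega)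
  linarith [hn.2]

lemma ivt_sign (f : ℝ → ℝ) (σ a b z : ℝ) (hσ : σ * σ = 1) (hab : a ≤ b)
    (hf : ContinuousOn f (Icc a b)) (h1 : σ * f a ≤ σ * z) (h2 : σ * z ≤ σ * f b) :
    ∃ s, a ≤ s ∧ s ≤ b ∧ f s = z := by
  obtain ⟨s, hs, e⟩ := intermediate_value_Icc hab (f := fun t => σ * f t)
    (continuousOn_const.mul hf) ⟨h1, h2⟩
  refine ⟨s, hs.1, hs.2, ?_⟩
  simp only at e
  linear_combination σ * e - (f s - z) * hσ

lemma aux1 (K Q a : ℝ) (hK : 1 ≤ K) (hQ : 1 ≤ Q) (ha : 1 ≤ a) (h : 4320 * K ^ 2 * a ≤ Q ^ 2) :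
    2 / Q ^ 2 ≤ 1 / K := by
  rw [div_le_div_iff₀ (by positivity) (by positivity)]
  have h1 : K ≤ K ^ 2 := by nlinarith
  have h2 : K ^ 2 ≤ K ^ 2 * a := by nlinarith
  nlinarith

lemma aux2 (A : ℝ) (hA : 1 ≤ A) : 1 / A - 1 / (A + 1) ≤ 2 * (1 / (A + 1)) ^ 2 := by
  rw [div_sub_div _ _ (by positivity) (by positivity), div_pow, ← mul_div_assoc,
    div_le_div_iff₀ (by positivity) (by positivity)]
  nlinarith

lemma aux3 (K Q a : ℝ) (hK : 1 ≤ K) (hQ : 1 ≤ Q) (ha : 1 ≤ a) (h : 4320 * K ^ 2 * a ≤ Q ^ 2) :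
    16 * K ^ 2 / Q ^ 4 ≤ 1 / (30 * a) / (3 * Q * (3 * Q)) := by
  rw [div_div, div_le_div_iff₀ (by positivity) (by positivity)]
  have : 0 < Q ^ 2 := by positivity
  nlinarith

lemma aux4 (Q Q' s v δ : ℝ) (hQ : 1 ≤ Q) (h0 : 0 ≤ Q') (h1 : Q' ≤ Q) (a1 : 0 ≤ s) (a2 : 0 ≤ v)
    (a3 : s ≤ 2) (a4 : v ≤ 2) (hδ : 0 < δ) :
    δ / (3 * Q * (3 * Q)) ≤ δ / ((Q + s * Q') * (Q + v * Q')) := by
  gcongr <;> nlinarith

lemma aux5 (Q Q' s v : ℝ) (hQ : 1 ≤ Q) (h0 : 0 ≤ Q') (a1 : 0 ≤ s) (a2 : 0 ≤ v)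
    (a3 : s ≤ 2) : (s - v) / ((Q + s * Q') * (Q + v * Q')) ≤ 2 / Q ^ 2 := by
  rw [sq]
  have b2 : 0 ≤ s * Q' := by positivity
  have b3 : 0 ≤ v * Q' := by positivity
  gcongr <;> linarith

theorem steer (Φ : ℝ → ℝ) (n : ℕ) (K : ℝ) (hK : 1 ≤ K) (hc : ContinuousOn Φ (Icc 0 1))
    (hl : ∀ w, 0 ≤ w → w ≤ 1 → w / K ≤ (-1) ^ n * (Φ w - Φ 0))
    (hu : ∀ w v, 0 ≤ w → 0 ≤ v → |Φ w - Φ v| ≤ 2 * |w - v|)
    (hirr : Irrational (Φ 0)) (k : ℕ) : ∃ A : ℕ, 1 ≤ A ∧ ∃ N : ℕ, k ≤ N ∧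
      ∀ w, 1 / ((A : ℝ) + 1) ≤ w → w ≤ 1 / (A : ℝ) →
        (((Finset.range N).filter fun i => G^[i] (Int.fract (Φ w)) < 1 / 2).card : ℝ) ≤
          29 / 50 * N := by
  obtain ⟨τ, t0, t1, t2⟩ : ∃ τ : ℝ, τ * τ + τ = 1 ∧ 61 / 100 < τ ∧ τ < 62 / 100 := by
    have h5 : √5 * √5 = 5 := Real.mul_self_sqrt (by norm_num)
    have h6 : 0 ≤ √5 := Real.sqrt_nonneg _
    refine ⟨(√5 - 1) / 2, by linear_combination h5 / 4, by nlinarith, by nlinarith⟩
  set c : ℤ := ⌊Φ 0⌋ with hcdef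
  have hf : Irrational (Int.fract (Φ 0)) ∧ 0 < Int.fract (Φ 0) ∧ Int.fract (Φ 0) < 1 := by
    have h1 : Irrational (Int.fract (Φ 0)) := hirr.sub_intCast _
    exact ⟨h1, lt_of_le_of_ne (Int.fract_nonneg _) h1.ne_zero.symm, Int.fract_lt_one _⟩
  let t : ℕ → ℝ := fun i => G^[i] (Int.fract (Φ 0))
  have ht : ∀ i, 0 < t i ∧ t i < 1 := fun i => (iter_irr hf i).2
  let e : ℕ → ℕ := fun i => ⌊1 / t i⌋₊
  have he : ∀ i, 1 ≤ e i := fun i => (G_rec (ht i).1 (ht i).2).1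
  have hrec : ∀ i, t i = 1 / (e i + t (i + 1)) := fun i => by
    have := (G_rec (ht i).1 (ht i).2).2
    simpa only [t, Function.iterate_succ_apply'] using this
  -- choice of the depth
  obtain ⟨u0, hu0⟩ := pow_unbounded_of_one_lt (4320 * K ^ 2) (show (1 : ℝ) < 42 / 27 by norm_num)
  set u := u0 + 14 + k with hudef
  have hu1 : 4320 * K ^ 2 * 27 ^ u ≤ 42 ^ u := by
    have : ((42 : ℝ) / 27) ^ u0 ≤ (42 / 27) ^ u := pow_le_pow_right₀ (by norm_num) (by omega)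
    have h2 := hu0.le.trans this
    rwa [div_pow, le_div_iff₀ (by positivity)] at h2
  obtain ⟨m, hm1, hm2, hm3⟩ : ∃ m, 4 * u ≤ m ∧ m ≤ 4 * u + 1 ∧ (-1 : ℝ) ^ (m + 1) = (-1) ^ n := by
    rcases Nat.even_or_odd n with h | h
    · exact ⟨4 * u + 1, by omega, le_rfl, by
        rw [h.neg_one_pow, Even.neg_one_pow ⟨2 * u + 1, by ring⟩]⟩
    · exact ⟨4 * u, le_rfl, by omega, by
        rw [h.neg_one_pow, Odd.neg_one_pow ⟨2 * u, by ring⟩]⟩
  set σ : ℝ := (-1) ^ n with hσdef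
  have hσ : σ * σ = 1 := by rw [hσdef, ← mul_pow]; simp
  have hσ' : |σ| = 1 := by rw [hσdef, abs_pow]; simp
  obtain ⟨q1, q2, q3⟩ := den_bd he (m + 1)
  set Q := (den e (m + 1)).1 with hQ
  set Q' := (den e (m + 1)).2 with hQ'
  have hQ2 : 4320 * K ^ 2 * 27 ^ u ≤ Q ^ 2 := by
    have a1 : ((8 : ℝ) / 5) ^ (4 * u) ≤ Q :=
      (pow_le_pow_right₀ (by norm_num) hm1).trans (den_grow he m).1
    have a2 : (((8 : ℝ) / 5) ^ (4 * u)) ^ 2 ≤ Q ^ 2 := by gcongr
    have a3 : (42 : ℝ) ^ u ≤ (((8 : ℝ) / 5) ^ (4 * u)) ^ 2 := by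
      rw [← pow_mul, show 4 * u * 2 = 8 * u by ring, pow_mul]
      gcongr
      norm_num
    linarith
  have hsub : ∀ s v, 0 ≤ s → 0 ≤ v → σ * (psi e (m + 1) s - psi e (m + 1) v) =
      (s - v) / ((Q + s * Q') * (Q + v * Q')) := by
    intro s v hs hv
    rw [psi_sub he _ _ _ hs hv, hm3, ← mul_assoc, hσ, one_mul]
  have h27 : (1 : ℝ) ≤ 27 ^ u := one_le_pow₀ (by norm_num)
  have hz0 : Φ 0 = c + psi e (m + 1) (t (m + 1)) := by
    rw [← psi_eq t hrec]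
    exact (Int.floor_add_fract _).symm
  set ζ := c + psi e (m + 1) (1 + τ) with hζ
  have hρ : σ * (ζ - Φ 0) = (1 + τ - t (m + 1)) / ((Q + (1 + τ) * Q') * (Q + t (m + 1) * Q')) := by
    rw [← hsub _ _ (by linarith) (ht _).1.le, hz0, hζ]; ring
  have hρ0 : 0 < σ * (ζ - Φ 0) := by
    rw [hρ]
    have := ht (m + 1)
    apply div_pos (by linarith [this.2])
    have := this.1
    positivity
  have hρ1 : σ * (ζ - Φ 0) ≤ 2 / Q ^ 2 := by
    rw [hρ]
    exact aux5 _ _ _ _ q1 q2 (by linarith) (ht _).1.le (by linarith)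
  have hQK : 2 / Q ^ 2 ≤ 1 / K := aux1 K Q _ hK q1 h27 hQ2
  obtain ⟨w0, w1, w2, w3⟩ := ivt_sign Φ σ 0 1 ζ hσ zero_le_one hc (by linarith)
    (by have := hl 1 zero_le_one le_rfl; linarith)
  have w4 : 0 < w0 := lt_of_le_of_ne w1 fun h => by
    rw [← h] at w3
    rw [← w3] at hρ0
    simp at hρ0
  have w5 : w0 ≤ 2 * K / Q ^ 2 := by
    have := hl w0 w1 w2
    rw [w3, div_le_iff₀ (by positivity)] at this
    calc w0 ≤ σ * (ζ - Φ 0) * K := this
      _ ≤ 2 / Q ^ 2 * K := by gcongr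
      _ = _ := by ring
  have w6 : 1 ≤ 1 / w0 := by rw [le_div_iff₀ w4]; linarith
  have hA : 1 ≤ ⌊1 / w0⌋₊ := Nat.le_floor (by simpa using w6)
  refine ⟨⌊1 / w0⌋₊, hA, m + 1 + 3 * u, by omega, fun w hw1 hw2 => ?_⟩
  set A : ℝ := (⌊1 / w0⌋₊ : ℝ) with hAdef
  have A1 : 1 ≤ A := by rw [hAdef]; exact_mod_cast hA
  have A2 : A ≤ 1 / w0 := Nat.floor_le (by positivity)
  have A3 : 1 / w0 < A + 1 := Nat.lt_floor_add_one _
  have A4 : w0 ≤ 1 / A := by rwa [le_one_div w4 (by positivity)]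
  have A5 : 1 / (A + 1) ≤ w0 := by rw [one_div_le (by positivity) w4]; exact A3.le
  have A6 : 1 / A - 1 / (A + 1) ≤ 2 * w0 ^ 2 := by
    refine (aux2 A A1).trans ?_
    gcongr
  have hw0 : 0 ≤ w := le_trans (by positivity) hw1
  have hd : |Φ w - ζ| ≤ 16 * K ^ 2 / Q ^ 4 := by
    rw [← w3]
    refine (hu w w0 hw0 w1).trans ?_
    have b1 : |w - w0| ≤ 2 * w0 ^ 2 := by
      rw [abs_le]; constructor <;> linarith
    have b2 : w0 ^ 2 ≤ (2 * K / Q ^ 2) ^ 2 := by gcongr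
    calc 2 * |w - w0| ≤ 2 * (2 * (2 * K / Q ^ 2) ^ 2) := by linarith
      _ = _ := by field_simp; ring
  set δ : ℝ := 1 / (30 * 27 ^ u) with hδ
  have δ0 : 0 < δ := by positivity
  have δ1 : δ ≤ 1 / 30 := by rw [hδ]; gcongr; linarith
  have δ2 : 16 * K ^ 2 / Q ^ 4 ≤ δ / (3 * Q * (3 * Q)) := aux3 K Q _ hK q1 h27 hQ2
  have hd2 : |σ * (Φ w - ζ)| ≤ δ / (3 * Q * (3 * Q)) := by
    rw [abs_mul, hσ', one_mul]; exact hd.trans δ2
  rw [abs_le] at hd2
  have side : ∀ s v, 0 ≤ s → 0 ≤ v → s ≤ 2 → v ≤ 2 → s - v = δ →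
      δ / (3 * Q * (3 * Q)) ≤ σ * (psi e (m + 1) s - psi e (m + 1) v) := by
    intro s v a1 a2 a3 a4 a5
    rw [hsub s v a1 a2, a5]
    exact aux4 _ _ _ _ _ q1 q2 q3 a1 a2 a3 a4 δ0
  obtain ⟨s, s1, s2, s3⟩ := ivt_sign (psi e (m + 1)) σ (1 + τ - δ) (1 + τ + δ) (Φ w - c) hσ
    (by linarith) ((psi_cont he _).mono fun x hx => mem_Ici.2 (by linarith [hx.1]))
    (by
      have := side (1 + τ) (1 + τ - δ) (by linarith) (by linarith) (by linarith) (by linarith)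
        (by ring)
      rw [hζ] at hd2
      linarith [hd2.1])
    (by
      have := side (1 + τ + δ) (1 + τ) (by linarith) (by linarith) (by linarith) (by linarith)
        (by ring)
      rw [hζ] at hd2
      linarith [hd2.2])
  have em : (1 : ℝ) ≤ e m := by exact_mod_cast he m
  obtain ⟨p1, p2, p3⟩ := psi_mem he m (1 / (e m + s)) (by
    have : 0 < s := by linarith
    positivity) (by rw [div_lt_one (by linarith)]; linarith)
  have hfr : Int.fract (Φ w) = psi e m (1 / (e m + s)) := by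
    have : Φ w = c + psi e m (1 / (e m + s)) := by rw [psi] at s3; linarith
    rw [this, Int.fract_intCast_add, Int.fract_eq_self.2 ⟨p1.le, p2⟩]
  have horb : G^[m + 1] (Int.fract (Φ w)) = s - 1 := by
    rw [Function.iterate_succ_apply', hfr, p3,
      ← G_step (e m + 1) (s - 1) (by linarith) (by linarith)]
    congr 2; push_cast; ring
  have hcount := count_le (Int.fract (Φ w)) (m + 1) (3 * u) fun i hi => by
    rw [add_comm (m + 1) i, Function.iterate_add_apply, horb]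
    apply golden τ t0 t1 t2
    have b1 : |s - 1 - τ| ≤ δ := by rw [abs_le]; constructor <;> linarith
    have b2 : (3 : ℝ) ^ i ≤ 27 ^ u := by
      rw [show (27 : ℝ) = 3 ^ 3 by norm_num, ← pow_mul]
      exact pow_le_pow_right₀ (by norm_num) hi.le
    calc _ ≤ 27 ^ u * δ := by gcongr
      _ = 1 / 30 := by rw [hδ]; field_simp
  have c1 : ((((Finset.range (m + 1 + 3 * u)).filter
      fun i => G^[i] (Int.fract (Φ w)) < 1 / 2).card : ℕ) : ℝ) ≤ ((m + 1 : ℕ) : ℝ) := by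
    exact_mod_cast hcount
  refine c1.trans ?_
  have c2 : (m : ℝ) ≤ 4 * u + 1 := by exact_mod_cast hm2
  have c3 : (14 : ℝ) ≤ u := by exact_mod_cast (by omega : 14 ≤ u)
  push_cast
  linarith

end Pool.Agent.H234Z.CF
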