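import Pool.Agent.H234Z.CF4

/-! A continued-fraction normal number whose affine image is not normal. -/

set_option autoImplicit false

open Filter Topology Set

namespace Pool.Agent.H234Z.CF

lemma exists_digits (b : ℕ → ℕ) (S : ℕ → Prop) [DecidablePred S] (ch : ℕ → (ℕ → ℕ) → ℕ) :
    ∃ (d : ℕ → ℕ) (D : ℕ → ℕ → ℕ), (∀ n j, j < n → D n j = d j) ∧ (∀ n j, n ≤ j → D n j = 1) ∧
      ∀ n, d n = if S n then ch n (D n) else b n := by
  let D : ℕ → ℕ → ℕ := fun n => Nat.rec (fun _ => 1)
    (fun n e => Function.update e n (if S n then ch n e else b n)) n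
  have hD : ∀ n, D (n + 1) = Function.update (D n) n (if S n then ch n (D n) else b n) :=
    fun _ => rfl
  refine ⟨fun n => D (n + 1) n, D, fun n => ?_, fun n => ?_, fun n => ?_⟩
  · induction n with
    | zero => intro j hj; omega
    | succ n ih =>
      intro j hj
      rcases Nat.lt_succ_iff_lt_or_eq.1 hj with h | rfl
      · rw [hD, Function.update_of_ne h.ne, ih j h]
      · rfl
  · induction n with
    | zero => intro j _; rfl
    | succ n ih => intro j hj; rw [hD, Function.update_of_ne (by omega), ih j (by omega)]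
  · simp only [hD, Function.update_self]

lemma steer' (q r : ℝ) (hq1 : 1 ≤ q) (hq2 : q ≤ 2)
    (hirr : ∀ y : ℚ, 0 ≤ y → Irrational (q * y + r)) (n : ℕ)
    (e : ℕ → ℕ) (he : ∀ i, 1 ≤ e i) : ∃ A : ℕ, 1 ≤ A ∧ ∃ N : ℕ, n ≤ N ∧
      ∀ w, 1 / ((A : ℝ) + 1) ≤ w → w ≤ 1 / (A : ℝ) →
        (((Finset.range N).filter
          fun i => G^[i] (Int.fract (q * psi e n w + r)) < 1 / 2).card : ℝ) ≤ 29 / 50 * N := by
  obtain ⟨q1, q2, q3⟩ := den_bd he n
  refine steer (fun w => q * psi e n w + r) n ((2 * (den e n).1) * (2 * (den e n).1))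
    (by nlinarith) ?_ ?_ ?_ ?_ n
  · exact (continuousOn_const.mul ((psi_cont he n).mono fun x hx => hx.1)).add continuousOn_const
  · intro w h0 h1
    have h2 : (-1 : ℝ) ^ n * (-1) ^ n = 1 := by rw [← mul_pow]; simp
    have e1 : (-1 : ℝ) ^ n * (q * psi e n w + r - (q * psi e n 0 + r)) =
        q * ((-1) ^ n * (psi e n w - psi e n 0)) := by ring
    rw [e1, psi_sub he n w 0 h0 le_rfl, ← mul_assoc ((-1 : ℝ) ^ n), h2, one_mul, sub_zero]
    refine le_trans ?_ (le_mul_of_one_le_left (by positivity) hq1)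
    gcongr <;> nlinarith
  · intro w v h0 h1
    have e1 : q * psi e n w + r - (q * psi e n v + r) = q * (psi e n w - psi e n v) := by ring
    rw [e1, psi_sub he n w v h0 h1, abs_mul, abs_mul, abs_pow, abs_neg, abs_one, one_pow, one_mul,
      abs_div, abs_of_pos (a := q) (by linarith)]
    have a1 : 0 ≤ w * (den e n).2 := by positivity
    have a2 : 0 ≤ v * (den e n).2 := by positivity
    have a3 : 1 ≤ ((den e n).1 + w * (den e n).2) * ((den e n).1 + v * (den e n).2) :=
      one_le_mul_of_one_le_of_one_le (by linarith) (by linarith)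
    gcongr
    exact div_le_self (abs_nonneg _) (a3.trans (le_abs_self _))
  · obtain ⟨y, hy⟩ := psi_rat e n 0
    have h0 := psi_nonneg e n 0 le_rfl
    rw [Rat.cast_zero] at hy
    simp only [hy] at h0 ⊢
    exact hirr y (by exact_mod_cast h0)

theorem main (q r : ℝ) (hq1 : 1 ≤ q) (hq2 : q ≤ 2)
    (hirr : ∀ y : ℚ, 0 ≤ y → Irrational (q * y + r)) : ∃ x : ℝ, Irrational x ∧
    (∀ t, Tendsto (fun N : ℕ =>
      (((Finset.range N).filter fun n => G^[n] (Int.fract x) < t).card : ℝ) / N) atTop (𝓝 (F t))) ∧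
    ¬ Tendsto (fun N : ℕ =>
      (((Finset.range N).filter fun n => G^[n] (Int.fract (q * x + r)) < 1 / 2).card : ℝ) / N)
      atTop (𝓝 (F (1 / 2))) := by
  classical
  obtain ⟨g, S, _, hg, hgS, hq, hS, hinf⟩ := exists_pseudo
  have hst := fun n e (he : ∀ i, 1 ≤ e i) => steer' q r hq1 hq2 hirr n e he
  choose! ch hch1 Nn hN1 hN2 using hst
  obtain ⟨d, D, hD1, hD2, hd⟩ := exists_digits (fun n => ⌊1 / g n⌋₊) S ch
  have hd1 : ∀ n, 1 ≤ d n := by
    intro n
    induction n using Nat.strong_induction_on with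
    | _ n ih =>
      rw [hd]
      split_ifs
      · refine hch1 n _ fun i => ?_
        rcases lt_or_ge i n with h | h
        · rw [hD1 n i h]; exact ih i h
        · rw [hD2 n i h]
      · exact (G_rec (hg n).2.1 (hg n).2.2).1
  have hD3 : ∀ n i, 1 ≤ D n i := by
    intro n i
    rcases lt_or_ge i n with h | h
    · rw [hD1 n i h]; exact hd1 i
    · rw [hD2 n i h]
  obtain ⟨h, hh⟩ := exists_cf d hd1
  have hfr : Int.fract (h 0) = h 0 := Int.fract_eq_self.2 ⟨(hh 0).1.le, (hh 0).2.1⟩
  refine ⟨h 0, cf_irr d h hh, fun t => ?_, fun H => ?_⟩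
  · simp only [hfr, cf_orbit d h hh]
    refine transfer h g S (close d hd1 h g S hh (fun n => (hg n).2) fun n hn => ?_) hq hS t
    rw [hd, if_neg hn, hgS n hn]
    exact (G_rec (hg n).2.1 (hg n).2.2).2
  · have h1 : (29 / 50 : ℝ) < F (1 / 2) := by
      rw [F_eq (by norm_num) (by norm_num), lt_div_iff₀ log2_pos]
      have a1 : Real.log (2 ^ 29) < Real.log ((1 + 1 / 2) ^ 50) :=
        Real.log_lt_log (by positivity) (by norm_num)
      rw [Real.log_pow, Real.log_pow] at a1
      push_cast at a1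
      linarith
    obtain ⟨k, hk⟩ := eventually_atTop.1 (H.eventually_const_lt h1)
    obtain ⟨n, hn, hnS⟩ := hinf (k + 1)
    have a1 := hN1 n (D n) (hD3 n)
    have a2 : d n = ch n (D n) := by rw [hd, if_pos hnS]
    have a3 : (1 : ℝ) ≤ d n := by exact_mod_cast hd1 n
    have a4 := hN2 n (D n) (hD3 n) (h n)
      (by
        rw [← a2, (hh n).2.2]
        exact one_div_le_one_div_of_le (by linarith [(hh (n + 1)).1])
          (by linarith [(hh (n + 1)).2.1]))
      (by
        rw [← a2, (hh n).2.2]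
        exact one_div_le_one_div_of_le (by linarith) (by linarith [(hh (n + 1)).1]))
    rw [psi_congr (D n) d n (hD1 n), ← psi_eq h fun i => (hh i).2.2] at a4
    have a5 := hk _ (show k ≤ Nn n (D n) by omega)
    rw [lt_div_iff₀ (by exact_mod_cast (by omega : 0 < Nn n (D n)))] at a5
    linarith

end Pool.Agent.H234Z.CF
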