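import Mathlib

/-! First-moment tools for random subsets. -/

set_option autoImplicit false

open Finset

namespace Pool.Agent.H234Z.Cov

lemma choose_sub_le (N k s : ℕ) (hs : s ≤ k) (hk : k ≤ N) (hN : 0 < N) :
    ((N - s).choose (k - s) : ℝ) ≤ N.choose k * ((k : ℝ) / N) ^ s := by
  induction s with
  | zero => simp
  | succ s ih =>
    have h1 := ih (by omega)
    have h2 := Nat.add_one_mul_choose_eq (N - (s + 1)) (k - (s + 1))
    rw [show N - (s + 1) + 1 = N - s by omega, show k - (s + 1) + 1 = k - s by omega] at h2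
    have h3 : ((N - s : ℕ) : ℝ) * ((N - (s + 1)).choose (k - (s + 1)) : ℝ) =
        ((N - s).choose (k - s) : ℝ) * ((k - s : ℕ) : ℝ) := by exact_mod_cast h2
    rw [Nat.cast_sub (by omega), Nat.cast_sub (by omega)] at h3
    have hN' : (0 : ℝ) < N := by exact_mod_cast hN
    have a1 : (s : ℝ) + 1 ≤ k := by exact_mod_cast hs
    have a2 : (k : ℝ) ≤ N := by exact_mod_cast hk
    have a3 : (0 : ℝ) ≤ s := Nat.cast_nonneg _
    have h4 : ((N - (s + 1)).choose (k - (s + 1)) : ℝ) ≤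
        ((N - s).choose (k - s) : ℝ) * ((k : ℝ) / N) := by
      have a4 : (0 : ℝ) < N - s := by linarith
      rw [← mul_le_mul_iff_right₀ a4, h3, mul_left_comm]
      gcongr
      rw [← mul_div_assoc, le_div_iff₀ hN']
      nlinarith
    rw [pow_succ, ← mul_assoc]
    refine h4.trans ?_
    gcongr

variable {G : Type} [DecidableEq G]

lemma card_sup_le (T S : Finset G) (k : ℕ) (hk : k ≤ #T) (hT : 0 < #T) :
    (#((T.powersetCard k).filter (S ⊆ ·)) : ℝ) ≤ (#T).choose k * ((k : ℝ) / #T) ^ #S := by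
  by_cases h : S ⊆ T ∧ #S ≤ k
  · rw [card_filter_powersetCard_subset S T k h.1 h.2]
    exact choose_sub_le _ _ _ h.2 hk hT
  · have : (T.powersetCard k).filter (S ⊆ ·) = ∅ := by
      rw [filter_eq_empty_iff]
      intro A hA hS
      rw [mem_powersetCard] at hA
      exact h ⟨hS.trans hA.1, hA.2 ▸ card_le_card hS⟩
    rw [this]
    simp only [card_empty, Nat.cast_zero]
    positivity

lemma card_sup_one (T : Finset G) (t : G) (ht : t ∈ T) (k : ℕ) (hk0 : 1 ≤ k) :
    (#((T.powersetCard k).filter (t ∈ ·)) : ℝ) = (k : ℝ) / #T * (#T).choose k := by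
  have h1 : (T.powersetCard k).filter (t ∈ ·) = (T.powersetCard k).filter ({t} ⊆ ·) := by simp
  have hT : 0 < #T := card_pos.2 ⟨t, ht⟩
  rw [h1, card_filter_powersetCard_subset {t} T k (by simpa) (by simpa), card_singleton]
  have h2 := Nat.add_one_mul_choose_eq (#T - 1) (k - 1)
  rw [show #T - 1 + 1 = #T by omega, show k - 1 + 1 = k by omega] at h2
  have h3 : (#T : ℝ) * ((#T - 1).choose (k - 1) : ℝ) = ((#T).choose k : ℝ) * k := by
    exact_mod_cast h2
  have hT' : (0 : ℝ) < #T := by exact_mod_cast hT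
  field_simp
  linarith

/-- `A` contains the pairwise disjoint label sets of `M` members of `I` -/
def Pack {κ : Type} (I : Finset κ) (lab : κ → Finset G) (M : ℕ) (A : Finset G) : Prop :=
  ∃ S ⊆ I, #S = M ∧ (∀ f ∈ S, lab f ⊆ A) ∧ ∀ f ∈ S, ∀ g ∈ S, f ≠ g → Disjoint (lab f) (lab g)

open Classical in
lemma card_pack [Fintype G] {κ : Type} (I : Finset κ) (lab : κ → Finset G) (j M k : ℕ)
    (hj : ∀ f ∈ I, #(lab f) = j) (hk : k ≤ Fintype.card G) (hG : 0 < Fintype.card G) (r : ℝ)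
    (hM : 0 < M) (hr : Real.exp 1 * (#I * ((k : ℝ) / Fintype.card G) ^ j) ≤ r * M) :
    (#((univ.powersetCard k).filter (Pack I lab M)) : ℝ) ≤ (Fintype.card G).choose k * r ^ M := by
  obtain ⟨P, hP⟩ : ∃ P : Finset (Finset κ), ∀ S, S ∈ P ↔ (S ⊆ I ∧ #S = M) ∧
      ∀ f ∈ S, ∀ g ∈ S, f ≠ g → Disjoint (lab f) (lab g) :=
    ⟨(I.powersetCard M).filter fun S => ∀ f ∈ S, ∀ g ∈ S, f ≠ g → Disjoint (lab f) (lab g),
      fun S => by simp only [mem_filter, mem_powersetCard]⟩
  have h1 : (univ.powersetCard k).filter (Pack I lab M) ⊆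
      P.biUnion fun S => (univ.powersetCard k).filter (S.biUnion lab ⊆ ·) := by
    intro A hA
    rw [mem_filter] at hA
    obtain ⟨hA, S, h1, h2, h3, h4⟩ := hA
    rw [mem_biUnion]
    exact ⟨S, (hP S).2 ⟨⟨h1, h2⟩, h4⟩, mem_filter.2 ⟨hA, biUnion_subset.2 h3⟩⟩
  set x : ℝ := ((k : ℝ) / Fintype.card G) ^ j with hx
  have hx0 : 0 ≤ x := by positivity
  have h2 : ∀ S ∈ P, (#((univ.powersetCard k).filter (S.biUnion lab ⊆ ·)) : ℝ) ≤
      (Fintype.card G).choose k * x ^ M := by
    intro S hS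
    rw [hP] at hS
    have h3 : #(S.biUnion lab) = j * M := by
      rw [card_biUnion fun f hf g hg hfg => hS.2 f hf g hg hfg,
        sum_congr rfl fun f hf => hj f (hS.1.1 hf), sum_const, hS.1.2, smul_eq_mul, mul_comm]
    have := card_sup_le univ (S.biUnion lab) k hk hG
    rwa [card_univ, h3, pow_mul] at this
  have h3 : (#P : ℝ) ≤ (#I : ℝ) ^ M / M.factorial := by
    refine le_trans ?_ (Nat.choose_le_pow_div M #I)
    rw [← card_powersetCard]
    exact_mod_cast card_le_card fun S hS => mem_powersetCard.2 ((hP S).1 hS).1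
  have h4 : (#((univ.powersetCard k).filter (Pack I lab M)) : ℝ) ≤
      #P * ((Fintype.card G).choose k * x ^ M) := by
    have := (card_le_card h1).trans card_biUnion_le
    calc _ ≤ ((∑ S ∈ P, #((univ.powersetCard k).filter (S.biUnion lab ⊆ ·)) : ℕ) : ℝ) := by
          exact_mod_cast this
      _ ≤ ∑ _S ∈ P, ((Fintype.card G).choose k * x ^ M) := by
          push_cast; exact sum_le_sum h2
      _ = _ := by rw [sum_const, nsmul_eq_mul]
  refine h4.trans ?_
  have hM' : (0 : ℝ) < M := by exact_mod_cast hM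
  have h5 := Real.pow_div_factorial_le_exp (M : ℝ) hM'.le M
  have h6 : (#I : ℝ) ^ M / M.factorial * x ^ M ≤ r ^ M := by
    have a1 : (Real.exp 1 * (#I * x)) ^ M ≤ (r * M) ^ M := by gcongr
    rw [mul_pow, mul_pow, mul_pow, ← Real.exp_nat_mul, mul_one] at a1
    have a2 : (0 : ℝ) < (M : ℝ) ^ M := by positivity
    rw [← mul_le_mul_iff_left₀ a2]
    refine le_trans ?_ a1
    calc (#I : ℝ) ^ M / M.factorial * x ^ M * (M : ℝ) ^ M
        = (M : ℝ) ^ M / M.factorial * ((#I : ℝ) ^ M * x ^ M) := by ring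
      _ ≤ _ := by gcongr
  calc _ ≤ (#I : ℝ) ^ M / M.factorial * ((Fintype.card G).choose k * x ^ M) := by gcongr
    _ = (Fintype.card G).choose k * ((#I : ℝ) ^ M / M.factorial * x ^ M) := by ring
    _ ≤ _ := by gcongr

lemma exists_hit {κ : Type} (I : Finset κ) (lab : κ → Finset G) (j M : ℕ)
    (hj : ∀ f ∈ I, #(lab f) = j) (hj0 : 0 < j) (A : Finset G) (h : ¬ Pack I lab M A) :
    ∃ U : Finset G, #U ≤ j * M ∧ ∀ f ∈ I, lab f ⊆ A → ¬ Disjoint (lab f) U := by
  classical
  let P := I.powerset.filter fun S => (∀ f ∈ S, lab f ⊆ A) ∧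
    ∀ f ∈ S, ∀ g ∈ S, f ≠ g → Disjoint (lab f) (lab g)
  obtain ⟨S, hS, hmax⟩ := exists_max_image P card ⟨∅, by simp [P]⟩
  simp only [P, mem_filter, mem_powerset] at hS
  have h1 : #S ≤ M := by
    by_contra hc
    obtain ⟨S', h1, h2⟩ := exists_subset_card_eq (s := S) (n := M) (by omega)
    exact h ⟨S', h1.trans hS.1, h2, fun f hf => hS.2.1 f (h1 hf),
      fun f hf g hg => hS.2.2 f (h1 hf) g (h1 hg)⟩
  refine ⟨S.biUnion lab, card_biUnion_le.trans ?_, fun f hf hA hd => ?_⟩
  · rw [sum_congr rfl fun f hf => hj f (hS.1 hf), sum_const, smul_eq_mul, mul_comm]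
    gcongr
  · rw [disjoint_biUnion_right] at hd
    have hfS : f ∉ S := fun hc => by
      have := hd f hc
      rw [disjoint_self, bot_eq_empty, ← card_eq_zero, hj f hf] at this
      omega
    have := hmax (insert f S) (by
      simp only [P, mem_filter, mem_powerset, insert_subset_iff, mem_insert, forall_eq_or_imp]
      exact ⟨⟨hf, hS.1⟩, ⟨hA, hS.2.1⟩, ⟨fun h => absurd rfl h, fun g hg _ => hd g hg⟩,
        fun g hg => ⟨fun _ => (hd g hg).symm, hS.2.2 g hg⟩⟩)
    rw [card_insert_of_notMem hfS] at this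
    omega

lemma free_lt {κ : Type} (I F : Finset κ) (lab : κ → Finset G) (M : ℕ) (A : Finset G)
    (hF : F ⊆ I) (hne : ∀ f ∈ F, (lab f).Nonempty) (hA : ∀ f ∈ F, lab f ⊆ A)
    (h : ¬ Pack I lab M A) :
    ∑ _f ∈ F, (2 : ℝ) - ∑ f ∈ F, ∑ g ∈ F, (if Disjoint (lab f) (lab g) then (0 : ℝ) else 1) < M := by
  classical
  let S := F.filter fun f => ∀ g ∈ F, f ≠ g → Disjoint (lab f) (lab g)
  have h1 : #S < M := by
    by_contra hc
    obtain ⟨S', h1, h2⟩ := exists_subset_card_eq (s := S) (n := M) (by omega)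
    exact h ⟨S', h1.trans ((filter_subset _ _).trans hF), h2,
      fun f hf => hA f (mem_filter.1 (h1 hf)).1,
      fun f hf g hg => (mem_filter.1 (h1 hf)).2 g (mem_filter.1 (h1 hg)).1⟩
  refine lt_of_le_of_lt ?_ (show ((#S : ℕ) : ℝ) < M by exact_mod_cast h1)
  rw [← sum_sub_distrib, card_filter]
  push_cast
  refine sum_le_sum fun f hf => ?_
  have hff : ¬ Disjoint (lab f) (lab f) := by
    rw [disjoint_self]; exact (hne f hf).ne_empty
  have h0 : ∀ g, (0 : ℝ) ≤ if Disjoint (lab f) (lab g) then 0 else 1 := fun g => by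
    split_ifs <;> norm_num
  split_ifs with hc
  · have := single_le_sum (f := fun g => if Disjoint (lab f) (lab g) then (0 : ℝ) else 1)
      (fun g _ => h0 g) hf
    simp only [if_neg hff] at this
    linarith
  · push Not at hc
    obtain ⟨g, hg, hfg, hd⟩ := hc
    have := sum_le_sum_of_subset_of_nonneg (s := {f, g}) (t := F)
      (f := fun g => if Disjoint (lab f) (lab g) then (0 : ℝ) else 1)
      (by simp [insert_subset_iff, hf, hg]) fun g _ _ => h0 g
    rw [sum_pair hfg, if_neg hff, if_neg hd] at this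
    linarith

/-- second-moment weight -/
noncomputable def kap (q : ℝ) (a b : G) : ℝ := if a = b then q else 2 * q ^ 2

lemma kap_nonneg {q : ℝ} (hq : 0 ≤ q) (a b : G) : 0 ≤ kap q a b := by
  unfold kap; split_ifs <;> positivity

/-- indicator -/
noncomputable def chi (V : Finset G) (a : G) : ℝ := if a ∈ V then 1 else 0

lemma chi_nonneg (V : Finset G) (a : G) : 0 ≤ chi V a := by
  unfold chi; split_ifs <;> norm_num

lemma sel {Ω κ : Type} (O : Finset Ω) (hO : O.Nonempty) (V : Ω → Finset G) (F : Finset κ)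
    (y : κ → G) (q : ℝ) (h1 : ∀ f ∈ F, ∑ ω ∈ O, chi (V ω) (y f) = q * #O)
    (h2 : ∀ f ∈ F, ∀ g ∈ F, y f ≠ y g →
      ∑ ω ∈ O, chi (V ω) (y f) * chi (V ω) (y g) ≤ 2 * q ^ 2 * #O)
    (W : κ → ℝ) (W2 : κ → κ → ℝ) (hW : ∀ f g, 0 ≤ W2 f g) :
    ∃ ω ∈ O, ∑ f ∈ F, W f * q - ∑ f ∈ F, ∑ g ∈ F, W2 f g * kap q (y f) (y g) ≤
      ∑ f ∈ F, W f * chi (V ω) (y f) -
        ∑ f ∈ F, ∑ g ∈ F, W2 f g * (chi (V ω) (y f) * chi (V ω) (y g)) := by
  apply exists_le_of_sum_le hO
  rw [sum_const, nsmul_eq_mul, sum_sub_distrib, mul_sub, mul_sum, mul_sum]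
  refine sub_le_sub (le_of_eq ?_) ?_
  · rw [sum_comm]
    refine sum_congr rfl fun f hf => ?_
    rw [← mul_sum, h1 f hf]; ring
  · rw [sum_comm]
    refine sum_le_sum fun f hf => ?_
    rw [sum_comm, mul_sum]
    refine sum_le_sum fun g hg => ?_
    rw [← mul_sum, mul_left_comm]
    refine mul_le_mul_of_nonneg_left ?_ (hW f g)
    unfold kap
    split_ifs with h
    · rw [mul_comm, ← h1 f hf, ← h]
      refine le_of_eq (sum_congr rfl fun ω _ => ?_)
      unfold chi; split_ifs <;> norm_num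
    · rw [mul_comm]; exact h2 f hf g hg h

lemma sel_sub {κ : Type} (T : Finset G) (v : ℕ) (hv0 : 1 ≤ v) (hv : v ≤ #T) (F : Finset κ)
    (y : κ → G) (hy : ∀ f ∈ F, y f ∈ T) (W : κ → ℝ) (W2 : κ → κ → ℝ) (hW : ∀ f g, 0 ≤ W2 f g) :
    ∃ V ⊆ T, #V = v ∧ ∑ f ∈ F, W f * ((v : ℝ) / #T) -
      ∑ f ∈ F, ∑ g ∈ F, W2 f g * kap ((v : ℝ) / #T) (y f) (y g) ≤
      ∑ f ∈ F, W f * chi V (y f) - ∑ f ∈ F, ∑ g ∈ F, W2 f g * (chi V (y f) * chi V (y g)) := by
  obtain ⟨V, hV, h⟩ := sel (T.powersetCard v) (powersetCard_nonempty.2 hv) id F y ((v : ℝ) / #T)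
    (fun f hf => by
      rw [card_powersetCard, ← card_sup_one T _ (hy f hf) v hv0, card_filter]
      push_cast; rfl)
    (fun f hf g hg hfg => by
      have h1 := card_sup_le T {y f, y g} v hv (by omega)
      rw [card_pair hfg, card_filter] at h1
      push_cast at h1
      have h2 : ∑ ω ∈ T.powersetCard v, chi (id ω) (y f) * chi (id ω) (y g) =
          ∑ ω ∈ T.powersetCard v, if {y f, y g} ⊆ ω then (1 : ℝ) else 0 := by
        refine sum_congr rfl fun ω _ => ?_
        simp only [chi, id, insert_subset_iff, singleton_subset_iff]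
        by_cases a : y f ∈ ω <;> by_cases b : y g ∈ ω <;> simp [a, b]
      rw [h2, card_powersetCard]
      refine h1.trans ?_
      have : 0 ≤ ((#T).choose v : ℝ) * ((v : ℝ) / #T) ^ 2 := by positivity
      linarith) W W2 hW
  rw [mem_powersetCard] at hV
  exact ⟨V, hV.1, hV.2, h⟩

/-- preimage of `I` under an affine map -/
def aff [Field G] [Fintype G] (I : Finset G) (ω : G × G) : Finset G :=
  univ.filter fun x => ω.1 * x + ω.2 ∈ I

lemma mem_aff [Field G] [Fintype G] (I : Finset G) (ω : G × G) (x : G) :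
    x ∈ aff I ω ↔ ω.1 * x + ω.2 ∈ I := by
  unfold aff; rw [mem_filter]; simp

lemma card_aff [Field G] [Fintype G] (I : Finset G) (ω : G × G) (h : ω.1 ≠ 0) :
    #(aff I ω) ≤ #I := by
  refine card_le_card_of_injOn (fun x => ω.1 * x + ω.2) (fun x hx => ?_) fun x _ y _ hxy => ?_
  · exact (mem_aff _ _ _).1 hx
  · exact mul_left_cancel₀ h (add_right_cancel hxy)

lemma sel_aff [Field G] [Fintype G] {κ : Type} (I : Finset G) (F : Finset κ)
    (y : κ → G) (W : κ → ℝ) (W2 : κ → κ → ℝ) (hW : ∀ f g, 0 ≤ W2 f g) :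
    ∃ ω : G × G, ω.1 ≠ 0 ∧ ∑ f ∈ F, W f * ((#I : ℝ) / Fintype.card G) -
      ∑ f ∈ F, ∑ g ∈ F, W2 f g * kap ((#I : ℝ) / Fintype.card G) (y f) (y g) ≤
      ∑ f ∈ F, W f * chi (aff I ω) (y f) -
        ∑ f ∈ F, ∑ g ∈ F, W2 f g * (chi (aff I ω) (y f) * chi (aff I ω) (y g)) := by
  have hp : (2 : ℝ) ≤ Fintype.card G := by exact_mod_cast Fintype.one_lt_card
  have hc : (#((univ.erase (0 : G)) ×ˢ (univ : Finset G)) : ℝ) =
      (Fintype.card G - 1) * Fintype.card G := by
    rw [card_product, card_erase_of_mem (mem_univ _), card_univ, Nat.cast_mul,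
      Nat.cast_sub Fintype.card_pos]
    simp
  obtain ⟨ω, hω, h⟩ := sel ((univ.erase (0 : G)) ×ˢ (univ : Finset G))
    ⟨(1, 0), by simp⟩ (aff I) F y ((#I : ℝ) / Fintype.card G)
    (fun f _ => by
      rw [hc, sum_product]
      have : ∀ a : G, ∑ b : G, chi (aff I (a, b)) (y f) = #I := by
        intro a
        rw [← Equiv.sum_comp (Equiv.addLeft (-(a * y f)))]
        simp only [chi, mem_aff, Equiv.coe_addLeft, add_neg_cancel_left]
        simp
      rw [sum_congr rfl fun a _ => this a, sum_const, card_erase_of_mem (mem_univ _), card_univ,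
        nsmul_eq_mul, Nat.cast_sub Fintype.card_pos]
      field_simp
      simp [mul_comm])
    (fun f _ g _ hfg => by
      have h1 : ∑ ω ∈ (univ.erase (0 : G)) ×ˢ (univ : Finset G),
          chi (aff I ω) (y f) * chi (aff I ω) (y g) =
          #(((univ.erase (0 : G)) ×ˢ (univ : Finset G)).filter
            fun ω => ω.1 * y f + ω.2 ∈ I ∧ ω.1 * y g + ω.2 ∈ I) := by
        rw [card_filter]
        push_cast
        refine sum_congr rfl fun ω _ => ?_
        simp only [chi, mem_aff]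
        by_cases a : ω.1 * y f + ω.2 ∈ I <;> by_cases b : ω.1 * y g + ω.2 ∈ I <;> simp [a, b]
      have h2 : #(((univ.erase (0 : G)) ×ˢ (univ : Finset G)).filter
            fun ω => ω.1 * y f + ω.2 ∈ I ∧ ω.1 * y g + ω.2 ∈ I) ≤ #(I ×ˢ I) := by
        refine card_le_card_of_injOn (fun ω => (ω.1 * y f + ω.2, ω.1 * y g + ω.2))
          (fun ω hω => ?_) fun ω _ ω' _ e => ?_
        · simp only [coe_filter, Set.mem_ofPred_eq] at hω
          simpa using hω.2
        · simp only [Prod.mk.injEq] at e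
          have a1 : (ω.1 - ω'.1) * (y f - y g) = 0 := by linear_combination e.1 - e.2
          have a2 : ω.1 = ω'.1 := sub_eq_zero.1
            ((mul_eq_zero.1 a1).resolve_right (sub_ne_zero.2 hfg))
          refine Prod.ext a2 ?_
          have := e.1
          rw [a2] at this
          exact add_left_cancel this
      rw [h1, hc]
      rw [card_product] at h2
      have h3 : (#(((univ.erase (0 : G)) ×ˢ (univ : Finset G)).filter
            fun ω => ω.1 * y f + ω.2 ∈ I ∧ ω.1 * y g + ω.2 ∈ I) : ℝ) ≤ #I * #I := by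
        exact_mod_cast h2
      refine h3.trans ?_
      have e : 2 * ((#I : ℝ) / Fintype.card G) ^ 2 * ((Fintype.card G - 1) * Fintype.card G) =
          #I * #I * (2 * (Fintype.card G - 1) / Fintype.card G) := by
        field_simp
      rw [e]
      refine le_mul_of_one_le_right (by positivity) ?_
      rw [le_div_iff₀ (by positivity)]
      linarith) W W2 hW
  exact ⟨ω, (mem_erase.1 (mem_product.1 hω).1).1, h⟩

end Pool.Agent.H234Z.Cov
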