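import Pool.Agent.H234Z.Cov1

/-! Removing huge lines; many collisions on the remaining lines. -/

set_option autoImplicit false

open Finset

namespace Pool.Agent.H234Z.Cov

variable {G : Type} [DecidableEq G]

lemma sum_inter_le (S : G → Finset G) (lam : ℕ) (hS : ∀ y y', y ≠ y' → #(S y ∩ S y') ≤ lam)
    (Y : Finset G) : ∑ y ∈ Y, #(S y) ≤ #(Y.biUnion S) + #Y * #Y * lam := by
  induction Y using Finset.induction_on with
  | empty => simp
  | insert y Y hy ih =>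
    rw [sum_insert hy, biUnion_insert, card_insert_of_notMem hy]
    have h1 := card_union_add_card_inter (S y) (Y.biUnion S)
    have h2 : #(S y ∩ Y.biUnion S) ≤ #Y * lam := by
      rw [inter_biUnion]
      refine card_biUnion_le.trans ?_
      rw [← smul_eq_mul, ← sum_const]
      exact sum_le_sum fun y' hy' => hS _ _ fun e => hy (e ▸ hy')
    nlinarith

lemma huge [Fintype G] (S : G → Finset G) (lam : ℕ) (hS : ∀ y y', y ≠ y' → #(S y ∩ S y') ≤ lam)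
    (T : Finset G) (H b : ℕ) (hb : #T + b * b * lam < b * H) :
    ∃ Y R : Finset G, #R ≤ b * b * lam ∧ (∀ y, y ∉ Y → #(S y ∩ T) ≤ H) ∧
      ∀ t, t ∉ R → ∀ y ∈ Y, ∀ y' ∈ Y, t ∈ S y → t ∈ S y' → y = y' := by
  let Y := univ.filter fun y => H < #(S y ∩ T)
  have hY : #Y ≤ b := by
    by_contra hc
    obtain ⟨Y', h1, h2⟩ := exists_subset_card_eq (s := Y) (n := b) (by omega)
    have h3 := sum_inter_le (fun y => S y ∩ T) lam (fun y y' h =>
      (card_le_card (inter_subset_inter inter_subset_left inter_subset_left)).trans (hS y y' h)) Y'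
    have h4 : #(Y'.biUnion fun y => S y ∩ T) ≤ #T :=
      card_le_card (biUnion_subset.2 fun y _ => inter_subset_right)
    have h5 : ∑ _y ∈ Y', H ≤ ∑ y ∈ Y', #(S y ∩ T) :=
      sum_le_sum fun y hy => (mem_filter.1 (h1 hy)).2.le
    rw [sum_const, smul_eq_mul, h2] at h5
    rw [h2] at h3
    omega
  refine ⟨Y, Y.offDiag.biUnion fun z => S z.1 ∩ S z.2, card_biUnion_le.trans ?_, fun y hy => ?_,
    fun t ht y hy y' hy' h1 h2 => ?_⟩
  · have : ∑ z ∈ Y.offDiag, #(S z.1 ∩ S z.2) ≤ ∑ _z ∈ Y.offDiag, lam :=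
      sum_le_sum fun z hz => hS _ _ (mem_offDiag.1 hz).2.2
    rw [sum_const, smul_eq_mul, offDiag_card] at this
    refine this.trans (Nat.mul_le_mul_right _ ((Nat.sub_le _ _).trans ?_))
    exact Nat.mul_le_mul hY hY
  · simpa [Y] using hy
  · by_contra hc
    exact ht (mem_biUnion.2 ⟨(y, y'), mem_offDiag.2 ⟨hy, hy', hc⟩, mem_inter.2 ⟨h1, h2⟩⟩)

variable [AddCommGroup G] [Fintype G]

/-- the cleaned incidence structure -/
structure Str (A T0 Y : Finset G) (L : G → Finset G) (H : ℕ) : Prop where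
  sub : ∀ x, L x ⊆ T0
  lab : ∀ x, ∀ t ∈ L x, x - t ∈ A
  self : ∀ x, ∀ t ∈ L x, t + t - x ∉ Y
  small : ∀ x, #(L x) ≤ H
  light : ∀ y, y ∉ Y → #(T0.filter (· - y ∈ A)) ≤ H
  uniq : ∀ t ∈ T0, ∀ y ∈ Y, ∀ y' ∈ Y, t - y ∈ A → t - y' ∈ A → y = y'
  exc : ∀ t ∈ T0, ∃ β : Finset G, #β ≤ 2 ∧ ∀ x, x - t ∈ A → x - t ∉ β → t ∈ L x

lemma exists_str (A T : Finset G) (lam H b : ℕ)
    (hA : ∀ d, d ≠ 0 → #(A.filter (· + d ∈ A)) ≤ lam) (hb : #T + b * b * lam < b * H) :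
    ∃ (T0 Y : Finset G) (L : G → Finset G), T0 ⊆ T ∧ #T ≤ #T0 + 2 * (b * b * lam) ∧
      Str A T0 Y L H := by
  obtain ⟨X, R1, a1, a2, a3⟩ := huge (fun x => univ.filter (x - · ∈ A)) lam (fun x x' h => by
    refine le_trans ?_ (hA (x' - x) (sub_ne_zero.2 h.symm))
    refine card_le_card_of_injOn (fun t => x - t) (fun t ht => ?_) fun t _ t' _ e => ?_
    · simp only [coe_inter, coe_filter, mem_univ, true_and, Set.mem_inter_iff,
        Set.mem_ofPred_eq] at ht ⊢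
      exact ⟨ht.1, by rw [show x - t + (x' - x) = x' - t by abel]; exact ht.2⟩
    · exact sub_right_injective e) T H b hb
  obtain ⟨Y, R2, b1, b2, b3⟩ := huge (fun y => univ.filter (· - y ∈ A)) lam (fun x x' h => by
    refine le_trans ?_ (hA (x - x') (sub_ne_zero.2 h))
    refine card_le_card_of_injOn (fun t => t - x) (fun t ht => ?_) fun t _ t' _ e => ?_
    · simp only [coe_inter, coe_filter, mem_univ, true_and, Set.mem_inter_iff,
        Set.mem_ofPred_eq] at ht ⊢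
      exact ⟨ht.1, by rw [show t - x + (x - x') = t - x' by abel]; exact ht.2⟩
    · exact sub_left_injective e) T H b hb
  simp only [mem_filter, mem_univ, true_and] at a3 b3
  refine ⟨T \ (R1 ∪ R2), Y,
    fun x => (T \ (R1 ∪ R2)).filter fun t => x ∉ X ∧ x - t ∈ A ∧ t + t - x ∉ Y, sdiff_subset, ?_,
    ⟨fun x => filter_subset _ _, fun x t ht => (mem_filter.1 ht).2.2.1,
      fun x t ht => (mem_filter.1 ht).2.2.2, fun x => ?_, fun y hy => ?_,
      fun t ht => b3 t fun h => (mem_sdiff.1 ht).2 (mem_union_right _ h), fun t ht => ?_⟩⟩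
  · have h1 := le_card_sdiff (R1 ∪ R2) T
    have h2 := card_union_le R1 R2
    omega
  · by_cases hx : x ∈ X
    · simp [hx]
    · refine le_trans (card_le_card fun t ht => ?_) (a2 x hx)
      simp only [mem_filter, mem_sdiff, mem_inter, mem_univ, true_and] at ht ⊢
      exact ⟨ht.2.2.1, ht.1.1⟩
  · refine le_trans (card_le_card fun t ht => ?_) (b2 y hy)
    simp only [mem_filter, mem_sdiff, mem_inter, mem_univ, true_and] at ht ⊢
    exact ⟨ht.2, ht.1.1⟩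
  · have h1 := a3 t fun h => (mem_sdiff.1 ht).2 (mem_union_left _ h)
    have h2 := b3 t fun h => (mem_sdiff.1 ht).2 (mem_union_right _ h)
    refine ⟨(X.filter (· - t ∈ A)).image (· - t) ∪ (Y.filter (t - · ∈ A)).image (t - ·),
      (card_union_le _ _).trans ?_, fun x hx hβ => ?_⟩
    · have c1 : #(X.filter (· - t ∈ A)) ≤ 1 := card_le_one.2 fun x hx x' hx' =>
        h1 x (mem_filter.1 hx).1 x' (mem_filter.1 hx').1 (mem_filter.1 hx).2 (mem_filter.1 hx').2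
      have c2 : #(Y.filter (t - · ∈ A)) ≤ 1 := card_le_one.2 fun x hx x' hx' =>
        h2 x (mem_filter.1 hx).1 x' (mem_filter.1 hx').1 (mem_filter.1 hx).2 (mem_filter.1 hx').2
      have c3 := card_image_le (s := X.filter (· - t ∈ A)) (f := (· - t))
      have c4 := card_image_le (s := Y.filter (t - · ∈ A)) (f := (t - ·))
      omega
    · rw [mem_union, not_or] at hβ
      refine mem_filter.2 ⟨ht, fun h => hβ.1 ?_, hx, fun h => hβ.2 ?_⟩
      · exact mem_image.2 ⟨x, mem_filter.2 ⟨h, hx⟩, rfl⟩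
      · refine mem_image.2 ⟨t + t - x, mem_filter.2 ⟨h, ?_⟩, by abel⟩
        rw [show t - (t + t - x) = x - t by abel]; exact hx

/-- small samples have many collisions, even after deleting a few elements of `A` -/
def Low (A : Finset G) (m : ℕ) : Prop :=
  ∀ U V B : Finset G, #U = m → #V = m → #B ≤ 4 * m →
    (∀ f ∈ U ×ˢ V, ∀ g ∈ U ×ˢ V, f.1 - f.2 = g.1 - g.2 → f = g) →
    m ^ 2 ≤ 4 * ∑ f ∈ U ×ˢ V,
      #(univ.filter fun x => f.1 ≠ f.2 ∧ x - f.1 ∈ A \ B ∧ x - f.2 ∈ A \ B)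

omit [AddCommGroup G] [Fintype G] in
lemma sum_chi2 (T U V : Finset G) (hU : U ⊆ T) (hV : V ⊆ T) (φ : G × G → ℝ) :
    ∑ f ∈ T ×ˢ T, φ f * chi U f.1 * chi V f.2 = ∑ f ∈ U ×ˢ V, φ f := by
  symm
  rw [← sum_subset (product_subset_product hU hV)]
  · refine sum_congr rfl fun f hf => ?_
    rw [mem_product] at hf
    simp [chi, hf.1, hf.2]
  · intro f _ hf
    rw [mem_product, not_and_or] at hf
    rcases hf with h | h <;> simp [chi, h]

lemma pairs_ge {A T0 Y : Finset G} {L : G → Finset G} {H : ℕ} (S : Str A T0 Y L H) (m : ℕ)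
    (hm : 1 ≤ m) (hm2 : 4000 * m ^ 4 ≤ #T0) (hL : Low A m) :
    248 / 1000 * (#T0 : ℝ) ^ 2 ≤ ∑ x, (#(L x) : ℝ) * (#(L x) - 1) := by
  by_contra hc
  push Not at hc
  have hm1 : (1 : ℝ) ≤ m := by exact_mod_cast hm
  have hm3 : 4000 * (m : ℝ) ^ 4 ≤ #T0 := by exact_mod_cast hm2
  have hm4 : m ≤ #T0 := by
    have : m ≤ m ^ 4 := Nat.le_self_pow (by norm_num) m
    omega
  have hn : (0 : ℝ) < #T0 := by exact_mod_cast (by omega : 0 < #T0)
  set q : ℝ := (m : ℝ) / #T0 with hq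
  have hq0 : 0 ≤ q := by positivity
  let coll : G × G → ℝ := fun f => #(univ.filter fun x => f.1 ≠ f.2 ∧ f.1 ∈ L x ∧ f.2 ∈ L x)
  let conf : G × G → G × G → ℝ := fun f g =>
    if f ≠ g ∧ f.1 - f.2 = g.1 - g.2 then (m : ℝ) ^ 2 else 0
  have hconf : ∀ f g, 0 ≤ conf f g := fun f g => by
    simp only [conf]; split_ifs <;> positivity
  obtain ⟨U, hU, hUc, h1⟩ := sel_sub T0 m hm hm4 (T0 ×ˢ T0) Prod.fst
    (fun f hf => (mem_product.1 hf).1) (fun f => -coll f * q)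
    (fun f g => conf f g * kap q f.2 g.2) fun f g => mul_nonneg (hconf _ _) (kap_nonneg hq0 _ _)
  obtain ⟨V, hV, hVc, h2⟩ := sel_sub T0 m hm hm4 (T0 ×ˢ T0) Prod.snd
    (fun f hf => (mem_product.1 hf).2) (fun f => -coll f * chi U f.1)
    (fun f g => conf f g * (chi U f.1 * chi U g.1))
    fun f g => mul_nonneg (hconf _ _) (mul_nonneg (chi_nonneg _ _) (chi_nonneg _ _))
  rw [← hq] at h1 h2
  have e1 : ∑ f ∈ T0 ×ˢ T0, -coll f * q * chi U f.1 = ∑ f ∈ T0 ×ˢ T0, -coll f * chi U f.1 * q :=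
    sum_congr rfl fun f _ => by ring
  have e2 : ∑ f ∈ T0 ×ˢ T0, ∑ g ∈ T0 ×ˢ T0, conf f g * kap q f.2 g.2 * (chi U f.1 * chi U g.1) =
      ∑ f ∈ T0 ×ˢ T0, ∑ g ∈ T0 ×ˢ T0, conf f g * (chi U f.1 * chi U g.1) * kap q f.2 g.2 :=
    sum_congr rfl fun f _ => sum_congr rfl fun g _ => by ring
  have e3 : ∑ f ∈ T0 ×ˢ T0, ∑ g ∈ T0 ×ˢ T0,
      conf f g * (chi U f.1 * chi U g.1) * (chi V f.2 * chi V g.2) =
      ∑ f ∈ U ×ˢ V, ∑ g ∈ U ×ˢ V, conf f g := by
    rw [← sum_chi2 T0 U V hU hV]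
    refine sum_congr rfl fun f _ => ?_
    rw [← sum_chi2 T0 U V hU hV, sum_mul, sum_mul]
    exact sum_congr rfl fun g _ => by ring
  rw [e1, e2] at h1
  rw [sum_chi2 T0 U V hU hV, e3] at h2
  have h3 := h1.trans h2
  have e4 : ∑ f ∈ T0 ×ˢ T0, coll f = ∑ x, (#(L x) : ℝ) * (#(L x) - 1) := by
    simp only [coll, card_filter]
    push_cast
    rw [sum_comm]
    refine sum_congr rfl fun x _ => ?_
    have : (#((T0 ×ˢ T0).filter fun f => f.1 ≠ f.2 ∧ f.1 ∈ L x ∧ f.2 ∈ L x) : ℝ) =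
        (#(L x) : ℝ) * (#(L x) - 1) := by
      have e : ((T0 ×ˢ T0).filter fun f => f.1 ≠ f.2 ∧ f.1 ∈ L x ∧ f.2 ∈ L x) = (L x).offDiag := by
        ext f
        simp only [mem_filter, mem_product, mem_offDiag]
        exact ⟨fun h => ⟨h.2.2.1, h.2.2.2, h.2.1⟩,
          fun h => ⟨⟨S.sub x h.1, S.sub x h.2.1⟩, h.2.2, h.1, h.2.1⟩⟩
      rw [e, offDiag_card, Nat.cast_sub (Nat.le_mul_self _)]
      push_cast; ring
    rw [← this, card_filter]
    push_cast; rfl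
  have e5 : ∑ f ∈ T0 ×ˢ T0, -coll f * q * q = -(q ^ 2 * ∑ x, (#(L x) : ℝ) * (#(L x) - 1)) := by
    rw [← e4, mul_sum, ← sum_neg_distrib]
    exact sum_congr rfl fun f _ => by ring
  have e6 : ∑ f ∈ T0 ×ˢ T0, ∑ g ∈ T0 ×ˢ T0, conf f g * kap q f.2 g.2 * kap q f.1 g.1 ≤
      (#T0 : ℝ) ^ 3 * ((m : ℝ) ^ 2 * (2 * q ^ 2) * (2 * q ^ 2)) := by
    have : ∀ f ∈ T0 ×ˢ T0, ∑ g ∈ T0 ×ˢ T0, conf f g * kap q f.2 g.2 * kap q f.1 g.1 ≤
        (#T0 : ℝ) * ((m : ℝ) ^ 2 * (2 * q ^ 2) * (2 * q ^ 2)) := by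
      intro f _
      rw [sum_product, ← nsmul_eq_mul, ← sum_const]
      refine sum_le_sum fun u _ => ?_
      have a1 : ∀ v ∈ T0, conf f (u, v) * kap q f.2 v * kap q f.1 u ≤
          if v = u - (f.1 - f.2) then (m : ℝ) ^ 2 * (2 * q ^ 2) * (2 * q ^ 2) else 0 := by
        intro v _
        simp only [conf]
        by_cases h : f ≠ (u, v) ∧ f.1 - f.2 = u - v
        · have b1 : f.2 ≠ v := fun e => h.1 (Prod.ext (by
            have := h.2; rw [e] at this; exact sub_left_injective this) e)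
          have b2 : f.1 ≠ u := fun e => h.1 (Prod.ext e (by
            have := h.2; rw [e] at this; exact sub_right_injective this))
          rw [if_pos h, if_pos (by rw [h.2]; abel), kap, kap, if_neg b1, if_neg b2]
        · rw [if_neg h, zero_mul, zero_mul]
          split_ifs <;> positivity
      refine (sum_le_sum a1).trans ?_
      rw [sum_ite_eq']
      split_ifs
      · exact le_rfl
      · positivity
    refine (sum_le_sum this).trans (le_of_eq ?_)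
    rw [sum_const, card_product, nsmul_eq_mul]
    push_cast; ring
  have e7 : (#T0 : ℝ) ^ 3 * ((m : ℝ) ^ 2 * (2 * q ^ 2) * (2 * q ^ 2)) ≤ (m : ℝ) ^ 2 / 1000 := by
    have : (#T0 : ℝ) ^ 3 * ((m : ℝ) ^ 2 * (2 * q ^ 2) * (2 * q ^ 2)) =
        (m : ℝ) ^ 2 * (4 * (m : ℝ) ^ 4 / #T0) := by
      rw [hq]; field_simp; ring
    rw [this, div_eq_mul_one_div _ (1000 : ℝ)]
    refine mul_le_mul_of_nonneg_left ?_ (by positivity)
    rw [div_le_iff₀ hn]; linarith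
  have e8 : q ^ 2 * ∑ x, (#(L x) : ℝ) * (#(L x) - 1) ≤ 248 / 1000 * (m : ℝ) ^ 2 := by
    have : q ^ 2 * (248 / 1000 * (#T0 : ℝ) ^ 2) = 248 / 1000 * (m : ℝ) ^ 2 := by
      rw [hq]; field_simp
    rw [← this]
    gcongr
  rw [e5, sum_neg_distrib] at h3
  have h4 : ∑ f ∈ U ×ˢ V, coll f + ∑ f ∈ U ×ˢ V, ∑ g ∈ U ×ˢ V, conf f g ≤
      249 / 1000 * (m : ℝ) ^ 2 := by linarith
  have h5 : 0 ≤ ∑ f ∈ U ×ˢ V, coll f := sum_nonneg fun f _ => by positivity
  have h6 : 0 ≤ ∑ f ∈ U ×ˢ V, ∑ g ∈ U ×ˢ V, conf f g :=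
    sum_nonneg fun f _ => sum_nonneg fun g _ => hconf _ _
  have hm5 : (0 : ℝ) < (m : ℝ) ^ 2 := by positivity
  choose! β hβ1 hβ2 using S.exc
  have h7 := hL U V ((U ∪ V).biUnion β) hUc hVc (by
      refine card_biUnion_le.trans ?_
      have a1 : ∑ t ∈ U ∪ V, #(β t) ≤ ∑ _t ∈ U ∪ V, 2 :=
        sum_le_sum fun t ht => hβ1 t (union_subset hU hV ht)
      rw [sum_const, smul_eq_mul] at a1
      have := card_union_le U V
      omega)
    (fun f hf g hg e => by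
      by_contra hne
      have a1 : conf f g ≤ ∑ g ∈ U ×ˢ V, conf f g := single_le_sum (fun g _ => hconf f g) hg
      have a2 : ∑ g ∈ U ×ˢ V, conf f g ≤ ∑ f ∈ U ×ˢ V, ∑ g ∈ U ×ˢ V, conf f g :=
        single_le_sum (f := fun f => ∑ g ∈ U ×ˢ V, conf f g)
          (fun f _ => sum_nonneg fun g _ => hconf f g) hf
      have a3 : conf f g = (m : ℝ) ^ 2 := if_pos ⟨hne, e⟩
      linarith)
  have h8 : ((∑ f ∈ U ×ˢ V, #(univ.filter fun x => f.1 ≠ f.2 ∧
      x - f.1 ∈ A \ (U ∪ V).biUnion β ∧ x - f.2 ∈ A \ (U ∪ V).biUnion β) : ℕ) : ℝ) ≤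
      ∑ f ∈ U ×ˢ V, coll f := by
    push_cast
    refine sum_le_sum fun f hf => ?_
    rw [mem_product] at hf
    simp only [coll]
    refine Nat.cast_le.2 (card_le_card fun x hx => ?_)
    simp only [mem_filter, mem_univ, true_and, mem_sdiff, mem_biUnion, not_exists, not_and] at hx ⊢
    exact ⟨hx.1, hβ2 _ (hU hf.1) x hx.2.1.1 (hx.2.1.2 _ (mem_union_left _ hf.1)),
      hβ2 _ (hV hf.2) x hx.2.2.1 (hx.2.2.2 _ (mem_union_right _ hf.2))⟩
  have h9 : ((m ^ 2 : ℕ) : ℝ) ≤ ((4 * ∑ f ∈ U ×ˢ V, #(univ.filter fun x => f.1 ≠ f.2 ∧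
      x - f.1 ∈ A \ (U ∪ V).biUnion β ∧ x - f.2 ∈ A \ (U ∪ V).biUnion β) : ℕ) : ℝ) :=
    Nat.cast_le.2 h7
  rw [Nat.cast_mul, Nat.cast_pow] at h9
  norm_num only at h9
  linarith

end Pool.Agent.H234Z.Cov
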