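import Pool.Agent.H234Z.Cov2

/-! Collinear triples: a lower count, and an upper bound by sampling. -/

set_option autoImplicit false

open Finset

namespace Pool.Agent.H234Z.Cov

variable {G : Type} [DecidableEq G] [Field G] [Fintype G]

/-- labels of a collinear triple -/
def lab3 (f : G × (Fin 3 → G)) : Finset G := univ.image fun l => f.1 - f.2 l

/-- candidate triples on a sample -/
noncomputable def cand (X : Finset G) (V : Fin 3 → Finset G) : Finset (G × (Fin 3 → G)) :=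
  (X ×ˢ Fintype.piFinset V).filter fun f => ∀ i j, i ≠ j → f.2 i ≠ f.2 j

/-- good triples on lines of size at most `s` -/
noncomputable def tri (Y : Finset G) (L : G → Finset G) (s : ℕ) : Finset (G × (Fin 3 → G)) :=
  univ.filter fun f => #(L f.1) ≤ s ∧ (∀ l, f.2 l ∈ L f.1) ∧
    ∀ i j, i ≠ j → f.2 i ≠ f.2 j ∧ f.2 i + f.2 j - f.1 ∉ Y

omit [Fintype G] in
lemma card_lab3 (f : G × (Fin 3 → G)) (h : ∀ i j, i ≠ j → f.2 i ≠ f.2 j) : #(lab3 f) = 3 := by
  unfold lab3
  rw [card_image_of_injective _ fun i j e => by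
    by_contra hc
    exact h i j hc (sub_right_injective e)]
  simp

variable {A T0 Y : Finset G} {L : G → Finset G} {H : ℕ}

lemma tri_ge (S : Str A T0 Y L H) (s : ℕ) :
    ∑ x ∈ univ.filter (fun x => #(L x) ≤ s), #(L x) * ((#(L x) - 2) * (#(L x) - 4)) ≤
      #(tri Y L s) := by
  let bad : G → G → Finset G := fun x a => (L x).filter fun b => b = a ∨ a + b - x ∈ Y
  have hbad : ∀ x, ∀ a ∈ L x, #(bad x a) ≤ 2 := by
    intro x a ha
    have h1 : bad x a ⊆ insert a ((L x).filter fun b => a + b - x ∈ Y) := by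
      intro b hb
      simp only [bad, mem_filter, mem_insert] at hb ⊢
      tauto
    have h2 : #((L x).filter fun b => a + b - x ∈ Y) ≤ 1 := by
      refine card_le_one.2 fun b hb c hc => ?_
      rw [mem_filter] at hb hc
      have := S.uniq a (S.sub x ha) _ hb.2 _ hc.2
        (by rw [show a - (a + b - x) = x - b by abel]; exact S.lab x b hb.1)
        (by rw [show a - (a + c - x) = x - c by abel]; exact S.lab x c hc.1)
      exact add_left_cancel (sub_left_injective this)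
    exact (card_le_card h1).trans ((card_insert_le _ _).trans (by omega))
  let P := (univ.filter fun x => #(L x) ≤ s).sigma fun x => (L x).sigma fun a =>
    (L x \ bad x a).sigma fun b => L x \ (bad x a ∪ bad x b)
  have h1 : #P ≤ #(tri Y L s) := by
    refine card_le_card_of_injOn (fun z => (z.1, ![z.2.1, z.2.2.1, z.2.2.2])) (fun z hz => ?_) ?_
    · obtain ⟨x, a, b, c⟩ := z
      simp only [P, bad, coe_sigma, Set.mem_sigma_iff, coe_filter, mem_univ, true_and,
        Set.mem_ofPred_eq, mem_coe, mem_sdiff, mem_filter, mem_union, not_or, not_and] at hz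
      obtain ⟨h0, ha, ⟨hb, hb'⟩, hc, hc1, hc2⟩ := hz
      have b1 := hb' hb
      have c1 := hc1 hc
      have c2 := hc2 hc
      simp only [tri, coe_filter, mem_univ, true_and, Set.mem_ofPred_eq]
      refine ⟨h0, fun l => ?_, fun i j hij => ?_⟩
      · fin_cases l <;> simpa
      · fin_cases i <;> fin_cases j <;> simp at hij ⊢
        · exact ⟨Ne.symm b1.1, b1.2⟩
        · exact ⟨Ne.symm c1.1, c1.2⟩
        · exact ⟨b1.1, by rw [add_comm]; exact b1.2⟩
        · exact ⟨Ne.symm c2.1, c2.2⟩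
        · exact ⟨c1.1, by rw [add_comm]; exact c1.2⟩
        · exact ⟨c2.1, by rw [add_comm]; exact c2.2⟩
    · rintro ⟨x, a, b, c⟩ _ ⟨x', a', b', c'⟩ _ e
      simp only [Prod.mk.injEq] at e
      obtain ⟨rfl, e⟩ := e
      have e0 := congrFun e 0
      have e1 := congrFun e 1
      have e2 := congrFun e 2
      simp only [Matrix.cons_val_zero, Matrix.cons_val_one, Matrix.cons_val] at e0 e1 e2
      subst e0 e1 e2
      rfl
  refine le_trans ?_ h1
  rw [card_sigma]
  refine sum_le_sum fun x _ => ?_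
  rw [card_sigma, ← smul_eq_mul, ← sum_const]
  refine sum_le_sum fun a ha => ?_
  rw [card_sigma]
  have h2 := le_card_sdiff (bad x a) (L x)
  have h3 := hbad x a ha
  calc _ ≤ #(L x \ bad x a) * (#(L x) - 4) := Nat.mul_le_mul_right _ (by omega)
    _ = ∑ _b ∈ L x \ bad x a, (#(L x) - 4) := by rw [sum_const, smul_eq_mul]
    _ ≤ _ := by
      refine sum_le_sum fun b hb => ?_
      have h4 := le_card_sdiff (bad x a ∪ bad x b) (L x)
      have h5 := hbad x b (mem_sdiff.1 hb).1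
      have h6 := card_union_le (bad x a) (bad x b)
      omega

lemma cnt (s : ℕ) (X : Finset G) (J : Finset (Fin 3)) (φ : Fin 3 → G → G)
    (P : Finset (G × (Fin 3 → G))) (hP : P ⊆ tri Y L s)
    (h : ∀ g ∈ P, g.1 ∈ X ∧ ∀ l ∈ J, g.2 l = φ l g.1) : #P ≤ #X * s ^ (3 - #J) := by
  rw [card_eq_sum_card_fiberwise (f := Prod.fst) (t := X) fun g hg => (h g hg).1,
    ← smul_eq_mul, ← sum_const]
  refine sum_le_sum fun x _ => ?_
  by_cases hx : #(L x) ≤ s
  · have h1 : #(P.filter fun g => g.1 = x) ≤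
        #(Fintype.piFinset fun l => if l ∈ J then {φ l x} else L x) := by
      refine card_le_card_of_injOn Prod.snd (fun g hg => ?_) fun g hg g' hg' e => ?_
      · rw [mem_coe, mem_filter] at hg
        rw [mem_coe, Fintype.mem_piFinset]
        intro l
        split_ifs with hl
        · rw [mem_singleton, (h g hg.1).2 l hl, hg.2]
        · rw [← hg.2]; exact (mem_filter.1 (hP hg.1)).2.2.1 l
      · rw [mem_coe, mem_filter] at hg hg'
        exact Prod.ext (hg.2.trans hg'.2.symm) e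
    refine h1.trans ?_
    rw [Fintype.card_piFinset]
    have h2 : ∏ l, #(if l ∈ J then {φ l x} else L x) ≤ ∏ l, if l ∈ J then 1 else s := by
      refine prod_le_prod' fun l _ => ?_
      split_ifs
      · simp
      · exact hx
    refine h2.trans (le_of_eq ?_)
    rw [prod_ite, prod_const_one, one_mul, prod_const]
    congr 1
    rw [filter_not, card_sdiff_of_subset (filter_subset _ _)]
    simp
  · have : (P.filter fun g => g.1 = x) = ∅ := by
      rw [filter_eq_empty_iff]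
      intro g hg e
      exact hx (e ▸ (mem_filter.1 (hP hg)).2.1)
    rw [this]; simp

/-- conflicting triples that agree on the places in `J` -/
noncomputable def nb (Y : Finset G) (L : G → Finset G) (s : ℕ) (f : G × (Fin 3 → G))
    (J : Finset (Fin 3)) : Finset (G × (Fin 3 → G)) :=
  (tri Y L s).filter fun g => ¬ Disjoint (lab3 f) (lab3 g) ∧ ∀ l ∈ J, g.2 l = f.2 l

lemma nb_le (S : Str A T0 Y L H) (s : ℕ) (f : G × (Fin 3 → G)) (J : Finset (Fin 3)) (Z : ℕ)
    (hZ : ∀ i, #(univ.filter fun x => x - (f.1 - f.2 i) ∈ T0 ∧ ∀ l ∈ J, x - f.2 l ∈ A) ≤ Z) :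
    #(nb Y L s f J) ≤ 9 * (s ^ (3 - #J) + if J = univ then 0 else Z * s ^ (2 - #J)) := by
  have h1 : nb Y L s f J ⊆ (univ : Finset (Fin 3 × Fin 3)).biUnion fun ij =>
      (nb Y L s f J).filter fun g => f.1 - f.2 ij.1 = g.1 - g.2 ij.2 := by
    intro g hg
    have h2 := (mem_filter.1 hg).2.1
    rw [not_disjoint_iff] at h2
    obtain ⟨a, h3, h4⟩ := h2
    obtain ⟨i, -, rfl⟩ := mem_image.1 h3
    obtain ⟨j, -, h5⟩ := mem_image.1 h4
    exact mem_biUnion.2 ⟨(i, j), mem_univ _, mem_filter.2 ⟨hg, h5.symm⟩⟩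
  refine (card_le_card h1).trans (card_biUnion_le.trans ?_)
  have h9 : (9 : ℕ) = #(univ : Finset (Fin 3 × Fin 3)) := by simp
  rw [h9, ← smul_eq_mul, ← sum_const]
  refine sum_le_sum fun ij _ => ?_
  obtain ⟨i, j⟩ := ij
  have hsub : ((nb Y L s f J).filter fun g => f.1 - f.2 i = g.1 - g.2 j) ⊆ tri Y L s :=
    (filter_subset _ _).trans (filter_subset _ _)
  by_cases hj : j ∈ J
  · have := cnt s {f.1 - f.2 i + f.2 j} J (fun l _ => f.2 l) _ hsub fun g hg => by
      rw [mem_filter] at hg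
      have a1 := (mem_filter.1 hg.1).2.2
      refine ⟨?_, a1⟩
      rw [mem_singleton, hg.2, a1 j hj]; ring
    rw [card_singleton, one_mul] at this
    exact this.trans (Nat.le_add_right _ _)
  · have := cnt s (univ.filter fun x => x - (f.1 - f.2 i) ∈ T0 ∧ ∀ l ∈ J, x - f.2 l ∈ A)
      (insert j J) (fun l x => if l = j then x - (f.1 - f.2 i) else f.2 l) _ hsub fun g hg => by
      rw [mem_filter] at hg
      have a1 := (mem_filter.1 hg.1).2.2
      have a2 := (mem_filter.1 (mem_filter.1 hg.1).1).2.2.1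
      refine ⟨mem_filter.2 ⟨mem_univ _, ?_, fun l hl => ?_⟩, fun l hl => ?_⟩
      · rw [hg.2, sub_sub_cancel]; exact S.sub _ (a2 j)
      · rw [← a1 l hl]; exact S.lab _ _ (a2 l)
      · split_ifs with h
        · rw [h, hg.2, sub_sub_cancel]
        · exact a1 l ((mem_insert.1 hl).resolve_left h)
    rw [card_insert_of_notMem hj, show 3 - (#J + 1) = 2 - #J by omega] at this
    rw [if_neg (fun e : J = univ => hj (e ▸ mem_univ _))]
    refine this.trans (le_trans ?_ (Nat.le_add_left _ _))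
    exact Nat.mul_le_mul_right _ (hZ i)

/-- bounds for the number of conflicts -/
def bd (n H lam s : ℕ) : ℕ → ℕ
  | 0 => 9 * (s ^ 3 + n * s ^ 2)
  | 1 => 9 * (s ^ 2 + H * s)
  | 2 => lam * s
  | _ => 9

lemma nb_bd (S : Str A T0 Y L H) (lam : ℕ) (hA : ∀ d, d ≠ 0 → #(A.filter (· + d ∈ A)) ≤ lam)
    (s : ℕ) (f : G × (Fin 3 → G)) (hf : f ∈ tri Y L s) (J : Finset (Fin 3)) :
    #(nb Y L s f J) ≤ bd (#T0) H lam s #J := by
  obtain ⟨-, -, f1, f2⟩ := mem_filter.1 hf
  have h3 : #J ≤ 3 := by simpa using card_le_univ J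
  have h0 : ∀ i, #(univ.filter fun x => x - (f.1 - f.2 i) ∈ T0 ∧ ∀ l ∈ J, x - f.2 l ∈ A) ≤ #T0 :=
    fun i => card_le_card_of_injOn (fun x => x - (f.1 - f.2 i))
      (fun x hx => (mem_filter.1 hx).2.1) fun x _ y _ e => sub_left_injective e
  rcases hJ : #J with _ | _ | _ | c
  · have := nb_le S s f J _ h0
    rw [hJ, if_neg (by rintro rfl; simp at hJ)] at this
    exact this
  · obtain ⟨h, rfl⟩ := card_eq_one.1 hJ
    have := nb_le S s f {h} H fun i => by
      refine le_trans ?_ (S.light (f.2 h + f.2 i - f.1) ?_)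
      · refine card_le_card_of_injOn (fun x => x - (f.1 - f.2 i)) (fun x hx => ?_)
          fun x _ y _ e => sub_left_injective e
        rw [mem_coe, mem_filter] at hx ⊢
        refine ⟨hx.2.1, ?_⟩
        rw [show x - (f.1 - f.2 i) - (f.2 h + f.2 i - f.1) = x - f.2 h by ring]
        exact hx.2.2 h (mem_singleton_self _)
      · by_cases e : h = i
        · subst e; exact S.self _ _ (f1 h)
        · exact (f2 h i e).2
    rw [hJ, if_neg (by intro e; rw [e] at hJ; simp at hJ)] at this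
    simpa [bd] using this
  · obtain ⟨h, h', hne, rfl⟩ := card_eq_two.1 hJ
    have := cnt s (univ.filter fun x => x - f.2 h ∈ A ∧ x - f.2 h' ∈ A) {h, h'}
      (fun l _ => f.2 l) (nb Y L s f {h, h'}) (filter_subset _ _) fun g hg => by
        have a1 := (mem_filter.1 hg).2.2
        have a2 := (mem_filter.1 (mem_filter.1 hg).1).2.2.1
        refine ⟨mem_filter.2 ⟨mem_univ _, ?_, ?_⟩, a1⟩
        · rw [← a1 h (by simp)]; exact S.lab _ _ (a2 h)
        · rw [← a1 h' (by simp)]; exact S.lab _ _ (a2 h')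
    rw [hJ] at this
    refine this.trans ?_
    simp only [bd, zero_add, Nat.reduceAdd, Nat.reduceSub, pow_one]
    refine Nat.mul_le_mul_right _ (le_trans ?_ (hA (f.2 h - f.2 h') (sub_ne_zero.2 (f2 h h' hne).1)))
    refine card_le_card_of_injOn (fun x => x - f.2 h) (fun x hx => ?_)
      fun x _ y _ e => sub_left_injective e
    rw [mem_coe, mem_filter] at hx ⊢
    exact ⟨hx.2.1, by rw [sub_add_sub_cancel]; exact hx.2.2⟩
  · have hu : J = univ := (card_eq_iff_eq_univ J).1 (by simp; omega)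
    have := nb_le S s f J _ h0
    rw [if_pos hu, hJ, show 3 - (c + 1 + 1 + 1) = 0 by omega] at this
    simpa [bd] using this

omit [Field G] [Fintype G] in
lemma kap_le {q : ℝ} (hq : 0 ≤ q) (a b : G) :
    kap q a b ≤ q * ((if b = a then 1 else 0) + 2 * q) := by
  unfold kap
  by_cases h : a = b
  · rw [if_pos h, if_pos h.symm]; nlinarith
  · rw [if_neg h, if_neg (Ne.symm h)]; nlinarith

lemma conf_le (S : Str A T0 Y L H) (lam : ℕ) (hA : ∀ d, d ≠ 0 → #(A.filter (· + d ∈ A)) ≤ lam)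
    (s : ℕ) (f : G × (Fin 3 → G)) (hf : f ∈ tri Y L s) (ρ q δ : ℝ) (hρ : 0 ≤ ρ) (hρ1 : ρ ≤ 1 / 2)
    (hq : 0 ≤ q) (hδ : 18 * ρ + ((2 * q) ^ 3 * (9 * (s ^ 3 + #T0 * s ^ 2)) +
      3 * ((2 * q) ^ 2 * (9 * (s ^ 2 + H * s))) + 3 * (2 * q * (lam * s))) ≤ δ) :
    ∑ g ∈ tri Y L s, (if Disjoint (lab3 f) (lab3 g) then (0 : ℝ) else 1) *
      (kap q (f.2 0) (g.2 0) * kap q (f.2 1) (g.2 1) * kap q (f.2 2) (g.2 2)) * kap ρ f.1 g.1 ≤
      ρ * q ^ 3 * (1 + δ) := by
  have h1 : ∀ g ∈ tri Y L s, (if Disjoint (lab3 f) (lab3 g) then (0 : ℝ) else 1) *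
      (kap q (f.2 0) (g.2 0) * kap q (f.2 1) (g.2 1) * kap q (f.2 2) (g.2 2)) * kap ρ f.1 g.1 ≤
      q ^ 3 * ∑ J ∈ (univ : Finset (Fin 3)).powerset, (2 * q) ^ (3 - #J) *
        (if g ∈ nb Y L s f J then kap ρ f.1 g.1 else 0) := by
    intro g hg
    have hk := kap_nonneg hρ f.1 g.1
    by_cases hd : Disjoint (lab3 f) (lab3 g)
    · rw [if_pos hd, zero_mul, zero_mul]
      refine mul_nonneg (by positivity) (sum_nonneg fun J _ => mul_nonneg (by positivity) ?_)
      split_ifs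
      · exact hk
      · exact le_rfl
    · rw [if_neg hd, one_mul]
      have a1 : kap q (f.2 0) (g.2 0) * kap q (f.2 1) (g.2 1) * kap q (f.2 2) (g.2 2) ≤
          q ^ 3 * ∏ l, ((if g.2 l = f.2 l then (1 : ℝ) else 0) + 2 * q) := by
        rw [← Fin.prod_univ_three fun l => kap q (f.2 l) (g.2 l)]
        refine (prod_le_prod (fun l _ => kap_nonneg hq _ _) fun l _ => kap_le hq _ _).trans ?_
        rw [prod_mul_distrib]; simp
      refine (mul_le_mul_of_nonneg_right a1 hk).trans (le_of_eq ?_)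
      rw [mul_assoc, prod_add, sum_mul]
      congr 1
      refine sum_congr rfl fun J _ => ?_
      rw [prod_const, card_sdiff_of_subset (subset_univ _), card_univ, Fintype.card_fin,
        prod_ite_zero, prod_const_one]
      have : g ∈ nb Y L s f J ↔ ∀ l ∈ J, g.2 l = f.2 l := by
        unfold nb; rw [mem_filter]; tauto
      simp only [this]
      split_ifs <;> ring
  refine (sum_le_sum h1).trans ?_
  rw [← mul_sum, sum_comm]
  have h2 : ∀ J ∈ (univ : Finset (Fin 3)).powerset, ∑ g ∈ tri Y L s, (2 * q) ^ (3 - #J) *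
      (if g ∈ nb Y L s f J then kap ρ f.1 g.1 else 0) ≤
      (fun c => (2 * q) ^ (3 - c) *
        (if c = 3 then ρ * (1 + 18 * ρ) else ρ * bd (#T0) H lam s c)) #J := by
    intro J _
    rw [← mul_sum, sum_ite_mem, 
      inter_eq_right.2 (show nb Y L s f J ⊆ tri Y L s from filter_subset _ _)]
    refine mul_le_mul_of_nonneg_left ?_ (by positivity)
    have hb : (#(nb Y L s f J) : ℝ) ≤ bd (#T0) H lam s #J := by
      exact_mod_cast nb_bd S lam hA s f hf J
    split_ifs with h3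
    · have hu : J = univ := (card_eq_iff_eq_univ J).1 (by simpa using h3)
      rw [h3] at hb
      refine (sum_le_sum fun g _ => kap_le hρ f.1 g.1).trans ?_
      rw [← mul_sum, sum_add_distrib, sum_const, nsmul_eq_mul]
      have a1 : ∑ g ∈ nb Y L s f J, (if g.1 = f.1 then (1 : ℝ) else 0) ≤ 1 := by
        rw [sum_boole]
        have : #((nb Y L s f J).filter fun g => g.1 = f.1) ≤ 1 := by
          refine card_le_one.2 fun g hg g' hg' => ?_
          rw [mem_filter] at hg hg'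
          refine Prod.ext (hg.2.trans hg'.2.symm) (funext fun l => ?_)
          rw [(mem_filter.1 hg.1).2.2 l (hu ▸ mem_univ _),
            (mem_filter.1 hg'.1).2.2 l (hu ▸ mem_univ _)]
        exact_mod_cast this
      have a2 : (bd (#T0) H lam s 3 : ℝ) = 9 := by simp [bd]
      rw [a2] at hb
      refine mul_le_mul_of_nonneg_left ?_ hρ
      nlinarith
    · have a1 : ∀ g ∈ nb Y L s f J, kap ρ f.1 g.1 ≤ ρ := by
        intro g _
        unfold kap
        split_ifs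
        · exact le_rfl
        · nlinarith
      refine (sum_le_sum a1).trans ?_
      rw [sum_const, nsmul_eq_mul, mul_comm]
      gcongr
  refine (mul_le_mul_of_nonneg_left (sum_le_sum h2) (by positivity)).trans ?_
  rw [sum_powerset_apply_card fun c => (2 * q) ^ (3 - c) *
        (if c = 3 then ρ * (1 + 18 * ρ) else ρ * bd (#T0) H lam s c)]
  simp only [card_univ, Fintype.card_fin, sum_range_succ, sum_range_zero, bd]
  norm_num [Nat.choose]
  have : 0 ≤ ρ * q ^ 3 := by positivity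
  nlinarith

omit [Field G] [Fintype G] in
lemma sum_chi4 (F : Finset (G × (Fin 3 → G))) (X V0 V1 V2 : Finset G) (φ : G × (Fin 3 → G) → ℝ) :
    ∑ f ∈ F, φ f * (chi X f.1 * chi V0 (f.2 0) * chi V1 (f.2 1) * chi V2 (f.2 2)) =
      ∑ f ∈ F.filter (fun f => f.1 ∈ X ∧ f.2 0 ∈ V0 ∧ f.2 1 ∈ V1 ∧ f.2 2 ∈ V2), φ f := by
  rw [sum_filter]
  refine sum_congr rfl fun f _ => ?_
  unfold chi
  by_cases a : f.1 ∈ X <;> by_cases b : f.2 0 ∈ V0 <;> by_cases c : f.2 1 ∈ V1 <;>
    by_cases d : f.2 2 ∈ V2 <;> simp [a, b, c, d]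

theorem tri_lt (S : Str A T0 Y L H) (lam : ℕ) (hA : ∀ d, d ≠ 0 → #(A.filter (· + d ∈ A)) ≤ lam)
    (s v M : ℕ) (hv0 : 1 ≤ v) (hv : v ≤ #T0) (I : Finset G) (δ : ℝ)
    (hρ1 : (#I : ℝ) / Fintype.card G ≤ 1 / 2)
    (hδ : 18 * ((#I : ℝ) / Fintype.card G) + ((2 * ((v : ℝ) / #T0)) ^ 3 * (9 * (s ^ 3 + #T0 * s ^ 2)) +
      3 * ((2 * ((v : ℝ) / #T0)) ^ 2 * (9 * (s ^ 2 + H * s))) +
      3 * (2 * ((v : ℝ) / #T0) * (lam * s))) ≤ δ)
    (hP : ∀ ω : G × G, ω.1 ≠ 0 → ∀ V : Fin 3 → Finset G, (∀ l, #(V l) = v) →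
      ¬ Pack (cand (aff I ω) V) lab3 M A) :
    (#I : ℝ) / Fintype.card G * ((v : ℝ) / #T0) ^ 3 * (1 - δ) * #(tri Y L s) < M := by
  set ρ : ℝ := (#I : ℝ) / Fintype.card G with hρ
  set q : ℝ := (v : ℝ) / #T0 with hq
  have hρ0 : 0 ≤ ρ := by positivity
  have hq0 : 0 ≤ q := by positivity
  set F := tri Y L s with hF
  let c : G × (Fin 3 → G) → G × (Fin 3 → G) → ℝ := fun f g =>
    if Disjoint (lab3 f) (lab3 g) then 0 else 1
  have hc : ∀ f g, 0 ≤ c f g := fun f g => by simp only [c]; split_ifs <;> norm_num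
  have hT : ∀ l, ∀ f ∈ F, f.2 l ∈ T0 := fun l f hf => S.sub _ ((mem_filter.1 hf).2.2.1 l)
  have k0 := fun a b : G => kap_nonneg hq0 a b
  have c0 := fun (V : Finset G) (a : G) => chi_nonneg V a
  obtain ⟨ω, hω, h1⟩ := sel_aff I F Prod.fst (fun _ => 2 * q ^ 3)
    (fun f g => c f g * (kap q (f.2 0) (g.2 0) * kap q (f.2 1) (g.2 1) * kap q (f.2 2) (g.2 2)))
    fun f g => mul_nonneg (hc _ _) (mul_nonneg (mul_nonneg (k0 _ _) (k0 _ _)) (k0 _ _))
  set X := aff I ω
  obtain ⟨V0, -, v0, h2⟩ := sel_sub T0 v hv0 hv F (fun f => f.2 0) (hT 0)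
    (fun f => 2 * q ^ 2 * chi X f.1)
    (fun f g => c f g * (kap q (f.2 1) (g.2 1) * kap q (f.2 2) (g.2 2)) * (chi X f.1 * chi X g.1))
    fun f g => mul_nonneg (mul_nonneg (hc _ _) (mul_nonneg (k0 _ _) (k0 _ _)))
      (mul_nonneg (c0 _ _) (c0 _ _))
  obtain ⟨V1, -, v1, h3⟩ := sel_sub T0 v hv0 hv F (fun f => f.2 1) (hT 1)
    (fun f => 2 * q * chi X f.1 * chi V0 (f.2 0))
    (fun f g => c f g * kap q (f.2 2) (g.2 2) * (chi X f.1 * chi X g.1) *
      (chi V0 (f.2 0) * chi V0 (g.2 0)))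
    fun f g => mul_nonneg (mul_nonneg (mul_nonneg (hc _ _) (k0 _ _))
      (mul_nonneg (c0 _ _) (c0 _ _))) (mul_nonneg (c0 _ _) (c0 _ _))
  obtain ⟨V2, -, v2, h4⟩ := sel_sub T0 v hv0 hv F (fun f => f.2 2) (hT 2)
    (fun f => 2 * chi X f.1 * chi V0 (f.2 0) * chi V1 (f.2 1))
    (fun f g => c f g * (chi X f.1 * chi X g.1) * (chi V0 (f.2 0) * chi V0 (g.2 0)) *
      (chi V1 (f.2 1) * chi V1 (g.2 1)))
    fun f g => mul_nonneg (mul_nonneg (mul_nonneg (hc _ _) (mul_nonneg (c0 _ _) (c0 _ _)))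
      (mul_nonneg (c0 _ _) (c0 _ _))) (mul_nonneg (c0 _ _) (c0 _ _))
  rw [← hρ] at h1
  rw [← hq] at h2 h3 h4
  have step : ∀ {a b : G × (Fin 3 → G) → ℝ} {a' b' : G × (Fin 3 → G) → G × (Fin 3 → G) → ℝ},
      (∀ f, a f = b f) → (∀ f g, a' f g = b' f g) →
      ∑ f ∈ F, a f - ∑ f ∈ F, ∑ g ∈ F, a' f g = ∑ f ∈ F, b f - ∑ f ∈ F, ∑ g ∈ F, b' f g := by
    intro a b a' b' e1 e2
    simp only [e1, e2]
  have h5 := ((h1.trans_eq (step (fun f => by ring) fun f g => by ring)).trans h2)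
  have h6 := ((h5.trans_eq (step (fun f => by ring) fun f g => by ring)).trans h3)
  have h7 := ((h6.trans_eq (step (fun f => by ring) fun f g => by ring)).trans h4)
  let F' := F.filter fun f => f.1 ∈ X ∧ f.2 0 ∈ V0 ∧ f.2 1 ∈ V1 ∧ f.2 2 ∈ V2
  have h8 := free_lt (cand X ![V0, V1, V2]) F' lab3 M A (fun f hf => by
      obtain ⟨a1, a2, a3, a4, a5⟩ := mem_filter.1 hf
      refine mem_filter.2 ⟨mem_product.2 ⟨a2, Fintype.mem_piFinset.2 fun l => ?_⟩,
        fun i j hij => ((mem_filter.1 a1).2.2.2 i j hij).1⟩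
      fin_cases l <;> simpa)
    (fun f _ => ⟨f.1 - f.2 0, mem_image.2 ⟨0, mem_univ _, rfl⟩⟩)
    (fun f hf a ha => by
      obtain ⟨l, -, rfl⟩ := mem_image.1 ha
      exact S.lab _ _ ((mem_filter.1 (mem_filter.1 hf).1).2.2.1 l))
    (hP ω hω _ fun l => by fin_cases l <;> simpa)
  have e1 : ∑ f ∈ F, 2 * chi X f.1 * chi V0 (f.2 0) * chi V1 (f.2 1) * chi V2 (f.2 2) =
      ∑ _f ∈ F', (2 : ℝ) := by
    rw [← sum_chi4]; exact sum_congr rfl fun f _ => by ring
  have e2 : ∑ f ∈ F, ∑ g ∈ F, c f g * (chi X f.1 * chi X g.1) * (chi V0 (f.2 0) * chi V0 (g.2 0)) *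
      (chi V1 (f.2 1) * chi V1 (g.2 1)) * (chi V2 (f.2 2) * chi V2 (g.2 2)) =
      ∑ f ∈ F', ∑ g ∈ F', c f g := by
    rw [← sum_chi4]
    refine sum_congr rfl fun f _ => ?_
    rw [← sum_chi4, sum_mul]
    exact sum_congr rfl fun g _ => by ring
  rw [e1, e2] at h7
  refine lt_of_le_of_lt (le_trans ?_ h7) h8
  have h9 := sum_le_sum fun f (hf : f ∈ F) => conf_le S lam hA s f hf ρ q δ hρ0 hρ1 hq0 hδ
  rw [sum_const, nsmul_eq_mul] at h9
  rw [sum_const, nsmul_eq_mul]
  simp only [c]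
  linarith

end Pool.Agent.H234Z.Cov
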