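import Pool.Agent.H234Z.Cov3

/-! A pseudo-random set is not covered efficiently. -/

set_option autoImplicit false

open Finset

namespace Pool.Agent.H234Z.Cov

lemma num_delta (W a u n ρ : ℝ) (hW : 10000 ≤ W) (ha1 : 1 ≤ a) (ha : a ≤ W ^ 17) (hu : 0 ≤ u)
    (hua : u * a * W ^ 28 ≤ 3) (hn : n ≤ 3 * W ^ 60) (hρ : ρ ≤ 1 / 400) :
    18 * ρ + (u ^ 3 * (9 * ((W ^ 2 * a ^ 2) ^ 3 + n * (W ^ 2 * a ^ 2) ^ 2)) +
      3 * (u ^ 2 * (9 * ((W ^ 2 * a ^ 2) ^ 2 + W ^ 36 * (W ^ 2 * a ^ 2)))) +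
      3 * (u * (4 * W * (W ^ 2 * a ^ 2)))) ≤ 1 / 10 := by
  have hW1 : 1 ≤ W := by linarith
  have hW0 : 0 < W := by linarith
  have hs : W ^ 2 * a ^ 2 ≤ W ^ 36 := by
    calc W ^ 2 * a ^ 2 ≤ W ^ 2 * (W ^ 17) ^ 2 := by gcongr
      _ = W ^ 36 := by ring
  have h36 : W ^ 36 ≤ W ^ 60 := pow_le_pow_right₀ hW1 (by norm_num)
  have hz : 0 ≤ u * a * W ^ 28 := by positivity
  have p3 : (10000 : ℝ) ^ 2 ≤ W ^ 3 :=
    (pow_le_pow_left₀ (by norm_num) hW 2).trans (pow_le_pow_right₀ hW1 (by norm_num))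
  have p18 : (10000 : ℝ) ^ 2 ≤ W ^ 18 :=
    (pow_le_pow_left₀ (by norm_num) hW 2).trans (pow_le_pow_right₀ hW1 (by norm_num))
  have p8 : (10000 : ℝ) ^ 2 ≤ W ^ 8 :=
    (pow_le_pow_left₀ (by norm_num) hW 2).trans (pow_le_pow_right₀ hW1 (by norm_num))
  have t1 : u ^ 3 * (9 * ((W ^ 2 * a ^ 2) ^ 3 + n * (W ^ 2 * a ^ 2) ^ 2)) ≤ 1 / 100 := by
    have b1 : (W ^ 2 * a ^ 2) ^ 3 + n * (W ^ 2 * a ^ 2) ^ 2 ≤ 4 * W ^ 60 * (W ^ 2 * a ^ 2) ^ 2 := by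
      have : 0 ≤ (W ^ 2 * a ^ 2) ^ 2 := by positivity
      have e : (W ^ 2 * a ^ 2) ^ 3 = (W ^ 2 * a ^ 2) * (W ^ 2 * a ^ 2) ^ 2 := by ring
      rw [e, ← add_mul]
      gcongr
      linarith
    have b2 : (u * a * W ^ 28) ^ 3 ≤ 3 ^ 3 := by gcongr
    have b3 : u ^ 3 * (9 * (4 * W ^ 60 * (W ^ 2 * a ^ 2) ^ 2)) =
        36 * (u * a * W ^ 28) ^ 3 * a / W ^ 20 := by field_simp; ring
    calc _ ≤ u ^ 3 * (9 * (4 * W ^ 60 * (W ^ 2 * a ^ 2) ^ 2)) := by gcongr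
      _ = _ := b3
      _ ≤ 36 * 3 ^ 3 * W ^ 17 / W ^ 20 := by gcongr
      _ = 36 * 3 ^ 3 / W ^ 3 := by field_simp
      _ ≤ 36 * 3 ^ 3 / 10000 ^ 2 := by gcongr
      _ ≤ 1 / 100 := by norm_num
  have t2 : 3 * (u ^ 2 * (9 * ((W ^ 2 * a ^ 2) ^ 2 + W ^ 36 * (W ^ 2 * a ^ 2)))) ≤ 1 / 100 := by
    have b1 : (W ^ 2 * a ^ 2) ^ 2 + W ^ 36 * (W ^ 2 * a ^ 2) ≤ 2 * W ^ 36 * (W ^ 2 * a ^ 2) := by
      have : 0 ≤ W ^ 2 * a ^ 2 := by positivity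
      rw [sq (W ^ 2 * a ^ 2), ← add_mul]
      gcongr
      linarith
    have b2 : (u * a * W ^ 28) ^ 2 ≤ 3 ^ 2 := by gcongr
    calc _ ≤ 3 * (u ^ 2 * (9 * (2 * W ^ 36 * (W ^ 2 * a ^ 2)))) := by gcongr
      _ = 54 * (u * a * W ^ 28) ^ 2 / W ^ 18 := by field_simp; ring
      _ ≤ 54 * 3 ^ 2 / 10000 ^ 2 := by gcongr
      _ ≤ 1 / 100 := by norm_num
  have t3 : 3 * (u * (4 * W * (W ^ 2 * a ^ 2))) ≤ 1 / 100 := by
    calc _ = 12 * (u * a * W ^ 28) * a / W ^ 25 := by field_simp; ring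
      _ ≤ 12 * 3 * W ^ 17 / W ^ 25 := by gcongr
      _ = 12 * 3 / W ^ 8 := by field_simp
      _ ≤ 12 * 3 / 10000 ^ 2 := by gcongr
      _ ≤ 1 / 100 := by norm_num
  linarith

lemma num_tri (W a v n k p R N M : ℝ) (hW : 10000 ≤ W) (ha1 : 1 ≤ a) (hva : v * a = W ^ 32)
    (hk0 : 0 < k) (hk : k ≤ 2 * W ^ 60) (hn0 : 0 < n) (hn : n ≤ 101 / 100 * k) (hp : k ^ 2 ≤ p)
    (hR : p ≤ 500 * R) (hN : 0 ≤ N)
    (hM : M ≤ 3 * (R * v ^ 3 * (k / p) ^ 3) + 4 * W ^ 2 * v)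
    (h : R / p * (v / n) ^ 3 * (1 - 1 / 10) * N < M) :
    N ≤ (344 / 100 + 4600 * a ^ 2 / W ^ 2) * k ^ 2 := by
  have hW0 : 0 < W := by linarith
  have hp0 : 0 < p := lt_of_lt_of_le (by positivity) hp
  have hR0 : 0 < R := by linarith
  have hv : v = W ^ 32 / a := by rw [← hva]; field_simp
  have hv0 : 0 < v := by rw [hv]; positivity
  have h1 : R / p * (v / (101 / 100 * k)) ^ 3 * (1 - 1 / 10) * N ≤
      R / p * (v / n) ^ 3 * (1 - 1 / 10) * N := by gcongr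
  have h2 : 3 * (R * v ^ 3 * (k / p) ^ 3) ≤
      R / p * (v / (101 / 100 * k)) ^ 3 * (1 - 1 / 10) * (344 / 100 * k ^ 2) := by
    have e1 : 3 * (R * v ^ 3 * (k / p) ^ 3) = R / p * v ^ 3 / k * (3 * (k ^ 2 / p) ^ 2) := by
      field_simp
    have e2 : R / p * (v / (101 / 100 * k)) ^ 3 * (1 - 1 / 10) * (344 / 100 * k ^ 2) =
        R / p * v ^ 3 / k * ((100 / 101) ^ 3 * (9 / 10) * (344 / 100)) := by
      field_simp; ring
    rw [e1, e2]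
    have : k ^ 2 / p ≤ 1 := by rwa [div_le_one hp0]
    have h3 : (k ^ 2 / p) ^ 2 ≤ 1 := pow_le_one₀ (by positivity) this
    gcongr ?_ * ?_
    norm_num
    linarith
  have h3 : 4 * W ^ 2 * v ≤
      R / p * (v / (101 / 100 * k)) ^ 3 * (1 - 1 / 10) * (4600 * a ^ 2 / W ^ 2 * k ^ 2) := by
    have e2 : R / p * (v / (101 / 100 * k)) ^ 3 * (1 - 1 / 10) * (4600 * a ^ 2 / W ^ 2 * k ^ 2) =
        R / p * ((100 / 101) ^ 3 * (9 / 10) * 4600) * ((v * a) ^ 2 / W ^ 2 / k) * v := by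
      field_simp; ring
    rw [e2, hva]
    have b1 : 1 / 500 ≤ R / p := by rw [le_div_iff₀ hp0]; linarith
    have b2 : W ^ 2 / 2 ≤ (W ^ 32) ^ 2 / W ^ 2 / k := by
      rw [le_div_iff₀ hk0]
      calc W ^ 2 / 2 * k ≤ W ^ 2 / 2 * (2 * W ^ 60) := by gcongr
        _ = _ := by field_simp
    calc 4 * W ^ 2 * v ≤ 1 / 500 * ((100 / 101) ^ 3 * (9 / 10) * 4600) * (W ^ 2 / 2) * v := by
          refine mul_le_mul_of_nonneg_right ?_ hv0.le
          have : 0 < W ^ 2 := by positivity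
          norm_num
          linarith
      _ ≤ _ := by gcongr
  have h4 : 0 < R / p * (v / (101 / 100 * k)) ^ 3 * (1 - 1 / 10) := by positivity
  refine le_of_mul_le_mul_left ?_ h4
  rw [add_mul, mul_add]
  linarith

lemma g_small (r : ℕ) : 42 * ((r : ℝ) * (r - 1)) ≤
    ((r * ((r - 2) * (r - 4)) : ℕ) : ℝ) + 568 * ((r - 1 : ℕ) : ℝ) := by
  rcases le_or_gt 4 r with h | h
  · push_cast [Nat.cast_sub h, Nat.cast_sub (show 2 ≤ r by omega),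
      Nat.cast_sub (show 1 ≤ r by omega)]
    have : (4 : ℝ) ≤ r := by exact_mod_cast h
    nlinarith [mul_nonneg (show (0 : ℝ) ≤ r - 1 by linarith) (sq_nonneg ((r : ℝ) - 24))]
  · interval_cases r <;> norm_num

lemma g_big (r : ℕ) (a : ℝ) (ha : 10 ≤ a) (h : a ≤ r) :
    (r : ℝ) * (r - 1) ≤ 2 / a * ((r * ((r - 2) * (r - 4)) : ℕ) : ℝ) := by
  have h1 : (10 : ℝ) ≤ r := ha.trans h
  have h2 : 10 ≤ r := by exact_mod_cast h1
  push_cast [Nat.cast_sub (show 4 ≤ r by omega), Nat.cast_sub (show 2 ≤ r by omega)]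
  rw [div_mul_eq_mul_div, le_div_iff₀ (by linarith)]
  have h3 : (r : ℝ) * (r - 1) * a ≤ r * (r - 1) * r := by
    gcongr
    nlinarith
  have h4 : ((r : ℝ) - 1) * r ≤ 2 * ((r - 2) * (r - 4)) := by nlinarith
  nlinarith

lemma exists_class (w r : ℕ) (n : ℕ) (h1 : w ^ 2 < r) (h2 : r ≤ w ^ (2 * n + 2)) :
    ∃ i ∈ range n, w ^ (2 * (i + 1)) < r ∧ r ≤ w ^ (2 * (i + 1) + 2) := by
  induction n with
  | zero => simp at h2; omega
  | succ n ih =>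
    rcases le_or_gt r (w ^ (2 * n + 2)) with h | h
    · obtain ⟨i, hi, h⟩ := ih h
      exact ⟨i, mem_range.2 (by have := mem_range.1 hi; omega), h⟩
    · exact ⟨n, mem_range.2 (by omega), h, h2⟩

variable {G : Type} [DecidableEq G] [Field G] [Fintype G]

theorem no_cover (w k : ℕ) (hw : 10000 ≤ w) (hk1 : w ^ 60 ≤ k) (hk2 : k ≤ 2 * w ^ 60)
    (hp : k ^ 2 ≤ Fintype.card G) (I : Finset G) (hI1 : 400 * #I ≤ Fintype.card G)
    (hI2 : Fintype.card G ≤ 500 * #I) (A : Finset G) (hA : #A = k)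
    (h1 : ∀ d, d ≠ 0 → #(A.filter (· + d ∈ A)) ≤ 4 * w) (h2 : Low A (w ^ 2)) (M : ℕ → ℕ)
    (hM : ∀ i, (M i : ℝ) ≤ 3 * (#I * ((w ^ (32 - i) : ℕ) : ℝ) ^ 3 * ((k : ℝ) / Fintype.card G) ^ 3) +
      4 * (w : ℝ) ^ 2 * ((w ^ (32 - i) : ℕ) : ℝ))
    (h3 : ∀ i ≤ 17, ∀ ω : G × G, ω.1 ≠ 0 → ∀ V : Fin 3 → Finset G, (∀ l, #(V l) = w ^ (32 - i)) →
      ¬ Pack (cand (aff I ω) V) lab3 (M i) A)
    (T : Finset G) (hT : 100 * #T ≤ 101 * k) : ¬ ∀ x, ∃ t ∈ T, x - t ∈ A := by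
  intro hc
  have hw1 : 1 ≤ w := by omega
  have pw : ∀ a b, a ≤ b → w ^ a ≤ w ^ b := fun a b h => Nat.pow_le_pow_right hw1 h
  have hsum : ∑ x, #(T.filter (x - · ∈ A)) = #T * k := by
    simp only [card_filter]
    rw [sum_comm, ← smul_eq_mul, ← sum_const]
    refine sum_congr rfl fun t _ => ?_
    rw [← Equiv.sum_comp (Equiv.addRight t)]
    simp [hA]
  have hone : ∀ x, 1 ≤ #(T.filter (x - · ∈ A)) := fun x => by
    obtain ⟨t, ht, h⟩ := hc x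
    exact card_pos.2 ⟨t, mem_filter.2 ⟨ht, h⟩⟩
  have hexc : ∑ x, (#(T.filter (x - · ∈ A)) - 1) + Fintype.card G = #T * k := by
    rw [← hsum, ← card_univ, card_eq_sum_ones univ, ← sum_add_distrib]
    exact sum_congr rfl fun x _ => Nat.sub_add_cancel (hone x)
  have hk0 : 0 < k := lt_of_lt_of_le (by positivity) hk1
  have hTk : k ≤ #T := by
    have : k * k ≤ #T * k := by rw [← sq]; omega
    exact Nat.le_of_mul_le_mul_right this hk0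
  have e51 : w ^ 25 * w ^ 25 * (4 * w) = 4 * w ^ 51 := by ring
  have h51 : 10000 * w ^ 51 ≤ w ^ 60 :=
    le_trans (by rw [pow_succ' w 51]; exact Nat.mul_le_mul_right _ hw) (pw 52 60 (by norm_num))
  obtain ⟨T0, Y, L, hT0, hcard, S⟩ := exists_str A T (4 * w) (w ^ 36) (w ^ 25) h1 (by
    have : w ^ 25 * w ^ 36 = w * w ^ 60 := by ring
    rw [e51, this]
    have h60 : 0 < w ^ 60 := by positivity
    nlinarith)
  rw [e51] at hcard
  have hn1 : 99 * k ≤ 100 * #T0 := by omega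
  have hn2 : 100 * #T0 ≤ 101 * k := le_trans (Nat.mul_le_mul_left _ (card_le_card hT0)) hT
  have hW : (10000 : ℝ) ≤ w := by exact_mod_cast hw
  have hk1' : (w : ℝ) ^ 60 ≤ k := by exact_mod_cast hk1
  have hk2' : (k : ℝ) ≤ 2 * (w : ℝ) ^ 60 := by exact_mod_cast hk2
  have hn1' : 99 * (k : ℝ) ≤ 100 * #T0 := by exact_mod_cast hn1
  have hn2' : 100 * (#T0 : ℝ) ≤ 101 * k := by exact_mod_cast hn2
  have hp' : (k : ℝ) ^ 2 ≤ Fintype.card G := by exact_mod_cast hp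
  have hk0' : (0 : ℝ) < k := by exact_mod_cast hk0
  have hn0 : (0 : ℝ) < #T0 := by linarith
  have hp0 : (0 : ℝ) < Fintype.card G := by exact_mod_cast Fintype.card_pos
  have hρ : (#I : ℝ) / Fintype.card G ≤ 1 / 400 := by
    rw [div_le_div_iff₀ hp0 (by norm_num)]
    have : ((400 * #I : ℕ) : ℝ) ≤ Fintype.card G := by exact_mod_cast hI1
    push_cast at this; linarith
  have hN : ∀ i ≤ 17, (#(tri Y L (w ^ (2 * i + 2))) : ℝ) ≤
      (344 / 100 + 4600 * ((w : ℝ) ^ i) ^ 2 / (w : ℝ) ^ 2) * (k : ℝ) ^ 2 := by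
    intro i hi
    have hva : ((w ^ (32 - i) : ℕ) : ℝ) * (w : ℝ) ^ i = (w : ℝ) ^ 32 := by
      push_cast; rw [← pow_add, Nat.sub_add_cancel (by omega)]
    have ha1 : (1 : ℝ) ≤ (w : ℝ) ^ i := one_le_pow₀ (by linarith)
    have hv : w ^ (32 - i) ≤ #T0 := by
      have := pw (32 - i) 51 (by omega)
      omega
    refine num_tri w _ _ (#T0) k (Fintype.card G) (#I) _ (M i) hW ha1 hva hk0' hk2' hn0
      (by linarith) hp' (by exact_mod_cast hI2) (Nat.cast_nonneg _) (hM i) ?_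
    refine tri_lt S (4 * w) h1 _ _ _ (Nat.one_le_pow _ _ hw1) hv I (1 / 10) (by linarith) ?_
      (h3 i hi)
    have := num_delta w ((w : ℝ) ^ i) (2 * (((w ^ (32 - i) : ℕ) : ℝ) / #T0)) (#T0) _ hW ha1
      (pow_le_pow_right₀ (by linarith) hi) (by positivity) (by
        have e : 2 * (((w ^ (32 - i) : ℕ) : ℝ) / #T0) * (w : ℝ) ^ i * (w : ℝ) ^ 28 =
            2 * (((w ^ (32 - i) : ℕ) : ℝ) * (w : ℝ) ^ i * (w : ℝ) ^ 28) / #T0 := by ring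
        rw [e, hva, ← pow_add, div_le_iff₀ hn0]
        norm_num
        linarith) (by linarith) hρ
    refine le_trans (le_of_eq ?_) this
    push_cast
    ring
  have hlow := pairs_ge S (w ^ 2) (Nat.one_le_pow _ _ hw1) (by
    rw [← pow_mul]
    have := pw (2 * 4) 51 (by norm_num)
    omega) h2
  let g : G → ℝ := fun x => ((#(L x) * ((#(L x) - 2) * (#(L x) - 4)) : ℕ) : ℝ)
  have hg0 : ∀ x, 0 ≤ g x := fun x => Nat.cast_nonneg _
  have hg : ∀ s, ∑ x, (if #(L x) ≤ s then g x else 0) ≤ #(tri Y L s) := by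
    intro s
    rw [← sum_filter]
    have := tri_ge S s
    simp only [g]
    exact_mod_cast this
  have hpt : ∀ x, (#(L x) : ℝ) * (#(L x) - 1) ≤
      1 / 42 * (if #(L x) ≤ w ^ 2 then g x else 0) +
      568 / 42 * ((#(T.filter (x - · ∈ A)) - 1 : ℕ) : ℝ) +
      ∑ i ∈ range 17, 2 / ((w : ℝ) ^ (i + 1)) ^ 2 *
        (if #(L x) ≤ w ^ (2 * (i + 1) + 2) then g x else 0) := by
    intro x
    have a0 : ∀ i ∈ range 17, 0 ≤ 2 / ((w : ℝ) ^ (i + 1)) ^ 2 *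
        (if #(L x) ≤ w ^ (2 * (i + 1) + 2) then g x else 0) := by
      intro i _
      have := hg0 x
      split_ifs <;> positivity
    split_ifs with h
    · have a1 := g_small #(L x)
      have a2 : #(L x) ≤ #(T.filter (x - · ∈ A)) := card_le_card fun t ht =>
        mem_filter.2 ⟨hT0 (S.sub x ht), S.lab x t ht⟩
      have a3 : ((#(L x) - 1 : ℕ) : ℝ) ≤ ((#(T.filter (x - · ∈ A)) - 1 : ℕ) : ℝ) := by
        exact_mod_cast Nat.sub_le_sub_right a2 1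
      have a4 := sum_nonneg a0
      simp only [g]
      linarith
    · obtain ⟨i, hi, b1, b2⟩ := exists_class w (#(L x)) 17 (not_le.1 h) (S.small x)
      have a1 := single_le_sum a0 hi
      simp only [if_pos b2] at a1
      have a2 := g_big (#(L x)) (((w : ℝ) ^ (i + 1)) ^ 2) (by
          have : (w : ℝ) ^ 1 ≤ ((w : ℝ) ^ (i + 1)) ^ 2 := by
            rw [← pow_mul]; exact pow_le_pow_right₀ (by linarith) (by omega)
          rw [pow_one] at this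
          linarith)
        (by rw [← pow_mul, mul_comm]; exact_mod_cast b1.le)
      have a3 : (0 : ℝ) ≤ ((#(T.filter (x - · ∈ A)) - 1 : ℕ) : ℝ) := Nat.cast_nonneg _
      simp only [g] at a1 ⊢
      linarith
  have hup := sum_le_sum fun x (_ : x ∈ univ) => hpt x
  rw [sum_add_distrib, sum_add_distrib, ← mul_sum, ← mul_sum, sum_comm] at hup
  have hW2 : (10000 : ℝ) ^ 2 ≤ (w : ℝ) ^ 2 := by gcongr
  have b1 : ∑ x, (if #(L x) ≤ w ^ 2 then g x else 0) ≤ 345 / 100 * (k : ℝ) ^ 2 := by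
    refine (hg _).trans ((hN 0 (by norm_num)).trans ?_)
    gcongr
    rw [pow_zero, one_pow, mul_one]
    have : 4600 / (w : ℝ) ^ 2 ≤ 4600 / 10000 ^ 2 := by gcongr
    linarith
  have b2 : ∑ x, ((#(T.filter (x - · ∈ A)) - 1 : ℕ) : ℝ) ≤ 1 / 100 * (k : ℝ) ^ 2 := by
    have c1 : ((∑ x, (#(T.filter (x - · ∈ A)) - 1) + Fintype.card G : ℕ) : ℝ) = ((#T * k : ℕ) : ℝ) := by
      rw [hexc]
    rw [Nat.cast_add, Nat.cast_sum, Nat.cast_mul] at c1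
    have c2 : 100 * (#T : ℝ) ≤ 101 * k := by exact_mod_cast hT
    nlinarith
  have b3 : ∑ i ∈ range 17, ∑ x, 2 / ((w : ℝ) ^ (i + 1)) ^ 2 *
      (if #(L x) ≤ w ^ (2 * (i + 1) + 2) then g x else 0) ≤
      ∑ _i ∈ range 17, 1 / 10000 * (k : ℝ) ^ 2 := by
    refine sum_le_sum fun i hi => ?_
    rw [← mul_sum]
    have c1 := (hg _).trans (hN (i + 1) (by have := mem_range.1 hi; omega))
    have c2 : (w : ℝ) ^ 2 ≤ ((w : ℝ) ^ (i + 1)) ^ 2 := by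
      rw [← pow_mul]; exact pow_le_pow_right₀ (by linarith) (by omega)
    refine (mul_le_mul_of_nonneg_left c1 (by positivity)).trans ?_
    rw [← mul_assoc]
    gcongr
    have c3 : 2 / ((w : ℝ) ^ (i + 1)) ^ 2 * (344 / 100 + 4600 * ((w : ℝ) ^ (i + 1)) ^ 2 / (w : ℝ) ^ 2) =
        2 * (344 / 100) / ((w : ℝ) ^ (i + 1)) ^ 2 + 2 * 4600 / (w : ℝ) ^ 2 := by
      field_simp
    rw [c3]
    have c4 : 2 * (344 / 100) / ((w : ℝ) ^ (i + 1)) ^ 2 ≤ 2 * (344 / 100) / 10000 ^ 2 :=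
      div_le_div_of_nonneg_left (by norm_num) (by norm_num) (hW2.trans c2)
    have c5 : 2 * 4600 / (w : ℝ) ^ 2 ≤ 2 * 4600 / 10000 ^ 2 := by gcongr
    linarith
  rw [sum_const, card_range, nsmul_eq_mul] at b3
  have b4 : (99 / 100 * (k : ℝ)) ^ 2 ≤ (#T0 : ℝ) ^ 2 := by
    gcongr; linarith
  have b5 : (0 : ℝ) < (k : ℝ) ^ 2 := by positivity
  rw [mul_pow] at b4
  rw [Nat.cast_ofNat] at b3
  linarith

end Pool.Agent.H234Z.Cov
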