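import Pool.Agent.H234Z.Cov4

/-! The pseudo-random properties follow from the failure of rare events. -/

set_option autoImplicit false

open Finset

namespace Pool.Agent.H234Z.Cov

variable {G : Type} [DecidableEq G] [AddCommGroup G] [Fintype G]

lemma codeg_of (A : Finset G) (w : ℕ) (d : G) (hd : d ≠ 0)
    (h : ¬ Pack (univ : Finset G) (fun y => {y, y + d}) w A) : #(A.filter (· + d ∈ A)) ≤ 4 * w := by
  obtain ⟨U, hU, h2⟩ := exists_hit univ (fun y => ({y, y + d} : Finset G)) 2 w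
    (fun y _ => card_pair (by simpa using hd)) two_pos A h
  have h3 : A.filter (· + d ∈ A) ⊆ U ∪ U.image (· - d) := by
    intro y hy
    rw [mem_filter] at hy
    have := h2 y (mem_univ _) (by simp [insert_subset_iff, hy.1, hy.2])
    rw [not_disjoint_iff] at this
    obtain ⟨a, h4, h5⟩ := this
    rw [mem_insert, mem_singleton] at h4
    rcases h4 with rfl | rfl
    · exact mem_union_left _ h5
    · exact mem_union_right _ (mem_image.2 ⟨_, h5, by simp⟩)
  have h4 := card_union_le U (U.image (· - d))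
  have h5 := card_image_le (s := U) (f := (· - d))
  have h6 := card_le_card h3
  omega

/-- differences -/
def dif (U V : Finset G) : Finset G := (U ×ˢ V).image fun f => f.1 - f.2

/-- pairs at a distance in the second difference set -/
def prs (U V : Finset G) : Finset (G × G) := univ ×ˢ ((dif (dif U V) (dif U V)).erase 0)

/-- label of a pair -/
def lab2 (z : G × G) : Finset G := {z.1, z.1 + z.2}

/-- the target set for the second half of the random set -/
def tgt (A1 B U V : Finset G) : Finset G := ((A1 \ B) ×ˢ dif U V).image fun z => z.1 + z.2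

omit [Fintype G] in
lemma card_dif_le (U V : Finset G) : #(dif U V) ≤ #U * #V :=
  card_image_le.trans (card_product _ _).le

lemma card_lab2 (U V : Finset G) : ∀ z ∈ prs U V, #(lab2 z) = 2 := by
  intro z hz
  exact card_pair (by simpa using (mem_erase.1 (mem_product.1 hz).2).1)

lemma tgt_ge (A A1 B U V : Finset G) (M : ℕ) (h1 : A1 ⊆ A) (h : ¬ Pack (prs U V) lab2 M A) :
    (#A1 - (#B + 2 * M)) * #(dif U V) ≤ #(tgt A1 B U V) := by
  obtain ⟨Z, hZ, h2⟩ := exists_hit (prs U V) lab2 2 M (card_lab2 U V) two_pos A h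
  have h3 : #((A1 \ (B ∪ Z)) ×ˢ dif U V) ≤ #(tgt A1 B U V) := by
    refine card_le_card_of_injOn (fun z => z.1 + z.2) (fun z hz => ?_) fun z hz z' hz' e => ?_
    · rw [mem_coe, mem_product, mem_sdiff, mem_union, not_or] at hz
      exact mem_coe.2 (mem_image.2 ⟨z, mem_product.2 ⟨mem_sdiff.2 ⟨hz.1.1, hz.1.2.1⟩, hz.2⟩, rfl⟩)
    · rw [mem_coe, mem_product, mem_sdiff, mem_union, not_or] at hz hz'
      simp only at e
      by_cases hd : z.2 = z'.2
      · exact Prod.ext (by rw [hd] at e; exact add_right_cancel e) hd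
      · exfalso
        have e2 : z.1 + (z.2 - z'.2) = z'.1 := by rw [← add_sub_assoc, e]; simp
        refine h2 (z.1, z.2 - z'.2) (mem_product.2 ⟨mem_univ _, mem_erase.2 ⟨sub_ne_zero.2 hd,
          mem_image.2 ⟨(z.2, z'.2), mem_product.2 ⟨hz.2, hz'.2⟩, rfl⟩⟩⟩) ?_ ?_
        · simp [lab2, e2, insert_subset_iff, h1 hz.1.1, h1 hz'.1.1]
        · simp [lab2, e2, hz.1.2.2, hz'.1.2.2]
  refine le_trans ?_ h3
  rw [card_product]
  refine Nat.mul_le_mul_right _ ?_
  have h4 := le_card_sdiff (B ∪ Z) A1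
  have h5 := card_union_le B Z
  omega

lemma hits_le (A1 A2 B U V : Finset G) : #(A2.filter (· ∈ tgt A1 B U V)) ≤ #B +
    ∑ f ∈ U ×ˢ V, #(univ.filter fun x => x - f.1 ∈ A1 \ B ∧ x - f.2 ∈ A2 \ B) := by
  have h1 : A2.filter (· ∈ tgt A1 B U V) ⊆ B ∪ (U ×ˢ V).biUnion fun f =>
      (univ.filter fun x => x - f.1 ∈ A1 \ B ∧ x - f.2 ∈ A2 \ B).image (· - f.2) := by
    intro a ha
    rw [mem_filter] at ha
    by_cases hB : a ∈ B
    · exact mem_union_left _ hB
    · obtain ⟨z, hz, e⟩ := mem_image.1 ha.2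
      rw [mem_product] at hz
      obtain ⟨f, hf, e2⟩ := mem_image.1 hz.2
      refine mem_union_right _ (mem_biUnion.2 ⟨f, hf, mem_image.2 ⟨a + f.2, ?_, by simp⟩⟩)
      refine mem_filter.2 ⟨mem_univ _, ?_, by simpa using ⟨ha.1, hB⟩⟩
      rw [← e, ← e2, show z.1 + (f.1 - f.2) + f.2 - f.1 = z.1 by abel]
      exact hz.1
  refine (card_le_card h1).trans ((card_union_le _ _).trans ?_)
  gcongr
  exact card_biUnion_le.trans (sum_le_sum fun f _ => card_image_le)

lemma low_of (A A1 A2 : Finset G) (m M : ℕ) (σ : ℝ) (h1 : A1 ⊆ A) (h2 : A2 ⊆ A)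
    (hd : Disjoint A1 A2) (hm : 4 * m ≤ Fintype.card G)
    (hσ : σ ≤ ((#A1 - (4 * m + 2 * M) : ℕ) : ℝ) * (m : ℝ) ^ 2)
    (hP : ∀ U V : Finset G, #U = m → #V = m → ¬ Pack (prs U V) lab2 M A)
    (hQ : ∀ U V B : Finset G, #U = m → #V = m → #B = 4 * m → σ ≤ #(tgt A1 B U V) →
      m ^ 2 + 32 * m ≤ 8 * #(A2.filter (· ∈ tgt A1 B U V))) : Low A m := by
  intro U V B0 hU hV hB0 hinj
  obtain ⟨B, hB1, -, hB⟩ := exists_subsuperset_card_eq (subset_univ B0) hB0 (by simpa using hm)
  have half : ∀ U V : Finset G, #U = m → #V = m →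
      (∀ f ∈ U ×ˢ V, ∀ g ∈ U ×ˢ V, f.1 - f.2 = g.1 - g.2 → f = g) →
      m ^ 2 ≤ 8 * ∑ f ∈ U ×ˢ V, #(univ.filter fun x => x - f.1 ∈ A1 \ B ∧ x - f.2 ∈ A2 \ B) := by
    intro U V hU hV hinj
    have a1 : #(dif U V) = m ^ 2 := by
      unfold dif
      rw [card_image_of_injOn fun f hf g hg e => hinj f hf g hg e, card_product, hU, hV, sq]
    have a2 := tgt_ge A A1 B U V M h1 (hP U V hU hV)
    rw [a1, hB] at a2
    have a3 := hQ U V B hU hV hB (hσ.trans (by exact_mod_cast a2))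
    have a4 := hits_le A1 A2 B U V
    omega
  have b1 := half U V hU hV hinj
  have b2 := half V U hV hU fun f hf g hg e => by
    rw [mem_product] at hf hg
    have := hinj f.swap (mem_product.2 ⟨hf.2, hf.1⟩) g.swap (mem_product.2 ⟨hg.2, hg.1⟩)
      (by simp only [Prod.fst_swap, Prod.snd_swap]; rw [← neg_sub, e, neg_sub])
    exact Prod.swap_injective this
  rw [sum_product_right, ← sum_product' U V fun u v =>
    #(univ.filter fun x => x - v ∈ A1 \ B ∧ x - u ∈ A2 \ B)] at b2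
  have b3 : ∑ f ∈ U ×ˢ V, #(univ.filter fun x => x - f.1 ∈ A1 \ B ∧ x - f.2 ∈ A2 \ B) +
      ∑ f ∈ U ×ˢ V, #(univ.filter fun x => x - f.2 ∈ A1 \ B ∧ x - f.1 ∈ A2 \ B) ≤
      ∑ f ∈ U ×ˢ V,
        #(univ.filter fun x => f.1 ≠ f.2 ∧ x - f.1 ∈ A \ B0 ∧ x - f.2 ∈ A \ B0) := by
    rw [← sum_add_distrib]
    refine sum_le_sum fun f _ => ?_
    rw [← card_union_of_disjoint]
    · refine card_le_card fun x hx => ?_
      simp only [mem_union, mem_filter, mem_univ, true_and, mem_sdiff] at hx ⊢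
      rcases hx with hx | hx
      · exact ⟨fun e => disjoint_left.1 hd hx.1.1 (e ▸ hx.2.1),
          ⟨h1 hx.1.1, fun h => hx.1.2 (hB1 h)⟩, h2 hx.2.1, fun h => hx.2.2 (hB1 h)⟩
      · exact ⟨fun e => disjoint_left.1 hd hx.1.1 (e ▸ hx.2.1),
          ⟨h2 hx.2.1, fun h => hx.2.2 (hB1 h)⟩, h1 hx.1.1, fun h => hx.1.2 (hB1 h)⟩
    · rw [disjoint_filter]
      intro x _ hx hx'
      exact disjoint_left.1 hd (mem_sdiff.1 hx.1).1 (mem_sdiff.1 hx'.2).1
  omega

omit [AddCommGroup G] in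
lemma card_few (ι : Type) [Fintype ι] [DecidableEq ι] (S : Finset G) (h : ℝ) :
    (#(univ.filter fun a : ι → G => (#(univ.filter fun i => a i ∈ S) : ℝ) ≤ h) : ℝ) ≤
      Real.exp (7 / 10 * h) * ((Fintype.card G : ℝ) - #S / 2) ^ Fintype.card ι := by
  have h1 : ∑ a : ι → G, ∏ i, (if a i ∈ S then (1 / 2 : ℝ) else 1) =
      ((Fintype.card G : ℝ) - #S / 2) ^ Fintype.card ι := by
    have := prod_univ_sum (fun _ : ι => (univ : Finset G))
      fun _ y => if y ∈ S then (1 / 2 : ℝ) else 1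
    rw [Fintype.piFinset_univ] at this
    rw [← this, prod_const, card_univ]
    congr 1
    have e : ∀ y : G, (if y ∈ S then (1 / 2 : ℝ) else 1) = 1 - 1 / 2 * (if y ∈ S then 1 else 0) := by
      intro y; split_ifs <;> norm_num
    simp only [e]
    rw [sum_sub_distrib, ← mul_sum, sum_boole]
    simp
    ring
  rw [← h1, mul_sum, card_filter]
  push_cast
  refine sum_le_sum fun a _ => ?_
  rw [prod_ite, prod_const_one, mul_one, prod_const]
  split_ifs with h2
  · have a1 : (2 : ℝ) ≤ Real.exp (7 / 10) := by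
      rw [← Real.log_le_iff_le_exp (by norm_num)]
      linarith [Real.log_two_lt_d9]
    have a2 : (2 : ℝ) ^ #(univ.filter fun i => a i ∈ S) ≤ Real.exp (7 / 10 * h) := by
      refine (pow_le_pow_left₀ (by norm_num) a1 _).trans ?_
      rw [← Real.exp_nat_mul]
      exact Real.exp_le_exp.2 (by linarith)
    rw [one_div_pow, ← div_eq_mul_one_div, le_div_iff₀ (by positivity), one_mul]
    exact a2
  · positivity

omit [AddCommGroup G] in
lemma transfer (ι : Type) [Fintype ι] [DecidableEq ι] (P : Finset (Finset G)) (Q : Finset (ι → G))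
    (hP : ∀ A ∈ P, #A = Fintype.card ι)
    (h : ∀ A ∈ P, ∀ a : ι → G, Function.Injective a → univ.image a = A → a ∈ Q) :
    #P * (Fintype.card ι).factorial ≤ #Q := by
  have he : ∀ A ∈ P, ∃ e : ι → G, Function.Injective e ∧ univ.image e = A := by
    intro A hA
    let e := (Fintype.equivOfCardEq (show Fintype.card ι = Fintype.card A by simp [hP A hA]))
    refine ⟨fun i => (e i : G), Subtype.val_injective.comp e.injective, ?_⟩
    ext x
    simp only [mem_image, mem_univ, true_and]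
    exact ⟨by rintro ⟨i, rfl⟩; exact (e i).2, fun hx => ⟨e.symm ⟨x, hx⟩, by simp⟩⟩
  by_cases hne : P = ∅
  · simp [hne]
  obtain ⟨A0, hA0⟩ := nonempty_iff_ne_empty.2 hne
  haveI : Nonempty (ι → G) := ⟨(he A0 hA0).choose⟩
  choose! e he1 he2 using he
  have him : ∀ A ∈ P, ∀ σ : Equiv.Perm ι, univ.image (e A ∘ σ) = A := by
    intro A hA σ
    rw [← image_image, image_univ_equiv, he2 A hA]
  rw [← Fintype.card_perm, ← card_univ, ← card_product]
  refine card_le_card_of_injOn (fun z => e z.1 ∘ z.2) (fun z hz => ?_) fun z hz z' hz' e' => ?_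
  · rw [mem_coe, mem_product] at hz
    exact h z.1 hz.1 _ ((he1 _ hz.1).comp z.2.injective) (him _ hz.1 _)
  · rw [mem_coe, mem_product] at hz hz'
    simp only at e'
    have a1 : z.1 = z'.1 := by rw [← him _ hz.1 z.2, e', him _ hz'.1]
    refine Prod.ext a1 (Equiv.ext fun i => ?_)
    have := congrFun e' i
    rw [a1] at this
    exact he1 _ hz'.1 this

lemma pow_le_nine (p k : ℕ) (hk : 2 ≤ k) (hp : k ^ 2 ≤ p) :
    (p : ℝ) ^ k ≤ 9 * (k.factorial * p.choose k) := by
  have h1 := Nat.pow_sub_le_descFactorial p k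
  rw [Nat.descFactorial_eq_factorial_mul_choose] at h1
  have hkp : 2 * k ≤ p := by nlinarith
  have h2 : ((p : ℝ) + 1 - k) ^ k ≤ k.factorial * p.choose k := by
    have : (((p + 1 - k) ^ k : ℕ) : ℝ) ≤ ((k.factorial * p.choose k : ℕ) : ℝ) := by
      exact_mod_cast h1
    rw [Nat.cast_pow, Nat.cast_sub (by omega)] at this
    push_cast at this
    exact this
  have a1 : (2 : ℝ) ≤ k := by exact_mod_cast hk
  have a2 : (k : ℝ) ^ 2 ≤ p := by exact_mod_cast hp
  have a3 : 2 * (k : ℝ) ≤ p := by exact_mod_cast hkp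
  have h3 : (p : ℝ) ≤ Real.exp (2 / k) * ((p : ℝ) + 1 - k) := by
    have b1 := Real.add_one_le_exp (2 / (k : ℝ))
    have b2 : (p : ℝ) ≤ (2 / k + 1) * ((p : ℝ) + 1 - k) := by
      have : (k : ℝ) ≤ 2 / k * ((p : ℝ) + 1 - k) := by
        rw [div_mul_eq_mul_div, le_div_iff₀ (by linarith)]
        nlinarith
      linarith
    refine b2.trans ?_
    gcongr
    linarith
  have h4 : (p : ℝ) ^ k ≤ Real.exp 2 * ((p : ℝ) + 1 - k) ^ k := by
    refine (pow_le_pow_left₀ (by positivity) h3 k).trans (le_of_eq ?_)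
    rw [mul_pow, ← Real.exp_nat_mul]
    congr 2
    field_simp
  have h5 : Real.exp 2 ≤ 9 := by
    have : Real.exp 2 = Real.exp 1 ^ 2 := by rw [← Real.exp_nat_mul]; norm_num
    rw [this]
    nlinarith [Real.exp_one_lt_d9, Real.exp_pos 1]
  refine h4.trans ?_
  gcongr
  exact pow_nonneg (by linarith) _

end Pool.Agent.H234Z.Cov
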