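import Pool.Agent.H234Z.Cov5

/-! Counting the bad sets. -/

set_option autoImplicit false

open Finset

namespace Pool.Agent.H234Z.Cov

lemma half_pow (a b c : ℕ) (h : a + c ≤ b) : (2 : ℝ) ^ a * (1 / 2) ^ b ≤ (1 / 2) ^ c := by
  have h1 : (1 / 2 : ℝ) ^ b ≤ (1 / 2) ^ (a + c) :=
    pow_le_pow_of_le_one (by norm_num) (by norm_num) h
  calc _ ≤ (2 : ℝ) ^ a * (1 / 2) ^ (a + c) := by gcongr
    _ = _ := by rw [pow_add, ← mul_assoc, ← mul_pow]; norm_num

lemma card_biU {α β : Type} [DecidableEq β] (s : Finset α) (f : α → Finset β) (c : ℝ)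
    (h : ∀ a ∈ s, (#(f a) : ℝ) ≤ c) : (#(s.biUnion f) : ℝ) ≤ #s * c := by
  calc _ ≤ ((∑ a ∈ s, #(f a) : ℕ) : ℝ) := by exact_mod_cast card_biUnion_le
    _ ≤ ∑ _a ∈ s, c := by push_cast; exact sum_le_sum h
    _ = _ := by rw [sum_const, nsmul_eq_mul]

variable {G : Type} [DecidableEq G] [Field G] [Fintype G]

omit [DecidableEq G] [Field G] in
lemma card_pc (w m : ℕ) (hp : Fintype.card G ≤ 2 ^ w) :
    #((univ : Finset G).powersetCard m) ≤ 2 ^ (w * m) := by
  rw [card_powersetCard, card_univ, pow_mul]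
  exact (Nat.choose_le_pow _ _).trans (Nat.pow_le_pow_left hp _)

/-- numerical assumptions -/
structure Par (w k p : ℕ) : Prop where
  hw : 10000 ≤ w
  k1 : w ^ 60 ≤ k
  k2 : k ≤ 2 * w ^ 60
  p1 : k ^ 2 ≤ p
  p2 : 100 * p ≤ 101 * k ^ 2
  p3 : p ≤ 2 ^ w

variable {w k : ℕ}

lemma Par.kp {p : ℕ} (P : Par w k p) : k ≤ p := le_trans (Nat.le_self_pow two_ne_zero k) P.p1

omit [DecidableEq G] in
lemma Par.ratio (P : Par w k (Fintype.card G)) :
    (Fintype.card G : ℝ) * ((k : ℝ) / Fintype.card G) ^ 2 ≤ 1 := by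
  have hp0 : (0 : ℝ) < Fintype.card G := by exact_mod_cast Fintype.card_pos
  have h : (k : ℝ) ^ 2 ≤ Fintype.card G := by exact_mod_cast P.p1
  have e : (Fintype.card G : ℝ) * ((k : ℝ) / Fintype.card G) ^ 2 = (k : ℝ) ^ 2 / Fintype.card G := by
    field_simp
  rwa [e, div_le_one hp0]

open Classical in
lemma bad1 (P : Par w k (Fintype.card G)) :
    (#((univ.erase (0 : G)).biUnion fun d => (univ.powersetCard k).filter
      (Pack (univ : Finset G) (fun y => {y, y + d}) w)) : ℝ) ≤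
      (Fintype.card G).choose k * (1 / 2) ^ w := by
  have hW : (10000 : ℝ) ≤ w := by exact_mod_cast P.hw
  refine (card_biU _ _ ((Fintype.card G).choose k * (3 / (w : ℝ)) ^ w) fun d hd => ?_).trans ?_
  · refine card_pack univ _ 2 w k (fun y _ => card_pair (by simpa using (mem_erase.1 hd).1))
      P.kp Fintype.card_pos _ (by have := P.hw; omega) ?_
    rw [card_univ, div_mul_cancel₀ _ (by positivity)]
    have := P.ratio
    nlinarith [Real.exp_one_lt_d9, Real.exp_pos 1]
  · have h1 : (#(univ.erase (0 : G)) : ℝ) ≤ 2 ^ w := by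
      exact_mod_cast card_erase_le.trans P.p3
    rw [mul_left_comm]
    gcongr
    calc _ ≤ 2 ^ w * (3 / (w : ℝ)) ^ w := by gcongr
      _ = (2 * (3 / (w : ℝ))) ^ w := by rw [mul_pow]
      _ ≤ _ := by
        gcongr
        rw [← mul_div_assoc, div_le_iff₀ (by positivity)]; linarith

open Classical in
lemma bad2 (P : Par w k (Fintype.card G)) :
    (#((((univ : Finset G).powersetCard (w ^ 2)) ×ˢ ((univ : Finset G).powersetCard (w ^ 2))).biUnion
      fun z => (univ.powersetCard k).filter (Pack (prs z.1 z.2) lab2 (w ^ 58))) : ℝ) ≤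
      (Fintype.card G).choose k * (1 / 2) ^ w := by
  have hW : (10000 : ℝ) ≤ w := by exact_mod_cast P.hw
  have hw := P.hw
  refine (card_biU _ _ ((Fintype.card G).choose k * (1 / 2) ^ (w ^ 58)) fun z hz => ?_).trans ?_
  · refine card_pack _ _ 2 _ k (card_lab2 _ _) P.kp Fintype.card_pos _ (by positivity) ?_
    rw [mem_product, mem_powersetCard, mem_powersetCard] at hz
    have a1 := card_dif_le z.1 z.2
    rw [hz.1.2, hz.2.2] at a1
    have a2 : #(prs z.1 z.2) ≤ Fintype.card G * w ^ 8 := by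
      unfold prs
      rw [card_product, card_univ]
      refine Nat.mul_le_mul_left _ (card_erase_le.trans ((card_dif_le _ _).trans ?_))
      exact (Nat.mul_le_mul a1 a1).trans (le_of_eq (by ring))
    have a3 : (#(prs z.1 z.2) : ℝ) ≤ Fintype.card G * (w : ℝ) ^ 8 := by exact_mod_cast a2
    have a4 : (#(prs z.1 z.2) : ℝ) * ((k : ℝ) / Fintype.card G) ^ 2 ≤ (w : ℝ) ^ 8 := by
      calc _ ≤ Fintype.card G * (w : ℝ) ^ 8 * ((k : ℝ) / Fintype.card G) ^ 2 := by gcongr
        _ = (w : ℝ) ^ 8 * (Fintype.card G * ((k : ℝ) / Fintype.card G) ^ 2) := by ring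
        _ ≤ _ := mul_le_of_le_one_right (by positivity) P.ratio
    have a5 : (w : ℝ) ^ 9 ≤ (w : ℝ) ^ 58 := pow_le_pow_right₀ (by linarith) (by norm_num)
    have a6 : (0 : ℝ) < (w : ℝ) ^ 8 := by positivity
    push_cast
    calc _ ≤ 3 * (w : ℝ) ^ 8 := by
          gcongr
          linarith [Real.exp_one_lt_d9]
      _ ≤ _ := by rw [pow_succ] at a5; nlinarith
  · have h1 : (#(((univ : Finset G).powersetCard (w ^ 2)) ×ˢ
        ((univ : Finset G).powersetCard (w ^ 2))) : ℝ) ≤ 2 ^ (w * w ^ 2 + w * w ^ 2) := by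
      rw [card_product, pow_add]
      exact_mod_cast Nat.mul_le_mul (card_pc w _ P.p3) (card_pc w _ P.p3)
    rw [mul_left_comm]
    gcongr
    refine le_trans (by gcongr) (half_pow (w * w ^ 2 + w * w ^ 2) _ _ ?_)
    have a1 : w ^ 4 ≤ w ^ 58 := Nat.pow_le_pow_right (by omega) (by norm_num)
    have a2 : w ≤ w * w ^ 2 := Nat.le_mul_of_pos_right _ (by positivity)
    have a3 : w ^ 4 = w * (w * w ^ 2) := by ring
    nlinarith

/-- the packing thresholds -/
noncomputable def thr (w k p R i : ℕ) : ℕ :=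
  ⌈3 * (R * ((w ^ (32 - i) : ℕ) : ℝ) ^ 3 * ((k : ℝ) / p) ^ 3)⌉₊ + 3 * w ^ 2 * w ^ (32 - i)

lemma thr_le (hw : 1 ≤ w) (p R i : ℕ) : (thr w k p R i : ℝ) ≤
    3 * (R * ((w ^ (32 - i) : ℕ) : ℝ) ^ 3 * ((k : ℝ) / p) ^ 3) +
      4 * (w : ℝ) ^ 2 * ((w ^ (32 - i) : ℕ) : ℝ) := by
  unfold thr
  have h1 := Nat.ceil_lt_add_one
    (show (0 : ℝ) ≤ 3 * (R * ((w ^ (32 - i) : ℕ) : ℝ) ^ 3 * ((k : ℝ) / p) ^ 3) by positivity)
  have h2 : 1 ≤ w ^ 2 * w ^ (32 - i) := Nat.one_le_iff_ne_zero.2 (by positivity)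
  have h3 : (1 : ℝ) ≤ (w : ℝ) ^ 2 * ((w ^ (32 - i) : ℕ) : ℝ) := by exact_mod_cast h2
  rw [Nat.cast_add, Nat.cast_mul, Nat.cast_mul, Nat.cast_pow w 2, Nat.cast_ofNat]
  linarith

open Classical in
lemma bad3 (P : Par w k (Fintype.card G)) (I : Finset G) :
    (#((range 18).biUnion fun i => (((univ : Finset (G × G)).filter fun ω => ω.1 ≠ 0) ×ˢ
      Fintype.piFinset fun _ : Fin 3 => (univ : Finset G).powersetCard (w ^ (32 - i))).biUnion
      fun z => (univ.powersetCard k).filter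
        (Pack (cand (aff I z.1) z.2) lab3 (thr w k (Fintype.card G) (#I) i))) : ℝ) ≤
      18 * ((Fintype.card G).choose k * (1 / 2) ^ w) := by
  have hw := P.hw
  refine (card_biU _ _ _ fun i _ => ?_).trans (by rw [card_range]; exact le_rfl)
  set v := w ^ (32 - i) with hv
  have hv1 : 1 ≤ v := Nat.one_le_iff_ne_zero.2 (by positivity)
  have hM : 8 * (6 * (w * v)) ≤ thr w k (Fintype.card G) (#I) i := by
    unfold thr
    rw [← hv]
    have : 16 * (w * v) ≤ w * (w * v) := Nat.mul_le_mul_right _ (by omega)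
    nlinarith
  refine (card_biU _ _ ((Fintype.card G).choose k * (10 / 11) ^ thr w k (Fintype.card G) (#I) i)
    fun z hz => ?_).trans ?_
  · refine card_pack _ _ 3 _ k (fun f hf => card_lab3 f (mem_filter.1 hf).2) P.kp
      Fintype.card_pos _ (lt_of_lt_of_le (by positivity) hM) ?_
    rw [mem_product, mem_filter, Fintype.mem_piFinset] at hz
    have a1 : #(cand (aff I z.1) z.2) ≤ #I * v ^ 3 := by
      refine (card_filter_le _ _).trans ?_
      rw [card_product, Fintype.card_piFinset,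
        prod_congr rfl fun l _ => (mem_powersetCard.1 (hz.2 l)).2]
      simp only [prod_const, card_univ, Fintype.card_fin]
      exact Nat.mul_le_mul_right _ (card_aff _ _ hz.1.2)
    have a2 : (#(cand (aff I z.1) z.2) : ℝ) ≤ #I * (v : ℝ) ^ 3 := by exact_mod_cast a1
    have a3 : 3 * (#I * (v : ℝ) ^ 3 * ((k : ℝ) / Fintype.card G) ^ 3) ≤
        thr w k (Fintype.card G) (#I) i := by
      unfold thr
      rw [← hv, Nat.cast_add]
      exact (Nat.le_ceil _).trans (le_add_of_nonneg_right (Nat.cast_nonneg _))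
    calc _ ≤ 30 / 11 * (#I * (v : ℝ) ^ 3 * ((k : ℝ) / Fintype.card G) ^ 3) := by
          gcongr
          · linarith [Real.exp_one_lt_d9]
          · exact a2
      _ ≤ _ := by linarith
  · have h1 : (#(((univ : Finset (G × G)).filter fun ω => ω.1 ≠ 0) ×ˢ
        Fintype.piFinset fun _ : Fin 3 => (univ : Finset G).powersetCard v) : ℝ) ≤
        2 ^ (w + w + w * v * 3) := by
      rw [card_product, Fintype.card_piFinset, prod_const, card_univ, Fintype.card_fin, pow_add,
        pow_add, pow_mul]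
      have a1 : #((univ : Finset (G × G)).filter fun ω => ω.1 ≠ 0) ≤ 2 ^ w * 2 ^ w := by
        refine (card_filter_le _ _).trans ?_
        rw [card_univ, Fintype.card_prod]
        exact Nat.mul_le_mul P.p3 P.p3
      exact_mod_cast Nat.mul_le_mul a1 (Nat.pow_le_pow_left (card_pc w v P.p3) 3)
    have h2 : (10 / 11 : ℝ) ^ thr w k (Fintype.card G) (#I) i ≤ (1 / 2) ^ (6 * (w * v)) := by
      refine (pow_le_pow_of_le_one (by norm_num) (by norm_num) hM).trans ?_
      rw [pow_mul]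
      gcongr
      norm_num
    rw [mul_left_comm]
    gcongr
    refine le_trans (by gcongr) (half_pow (w + w + w * v * 3) (6 * (w * v)) _ ?_)
    have : w ≤ w * v := Nat.le_mul_of_pos_right _ hv1
    omega

/-- enumerations whose second half misses a target set too often -/
noncomputable def rare (G : Type) [DecidableEq G] [Field G] [Fintype G] (w k : ℕ) :
    Finset (Fin (k / 2) ⊕ Fin (k - k / 2) → G) :=
  (((univ : Finset G).powersetCard (w ^ 2)) ×ˢ ((univ : Finset G).powersetCard (w ^ 2)) ×ˢ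
    ((univ : Finset G).powersetCard (4 * w ^ 2))).biUnion fun z => univ.filter fun a =>
      49 / 100 * (k : ℝ) * ((w ^ 2 : ℕ) : ℝ) ^ 2 ≤
        #(tgt (univ.image fun i => a (Sum.inl i)) z.2.2 z.1 z.2.1) ∧
      (#(univ.filter fun i => a (Sum.inr i) ∈
        tgt (univ.image fun i => a (Sum.inl i)) z.2.2 z.1 z.2.1) : ℝ) ≤
        (((w ^ 2 : ℕ) : ℝ) ^ 2 + 32 * ((w ^ 2 : ℕ) : ℝ)) / 8

lemma card_rare (P : Par w k (Fintype.card G)) :
    (#(rare G w k) : ℝ) ≤ (Fintype.card G : ℝ) ^ k * (1 / 2) ^ w := by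
  have hW : (10000 : ℝ) ≤ w := by exact_mod_cast P.hw
  have hp0 : (0 : ℝ) < Fintype.card G := by exact_mod_cast Fintype.card_pos
  set σ : ℝ := 49 / 100 * (k : ℝ) * ((w ^ 2 : ℕ) : ℝ) ^ 2 with hσ
  set h : ℝ := (((w ^ 2 : ℕ) : ℝ) ^ 2 + 32 * ((w ^ 2 : ℕ) : ℝ)) / 8 with hh
  set p : ℝ := (Fintype.card G : ℝ) with hp
  refine (card_biU _ _ (p ^ (k / 2) * (Real.exp (7 / 10 * h) *
    (p * Real.exp (-(σ / (2 * p)))) ^ (k - k / 2))) fun z _ => ?_).trans ?_
  · rw [card_eq_sum_card_fiberwise (f := fun a i => a (Sum.inl i)) (t := univ)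
      fun _ _ => mem_coe.2 (mem_univ _), Nat.cast_sum]
    have e : p ^ (k / 2) = #(univ : Finset (Fin (k / 2) → G)) := by simp [hp]
    rw [e, ← nsmul_eq_mul, ← sum_const]
    refine sum_le_sum fun a1 _ => ?_
    set S := tgt (univ.image a1) z.2.2 z.1 z.2.1 with hS
    by_cases hc : σ ≤ #S
    · have b1 := card_few (Fin (k - k / 2)) S h
      rw [Fintype.card_fin] at b1
      refine le_trans (Nat.cast_le.2 ?_) (b1.trans ?_)
      · refine card_le_card_of_injOn (fun a i => a (Sum.inr i)) (fun a ha => ?_)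
          fun a ha a' ha' e => ?_
        · rw [mem_coe, mem_filter, mem_filter] at ha
          refine mem_coe.2 (mem_filter.2 ⟨mem_univ _, ?_⟩)
          have := ha.1.2.2
          rw [ha.2] at this
          exact this
        · rw [mem_coe, mem_filter] at ha ha'
          funext i
          rcases i with i | i
          · exact congrFun (ha.2.trans ha'.2.symm) i
          · exact congrFun e i
      · have c1 : (#S : ℝ) ≤ p := by rw [hp]; exact_mod_cast card_le_univ S
        gcongr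
        · linarith
        · have c2 := Real.add_one_le_exp (-(σ / (2 * p)))
          have c3 : p * (-(σ / (2 * p)) + 1) = p - σ / 2 := by field_simp; ring
          calc p - #S / 2 ≤ p * (-(σ / (2 * p)) + 1) := by rw [c3]; linarith
            _ ≤ _ := by gcongr
    · rw [card_eq_zero.2, Nat.cast_zero]
      · positivity
      · rw [filter_eq_empty_iff]
        intro a ha e
        have := (mem_filter.1 ha).2.1
        rw [e] at this
        exact hc this
  · have h1 : (#(((univ : Finset G).powersetCard (w ^ 2)) ×ˢ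
        ((univ : Finset G).powersetCard (w ^ 2)) ×ˢ
        ((univ : Finset G).powersetCard (4 * w ^ 2))) : ℝ) ≤ 2 ^ (6 * w ^ 3) := by
      rw [card_product, card_product,
        show 6 * w ^ 3 = w * w ^ 2 + (w * w ^ 2 + w * (4 * w ^ 2)) by ring, pow_add, pow_add]
      exact_mod_cast Nat.mul_le_mul (card_pc w _ P.p3)
        (Nat.mul_le_mul (card_pc w _ P.p3) (card_pc w _ P.p3))
    have h2 : (2 : ℝ) ≤ Real.exp 1 := by linarith [Real.exp_one_gt_d9]
    have h3 : (2 : ℝ) ^ (6 * w ^ 3) ≤ Real.exp (6 * (w : ℝ) ^ 3) := by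
      refine (pow_le_pow_left₀ (by norm_num) h2 _).trans (le_of_eq ?_)
      rw [← Real.exp_nat_mul]; push_cast; ring_nf
    have h4 : Real.exp (-(w : ℝ)) ≤ (1 / 2) ^ w := by
      rw [show -(w : ℝ) = w * (-1) by ring, Real.exp_nat_mul]
      gcongr
      rw [Real.exp_neg, ← one_div]
      gcongr
    have h5 : 12 / 100 * (w : ℝ) ^ 4 ≤ ((k - k / 2 : ℕ) : ℝ) * (σ / (2 * p)) := by
      have c1 : (k : ℝ) ≤ 2 * ((k - k / 2 : ℕ) : ℝ) := by exact_mod_cast (by omega)
      have c2 : 100 * p ≤ 101 * (k : ℝ) ^ 2 := by rw [hp]; exact_mod_cast P.p2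
      rw [← mul_div_assoc, le_div_iff₀ (by positivity), hσ]
      push_cast
      have c3 : (0 : ℝ) ≤ k := Nat.cast_nonneg _
      have c4 : (0 : ℝ) < (w : ℝ) ^ 4 := by positivity
      calc 12 / 100 * (w : ℝ) ^ 4 * (2 * p) ≤ 12 / 100 * (w : ℝ) ^ 4 * (2 * (101 / 100 * k ^ 2)) := by
            gcongr; linarith
        _ ≤ (k : ℝ) / 2 * (49 / 100 * k * ((w : ℝ) ^ 2) ^ 2) := by
            have : 0 ≤ (w : ℝ) ^ 4 * (k : ℝ) ^ 2 := by positivity
            nlinarith
        _ ≤ _ := by gcongr; linarith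
    have e : p ^ k = p ^ (k / 2) * p ^ (k - k / 2) := by
      rw [← pow_add, Nat.add_sub_cancel' (Nat.div_le_self _ _)]
    calc _ ≤ Real.exp (6 * (w : ℝ) ^ 3) * (p ^ (k / 2) * (Real.exp (7 / 10 * h) *
          (p * Real.exp (-(σ / (2 * p)))) ^ (k - k / 2))) := by
          gcongr
          exact h1.trans h3
      _ = p ^ k * Real.exp (6 * (w : ℝ) ^ 3 + 7 / 10 * h +
          ((k - k / 2 : ℕ) : ℝ) * (-(σ / (2 * p)))) := by
          rw [e, mul_pow, ← Real.exp_nat_mul, Real.exp_add, Real.exp_add]; ring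
      _ ≤ _ := by
          gcongr
          refine le_trans (Real.exp_le_exp.2 ?_) h4
          rw [hh]
          push_cast at h5 ⊢
          have c1 : 10000 * (w : ℝ) ^ 3 ≤ (w : ℝ) ^ 4 := by
            rw [pow_succ' (w : ℝ) 3]; gcongr
          have c2 : (w : ℝ) ^ 2 ≤ (w : ℝ) ^ 3 := pow_le_pow_right₀ (by linarith) (by norm_num)
          have c3 : (w : ℝ) ≤ (w : ℝ) ^ 2 := by nlinarith
          nlinarith

open Classical in
theorem cover_count (P : Par w k (Fintype.card G)) :
    (#(((univ : Finset G).powersetCard k).filter fun A =>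
      ∃ T : Finset G, 100 * #T ≤ 101 * k ∧ ∀ x, ∃ t ∈ T, x - t ∈ A) : ℝ) ≤
      29 * (1 / 2) ^ w * (Fintype.card G).choose k := by
  have hw := P.hw
  have hk1 := P.k1
  have pw : ∀ a b, a ≤ b → w ^ a ≤ w ^ b := fun a b h => Nat.pow_le_pow_right (by omega) h
  have h58 : 10000 * w ^ 58 ≤ w ^ 60 :=
    le_trans (by rw [pow_succ' w 58]; exact Nat.mul_le_mul_right _ hw) (pw 59 60 (by norm_num))
  have h2 := pw 2 58 (by norm_num)
  have h1 : w ≤ w ^ 2 := Nat.le_self_pow two_ne_zero w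
  have hkp := P.kp
  obtain ⟨I, -, hI⟩ := exists_subset_card_eq (s := (univ : Finset G))
    (n := Fintype.card G / 400) (by rw [card_univ]; omega)
  let B4 := ((univ : Finset G).powersetCard k).filter fun A =>
    ∀ a : Fin (k / 2) ⊕ Fin (k - k / 2) → G, Function.Injective a → univ.image a = A →
      a ∈ rare G w k
  have hι : Fintype.card (Fin (k / 2) ⊕ Fin (k - k / 2)) = k := by simp; omega
  have hB4 : (#B4 : ℝ) ≤ 9 * ((Fintype.card G).choose k * (1 / 2) ^ w) := by
    have a1 := transfer _ B4 (rare G w k)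
      (fun A hA => by rw [hι]; exact (mem_powersetCard.1 (mem_filter.1 hA).1).2)
      fun A hA => (mem_filter.1 hA).2
    rw [hι] at a1
    have a2 : (#B4 : ℝ) * k.factorial ≤ #(rare G w k) := by exact_mod_cast a1
    have a3 := pow_le_nine _ k (by omega) P.p1
    have a4 : (0 : ℝ) < k.factorial := by exact_mod_cast k.factorial_pos
    refine le_of_mul_le_mul_right (a2.trans ((card_rare P).trans ?_)) a4
    calc _ ≤ 9 * (k.factorial * (Fintype.card G).choose k) * (1 / 2 : ℝ) ^ w := by gcongr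
      _ = _ := by ring
  have b1 := bad1 P
  have b2 := bad2 P
  have b3 := bad3 P I
  refine le_trans (Nat.cast_le.2 (card_le_card (t := (_ ∪ _) ∪ (_ ∪ B4)) fun A hA => ?_))
    (le_trans (Nat.cast_le.2 ((card_union_le _ _).trans
      (add_le_add (card_union_le _ _) (card_union_le _ _)))) (by
        push_cast
        refine (add_le_add (add_le_add b1 b2) (add_le_add b3 hB4)).trans (le_of_eq (by ring))))
  obtain ⟨hA, T, hT, hc⟩ := mem_filter.1 hA
  by_contra hn
  simp only [mem_union, not_or, mem_biUnion, not_exists, not_and, mem_filter, B4] at hn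
  obtain ⟨⟨n1, n2⟩, n3, n4⟩ := hn
  have hAk := (mem_powersetCard.1 hA).2
  have n5 := n4 hA
  push Not at n5
  obtain ⟨a, ha1, ha2, ha3⟩ := n5
  refine no_cover w k hw hk1 P.k2 P.p1 I (by omega) (by omega) A hAk
    (fun d hd => codeg_of A w d hd (n1 d (by simpa using hd) hA)) ?_
    (thr w k (Fintype.card G) (#I)) (thr_le (by omega) _ _)
    (fun i hi ω hω V hV => n3 i (mem_range.2 (by omega)) (ω, V) ?_ hA) T hT hc
  · refine low_of A (univ.image fun i => a (Sum.inl i)) (univ.image fun i => a (Sum.inr i))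
      (w ^ 2) (w ^ 58) (49 / 100 * (k : ℝ) * ((w ^ 2 : ℕ) : ℝ) ^ 2) ?_ ?_ ?_ (by omega) ?_
      (fun U V hU hV => n2 (U, V) (by simp [hU, hV]) hA) fun U V B hU hV hB hσ => ?_
    · intro x hx
      obtain ⟨i, -, rfl⟩ := mem_image.1 hx
      rw [← ha2]; exact mem_image_of_mem _ (mem_univ _)
    · intro x hx
      obtain ⟨i, -, rfl⟩ := mem_image.1 hx
      rw [← ha2]; exact mem_image_of_mem _ (mem_univ _)
    · rw [disjoint_left]
      intro x hx hx'
      obtain ⟨i, -, rfl⟩ := mem_image.1 hx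
      obtain ⟨j, -, e⟩ := mem_image.1 hx'
      exact Sum.inr_ne_inl (ha1 e)
    · rw [card_image_of_injective _
        (show Function.Injective (fun i => a (Sum.inl i)) from ha1.comp Sum.inl_injective), card_univ, Fintype.card_fin]
      gcongr
      have : 49 * k ≤ 100 * (k / 2 - (4 * w ^ 2 + 2 * w ^ 58)) := by omega
      have c : ((49 * k : ℕ) : ℝ) ≤ ((100 * (k / 2 - (4 * w ^ 2 + 2 * w ^ 58)) : ℕ) : ℝ) :=
        Nat.cast_le.2 this
      rw [Nat.cast_mul, Nat.cast_mul] at c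
      norm_num only at c
      linarith
    · by_contra hlt
      apply ha3
      refine mem_biUnion.2 ⟨(U, V, B), by simp [hU, hV, hB], mem_filter.2 ⟨mem_univ _, hσ, ?_⟩⟩
      have e : #(univ.filter fun i => a (Sum.inr i) ∈
          tgt (univ.image fun i => a (Sum.inl i)) B U V) =
          #((univ.image fun i => a (Sum.inr i)).filter
            (· ∈ tgt (univ.image fun i => a (Sum.inl i)) B U V)) := by
        rw [filter_image, card_image_of_injective _
          (show Function.Injective (fun i => a (Sum.inr i)) from ha1.comp Sum.inr_injective)]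
      rw [e, le_div_iff₀ (by norm_num)]
      have c : 8 * #((univ.image fun i => a (Sum.inr i)).filter
            (· ∈ tgt (univ.image fun i => a (Sum.inl i)) B U V)) ≤ (w ^ 2) ^ 2 + 32 * w ^ 2 := by
        omega
      rw [mul_comm] at c
      exact_mod_cast c
  · simp only [mem_product, mem_filter, mem_univ, true_and, Fintype.mem_piFinset,
      mem_powersetCard, subset_univ]
    exact ⟨hω, hV⟩

lemma exists_par (W p : ℕ) (hW : 10000 ≤ W) (hp : (W ^ 60) ^ 2 ≤ p) :
    ∃ w, W ≤ w ∧ Par w p.sqrt p := by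
  set k := p.sqrt with hk
  have hex : ∃ w, k < (w + 1) ^ 60 := ⟨k, lt_of_lt_of_le (Nat.lt_succ_self k)
    (Nat.le_self_pow (by norm_num) _)⟩
  set w := Nat.find hex with hw
  have h1 : k < (w + 1) ^ 60 := Nat.find_spec hex
  have h0 : W ^ 60 ≤ k := Nat.le_sqrt'.2 hp
  have h2 : W ≤ w := by
    have := lt_of_pow_lt_pow_left₀ 60 (Nat.zero_le _) (h0.trans_lt h1)
    omega
  have h3 : w ^ 60 ≤ k := by
    have := Nat.find_min hex (m := w - 1) (by omega)
    rw [Nat.sub_add_cancel (by omega)] at this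
    omega
  have h4 : p < (k + 1) ^ 2 := Nat.lt_succ_sqrt' p
  have h5 : w ≤ k := le_trans (Nat.le_self_pow (by norm_num) _) h3
  refine ⟨w, h2, by omega, h3, ?_, Nat.sqrt_le' p, by nlinarith, ?_⟩
  · have a1 : (10000 * (w + 1)) ^ 60 ≤ (10001 * w) ^ 60 := Nat.pow_le_pow_left (by omega) _
    rw [mul_pow, mul_pow] at a1
    have a2 : 10001 ^ 60 * w ^ 60 ≤ 10000 ^ 60 * (2 * w ^ 60) := by
      rw [← mul_assoc]
      exact Nat.mul_le_mul_right _ (by norm_num)
    exact h1.le.trans (Nat.le_of_mul_le_mul_left (a1.trans a2) (by positivity))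
  · have a1 : ∀ t, 11 ≤ t → 120 * (t + 1) ≤ 2 ^ t := by
      intro t ht
      induction t, ht using Nat.le_induction with
      | base => norm_num
      | succ t _ ih => rw [pow_succ]; omega
    have a2 : w + 1 ≤ 2 ^ (w / 120) := le_trans (by omega) (a1 (w / 120) (by omega))
    calc p ≤ (k + 1) ^ 2 := h4.le
      _ ≤ ((w + 1) ^ 60) ^ 2 := Nat.pow_le_pow_left h1 _
      _ = (w + 1) ^ 120 := by rw [← pow_mul]
      _ ≤ (2 ^ (w / 120)) ^ 120 := Nat.pow_le_pow_left a2 _
      _ ≤ 2 ^ w := by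
        rw [← pow_mul]
        exact Nat.pow_le_pow_right (by norm_num) (Nat.div_mul_le_self _ _)

end Pool.Agent.H234Z.Cov
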