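import Pool.Agent.H234Z.DetE

/-! Numbers whose orbit stays mostly near the integers are deterministic. -/

set_option autoImplicit false

open Filter Topology Real Set

namespace Pool.Agent.H234Z.Det

/-- total distance of the first `N` orbit points from the integers -/
noncomputable def psi (r N : ℕ) (y : ℝ) : ℝ := ∑ n ∈ Finset.range N, ch (2 * π * (y * (r : ℝ) ^ n))

lemma psi_nonneg (r N : ℕ) (y : ℝ) : 0 ≤ psi r N y := Finset.sum_nonneg fun _ _ => ch_nonneg _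

lemma continuous_psi (r N : ℕ) : Continuous (psi r N) :=
  continuous_finsetSum _ fun _ _ => continuous_ch.comp (by fun_prop)

lemma psi_add (r N : ℕ) (u t : ℝ) : psi r N (u + t) ≤ psi r N u + psi r N t := by
  unfold psi
  rw [← Finset.sum_add_distrib]
  refine Finset.sum_le_sum fun n _ => ?_
  rw [add_mul, mul_add]
  exact ch_add _ _

lemma ch_int (n : ℤ) : ch (2 * π * n) = 0 := by
  unfold ch; rw [ex_int]; simp

lemma psi_int (r N : ℕ) (z : ℤ) : psi r N z = 0 := by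
  unfold psi
  refine Finset.sum_eq_zero fun n _ => ?_
  have := ch_int (z * (r : ℤ) ^ n)
  push_cast at this
  exact this

lemma geom_le (r : ℝ) (hr : 2 ≤ r) (K : ℕ) : ∑ n ∈ Finset.range K, r ^ n ≤ r ^ K := by
  induction K with
  | zero => simp
  | succ K ih =>
    rw [Finset.sum_range_succ, pow_succ]
    have : 0 ≤ r ^ K := by positivity
    nlinarith

lemma ch_step (r : ℝ) (hr : 2 ≤ r) (e n : ℕ) :
    ch (2 * π * ((1 / r) ^ e * r ^ n)) ≤ 7 * ((1 / r) ^ e * r ^ n) := by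
  refine (ch_le_abs _).trans ?_
  have h : 0 ≤ (1 / r) ^ e * r ^ n := by positivity
  rw [abs_of_nonneg (by positivity)]
  nlinarith [Real.pi_lt_d2]

lemma psi_le_one (r N e : ℕ) (hr : 2 ≤ r) : psi r N ((1 / r) ^ e) ≤ 7 := by
  have hr' : (2 : ℝ) ≤ r := by exact_mod_cast hr
  have h1 : psi r N ((1 / r) ^ e) ≤ psi r (e + N) ((1 / r) ^ e) :=
    Finset.sum_le_sum_of_subset_of_nonneg (Finset.range_mono (by omega)) fun _ _ _ => ch_nonneg _
  refine h1.trans ?_
  unfold psi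
  rw [Finset.sum_range_add]
  have h2 : ∑ x ∈ Finset.range N, ch (2 * π * ((1 / (r : ℝ)) ^ e * (r : ℝ) ^ (e + x))) = 0 := by
    refine Finset.sum_eq_zero fun n _ => ?_
    have := ch_int ((r : ℤ) ^ n)
    rw [← this]
    congr 2
    rw [pow_add, ← mul_assoc, ← mul_pow, one_div_mul_cancel (by positivity)]
    simp
  rw [h2, add_zero]
  refine (Finset.sum_le_sum fun n _ => ch_step r hr' e n).trans ?_
  rw [← Finset.mul_sum, ← Finset.mul_sum]
  have h3 := geom_le r hr' e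
  have h4 : (1 / (r : ℝ)) ^ e * (r : ℝ) ^ e = 1 := by
    rw [← mul_pow, one_div_mul_cancel (by positivity), one_pow]
  have h5 : 0 ≤ (1 / (r : ℝ)) ^ e := by positivity
  nlinarith

lemma psi_le_half (r N e j : ℕ) (hr : 2 ≤ r) (he : N + j ≤ e) :
    psi r N ((1 / r) ^ e) ≤ 7 * (1 / 2) ^ j := by
  have hr' : (2 : ℝ) ≤ r := by exact_mod_cast hr
  unfold psi
  refine (Finset.sum_le_sum fun n _ => ch_step r hr' e n).trans ?_
  rw [← Finset.mul_sum, ← Finset.mul_sum]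
  have h3 := geom_le r hr' N
  have h0 : (0 : ℝ) ≤ 1 / r := by positivity
  have h1 : (1 : ℝ) / r ≤ 1 / 2 := by gcongr
  have h4 : (1 / (r : ℝ)) ^ e ≤ (1 / (r : ℝ)) ^ (N + j) :=
    pow_le_pow_of_le_one h0 (by linarith) he
  have h5 : (1 / (r : ℝ)) ^ (N + j) * (r : ℝ) ^ N ≤ (1 / 2) ^ j := by
    rw [pow_add, mul_right_comm, ← mul_pow, one_div_mul_cancel (by positivity), one_pow, one_mul]
    gcongr
  have h6 : (1 / (r : ℝ)) ^ e * ∑ n ∈ Finset.range N, (r : ℝ) ^ n ≤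
      (1 / (r : ℝ)) ^ (N + j) * (r : ℝ) ^ N := by
    gcongr
  linarith

lemma sum_split (β B : ℕ → ℝ) (C : ℝ) (N M : ℕ) (h0 : ∀ i, 0 ≤ β i) (h1 : ∀ i, β i ≤ B i)
    (h2 : ∀ j, β (N + j) ≤ C * (1 / 2) ^ j) (hC : 0 ≤ C) :
    ∑ i ∈ Finset.range M, β i ≤ ∑ i ∈ Finset.range N, B i + 2 * C := by
  have h3 : ∑ i ∈ Finset.range M, β i ≤ ∑ i ∈ Finset.range (N + M), β i :=
    Finset.sum_le_sum_of_subset_of_nonneg (Finset.range_mono (by omega)) fun _ _ _ => h0 _
  refine h3.trans ?_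
  rw [Finset.sum_range_add]
  have h4 : ∑ j ∈ Finset.range M, β (N + j) ≤ 2 * C := by
    refine (Finset.sum_le_sum fun j _ => h2 j).trans ?_
    rw [← Finset.mul_sum]
    have := sum_geometric_two_le M
    nlinarith
  have h5 : ∑ i ∈ Finset.range N, β i ≤ ∑ i ∈ Finset.range N, B i :=
    Finset.sum_le_sum fun i _ => h1 i
  linarith

/-- the deviation functional -/
noncomputable def dev (r : ℕ) (p : ℕ → ℝ) (a k : ℕ) (y : ℝ) : ℝ :=
  (max (psi r ((k + 1) ^ 4) y - (∑ i ∈ Finset.range ((k + 1) ^ 4), 7 * p (a + i) + 14)) 0) ^ 2 /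
    (((k + 1) ^ 4 : ℕ) : ℝ) ^ 2

lemma dev_nonneg (r : ℕ) (p : ℕ → ℝ) (a k : ℕ) (y : ℝ) : 0 ≤ dev r p a k y := by
  unfold dev; positivity

lemma continuous_dev (r : ℕ) (p : ℕ → ℝ) (a k : ℕ) : Continuous (dev r p a k) := by
  have := continuous_psi r ((k + 1) ^ 4)
  unfold dev; fun_prop

lemma Ex_dev {p c : ℕ → ℝ} (G : Good p c) (r : ℕ) (hr : 2 ≤ r)
    (hc : ∀ i, ∃ e, i ≤ e ∧ c i = (1 / r) ^ e) (a k M : ℕ) (z : ℤ) :
    Ex p c a M (dev r p a k) z ≤ 147 * (1 / ((k : ℝ) + 1) ^ 2) := by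
  set N := (k + 1) ^ 4 with hN
  have hb1 : ∀ i, psi r N (c (a + i)) ≤ 7 := by
    intro i
    obtain ⟨e, _, h⟩ := hc (a + i)
    rw [h]; exact psi_le_one _ _ _ hr
  have hb2 : ∀ j, psi r N (c (a + (N + j))) ≤ 7 * (1 / 2) ^ j := by
    intro j
    obtain ⟨e, he, h⟩ := hc (a + (N + j))
    rw [h]; exact psi_le_half _ _ _ _ hr (by omega)
  have h1 := Ex_second G (psi r N) (psi r N) (psi_add r N)
    (∑ i ∈ Finset.range M, p (a + i) * psi r N (c (a + i))) M a z 0 (psi_int r N z).le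
  rw [zero_add, sub_self] at h1
  have h2 : ∑ i ∈ Finset.range M, p (a + i) * psi r N (c (a + i)) ≤
      ∑ i ∈ Finset.range N, 7 * p (a + i) + 2 * 7 := by
    refine sum_split _ _ _ _ _ (fun i => mul_nonneg (G.p0 _) (psi_nonneg _ _ _)) (fun i => ?_)
      (fun j => ?_) (by norm_num)
    · nlinarith [hb1 i, G.p0 (a + i)]
    · have := G.p1 (a + (N + j))
      nlinarith [hb2 j, psi_nonneg r N (c (a + (N + j)))]
  have h3 : ∑ i ∈ Finset.range M, psi r N (c (a + i)) ^ 2 ≤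
      ∑ _i ∈ Finset.range N, (49 : ℝ) + 2 * 49 := by
    refine sum_split _ _ _ _ _ (fun i => sq_nonneg _) (fun i => ?_) (fun j => ?_) (by norm_num)
    · nlinarith [hb1 i, psi_nonneg r N (c (a + i))]
    · nlinarith [hb2 j, hb1 (N + j), psi_nonneg r N (c (a + (N + j)))]
  have hNr : (N : ℝ) = ((k : ℝ) + 1) ^ 4 := by rw [hN]; push_cast; ring
  have hk : (1 : ℝ) ≤ (k : ℝ) + 1 := by linarith [Nat.cast_nonneg (α := ℝ) k]
  have hN1 : (1 : ℝ) ≤ N := by rw [hNr]; exact one_le_pow₀ hk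
  have h4 : Ex p c a M (dev r p a k) z ≤ Ex p c a M (fun y => (1 / (N : ℝ) ^ 2) *
      (max (psi r N y - ∑ i ∈ Finset.range M, p (a + i) * psi r N (c (a + i))) 0) ^ 2) z := by
    refine Ex_mono G _ _ _ _ _ fun y _ _ => ?_
    unfold dev
    rw [← hN, one_div_mul_eq_div]
    gcongr
    linarith
  rw [Ex_mul] at h4
  refine h4.trans ?_
  simp only [Finset.sum_const, Finset.card_range, nsmul_eq_mul] at h3
  have h5 : 1 / (N : ℝ) ≤ 1 / ((k : ℝ) + 1) ^ 2 := by
    rw [hNr]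
    gcongr
    norm_num
  calc _ ≤ 1 / (N : ℝ) ^ 2 * (147 * N) := by
        gcongr
        linarith
    _ = 147 * (1 / (N : ℝ)) := by field_simp
    _ ≤ _ := by gcongr

lemma tendsto_pow4 : Tendsto (fun k : ℕ => (k + 1) ^ 4) atTop atTop :=
  (tendsto_pow_atTop (by norm_num)).comp (tendsto_add_atTop_nat 1)

lemma psi_small (r : ℕ) (p : ℕ → ℝ) (hp : Tendsto p atTop (𝓝 0)) (a : ℕ) (y : ℝ)
    (h : Tendsto (fun k => dev r p a k y) atTop (𝓝 0)) :
    Tendsto (fun N : ℕ => psi r N y / N) atTop (𝓝 0) := by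
  apply interp_real _ (fun n => by linarith [ch_nonneg (2 * π * (y * (r : ℝ) ^ n))])
  have h1 := h.sqrt
  rw [Real.sqrt_zero] at h1
  have h2 : Tendsto (fun i => 7 * p (a + i)) atTop (𝓝 0) := by
    have := (hp.comp (tendsto_add_atTop_nat a)).const_mul 7
    simpa [add_comm] using this
  have h3 := h2.cesaro.comp tendsto_pow4
  have h4 := (tendsto_const_div_atTop_nhds_zero_nat (14 : ℝ)).comp tendsto_pow4
  have h5 := (h1.add h3).add h4
  rw [add_zero, add_zero] at h5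
  refine squeeze_zero (fun k => div_nonneg (psi_nonneg _ _ _) (Nat.cast_nonneg _)) (fun k => ?_) h5
  simp only [Function.comp, dev]
  have hN : (0 : ℝ) < (((k + 1) ^ 4 : ℕ) : ℝ) := by positivity
  rw [← div_pow, Real.sqrt_sq (by positivity), inv_mul_eq_div, ← add_div, ← add_div]
  gcongr
  have := le_max_left (psi r ((k + 1) ^ 4) y -
    (∑ i ∈ Finset.range ((k + 1) ^ 4), 7 * p (a + i) + 14)) 0
  unfold psi at this ⊢
  linarith

/-- block frequencies -/
noncomputable def freq (r : ℕ) (y : ℝ) (k : ℕ) (w : Fin k → Fin r) (N : ℕ) : ℝ :=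
  ((((Finset.range N).filter
    (fun i => ∀ j : Fin k,
      ⌊y * (r : ℝ) ^ (i + (j : ℕ) + 1)⌋ % (r : ℤ) = ((w j : ℕ) : ℤ))).card : ℝ) / (N : ℝ))

lemma freq_nonneg (r : ℕ) (y : ℝ) (k : ℕ) (w : Fin k → Fin r) (N : ℕ) : 0 ≤ freq r y k w N := by
  unfold freq; positivity

lemma digits_near (r : ℕ) (hr : 2 ≤ r) (k : ℕ) (z : ℝ) (hz : |z - round z| < (1 / r) ^ k) :
    (∀ j < k, ⌊z * (r : ℝ) ^ (j + 1)⌋ % (r : ℤ) = 0) ∨
      (∀ j < k, ⌊z * (r : ℝ) ^ (j + 1)⌋ % (r : ℤ) = r - 1) := by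
  have hr' : (2 : ℝ) ≤ r := by exact_mod_cast hr
  have key : ∀ j < k, |z - round z| * (r : ℝ) ^ (j + 1) < 1 := by
    intro j hj
    have h1 : (r : ℝ) ^ (j + 1) ≤ (r : ℝ) ^ k := pow_le_pow_right₀ (by linarith) hj
    have h2 : (1 / (r : ℝ)) ^ k * (r : ℝ) ^ k = 1 := by
      rw [← mul_pow, one_div_mul_cancel (by positivity), one_pow]
    have h3 : (0 : ℝ) < (r : ℝ) ^ k := by positivity
    calc _ ≤ |z - round z| * (r : ℝ) ^ k := by gcongr
      _ < (1 / (r : ℝ)) ^ k * (r : ℝ) ^ k := by gcongr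
      _ = 1 := h2
  rcases le_or_gt 0 (z - round z) with h | h
  · left
    intro j hj
    have h1 := key j hj
    rw [abs_of_nonneg h] at h1
    have h2 : 0 ≤ (z - round z) * (r : ℝ) ^ (j + 1) := by positivity
    have : ⌊z * (r : ℝ) ^ (j + 1)⌋ = (r : ℤ) * (round z * (r : ℤ) ^ j) := by
      rw [Int.floor_eq_iff]
      push_cast
      rw [pow_succ] at h1 h2 ⊢
      constructor <;> nlinarith
    rw [this, Int.mul_emod_right]
  · right
    intro j hj
    have h1 := key j hj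
    rw [abs_of_neg h] at h1
    have h2 : (z - round z) * (r : ℝ) ^ (j + 1) < 0 := mul_neg_of_neg_of_pos h (by positivity)
    have : ⌊z * (r : ℝ) ^ (j + 1)⌋ = (r - 1) + (r : ℤ) * (round z * (r : ℤ) ^ j - 1) := by
      rw [Int.floor_eq_iff]
      push_cast
      rw [pow_succ] at h1 h2 ⊢
      constructor <;> nlinarith
    rw [this, Int.add_mul_emod_self_left]
    exact Int.emod_eq_of_lt (by omega) (by omega)

lemma freq_le (r : ℕ) (hr : 2 ≤ r) (y : ℝ) (k : ℕ) (w : Fin k → Fin r)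
    (h0 : ¬ ∀ j, (w j : ℕ) = 0) (h1 : ¬ ∀ j, (w j : ℕ) = r - 1) (N : ℕ) :
    freq r y k w N ≤ (r : ℝ) ^ k * (psi r N y / N) := by
  have hr' : (2 : ℝ) ≤ r := by exact_mod_cast hr
  unfold freq psi
  rw [← mul_div_assoc]
  gcongr
  rw [Finset.card_filter, Finset.mul_sum]
  push_cast
  refine Finset.sum_le_sum fun i _ => ?_
  split_ifs with h
  · have h2 : (1 / (r : ℝ)) ^ k ≤ |y * (r : ℝ) ^ i - round (y * (r : ℝ) ^ i)| := by
      by_contra hc
      rcases digits_near r hr k _ (not_le.1 hc) with h3 | h3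
      · apply h0
        intro j
        have h4 := h3 j j.2
        rw [mul_assoc, ← pow_add, ← add_assoc, h j] at h4
        exact_mod_cast h4
      · apply h1
        intro j
        have h4 := h3 j j.2
        rw [mul_assoc, ← pow_add, ← add_assoc, h j] at h4
        omega
    have h3 := ch_round (y * (r : ℝ) ^ i)
    have h4 : (r : ℝ) ^ k * (1 / (r : ℝ)) ^ k = 1 := by
      rw [← mul_pow, mul_one_div_cancel (by positivity), one_pow]
    have h5 : (0 : ℝ) < (r : ℝ) ^ k := by positivity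
    have h6 : (1 / (r : ℝ)) ^ k ≤ ch (2 * π * (y * (r : ℝ) ^ i)) := by
      linarith [abs_nonneg (y * (r : ℝ) ^ i - round (y * (r : ℝ) ^ i))]
    rw [← h4]
    gcongr
  · have := ch_nonneg (2 * π * (y * (r : ℝ) ^ i))
    positivity

theorem det_of_psi (r : ℕ) (hr : 2 ≤ r) (y : ℝ)
    (h : Tendsto (fun N : ℕ => psi r N y / N) atTop (𝓝 0)) (ε : ℝ) (hε : 0 < ε) :
    ∃ n : ℕ, 1 ≤ n ∧ ∃ N0 : ℕ, ∀ N : ℕ, N0 ≤ N →
      ∑ w : Fin n → Fin r, Real.negMulLog (freq r y n w N) < ε * n := by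
  classical
  obtain ⟨n, hn⟩ := exists_nat_gt (3 / ε)
  have hn' : 3 < ε * n := by rwa [div_lt_iff₀' hε] at hn
  have hn1 : 1 ≤ n := by
    by_contra hc
    have : n = 0 := by omega
    subst this
    norm_num at hn'
  refine ⟨n, hn1, ?_⟩
  let W : Finset (Fin n → Fin r) := {fun _ => ⟨0, by omega⟩, fun _ => ⟨r - 1, by omega⟩}
  have h1 : Tendsto (fun N => ∑ w ∈ Wᶜ, Real.negMulLog (freq r y n w N)) atTop
      (𝓝 (∑ _w ∈ Wᶜ, 0)) := by
    refine tendsto_finsetSum _ fun w hw => ?_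
    have h2 : Tendsto (fun N => freq r y n w N) atTop (𝓝 0) := by
      have h3 := h.const_mul ((r : ℝ) ^ n)
      rw [mul_zero] at h3
      simp only [W, Finset.mem_compl, Finset.mem_insert, Finset.mem_singleton, not_or] at hw
      refine squeeze_zero (freq_nonneg _ _ _ _) (freq_le r hr y n w ?_ ?_) h3
      · intro hc; apply hw.1; funext j; exact Fin.ext (hc j)
      · intro hc; apply hw.2; funext j; exact Fin.ext (hc j)
    have := (Real.continuous_negMulLog.tendsto 0).comp h2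
    rw [Real.negMulLog_zero] at this
    exact this
  rw [Finset.sum_const_zero] at h1
  have h2 := (tendsto_order.1 h1).2 1 one_pos
  obtain ⟨N0, hN0⟩ := eventually_atTop.1 h2
  refine ⟨N0, fun N hN => ?_⟩
  rw [← Finset.sum_add_sum_compl W]
  have h3 : ∑ w ∈ W, Real.negMulLog (freq r y n w N) ≤ ∑ _w ∈ W, (1 : ℝ) := by
    refine Finset.sum_le_sum fun w _ => ?_
    have := Real.negMulLog_le_one_sub_self (freq_nonneg r y n w N)
    linarith [freq_nonneg r y n w N]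
  have h4 : (W.card : ℝ) ≤ 2 := by exact_mod_cast Finset.card_le_two
  rw [Finset.sum_const, nsmul_eq_mul, mul_one] at h3
  linarith [hN0 N hN]

theorem freq_of_weyl (l : Filter ℕ) (hl : l ≤ atTop) (x : ℝ) (r : ℕ) (hr : 2 ≤ r)
    (hy : ∀ h : ℤ, h ≠ 0 → Tendsto
      (fun N : ℕ => (∑ n ∈ Finset.range N, ex (2 * π * h * (x * (r : ℝ) ^ n))) / (N : ℂ)) l (𝓝 0))
    (k : ℕ) (w : Fin k → Fin r) : Tendsto (freq r x k w) l (𝓝 (1 / (r : ℝ) ^ k)) :=
  normal_of_weyl l hl x r hr hy k (fun j => ((w j : ℕ) : ℤ))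
    fun j => ⟨by positivity, by exact_mod_cast (w j).2⟩

end Pool.Agent.H234Z.Det
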