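import Pool.Agent.H234Z.DetW

/-! Finite expectations over independent biased binary digits. -/

set_option autoImplicit false

open Filter Topology Real Set

namespace Pool.Agent.H234Z.Det

lemma ex_add (s t : ℝ) : ex (s + t) = ex s * ex t := by
  unfold ex; rw [← Complex.exp_add]; congr 1; push_cast; ring

lemma norm_ex (t : ℝ) : ‖ex t‖ = 1 := Complex.norm_exp_ofReal_mul_I t

lemma ex_zero : ex 0 = 1 := by simp [ex]

lemma conj_ex (t : ℝ) : (starRingEnd ℂ) (ex t) = ex (-t) := by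
  unfold ex
  rw [← Complex.exp_conj]
  simp

lemma ex_int (n : ℤ) : ex (2 * π * n) = 1 := by
  unfold ex
  rw [← Complex.exp_int_mul_two_pi_mul_I n]
  congr 1; push_cast; ring

lemma continuous_ex : Continuous ex := by
  unfold ex; fun_prop

/-- chord length -/
noncomputable def ch (t : ℝ) : ℝ := ‖ex t - 1‖

lemma ch_nonneg (t : ℝ) : 0 ≤ ch t := norm_nonneg _

lemma continuous_ch : Continuous ch := (continuous_ex.sub continuous_const).norm

lemma ch_eq (t : ℝ) : ch t = |2 * Real.sin (t / 2)| := by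
  unfold ch ex
  rw [mul_comm (t : ℂ), Complex.norm_exp_I_mul_ofReal_sub_one]
  rfl

lemma ch_le_abs (t : ℝ) : ch t ≤ |t| := by
  unfold ch ex
  rw [mul_comm (t : ℂ)]
  exact Real.norm_exp_I_mul_ofReal_sub_one_le

lemma ch_le_two (t : ℝ) : ch t ≤ 2 := by
  unfold ch
  refine (norm_sub_le _ _).trans ?_
  rw [norm_ex]; norm_num

lemma norm_ex_sub (s t : ℝ) : ‖ex s - ex t‖ = ch (s - t) := by
  unfold ch
  have : ex s - ex t = ex t * (ex (s - t) - 1) := by
    rw [mul_sub, ← ex_add]; simp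
  rw [this, norm_mul, norm_ex, one_mul]

lemma ch_neg (t : ℝ) : ch (-t) = ch t := by
  rw [ch_eq, ch_eq, neg_div, Real.sin_neg, mul_neg, abs_neg]

lemma ch_add (s t : ℝ) : ch (s + t) ≤ ch s + ch t := by
  have h1 : ch s = ‖ex (s + t) - ex t‖ := by rw [norm_ex_sub]; simp
  rw [h1]
  unfold ch
  have := norm_add_le (ex (s + t) - ex t) (ex t - 1)
  simpa using this

lemma ch_sub (s t : ℝ) : ch (s - t) ≤ ch s + ch t := by
  rw [sub_eq_add_neg, ← ch_neg t]; exact ch_add _ _

lemma ch_le_add (s t : ℝ) : ch s ≤ ch t + |s - t| := by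
  have := ch_add t (s - t)
  rw [add_sub_cancel] at this
  linarith [ch_le_abs (s - t)]

lemma ch_ge (t : ℝ) (h : |t| ≤ π) : 2 / π * |t| ≤ ch t := by
  rw [ch_eq, abs_mul, abs_two]
  have := Real.mul_abs_le_abs_sin (x := t / 2) (by rw [abs_div, abs_two]; linarith)
  rw [abs_div, abs_two] at this
  linarith

lemma ch_ge' (t : ℝ) (h : |t| ≤ 3) : 3 / 5 * |t| ≤ ch t := by
  refine le_trans ?_ (ch_ge t (h.trans Real.pi_gt_three.le))
  refine mul_le_mul_of_nonneg_right ?_ (abs_nonneg _)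
  rw [le_div_iff₀ Real.pi_pos]
  linarith [Real.pi_lt_d2]

lemma ch_int_add (n : ℤ) (t : ℝ) : ch (2 * π * n + t) = ch t := by
  unfold ch; rw [ex_add, ex_int, one_mul]

lemma ch_round (z : ℝ) : 4 * |z - round z| ≤ ch (2 * π * z) := by
  have e : 2 * π * z = 2 * π * (round z : ℤ) + 2 * π * (z - round z) := by ring
  rw [e, ch_int_add]
  have h1 := abs_sub_round z
  have h2 : |2 * π * (z - round z)| = 2 * π * |z - round z| := by
    rw [abs_mul, abs_of_pos Real.two_pi_pos]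
  refine le_trans (le_of_eq ?_) (ch_ge _ ?_)
  · rw [h2]; have := Real.pi_pos; field_simp; ring
  · rw [h2]; nlinarith [Real.pi_pos]

/-- the Fourier factor of one digit -/
noncomputable def fac (p t : ℝ) : ℂ := (1 - p : ℝ) + (p : ℝ) * ex t

lemma norm_fac_le (p t : ℝ) (h0 : 0 ≤ p) (h1 : p ≤ 1 / 2) : ‖fac p t‖ ≤ 1 - p * ch t ^ 2 / 4 := by
  have hz : (ex t).re ^ 2 + (ex t).im ^ 2 = 1 := by
    have := norm_ex t
    have h2 := Complex.sq_norm (ex t)
    rw [this, Complex.normSq_apply] at h2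
    nlinarith
  have hc : ch t ^ 2 = 2 - 2 * (ex t).re := by
    unfold ch
    rw [Complex.sq_norm, Complex.normSq_apply]
    simp only [Complex.sub_re, Complex.one_re, Complex.sub_im, Complex.one_im, sub_zero]
    nlinarith
  have hf : ‖fac p t‖ ^ 2 = 1 - p * (1 - p) * ch t ^ 2 := by
    unfold fac
    rw [Complex.sq_norm, Complex.normSq_apply, hc]
    simp only [Complex.add_re, Complex.ofReal_re, Complex.mul_re, Complex.ofReal_im, zero_mul,
      sub_zero, Complex.add_im, Complex.mul_im, add_zero, zero_add]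
    linear_combination p ^ 2 * hz
  have h4 : ch t ^ 2 ≤ 4 := by nlinarith [ch_le_two t, ch_nonneg t]
  have h5 : 0 ≤ ch t ^ 2 := sq_nonneg _
  have h6 : 0 ≤ p * ch t ^ 2 := by positivity
  have h7 : p * ch t ^ 2 ≤ 2 := by nlinarith
  refine (pow_le_pow_iff_left₀ (norm_nonneg _) (by linarith) two_ne_zero).1 ?_
  rw [hf]
  nlinarith [sq_nonneg (p * ch t ^ 2)]

lemma norm_fac_le_one (p t : ℝ) (h0 : 0 ≤ p) (h1 : p ≤ 1 / 2) : ‖fac p t‖ ≤ 1 := by
  have := norm_fac_le p t h0 h1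
  have : 0 ≤ p * ch t ^ 2 / 4 := by positivity
  linarith

/-- expectation of `g (u + ∑ ω i c i)` over digits `a ≤ i < a + n`, digit `i` being one with
probability `p i` -/
noncomputable def Ex {V : Type} [AddCommGroup V] [Module ℝ V] (p c : ℕ → ℝ) :
    ℕ → ℕ → (ℝ → V) → ℝ → V
  | _, 0, g, u => g u
  | a, n + 1, g, u => (1 - p a) • Ex p c (a + 1) n g u + p a • Ex p c (a + 1) n g (u + c a)

structure Good (p c : ℕ → ℝ) : Prop where
  p0 : ∀ i, 0 ≤ p i
  p1 : ∀ i, p i ≤ 1 / 2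
  c0 : ∀ i, 0 ≤ c i
  c1 : ∀ i, 2 * c (i + 1) ≤ c i

variable {p c : ℕ → ℝ}

lemma Ex_mono (G : Good p c) (n : ℕ) : ∀ (a : ℕ) (u : ℝ) (g h : ℝ → ℝ),
    (∀ y, u ≤ y → y ≤ u + 2 * c a → g y ≤ h y) → Ex p c a n g u ≤ Ex p c a n h u := by
  induction n with
  | zero => intro a u g h H; exact H u le_rfl (by linarith [G.c0 a])
  | succ n ih =>
    intro a u g h H
    simp only [Ex, smul_eq_mul]
    have h1 := ih (a + 1) u g h fun y h1 h2 => H y h1 (by linarith [G.c1 a, G.c0 a])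
    have h2 := ih (a + 1) (u + c a) g h fun y h1 h2 =>
      H y (by linarith [G.c0 a]) (by linarith [G.c1 a, G.c0 a])
    have := G.p0 a
    have : 0 ≤ 1 - p a := by linarith [G.p1 a]
    gcongr

lemma Ex_const {V : Type} [AddCommGroup V] [Module ℝ V] (v : V) (n : ℕ) :
    ∀ (a : ℕ) (u : ℝ), Ex p c a n (fun _ => v) u = v := by
  induction n with
  | zero => intro a u; rfl
  | succ n ih => intro a u; simp only [Ex, ih]; rw [← add_smul]; simp

lemma Ex_map {V W : Type} [AddCommGroup V] [Module ℝ V] [AddCommGroup W] [Module ℝ W]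
    (L : V →ₗ[ℝ] W) (g : ℝ → V) (n : ℕ) :
    ∀ (a : ℕ) (u : ℝ), Ex p c a n (fun y => L (g y)) u = L (Ex p c a n g u) := by
  induction n with
  | zero => intro a u; rfl
  | succ n ih => intro a u; simp only [Ex, ih, map_add, map_smul]

lemma Ex_add {V : Type} [AddCommGroup V] [Module ℝ V] (g h : ℝ → V) (n : ℕ) :
    ∀ (a : ℕ) (u : ℝ), Ex p c a n (fun y => g y + h y) u = Ex p c a n g u + Ex p c a n h u := by
  induction n with
  | zero => intro a u; rfl
  | succ n ih => intro a u; simp only [Ex, ih, smul_add]; abel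

lemma Ex_mul (t : ℝ) (g : ℝ → ℝ) (n a : ℕ) (u : ℝ) :
    Ex p c a n (fun y => t * g y) u = t * Ex p c a n g u :=
  Ex_map (LinearMap.lsmul ℝ ℝ t) g n a u

lemma Ex_sum {V ι : Type} [AddCommGroup V] [Module ℝ V] (s : Finset ι) (g : ι → ℝ → V)
    (n a : ℕ) (u : ℝ) :
    Ex p c a n (fun y => ∑ i ∈ s, g i y) u = ∑ i ∈ s, Ex p c a n (g i) u := by
  classical
  induction s using Finset.induction_on with
  | empty => simp only [Finset.sum_empty]; exact Ex_const 0 n a u
  | insert i s hi ih => simp only [Finset.sum_insert hi]; rw [Ex_add, ih]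

lemma norm_Ex_le (G : Good p c) (g : ℝ → ℂ) (n : ℕ) :
    ∀ (a : ℕ) (u : ℝ), ‖Ex p c a n g u‖ ≤ Ex p c a n (fun y => ‖g y‖) u := by
  induction n with
  | zero => intro a u; exact le_rfl
  | succ n ih =>
    intro a u
    simp only [Ex, smul_eq_mul]
    have h0 := G.p0 a
    have h1 : 0 ≤ 1 - p a := by linarith [G.p1 a]
    refine (norm_add_le _ _).trans ?_
    rw [norm_smul, norm_smul, Real.norm_of_nonneg h0, Real.norm_of_nonneg h1]
    gcongr
    · exact ih _ _
    · exact ih _ _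

lemma Ex_split {V : Type} [AddCommGroup V] [Module ℝ V] (g : ℝ → V) (m n : ℕ) :
    ∀ (a : ℕ) (u : ℝ), Ex p c a (n + m) g u = Ex p c a n (fun v => Ex p c (a + n) m g v) u := by
  induction n with
  | zero => intro a u; simp [Ex]
  | succ n ih =>
    intro a u
    rw [show n + 1 + m = (n + m) + 1 by ring]
    simp only [Ex, ih]
    rw [show a + 1 + n = a + (n + 1) by ring]

lemma Ex_char (θ φ : ℝ) (n : ℕ) : ∀ (a : ℕ) (u : ℝ),
    Ex p c a n (fun y => ex (θ * y + φ)) u =
      ex (θ * u + φ) * ∏ i ∈ Finset.range n, fac (p (a + i)) (θ * c (a + i)) := by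
  induction n with
  | zero => intro a u; simp [Ex]
  | succ n ih =>
    intro a u
    simp only [Ex, ih]
    rw [Finset.prod_range_succ']
    have e : θ * (u + c a) + φ = (θ * u + φ) + θ * c a := by ring
    rw [e, ex_add (θ * u + φ)]
    simp only [add_zero, Complex.real_smul, fac]
    have : ∀ i, a + 1 + i = a + (i + 1) := fun i => by ring
    simp only [this]
    ring

lemma Ex_exists (G : Good p c) (g : ℝ → ℝ) (n a : ℕ) (u : ℝ) :
    ∃ y, u ≤ y ∧ y ≤ u + 2 * c a ∧ g y ≤ Ex p c a n g u := by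
  induction n generalizing a u with
  | zero => exact ⟨u, le_rfl, by linarith [G.c0 a], le_rfl⟩
  | succ n ih =>
    obtain ⟨y, h1, h2, h3⟩ := ih (a + 1) u
    obtain ⟨z, k1, k2, k3⟩ := ih (a + 1) (u + c a)
    have h0 := G.p0 a
    have h4 : 0 ≤ 1 - p a := by linarith [G.p1 a]
    have := G.c0 a
    have := G.c1 a
    simp only [Ex, smul_eq_mul]
    rcases le_total (g y) (g z) with h | h
    · exact ⟨y, h1, by linarith, by nlinarith⟩
    · exact ⟨z, by linarith, by linarith, by nlinarith⟩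

lemma Ex_sq_le (φ : ℝ → ℝ) (α : ℕ → ℝ) (N M a : ℕ) (u : ℝ) :
    Ex p c a M (fun y => ‖∑ n ∈ Finset.range N, ex (α n * φ y)‖ ^ 2) u ≤
      ∑ n ∈ Finset.range N, ∑ m ∈ Finset.range N,
        ‖Ex p c a M (fun y => ex ((α n - α m) * φ y)) u‖ := by
  have h1 : ∀ y, ‖∑ n ∈ Finset.range N, ex (α n * φ y)‖ ^ 2 =
      ∑ n ∈ Finset.range N, ∑ m ∈ Finset.range N, Complex.reLm (ex ((α n - α m) * φ y)) := by
    intro y
    have : ((‖∑ n ∈ Finset.range N, ex (α n * φ y)‖ ^ 2 : ℝ) : ℂ) =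
        ∑ n ∈ Finset.range N, ∑ m ∈ Finset.range N, ex ((α n - α m) * φ y) := by
      rw [Complex.sq_norm, Complex.normSq_eq_conj_mul_self, mul_comm, map_sum, Finset.sum_mul_sum]
      refine Finset.sum_congr rfl fun n _ => Finset.sum_congr rfl fun m _ => ?_
      rw [conj_ex, ← ex_add]
      congr 1; ring
    have h2 := congrArg Complex.re this
    rw [Complex.ofReal_re] at h2
    rw [h2]
    simp [Complex.re_sum]
  simp only [h1]
  rw [Ex_sum]
  refine Finset.sum_le_sum fun n _ => ?_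
  rw [Ex_sum]
  refine Finset.sum_le_sum fun m _ => ?_
  rw [Ex_map]
  exact Complex.re_le_norm _

lemma Ex_second (G : Good p c) (g ψ : ℝ → ℝ) (hg : ∀ u t, g (u + t) ≤ g u + ψ t) (m : ℝ) (n : ℕ) :
    ∀ (a : ℕ) (u t : ℝ), g u ≤ t → Ex p c a n (fun y => (max (g y - m) 0) ^ 2) u ≤
      (t + ∑ i ∈ Finset.range n, p (a + i) * ψ (c (a + i)) - m) ^ 2 +
        ∑ i ∈ Finset.range n, ψ (c (a + i)) ^ 2 := by
  induction n with
  | zero =>
    intro a u t h
    simp only [Ex, Finset.range_zero, Finset.sum_empty, add_zero]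
    rcases le_total (g u - m) 0 with h1 | h1
    · rw [max_eq_right h1]; simpa using sq_nonneg _
    · rw [max_eq_left h1]; nlinarith
  | succ n ih =>
    intro a u t h
    simp only [Ex, smul_eq_mul]
    have h1 := ih (a + 1) u t h
    have h2 := ih (a + 1) (u + c a) (t + ψ (c a)) ((hg _ _).trans (by linarith))
    rw [Finset.sum_range_succ', Finset.sum_range_succ']
    have : ∀ i, a + 1 + i = a + (i + 1) := fun i => by ring
    simp only [this] at h1 h2
    simp only [add_zero]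
    set S := ∑ i ∈ Finset.range n, p (a + (i + 1)) * ψ (c (a + (i + 1)))
    set W := ∑ i ∈ Finset.range n, ψ (c (a + (i + 1))) ^ 2
    have h0 := G.p0 a
    have h4 : 0 ≤ 1 - p a := by linarith [G.p1 a]
    have h5 : p a * (1 - p a) * ψ (c a) ^ 2 ≤ ψ (c a) ^ 2 := by
      have : p a * (1 - p a) ≤ 1 := by nlinarith
      nlinarith [sq_nonneg (ψ (c a))]
    calc _ ≤ (1 - p a) * ((t + S - m) ^ 2 + W) + p a * ((t + ψ (c a) + S - m) ^ 2 + W) := by
          gcongr
      _ = (t + (S + p a * ψ (c a)) - m) ^ 2 + W + p a * (1 - p a) * ψ (c a) ^ 2 := by ring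
      _ ≤ _ := by linarith

/-- a point at which countably many nonnegative functionals with small means are all small -/
lemma exists_point (G : Good p c) (a : ℕ) (u : ℝ) (F : ℤ → ℕ → ℝ → ℝ)
    (hF0 : ∀ h k y, 0 ≤ F h k y)
    (hFc : ∀ h k, ContinuousOn (F h k) (Icc u (u + 2 * c a)))
    (w : ℕ → ℝ) (hw : Summable w)
    (hE : ∀ h k, ∀ᶠ M in atTop, Ex p c a M (F h k) u ≤ w k) :
    ∃ y ∈ Icc u (u + 2 * c a), ∀ h, Tendsto (fun k => F h k y) atTop (𝓝 0) := by
  have hw0 : ∀ k, 0 ≤ w k := by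
    intro k
    obtain ⟨M, hM⟩ := (hE 0 k).exists
    refine le_trans ?_ hM
    have := Ex_mono G M a u (fun _ => 0) (F 0 k) fun y _ _ => hF0 _ _ _
    rwa [Ex_const] at this
  let v : ℤ → ℝ := fun h => (1 / 2) ^ Encodable.encode h
  have hv : Summable v := summable_geometric_two_encode
  have hv0 : ∀ h, 0 < v h := fun h => by positivity
  have hs : Summable fun i : ℤ × ℕ => v i.1 * w i.2 :=
    hv.mul_of_nonneg hw (fun h => (hv0 h).le) hw0
  set A := ∑' i : ℤ × ℕ, v i.1 * w i.2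
  let K : Finset (ℤ × ℕ) → Set ℝ := fun s =>
    Icc u (u + 2 * c a) ∩ (fun y => ∑ i ∈ s, v i.1 * F i.1 i.2 y) ⁻¹' Iic A
  have hKc : ∀ s, IsClosed (K s) := fun s =>
    ContinuousOn.preimage_isClosed_of_isClosed
      (continuousOn_finsetSum s fun i _ => continuousOn_const.mul (hFc _ _))
      isClosed_Icc isClosed_Iic
  have hKn : ∀ s, (K s).Nonempty := by
    intro s
    obtain ⟨M, hM⟩ := ((Finset.eventually_all s).2 fun i _ => hE i.1 i.2).exists
    obtain ⟨y, h1, h2, h3⟩ := Ex_exists G (fun y => ∑ i ∈ s, v i.1 * F i.1 i.2 y) M a u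
    refine ⟨y, ⟨h1, h2⟩, h3.trans ?_⟩
    rw [Ex_sum]
    refine le_trans (Finset.sum_le_sum fun i hi => ?_)
      (hs.sum_le_tsum s fun i _ => mul_nonneg (hv0 _).le (hw0 _))
    rw [Ex_mul]
    exact mul_le_mul_of_nonneg_left (hM i hi) (hv0 _).le
  have hsub : ∀ s t : Finset (ℤ × ℕ), s ⊆ t → K t ⊆ K s := by
    rintro s t hst y ⟨h1, h2⟩
    refine ⟨h1, ?_⟩
    simp only [mem_preimage, mem_Iic] at h2 ⊢
    refine le_trans ?_ h2
    exact Finset.sum_le_sum_of_subset_of_nonneg hst fun i _ _ => mul_nonneg (hv0 _).le (hF0 _ _ _)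
  obtain ⟨y, hy⟩ := IsCompact.nonempty_iInter_of_directed_nonempty_isCompact_isClosed K
    (fun s t => ⟨s ∪ t, hsub _ _ Finset.subset_union_left, hsub _ _ Finset.subset_union_right⟩)
    hKn (fun s => isCompact_Icc.of_isClosed_subset (hKc s) inter_subset_left) hKc
  rw [mem_iInter] at hy
  refine ⟨y, (hy ∅).1, fun h => ?_⟩
  have h1 : Summable fun i : ℤ × ℕ => v i.1 * F i.1 i.2 y :=
    summable_of_sum_le (fun i => mul_nonneg (hv0 _).le (hF0 _ _ _)) fun s => (hy s).2
  have h2 := (h1.prod_factor h).tendsto_atTop_zero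
  have h3 := h2.const_mul (v h)⁻¹
  rw [mul_zero] at h3
  refine h3.congr fun k => ?_
  have := (hv0 h).ne'
  field_simp

end Pool.Agent.H234Z.Det
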