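import Pool.Agent.H234Z.DetD

/-! Fourier decay of the reciprocal of a number with sparse random digits. -/

set_option autoImplicit false

open Filter Topology Real Set

namespace Pool.Agent.H234Z.Det

variable {p c : ℕ → ℝ}

lemma Ex_prod (G : Good p c) (Φ : ℕ → ℝ → ℝ) (h0 : ∀ i u, 0 ≤ Φ i u) (h1 : ∀ i u, Φ i u ≤ 1)
    (U q s : ℝ) (hs0 : 0 ≤ s) (hs1 : s ≤ 1) (hq0 : 0 ≤ q) (J : ℕ)
    (hq : ∀ i, i ≤ J → q ≤ p i)
    (H : ∀ i v, 1 ≤ i → i ≤ J → 1 ≤ v → v + 2 * c i ≤ U →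
      (∀ u, v ≤ u → u ≤ v + 2 * c (i + 1) → Φ i u ≤ 1 - s) ∨
      (∀ u, v + c i ≤ u → u ≤ v + c i + 2 * c (i + 1) → Φ i u ≤ 1 - s)) (l : ℕ) :
    ∀ (i n : ℕ) (v : ℝ), 1 ≤ i → i + l ≤ J + 1 → l ≤ n → 1 ≤ v → v + 2 * c i ≤ U →
      Ex p c i n (fun u => ∏ j ∈ Finset.range l, Φ (i + j) u) v ≤ (1 - q * s) ^ l := by
  induction l with
  | zero =>
    intro i n v _ _ _ _ _
    simp only [Finset.range_zero, Finset.prod_empty, pow_zero]
    rw [Ex_const]
  | succ l ih =>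
    intro i n v hi hl hn hv hU
    obtain ⟨n, rfl⟩ : ∃ m, n = m + 1 := ⟨n - 1, by omega⟩
    have hc0 := G.c0 i
    have hc1 := G.c1 i
    have hP : ∀ u, ∏ j ∈ Finset.range (l + 1), Φ (i + j) u =
        Φ i u * ∏ j ∈ Finset.range l, Φ (i + 1 + j) u := by
      intro u
      rw [Finset.prod_range_succ', mul_comm]
      simp only [add_zero]
      congr 1
      refine Finset.prod_congr rfl fun j _ => ?_
      congr 1; ring
    have hP0 : ∀ u, 0 ≤ ∏ j ∈ Finset.range l, Φ (i + 1 + j) u :=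
      fun u => Finset.prod_nonneg fun _ _ => h0 _ _
    have key : ∀ (w t : ℝ), 0 ≤ t → 1 ≤ w → w + 2 * c (i + 1) ≤ U →
        (∀ u, w ≤ u → u ≤ w + 2 * c (i + 1) → Φ i u ≤ t) →
        Ex p c (i + 1) n (fun u => ∏ j ∈ Finset.range (l + 1), Φ (i + j) u) w ≤
          t * (1 - q * s) ^ l := by
      intro w t ht hw hwU hΦ
      have a1 := ih (i + 1) n w (by omega) (by omega) (by omega) hw hwU
      have a2 := Ex_mono G n (i + 1) w (fun u => ∏ j ∈ Finset.range (l + 1), Φ (i + j) u)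
        (fun u => t * ∏ j ∈ Finset.range l, Φ (i + 1 + j) u) fun u b1 b2 => by
          rw [hP]
          exact mul_le_mul_of_nonneg_right (hΦ u b1 b2) (hP0 u)
      rw [Ex_mul] at a2
      exact a2.trans (mul_le_mul_of_nonneg_left a1 ht)
    have hp0 := G.p0 i
    have hp1 := G.p1 i
    have hqi := hq i (by omega)
    have hκ : 0 ≤ (1 - q * s) ^ l := pow_nonneg (by nlinarith) _
    simp only [Ex, smul_eq_mul]
    rw [pow_succ]
    rcases H i v hi (by omega) hv hU with h | h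
    · have b1 := key v (1 - s) (by linarith) hv (by linarith) h
      have b2 := key (v + c i) 1 zero_le_one (by linarith) (by linarith) fun u _ _ => h1 _ _
      calc _ ≤ (1 - p i) * ((1 - s) * (1 - q * s) ^ l) + p i * (1 * (1 - q * s) ^ l) := by
            gcongr
            linarith
        _ = (1 - q * s) ^ l * (1 - (1 - p i) * s) := by ring
        _ ≤ _ := by
            gcongr
            linarith
    · have b1 := key v 1 zero_le_one hv (by linarith) fun u _ _ => h1 _ _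
      have b2 := key (v + c i) (1 - s) (by linarith) (by linarith) (by linarith) h
      calc _ ≤ (1 - p i) * (1 * (1 - q * s) ^ l) + p i * ((1 - s) * (1 - q * s) ^ l) := by
            gcongr
            linarith
        _ = (1 - q * s) ^ l * (1 - p i * s) := by ring
        _ ≤ _ := by gcongr

lemma inv_sq_sub (a b : ℝ) (ha : 1 ≤ a) (hab : a ≤ b) (hb : b ≤ 33 / 32) :
    5 / 3 * (b - a) ≤ 1 / a ^ 2 - 1 / b ^ 2 ∧ 1 / a ^ 2 - 1 / b ^ 2 ≤ 2 * (b - a) := by
  have ha0 : 0 < a := by linarith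
  have hb0 : 0 < b := by linarith
  have e : 1 / a ^ 2 - 1 / b ^ 2 = (b - a) * ((a + b) / (a ^ 2 * b ^ 2)) := by
    field_simp; ring
  have hd : 0 ≤ b - a := by linarith
  have hp : 0 < a ^ 2 * b ^ 2 := by positivity
  have hab1 : 1 ≤ a * b := by nlinarith
  have hab2 : a * b ≤ 33 / 32 * (33 / 32) := by nlinarith
  have h1 : 5 / 3 ≤ (a + b) / (a ^ 2 * b ^ 2) := by
    rw [le_div_iff₀ hp, ← mul_pow]
    nlinarith
  have h2 : (a + b) / (a ^ 2 * b ^ 2) ≤ 2 := by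
    rw [div_le_iff₀ hp, ← mul_pow]
    have : a ≤ a * b := by nlinarith
    have : b ≤ a * b := by nlinarith
    nlinarith
  rw [e]
  constructor <;> nlinarith

lemma jump (β d e v η : ℝ) (hd : 0 ≤ d) (he : 0 ≤ e) (hed : 64 * e ≤ d) (hv : 1 ≤ v)
    (hU : v + 2 * d ≤ 33 / 32) (hB1 : |β| * d ≤ 1) (hB0 : 4 * η ≤ |β| * d) :
    (∀ u, v ≤ u → u ≤ v + 2 * e → η ≤ ch (β * (1 / u ^ 2))) ∨
      (∀ u, v + d ≤ u → u ≤ v + d + 2 * e → η ≤ ch (β * (1 / u ^ 2))) := by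
  have hβ := abs_nonneg β
  have pert : ∀ w u, 1 ≤ w → w ≤ u → u ≤ w + 2 * e → w + 2 * e ≤ 33 / 32 →
      ch (β * (1 / w ^ 2)) ≤ ch (β * (1 / u ^ 2)) + |β| * d / 16 := by
    intro w u h1 h2 h3 h4
    refine (ch_le_add _ (β * (1 / u ^ 2))).trans ?_
    obtain ⟨a1, a2⟩ := inv_sq_sub w u h1 h2 (by linarith)
    rw [← mul_sub, abs_mul, abs_of_nonneg (a := 1 / w ^ 2 - 1 / u ^ 2) (by linarith)]
    have : 1 / w ^ 2 - 1 / u ^ 2 ≤ d / 16 := by linarith
    nlinarith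
  obtain ⟨a1, a2⟩ := inv_sq_sub v (v + d) hv (by linarith) (by linarith)
  rw [add_sub_cancel_left] at a1 a2
  have h1 := ch_sub (β * (1 / v ^ 2)) (β * (1 / (v + d) ^ 2))
  have h2 : |β * (1 / v ^ 2) - β * (1 / (v + d) ^ 2)| =
      |β| * (1 / v ^ 2 - 1 / (v + d) ^ 2) := by
    rw [← mul_sub, abs_mul, abs_of_nonneg (a := 1 / v ^ 2 - 1 / (v + d) ^ 2) (by linarith)]
  have h3 := ch_ge' (β * (1 / v ^ 2) - β * (1 / (v + d) ^ 2)) (by rw [h2]; nlinarith)
  rw [h2] at h3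
  have h4 : |β| * d ≤ ch (β * (1 / v ^ 2)) + ch (β * (1 / (v + d) ^ 2)) := by nlinarith
  have h5 : 0 ≤ |β| * d := by positivity
  rcases le_total (ch (β * (1 / v ^ 2))) (ch (β * (1 / (v + d) ^ 2))) with h | h
  · right
    intro u b1 b2
    have := pert (v + d) u (by linarith) b1 b2 (by linarith)
    linarith
  · left
    intro u b1 b2
    have := pert v u hv b1 b2 (by linarith)
    linarith

lemma one_sub_pow_le (x : ℝ) (h0 : 0 < x) (h1 : x ≤ 1) (J : ℕ) : (1 - x) ^ J ≤ 1 / ((J + 1) * x) := by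
  have h2 : (1 - x) ^ J * (1 + J * x) ≤ 1 := by
    induction J with
    | zero => simp
    | succ J ih =>
      rw [pow_succ]
      push_cast
      have : 0 ≤ (1 - x) ^ J := pow_nonneg (by linarith) _
      have h3 : (1 - x) * (1 + (J + 1) * x) ≤ 1 + J * x := by
        have : (0 : ℝ) ≤ J := Nat.cast_nonneg _
        nlinarith [mul_pos h0 h0]
      nlinarith
  rw [le_div_iff₀ (by positivity)]
  have : 0 ≤ (1 - x) ^ J := pow_nonneg (by linarith) _
  nlinarith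

lemma lin_err (ξ u y : ℝ) (hu : 1 ≤ u) (hy : u ≤ y) :
    ‖ex (ξ * y⁻¹) - ex (-(ξ * (1 / u ^ 2)) * y + 2 * ξ / u)‖ ≤ |ξ| * (y - u) ^ 2 := by
  rw [norm_ex_sub]
  refine (ch_le_abs _).trans ?_
  have hu0 : 0 < u := by linarith
  have hy0 : 0 < y := by linarith
  have e : ξ * y⁻¹ - (-(ξ * (1 / u ^ 2)) * y + 2 * ξ / u) = ξ * ((y - u) ^ 2 / (u ^ 2 * y)) := by
    field_simp; ring
  rw [e, abs_mul]
  gcongr
  rw [abs_of_nonneg (by positivity)]
  apply div_le_self (sq_nonneg _)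
  nlinarith

theorem decay (R : ℝ) (hR : 64 ≤ R) (G : Good p fun i => (1 / R) ^ i) (hp : Antitone p)
    (ξ : ℝ) (T : ℕ) (hT : 1 ≤ T) (hpT : 0 < p T) (h1 : |ξ| * (1 / R) ^ T ≤ 1)
    (h2 : 1 / R ≤ |ξ| * (1 / R) ^ T) (M : ℕ) (hM : T ≤ M) :
    ‖Ex p (fun i => (1 / R) ^ i) 1 M (fun y => ex (ξ * y⁻¹)) 1‖ ≤
      3 * (4 + 64 * R ^ 2 / p T ^ 2) / (T + 1) := by
  set c : ℕ → ℝ := fun i => (1 / R) ^ i with hc
  have hR0 : 0 < R := by linarith
  have hρ0 : 0 < 1 / R := by positivity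
  have hρ1 : 1 / R ≤ 1 / 64 := by gcongr
  obtain ⟨J, hJ1, hJ2⟩ : ∃ J, 3 * J ≤ T ∧ T + 1 ≤ 3 * (J + 1) := ⟨T / 3, by omega, by omega⟩
  obtain ⟨n, hn⟩ : ∃ n, T = 1 + n + J := ⟨T - 1 - J, by omega⟩
  obtain ⟨m, rfl⟩ : ∃ m, M = n + (J + m) := ⟨M - n - J, by omega⟩
  rw [Ex_split]
  let Φ : ℕ → ℝ → ℝ := fun i u => ‖fac (p (T - i)) (-(ξ * (1 / u ^ 2)) * c (T - i))‖
  have hΦ1 : ∀ i u, Φ i u ≤ 1 := fun i u => norm_fac_le_one _ _ (G.p0 _) (G.p1 _)
  have inner : ∀ u, 1 ≤ u → ‖Ex p c (1 + n) (J + m) (fun y => ex (ξ * y⁻¹)) u‖ ≤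
      4 * (1 / R) ^ J + ∏ j ∈ Finset.range J, Φ (1 + j) u := by
    intro u hu
    have e : (fun y : ℝ => ex (ξ * y⁻¹)) = fun y =>
        (ex (ξ * y⁻¹) - ex (-(ξ * (1 / u ^ 2)) * y + 2 * ξ / u)) +
          ex (-(ξ * (1 / u ^ 2)) * y + 2 * ξ / u) := by
      funext y; ring
    rw [e, Ex_add, Ex_char]
    refine (norm_add_le _ _).trans (add_le_add ?_ ?_)
    · refine (norm_Ex_le G _ _ _ _).trans ?_
      refine (Ex_mono G _ _ _ _ (fun _ => 4 * (1 / R) ^ J) fun y b1 b2 => ?_).trans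
        (le_of_eq (Ex_const _ _ _ _))
      refine (lin_err ξ u y hu b1).trans ?_
      have b3 : (y - u) ^ 2 ≤ (2 * c (1 + n)) ^ 2 := by
        gcongr
        linarith
      have b4 : c (1 + n) ^ 2 ≤ (1 / R) ^ T * (1 / R) ^ J := by
        simp only [hc]
        rw [← pow_mul, ← pow_add]
        exact pow_le_pow_of_le_one hρ0.le (by linarith) (by omega)
      have b5 : 0 ≤ (1 / R) ^ J := by positivity
      calc _ ≤ |ξ| * (4 * ((1 / R) ^ T * (1 / R) ^ J)) := by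
            gcongr
            nlinarith
        _ = 4 * ((|ξ| * (1 / R) ^ T) * (1 / R) ^ J) := by ring
        _ ≤ _ := by
            gcongr
            nlinarith
    · rw [norm_mul, norm_ex, one_mul, norm_prod, Finset.prod_range_add]
      have b1 : ∏ x ∈ Finset.range m,
          ‖fac (p (1 + n + (J + x))) (-(ξ * (1 / u ^ 2)) * c (1 + n + (J + x)))‖ ≤ 1 :=
        Finset.prod_le_one (fun _ _ => norm_nonneg _)
          fun _ _ => norm_fac_le_one _ _ (G.p0 _) (G.p1 _)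
      refine (mul_le_of_le_one_right (Finset.prod_nonneg fun _ _ => norm_nonneg _) b1).trans ?_
      apply le_of_eq
      rw [← Finset.prod_range_reflect]
      refine Finset.prod_congr rfl fun j hj => ?_
      rw [Finset.mem_range] at hj
      have : 1 + n + (J - 1 - j) = T - (1 + j) := by omega
      simp only [Φ, this]
  refine (norm_Ex_le G _ _ _ _).trans ?_
  refine (Ex_mono G _ _ _ _ _ fun u b1 _ => inner u b1).trans ?_
  rw [Ex_add, Ex_const]
  have hq1 := G.p1 T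
  have hs : p T * (1 / (4 * R)) ^ 2 / 4 ≤ 1 := by
    have : (1 / (4 * R)) ≤ 1 := by
      rw [div_le_one (by positivity)]; linarith
    have : (1 / (4 * R)) ^ 2 ≤ 1 := pow_le_one₀ (by positivity) this
    nlinarith
  have main := Ex_prod G Φ (fun _ _ => norm_nonneg _) hΦ1 (33 / 32) (p T)
    (p T * (1 / (4 * R)) ^ 2 / 4) (by positivity) hs hpT.le J (fun i hi => hp (by omega))
    (fun i v hi hiJ hv hU => by
      have a1 : |-(ξ * c (T - i))| * c i = |ξ| * (1 / R) ^ T := by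
        simp only [hc]
        rw [abs_neg, abs_mul, abs_of_nonneg (a := (1 / R) ^ (T - i)) (by positivity), mul_assoc,
          ← pow_add, Nat.sub_add_cancel (by omega)]
      have a2 : 64 * c (i + 1) ≤ c i := by
        simp only [hc]
        rw [pow_succ]
        have : 0 ≤ (1 / R) ^ i := by positivity
        nlinarith
      have a3 : ∀ u, 1 / (4 * R) ≤ ch (-(ξ * c (T - i)) * (1 / u ^ 2)) →
          Φ i u ≤ 1 - p T * (1 / (4 * R)) ^ 2 / 4 := by
        intro u hu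
        refine (norm_fac_le _ _ (G.p0 _) (G.p1 _)).trans ?_
        rw [show -(ξ * (1 / u ^ 2)) * c (T - i) = -(ξ * c (T - i)) * (1 / u ^ 2) by ring]
        have : p T ≤ p (T - i) := hp (by omega)
        gcongr
        exact G.p0 _
      rcases jump (-(ξ * c (T - i))) (c i) (c (i + 1)) v (1 / (4 * R)) (G.c0 _) (G.c0 _) a2 hv hU
        (by rw [a1]; exact h1)
        (by rw [a1]; refine le_trans (le_of_eq ?_) h2; field_simp) with h | h
      · exact Or.inl fun u b1 b2 => a3 u (h u b1 b2)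
      · exact Or.inr fun u b1 b2 => a3 u (h u b1 b2))
    J 1 n 1 le_rfl (by omega) (by omega) le_rfl (by simp only [hc, pow_one]; linarith)
  have b1 := one_sub_pow_le (p T * (p T * (1 / (4 * R)) ^ 2 / 4)) (by positivity) (by nlinarith) J
  have b2 : (1 / R) ^ J ≤ 1 / ((J : ℝ) + 1) := by
    have c1 : (1 / R) ^ J ≤ (1 / 2) ^ J := by
      gcongr
      linarith
    have c2 : ((J : ℝ) + 1) ≤ 2 ^ J := by
      have := Nat.lt_two_pow_self (n := J)
      exact_mod_cast this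
    refine c1.trans ?_
    rw [one_div_pow]
    gcongr
  have b3 : 1 / ((J : ℝ) + 1) ≤ 3 / ((T : ℝ) + 1) := by
    rw [div_le_div_iff₀ (by positivity) (by positivity)]
    have : ((T + 1 : ℕ) : ℝ) ≤ ((3 * (J + 1) : ℕ) : ℝ) := by exact_mod_cast hJ2
    push_cast at this
    linarith
  have b4 : 1 / ((J + 1) * (p T * (p T * (1 / (4 * R)) ^ 2 / 4))) =
      64 * R ^ 2 / p T ^ 2 * (1 / ((J : ℝ) + 1)) := by
    field_simp; ring
  rw [b4] at b1
  calc _ ≤ 4 * (1 / ((J : ℝ) + 1)) + 64 * R ^ 2 / p T ^ 2 * (1 / ((J : ℝ) + 1)) := by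
        have := main.trans b1
        gcongr
    _ = (4 + 64 * R ^ 2 / p T ^ 2) * (1 / ((J : ℝ) + 1)) := by ring
    _ ≤ (4 + 64 * R ^ 2 / p T ^ 2) * (3 / ((T : ℝ) + 1)) := by gcongr
    _ = _ := by ring

end Pool.Agent.H234Z.Det
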