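import Pool.Agent.H234Z.DetF

/-! A deterministic number whose reciprocal is normal. -/

set_option autoImplicit false

open Filter Topology Real Set

namespace Pool.Agent.H234Z.Det

/-- probability of the digit one at place `i` -/
noncomputable def pq (i : ℕ) : ℝ := 1 / (2 * √(√((i : ℝ) + 1)))

lemma one_le_sqrt_succ (i : ℕ) : 1 ≤ √((i : ℝ) + 1) :=
  Real.one_le_sqrt.2 (by linarith [Nat.cast_nonneg (α := ℝ) i])

lemma pq_pos (i : ℕ) : 0 < pq i := by unfold pq; positivity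

lemma pq_le (i : ℕ) : pq i ≤ 1 / 2 := by
  unfold pq
  have := Real.one_le_sqrt.2 (one_le_sqrt_succ i)
  gcongr
  linarith

lemma pq_anti : Antitone pq := by
  intro i j h
  unfold pq
  gcongr

lemma pq_sq (i : ℕ) : pq i ^ 2 = 1 / (4 * √((i : ℝ) + 1)) := by
  unfold pq
  rw [div_pow, mul_pow, Real.sq_sqrt (Real.sqrt_nonneg _)]
  norm_num

lemma pq_tendsto : Tendsto pq atTop (𝓝 0) := by
  have h1 : Tendsto (fun i : ℕ => (i : ℝ) + 1) atTop atTop :=
    tendsto_atTop_add_const_right _ _ tendsto_natCast_atTop_atTop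
  have h2 := (Real.tendsto_sqrt_atTop.comp (Real.tendsto_sqrt_atTop.comp h1)).const_mul_atTop
    (two_pos (α := ℝ))
  exact tendsto_const_nhds.div_atTop h2

lemma good_pq (R : ℝ) (hR : 2 ≤ R) : Good pq fun i => (1 / R) ^ i where
  p0 i := (pq_pos i).le
  p1 := pq_le
  c0 i := by positivity
  c1 i := by
    rw [pow_succ]
    have h0 : 0 ≤ (1 / R) ^ i := by positivity
    have : 1 / R ≤ 1 / 2 := by gcongr
    nlinarith

lemma decay2 (r : ℕ) (hr : 2 ≤ r) (ξ : ℝ) (n : ℕ) (h1 : 1 < |ξ|) (h2 : (r : ℝ) ^ n ≤ |ξ|) :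
    ∀ᶠ M in atTop, ‖Ex pq (fun i => (1 / (r : ℝ) ^ 6) ^ i) 1 M (fun y => ex (ξ * y⁻¹)) 1‖ ≤
      9 * (4 + 256 * ((r : ℝ) ^ 6) ^ 2) * (1 / √((n : ℝ) + 1)) := by
  have hr' : (2 : ℝ) ≤ r := by exact_mod_cast hr
  set R := (r : ℝ) ^ 6 with hRdef
  have hR : 64 ≤ R := by
    have : (2 : ℝ) ^ 6 ≤ (r : ℝ) ^ 6 := by gcongr
    linarith
  have hex : ∃ T : ℕ, |ξ| ≤ R ^ T := by
    obtain ⟨T, hT⟩ := pow_unbounded_of_one_lt |ξ| (show 1 < R by linarith)
    exact ⟨T, hT.le⟩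
  classical
  set T := Nat.find hex with hT
  have a1 : |ξ| ≤ R ^ T := Nat.find_spec hex
  have a2 : 1 ≤ T := by
    by_contra hc
    have : T = 0 := by omega
    rw [this, pow_zero] at a1
    linarith
  have a3 : R ^ (T - 1) < |ξ| := not_le.1 (Nat.find_min hex (by omega))
  have a4 : n ≤ 6 * T := by
    have : (r : ℝ) ^ n ≤ (r : ℝ) ^ (6 * T) := by rw [pow_mul]; linarith
    exact (pow_le_pow_iff_right₀ (by linarith)).1 this
  have hR0 : 0 < R := by linarith
  filter_upwards [eventually_ge_atTop T] with M hM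
  refine (decay R hR (good_pq R (by linarith)) pq_anti ξ T a2 (pq_pos T) ?_ ?_ M hM).trans ?_
  · rw [one_div_pow, mul_one_div, div_le_one (by positivity)]
    exact a1
  · rw [one_div_pow, mul_one_div, div_le_div_iff₀ hR0 (by positivity)]
    have : R ^ T = R ^ (T - 1) * R := by rw [← pow_succ, Nat.sub_add_cancel a2]
    rw [this]
    nlinarith
  · rw [pq_sq]
    set s := √((T : ℝ) + 1) with hs
    have b1 : 1 ≤ s := one_le_sqrt_succ T
    have b2 : (T : ℝ) + 1 = s ^ 2 := by rw [hs, Real.sq_sqrt (by positivity)]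
    have b3 : √((n : ℝ) + 1) ≤ 3 * s := by
      rw [Real.sqrt_le_left (by positivity), mul_pow, ← b2]
      have : (n : ℝ) ≤ 6 * T := by exact_mod_cast a4
      have : (0 : ℝ) ≤ T := Nat.cast_nonneg _
      linarith
    have b4 := one_le_sqrt_succ n
    rw [b2]
    calc 3 * (4 + 64 * R ^ 2 / (1 / (4 * s))) / s ^ 2 = 3 * (4 + 256 * R ^ 2 * s) / s ^ 2 := by
          field_simp; ring
      _ ≤ 3 * (4 * s + 256 * R ^ 2 * s) / s ^ 2 := by gcongr; linarith
      _ = 9 * (4 + 256 * R ^ 2) * (1 / (3 * s)) := by field_simp; ring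
      _ ≤ _ := by gcongr

lemma sum_inv_sqrt (N : ℕ) : ∑ n ∈ Finset.range N, 1 / √((n : ℝ) + 1) ≤ 2 * √(N : ℝ) := by
  induction N with
  | zero => simp
  | succ N ih =>
    rw [Finset.sum_range_succ]
    push_cast
    have h1 := one_le_sqrt_succ N
    have h2 : √((N : ℝ) + 1) ^ 2 = N + 1 := Real.sq_sqrt (by positivity)
    have h3 : √(N : ℝ) ^ 2 = N := Real.sq_sqrt (by positivity)
    have h4 : 1 / √((N : ℝ) + 1) ≤ 2 * √((N : ℝ) + 1) - 2 * √(N : ℝ) := by
      rw [div_le_iff₀ (by positivity)]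
      nlinarith [sq_nonneg (√((N : ℝ) + 1) - √(N : ℝ))]
    linarith

lemma pow_sub_ge (r : ℝ) (hr : 2 ≤ r) (n m : ℕ) (h : n ≠ m) : r ^ n / 2 ≤ |r ^ n - r ^ m| := by
  have h0 : 0 < r ^ n := by positivity
  rcases lt_or_gt_of_ne h with h | h
  · have : r ^ (n + 1) ≤ r ^ m := pow_le_pow_right₀ (by linarith) h
    rw [pow_succ] at this
    rw [le_abs]; right; nlinarith
  · have : r ^ (m + 1) ≤ r ^ n := pow_le_pow_right₀ (by linarith) h
    have h1 : 0 < r ^ m := by positivity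
    rw [pow_succ] at this
    rw [le_abs]; left; nlinarith

/-- squared normalised Weyl sum -/
noncomputable def wey (r : ℕ) (h : ℤ) (N : ℕ) (x : ℝ) : ℝ :=
  ‖∑ n ∈ Finset.range N, ex (2 * π * h * (r : ℝ) ^ n * x)‖ ^ 2 / (N : ℝ) ^ 2

lemma wey_nonneg (r : ℕ) (h : ℤ) (N : ℕ) (x : ℝ) : 0 ≤ wey r h N x := by unfold wey; positivity

lemma continuous_wey (r : ℕ) (h : ℤ) (N : ℕ) : Continuous (wey r h N) := by
  have := continuous_ex
  unfold wey; fun_prop

lemma wey_tendsto {ι : Type} (l : Filter ι) (r : ℕ) (h : ℤ) (N : ι → ℕ) (x : ℝ)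
    (H : Tendsto (fun k => wey r h (N k) x) l (𝓝 0)) :
    Tendsto (fun k => (∑ n ∈ Finset.range (N k), ex (2 * π * h * (x * (r : ℝ) ^ n))) / (N k : ℂ))
      l (𝓝 0) := by
  rw [tendsto_zero_iff_norm_tendsto_zero]
  have h2 := H.sqrt
  rw [Real.sqrt_zero] at h2
  refine h2.congr fun k => ?_
  unfold wey
  rw [norm_div, Complex.norm_natCast, ← div_pow, Real.sqrt_sq (by positivity)]
  congr 2
  refine Finset.sum_congr rfl fun n _ => ?_
  congr 1; ring

lemma Ex_wey (r : ℕ) (hr : 2 ≤ r) (h : ℤ) (hh : h ≠ 0) (k : ℕ) :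
    ∀ᶠ M in atTop, Ex pq (fun i => (1 / (r : ℝ) ^ 6) ^ i) 1 M
      (fun y => wey r h ((k + 1) ^ 4) y⁻¹) 1 ≤
        (1 + 2 * (9 * (4 + 256 * ((r : ℝ) ^ 6) ^ 2))) * (1 / ((k : ℝ) + 1) ^ 2) := by
  have hr' : (2 : ℝ) ≤ r := by exact_mod_cast hr
  set C := 9 * (4 + 256 * ((r : ℝ) ^ 6) ^ 2) with hC
  have hC0 : 0 ≤ C := by positivity
  have G : Good pq fun i => (1 / (r : ℝ) ^ 6) ^ i := good_pq _ (by
    have : (2 : ℝ) ^ 6 ≤ (r : ℝ) ^ 6 := by gcongr
    linarith)
  set N := (k + 1) ^ 4 with hN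
  have key : ∀ n m : ℕ, ∀ᶠ M in atTop, ‖Ex pq (fun i => (1 / (r : ℝ) ^ 6) ^ i) 1 M
      (fun y => ex ((2 * π * h * (r : ℝ) ^ n - 2 * π * h * (r : ℝ) ^ m) * y⁻¹)) 1‖ ≤
        (if m = n then 1 else 0) + C * (1 / √((n : ℝ) + 1)) := by
    intro n m
    split_ifs with hmn
    · refine Eventually.of_forall fun M => (norm_Ex_le G _ _ _ _).trans ?_
      simp only [norm_ex]
      rw [Ex_const]
      have : 0 ≤ C * (1 / √((n : ℝ) + 1)) := by positivity
      linarith
    · rw [zero_add]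
      have a1 : 3 * (r : ℝ) ^ n ≤ |2 * π * h * (r : ℝ) ^ n - 2 * π * h * (r : ℝ) ^ m| := by
        rw [← mul_sub, abs_mul, abs_mul, abs_of_pos Real.two_pi_pos]
        have b1 := pow_sub_ge r hr' n m (Ne.symm hmn)
        have b2 : (1 : ℝ) ≤ |(h : ℝ)| := by exact_mod_cast Int.one_le_abs hh
        have b3 : (6 : ℝ) * 1 * ((r : ℝ) ^ n / 2) ≤
            2 * π * |(h : ℝ)| * |(r : ℝ) ^ n - (r : ℝ) ^ m| := by
          gcongr
          linarith [Real.pi_gt_three]
        linarith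
      have a2 : (1 : ℝ) ≤ (r : ℝ) ^ n := one_le_pow₀ (by linarith)
      exact decay2 r hr _ n (by linarith) (by linarith)
  have h2 := (Finset.eventually_all (Finset.range N)).2 fun n _ =>
    (Finset.eventually_all (Finset.range N)).2 fun m _ => key n m
  filter_upwards [h2] with M hM
  have h3 := Ex_sq_le (p := pq) (c := fun i => (1 / (r : ℝ) ^ 6) ^ i) (fun y => y⁻¹)
    (fun n => 2 * π * h * (r : ℝ) ^ n) N M 1 1
  have h4 := h3.trans (Finset.sum_le_sum fun n hn => Finset.sum_le_sum fun m hm => hM n hn m hm)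
  have h5 : ∑ n ∈ Finset.range N, ∑ m ∈ Finset.range N,
      ((if m = n then (1 : ℝ) else 0) + C * (1 / √((n : ℝ) + 1))) ≤ N + N * (C * (2 * √(N : ℝ))) := by
    have : ∀ n ∈ Finset.range N, ∑ m ∈ Finset.range N,
        ((if m = n then (1 : ℝ) else 0) + C * (1 / √((n : ℝ) + 1))) =
          1 + N * (C * (1 / √((n : ℝ) + 1))) := by
      intro n hn
      rw [Finset.sum_add_distrib, Finset.sum_ite_eq', if_pos hn]
      simp
    rw [Finset.sum_congr rfl this, Finset.sum_add_distrib, ← Finset.mul_sum, ← Finset.mul_sum]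
    simp only [Finset.sum_const, Finset.card_range, nsmul_eq_mul, mul_one]
    have := sum_inv_sqrt N
    gcongr
  have hNr : (N : ℝ) = (((k : ℝ) + 1) ^ 2) ^ 2 := by rw [hN]; push_cast; ring
  have hk : (1 : ℝ) ≤ ((k : ℝ) + 1) ^ 2 := one_le_pow₀ (by linarith [Nat.cast_nonneg (α := ℝ) k])
  have hs : √(N : ℝ) = ((k : ℝ) + 1) ^ 2 := by rw [hNr, Real.sqrt_sq (by positivity)]
  have e : (fun y : ℝ => wey r h N y⁻¹) = fun y => (1 / (N : ℝ) ^ 2) *
      ‖∑ n ∈ Finset.range N, ex (2 * π * h * (r : ℝ) ^ n * y⁻¹)‖ ^ 2 := by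
    funext y; unfold wey; ring
  rw [e, Ex_mul]
  set s := ((k : ℝ) + 1) ^ 2
  calc _ ≤ 1 / (N : ℝ) ^ 2 * (N + N * (C * (2 * √(N : ℝ)))) := by
        gcongr
        exact h4.trans h5
    _ = (1 / s + 2 * C) * (1 / s) := by rw [hs, hNr]; field_simp
    _ ≤ _ := by
        gcongr
        rw [div_le_one (by positivity)]; exact hk

theorem exists_recip (r : ℕ) (hr : 2 ≤ r) : ∃ y : ℝ,
    Tendsto (fun N : ℕ => psi r N y / N) atTop (𝓝 0) ∧
    ∀ h : ℤ, h ≠ 0 → Tendsto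
      (fun N : ℕ => (∑ n ∈ Finset.range N, ex (2 * π * h * (y⁻¹ * (r : ℝ) ^ n))) / (N : ℂ))
      atTop (𝓝 0) := by
  have hr' : (2 : ℝ) ≤ r := by exact_mod_cast hr
  have G : Good pq fun i => (1 / (r : ℝ) ^ 6) ^ i := good_pq _ (by
    have : (2 : ℝ) ^ 6 ≤ (r : ℝ) ^ 6 := by gcongr
    linarith)
  set C := 1 + 2 * (9 * (4 + 256 * ((r : ℝ) ^ 6) ^ 2)) with hC
  have hC0 : 0 ≤ C := by positivity
  obtain ⟨y, -, hy⟩ := exists_point G 1 1
    (fun h k y => if h = 0 then dev r pq 1 k y else wey r h ((k + 1) ^ 4) y⁻¹)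
    (fun h k y => by
      split_ifs
      · exact dev_nonneg _ _ _ _ _
      · exact wey_nonneg _ _ _ _)
    (fun h k => by
      split_ifs
      · exact (continuous_dev _ _ _ _).continuousOn
      · refine (continuous_wey _ _ _).comp_continuousOn (continuousOn_inv₀.mono ?_)
        intro y hy
        have := hy.1
        simp only [mem_compl_iff, mem_singleton_iff]
        linarith)
    (fun k => (147 + C) * (1 / ((k : ℝ) + 1) ^ 2))
    (by
      have := (summable_nat_add_iff 1).2 (Real.summable_one_div_nat_pow.2 (by norm_num : 1 < 2))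
      simp only [Nat.cast_add, Nat.cast_one] at this
      exact this.mul_left _)
    (fun h k => by
      have h0 : 0 ≤ 1 / ((k : ℝ) + 1) ^ 2 := by positivity
      split_ifs with hh
      · refine Eventually.of_forall fun M => ?_
        have := Ex_dev G r hr (fun i => ⟨6 * i, by omega, by rw [pow_mul, one_div_pow (r : ℝ) 6]⟩) 1 k M 1
        rw [Int.cast_one] at this
        refine le_trans this ?_
        nlinarith
      · filter_upwards [Ex_wey r hr h hh k] with M hM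
        refine le_trans hM ?_
        nlinarith)
  refine ⟨y, psi_small r pq pq_tendsto 1 y (by simpa using hy 0), fun h hh => ?_⟩
  apply interp _ fun n => (norm_ex _).le
  have := hy h
  simp only [if_neg hh] at this
  exact wey_tendsto atTop r h (fun k => (k + 1) ^ 4) y⁻¹ this

end Pool.Agent.H234Z.Det
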