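import Pool.Agent.H234Z.DetG

/-! No irrational multiplier preserves deterministic numbers. -/

set_option autoImplicit false

open Filter Topology Real Set

namespace Pool.Agent.H234Z.Det

lemma far_often (r : ℕ) (hr : 2 ≤ r) (β : ℝ) (hβ : Irrational β) (j0 : ℕ) :
    ∃ j, j0 ≤ j ∧ 2 / (r : ℝ) ≤ ch (2 * π * (β * (r : ℝ) ^ j)) := by
  have hr' : (2 : ℝ) ≤ r := by exact_mod_cast hr
  have hr0 : (0 : ℝ) < r := by linarith
  by_contra hc
  push Not at hc
  let t : ℕ → ℝ := fun j => β * (r : ℝ) ^ j - round (β * (r : ℝ) ^ j)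
  have ht : ∀ j, j0 ≤ j → |t j| * r < 1 / 2 := by
    intro j hj
    have h1 := (ch_round (β * (r : ℝ) ^ j)).trans_lt (hc j hj)
    rw [lt_div_iff₀ hr0] at h1
    simp only [t]
    linarith
  have step : ∀ j, j0 ≤ j → t (j + 1) = t j * r := by
    intro j hj
    have h1 := ht j hj
    have h2 := ht (j + 1) (by omega)
    have h3 : t (j + 1) - t j * r =
        ((round (β * (r : ℝ) ^ j) * r - round (β * (r : ℝ) ^ (j + 1)) : ℤ) : ℝ) := by
      simp only [t]
      push_cast
      rw [pow_succ]; ring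
    have h4 : |t (j + 1) - t j * r| < 1 := by
      have a1 := abs_sub (t (j + 1)) (t j * r)
      rw [abs_mul, abs_of_pos hr0] at a1
      have := abs_nonneg (t (j + 1))
      nlinarith
    rw [h3] at h4
    have h5 : round (β * (r : ℝ) ^ j) * r - round (β * (r : ℝ) ^ (j + 1)) = 0 := by
      rw [← Int.abs_lt_one_iff]
      exact_mod_cast h4
    rw [h5] at h3
    push_cast at h3
    linarith
  have iter : ∀ i, t (j0 + i) = t j0 * (r : ℝ) ^ i := by
    intro i
    induction i with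
    | zero => simp
    | succ i ih => rw [← add_assoc, step _ (by omega), ih, pow_succ, mul_assoc]
  have h0 : t j0 ≠ 0 := by
    intro h
    have h1 : Irrational (β * ((r ^ j0 : ℕ) : ℝ)) := hβ.mul_natCast (by positivity)
    apply h1.ne_int (round (β * (r : ℝ) ^ j0))
    push_cast
    simp only [t] at h
    linarith
  obtain ⟨i, hi⟩ := pow_unbounded_of_one_lt (1 / |t j0|) (show (1 : ℝ) < r by linarith)
  have h1 := ht (j0 + i) (by omega)
  rw [iter, abs_mul, abs_of_pos (pow_pos hr0 i)] at h1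
  rw [div_lt_iff₀ (abs_pos.2 h0)] at hi
  nlinarith

open Classical in
lemma far_count (r : ℕ) (hr : 2 ≤ r) (β : ℝ) (hβ : Irrational β) (K : ℕ) :
    ∀ᶠ J in atTop, K ≤ ((Finset.range J).filter
      fun j => 2 / (r : ℝ) ≤ ch (2 * π * (β * (r : ℝ) ^ j))).card := by
  have hinf : {j : ℕ | 2 / (r : ℝ) ≤ ch (2 * π * (β * (r : ℝ) ^ j))}.Infinite := by
    apply Set.infinite_of_forall_exists_gt
    intro a
    obtain ⟨j, h1, h2⟩ := far_often r hr β hβ (a + 1)
    exact ⟨j, h2, by omega⟩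
  obtain ⟨S, hS, hK⟩ := hinf.exists_subset_card_eq K
  filter_upwards [eventually_gt_atTop (S.sup id)] with J hJ
  rw [← hK]
  apply Finset.card_le_card
  intro j hj
  rw [Finset.mem_filter, Finset.mem_range]
  exact ⟨lt_of_le_of_lt (Finset.le_sup (f := id) hj) hJ, hS hj⟩

lemma char_bound {p c : ℕ → ℝ} (G : Good p c) (θ q η : ℝ) (hη : 0 ≤ η) (M : ℕ) (S : Finset ℕ)
    (hS : ∀ i ∈ S, i < M ∧ η ≤ ch (θ * c i) ∧ q ≤ p i) :
    ‖Ex p c 0 M (fun y => ex (θ * y)) 0‖ ≤ (1 - q * η ^ 2 / 4) ^ S.card := by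
  have h1 := Ex_char (p := p) (c := c) θ 0 M 0 0
  simp only [add_zero, zero_add] at h1
  rw [h1, norm_mul, norm_ex, one_mul, norm_prod]
  refine (Finset.prod_le_prod_of_subset_of_le_one (s := S)
    (fun i hi => Finset.mem_range.2 (hS i hi).1) (fun _ _ => norm_nonneg _)
    fun _ _ _ => norm_fac_le_one _ _ (G.p0 _) (G.p1 _)).trans ?_
  rw [← Finset.prod_const]
  refine Finset.prod_le_prod (fun _ _ => norm_nonneg _) fun i hi => ?_
  refine (norm_fac_le _ _ (G.p0 _) (G.p1 _)).trans ?_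
  obtain ⟨_, a2, a3⟩ := hS i hi
  have := G.p0 i
  gcongr

lemma exists_gap (r : ℕ) (hr : 2 ≤ r) (b : ℝ) (hb : Irrational b) (k : ℕ) :
    ∃ L : ℕ, ∀ h : ℤ, h ≠ 0 → |h| ≤ k → ∀ p : ℕ → ℝ, (Good p fun i => (1 / (r : ℝ)) ^ i) →
      ∀ n m M : ℕ, m + L ≤ n → n < M → (∀ i, i ≤ n → 1 / ((k : ℝ) + 2) ≤ p i) → ∀ θ : ℝ,
      (θ = (2 * π * h * (r : ℝ) ^ n - 2 * π * h * (r : ℝ) ^ m) * b ∨
        θ = (2 * π * h * (r : ℝ) ^ m - 2 * π * h * (r : ℝ) ^ n) * b) →
      ‖Ex p (fun i => (1 / (r : ℝ)) ^ i) 0 M (fun y => ex (θ * y)) 0‖ ≤ (1 / 2) ^ k := by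
  classical
  have hr' : (2 : ℝ) ≤ r := by exact_mod_cast hr
  have hr0 : (0 : ℝ) < r := by linarith
  have hρ : 1 / (r : ℝ) ≤ 1 / 2 := by gcongr
  have hρ0 : 0 < 1 / (r : ℝ) := by positivity
  set x := 1 / ((k : ℝ) + 2) * (1 / (r : ℝ)) ^ 2 / 4 with hx
  have hx0 : 0 < x := by positivity
  have hx1 : x ≤ 1 := by
    have a1 : 1 / ((k : ℝ) + 2) ≤ 1 := by
      rw [div_le_one (by positivity)]; linarith [Nat.cast_nonneg (α := ℝ) k]
    have a2 : (1 / (r : ℝ)) ^ 2 ≤ 1 := pow_le_one₀ hρ0.le (by linarith)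
    have a3 : 1 / ((k : ℝ) + 2) * (1 / (r : ℝ)) ^ 2 ≤ 1 := mul_le_one₀ a1 (by positivity) a2
    linarith
  obtain ⟨K, hK⟩ := exists_pow_lt_of_lt_one (show (0 : ℝ) < (1 / 2) ^ k by positivity)
    (show 1 - x < 1 by linarith)
  obtain ⟨C, hC⟩ := exists_pow_lt_of_lt_one
    (show (0 : ℝ) < (1 / (r : ℝ)) / (2 * π * k * |b| + 1) by positivity)
    (show 1 / (r : ℝ) < 1 by linarith)
  have hJ : ∀ᶠ J in atTop, ∀ h ∈ (Finset.Icc (-(k : ℤ)) k).erase 0, K ≤ ((Finset.range J).filter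
      fun j => 2 / (r : ℝ) ≤ ch (2 * π * ((h : ℝ) * b * (r : ℝ) ^ j))).card :=
    (Finset.eventually_all _).2 fun h hh =>
      far_count r hr _ (hb.intCast_mul (Finset.ne_of_mem_erase hh)) K
  obtain ⟨J, hJ⟩ := hJ.exists
  refine ⟨C + J, fun h hh hk p G n m M hmn hM hp θ hθ => ?_⟩
  have hJh := hJ h (Finset.mem_erase.2 ⟨hh, Finset.mem_Icc.2 (abs_le.1 hk)⟩)
  set A := (Finset.range J).filter
      fun j => 2 / (r : ℝ) ≤ ch (2 * π * ((h : ℝ) * b * (r : ℝ) ^ j)) with hA
  have hcard : (A.image fun j => n - j).card = A.card := by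
    apply Finset.card_image_of_injOn
    intro i hi j hj hij
    simp only [hA, Finset.coe_filter, Finset.mem_range, mem_ofPred_eq] at hi hj hij
    omega
  refine (char_bound G θ (1 / ((k : ℝ) + 2)) (1 / (r : ℝ)) hρ0.le M (A.image fun j => n - j)
    ?_).trans ?_
  · intro i hi
    obtain ⟨j, hj, rfl⟩ := Finset.mem_image.1 hi
    rw [hA, Finset.mem_filter, Finset.mem_range] at hj
    refine ⟨by omega, ?_, hp _ (by omega)⟩
    have e0 : ch (θ * (1 / (r : ℝ)) ^ (n - j)) = ch ((2 * π * h * (r : ℝ) ^ n -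
        2 * π * h * (r : ℝ) ^ m) * b * (1 / (r : ℝ)) ^ (n - j)) := by
      rcases hθ with rfl | rfl
      · rfl
      · rw [← ch_neg]; congr 1; ring
    rw [e0]
    obtain ⟨d, hd⟩ : ∃ d, n - j = m + (C + d) := ⟨n - j - m - C, by omega⟩
    have e1 : (r : ℝ) ^ n * (1 / (r : ℝ)) ^ (n - j) = (r : ℝ) ^ j := by
      have : n = j + (n - j) := by omega
      conv_lhs => rw [this, pow_add, Nat.add_sub_cancel_left]
      rw [mul_assoc, ← mul_pow, mul_one_div_cancel hr0.ne', one_pow, mul_one]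
    have e2 : (r : ℝ) ^ m * (1 / (r : ℝ)) ^ (n - j) = (1 / (r : ℝ)) ^ (C + d) := by
      rw [hd, pow_add (1 / (r : ℝ)) m, ← mul_assoc, ← mul_pow, mul_one_div_cancel hr0.ne', one_pow,
        one_mul]
    have e3 := ch_le_add (2 * π * ((h : ℝ) * b * (r : ℝ) ^ j)) ((2 * π * h * (r : ℝ) ^ n -
        2 * π * h * (r : ℝ) ^ m) * b * (1 / (r : ℝ)) ^ (n - j))
    have e4 : 2 * π * ((h : ℝ) * b * (r : ℝ) ^ j) - (2 * π * h * (r : ℝ) ^ n -
        2 * π * h * (r : ℝ) ^ m) * b * (1 / (r : ℝ)) ^ (n - j) =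
        2 * π * h * b * (1 / (r : ℝ)) ^ (C + d) := by
      rw [← e1, ← e2]; ring
    have e5 : |2 * π * h * b * (1 / (r : ℝ)) ^ (C + d)| ≤ 1 / (r : ℝ) := by
      rw [abs_mul, abs_mul, abs_mul, abs_of_pos Real.two_pi_pos,
        abs_of_pos (pow_pos hρ0 _)]
      have a1 : |(h : ℝ)| ≤ k := by exact_mod_cast hk
      have a2 : (1 / (r : ℝ)) ^ (C + d) ≤ (1 / (r : ℝ)) ^ C :=
        pow_le_pow_of_le_one hρ0.le (by linarith) (by omega)
      rw [lt_div_iff₀ (by positivity)] at hC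
      have a3 : 2 * π * |(h : ℝ)| * |b| * (1 / (r : ℝ)) ^ (C + d) ≤
          2 * π * k * |b| * (1 / (r : ℝ)) ^ C := by
        have := Real.pi_pos
        gcongr
      have a4 : 0 < (1 / (r : ℝ)) ^ C := pow_pos hρ0 _
      nlinarith
    rw [e4] at e3
    have e6 : 2 / (r : ℝ) = 1 / (r : ℝ) + 1 / (r : ℝ) := by ring
    linarith [hj.2]
  · rw [hcard]
    exact (pow_le_pow_of_le_one (by linarith) (by linarith) hJh).trans hK.le

lemma sum_band (N L n : ℕ) (δ : ℝ) (hδ : 0 ≤ δ) :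
    ∑ m ∈ Finset.range N, ((if m ∈ Finset.Ico (n - L) (n + L) then (1 : ℝ) else 0) + δ) ≤
      2 * L + N * δ := by
  rw [Finset.sum_add_distrib, Finset.sum_ite_mem]
  simp only [Finset.sum_const, Finset.card_range, nsmul_eq_mul, mul_one]
  have : (Finset.range N ∩ Finset.Ico (n - L) (n + L)).card ≤ 2 * L := by
    refine (Finset.card_le_card Finset.inter_subset_right).trans ?_
    rw [Nat.card_Ico]; omega
  have h2 : ((Finset.range N ∩ Finset.Ico (n - L) (n + L)).card : ℝ) ≤ 2 * L := by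
    exact_mod_cast this
  linarith

theorem exists_mul (r : ℕ) (hr : 2 ≤ r) (b : ℝ) (hb : Irrational b) : ∃ (y : ℝ) (N : ℕ → ℕ),
    Tendsto N atTop atTop ∧ Tendsto (fun N : ℕ => psi r N y / N) atTop (𝓝 0) ∧
    ∀ h : ℤ, h ≠ 0 → Tendsto
      (fun N : ℕ => (∑ n ∈ Finset.range N, ex (2 * π * h * (b * y * (r : ℝ) ^ n))) / (N : ℂ))
      (map N atTop) (𝓝 0) := by
  classical
  have hr' : (2 : ℝ) ≤ r := by exact_mod_cast hr
  choose L hL using exists_gap r hr b hb
  let N : ℕ → ℕ := fun k => 2 ^ k * (L k + 1)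
  have hNk : ∀ k, k ≤ N k := fun k => by
    have := Nat.lt_two_pow_self (n := k)
    simp only [N]
    nlinarith
  have hex : ∀ i, ∃ k, i ≤ N k := fun i => ⟨i, hNk i⟩
  let p : ℕ → ℝ := fun i => 1 / ((Nat.find (hex i) : ℝ) + 2)
  have hp : ∀ k i, i ≤ N k → 1 / ((k : ℝ) + 2) ≤ p i := by
    intro k i hi
    have : (Nat.find (hex i) : ℝ) ≤ k := by exact_mod_cast Nat.find_min' (hex i) hi
    simp only [p]
    gcongr
  have hp0 : Tendsto p atTop (𝓝 0) := by
    have h1 : Tendsto (fun i => Nat.find (hex i)) atTop atTop := by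
      rw [tendsto_atTop]
      intro k
      filter_upwards [eventually_gt_atTop ((Finset.range k).sup N)] with i hi
      by_contra hc
      have a1 := Nat.find_spec (hex i)
      have a2 : N (Nat.find (hex i)) ≤ (Finset.range k).sup N :=
        Finset.le_sup (f := N) (Finset.mem_range.2 (not_le.1 hc))
      omega
    exact tendsto_const_nhds.div_atTop
      (tendsto_atTop_add_const_right _ _ (tendsto_natCast_atTop_atTop.comp h1))
  have G : Good p fun i => (1 / (r : ℝ)) ^ i :=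
    { p0 := fun i => by positivity
      p1 := fun i => by
        simp only [p]
        gcongr
        linarith [Nat.cast_nonneg (α := ℝ) (Nat.find (hex i))]
      c0 := (good_pq r hr').c0
      c1 := (good_pq r hr').c1 }
  obtain ⟨y, -, hy⟩ := exists_point G 0 0
    (fun h k y => if h = 0 then dev r p 0 k y else if |h| ≤ k then wey r h (N k) (b * y) else 0)
    (fun h k y => by
      split_ifs
      · exact dev_nonneg _ _ _ _ _
      · exact wey_nonneg _ _ _ _
      · exact le_rfl)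
    (fun h k => by
      split_ifs
      · exact (continuous_dev _ _ _ _).continuousOn
      · exact ((continuous_wey _ _ _).comp (continuous_const.mul continuous_id)).continuousOn
      · exact continuousOn_const)
    (fun k => 147 * (1 / ((k : ℝ) + 1) ^ 2) + 3 * (1 / 2) ^ k)
    (by
      have := (summable_nat_add_iff 1).2 (Real.summable_one_div_nat_pow.2 (by norm_num : 1 < 2))
      simp only [Nat.cast_add, Nat.cast_one] at this
      exact (this.mul_left _).add (summable_geometric_two.mul_left _))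
    (fun h k => by
      have h0 : 0 ≤ 1 / ((k : ℝ) + 1) ^ 2 := by positivity
      have h1 : 0 ≤ (1 / 2 : ℝ) ^ k := by positivity
      split_ifs with hh hk
      · refine Eventually.of_forall fun M => ?_
        have := Ex_dev G r hr (fun i => ⟨i, le_rfl, rfl⟩) 0 k M 0
        rw [Int.cast_zero] at this
        refine le_trans this ?_
        linarith
      · filter_upwards [eventually_ge_atTop (N k)] with M hM
        have h3 := Ex_sq_le (p := p) (c := fun i => (1 / (r : ℝ)) ^ i) (fun y => b * y)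
          (fun n => 2 * π * h * (r : ℝ) ^ n) (N k) M 0 0
        have h4 : ∀ n ∈ Finset.range (N k), ∀ m ∈ Finset.range (N k),
            ‖Ex p (fun i => (1 / (r : ℝ)) ^ i) 0 M (fun y =>
              ex ((2 * π * h * (r : ℝ) ^ n - 2 * π * h * (r : ℝ) ^ m) * (b * y))) 0‖ ≤
            (if m ∈ Finset.Ico (n - (L k + 1)) (n + (L k + 1)) then (1 : ℝ) else 0) + (1 / 2) ^ k := by
          intro n hn m hm
          rw [Finset.mem_range] at hn hm
          split_ifs with hc
          · refine (norm_Ex_le G _ _ _ _).trans ?_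
            simp only [norm_ex]
            rw [Ex_const]
            linarith
          · rw [zero_add]
            simp only [← mul_assoc]
            rw [Finset.mem_Ico] at hc
            rcases le_total m n with a | a
            · exact hL k h hh hk p G n m M (by omega) (by omega)
                (fun i hi => hp k i (by omega)) _ (Or.inl rfl)
            · exact hL k h hh hk p G m n M (by omega) (by omega)
                (fun i hi => hp k i (by omega)) _ (Or.inr rfl)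
        have h5 := h3.trans (Finset.sum_le_sum fun n hn =>
          (Finset.sum_le_sum fun m hm => h4 n hn m hm).trans (sum_band (N k) (L k + 1) n _ h1))
        simp only [Finset.sum_const, Finset.card_range, nsmul_eq_mul] at h5
        have e : (fun y : ℝ => wey r h (N k) (b * y)) = fun y => (1 / (N k : ℝ) ^ 2) *
            ‖∑ n ∈ Finset.range (N k), ex (2 * π * h * (r : ℝ) ^ n * (b * y))‖ ^ 2 := by
          funext y; unfold wey; ring
        rw [e, Ex_mul]
        have hN : (N k : ℝ) = 2 ^ k * ((L k + 1 : ℕ) : ℝ) := by simp only [N]; push_cast; ring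
        have hL0 : (0 : ℝ) < ((L k + 1 : ℕ) : ℝ) := by positivity
        calc _ ≤ 1 / (N k : ℝ) ^ 2 * (N k * (2 * ((L k + 1 : ℕ) : ℝ) + N k * (1 / 2) ^ k)) := by
              gcongr
          _ = 3 * (1 / 2) ^ k := by
              rw [hN, one_div_pow]; field_simp; ring
          _ ≤ _ := by linarith
      · refine Eventually.of_forall fun M => ?_
        rw [Ex_const]
        positivity)
  refine ⟨y, N, tendsto_atTop_mono hNk tendsto_id,
    psi_small r p hp0 0 y (by simpa using hy 0), fun h hh => ?_⟩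
  rw [tendsto_map'_iff]
  refine wey_tendsto atTop r h N (b * y) ((hy h).congr' ?_)
  filter_upwards [eventually_ge_atTop h.natAbs] with k hk
  rw [if_neg hh, if_pos (by rw [Int.abs_eq_natAbs]; exact_mod_cast hk)]

lemma digit_eq (r : ℕ) (hr : 2 ≤ r) (y : ℝ) (n : ℕ) :
    ⌊y * (r : ℝ) ^ (n + 1)⌋ - (r : ℤ) * ⌊y * (r : ℝ) ^ n⌋ = ⌊y * (r : ℝ) ^ (n + 1)⌋ % (r : ℤ) := by
  have hr0 : (0 : ℝ) < r := by exact_mod_cast (by omega : 0 < r)
  rw [Int.emod_def]
  congr 2
  rw [← Int.floor_div_natCast, pow_succ, ← mul_assoc, mul_div_cancel_right₀ _ hr0.ne']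

theorem not_det (r : ℕ) (hr : 2 ≤ r) (x : ℝ) (l : Filter ℕ) [l.NeBot] (hl : l ≤ atTop)
    (hy : ∀ h : ℤ, h ≠ 0 → Tendsto
      (fun N : ℕ => (∑ n ∈ Finset.range N, ex (2 * π * h * (x * (r : ℝ) ^ n))) / (N : ℂ)) l (𝓝 0)) :
    ¬ ∀ ε : ℝ, 0 < ε → ∃ k : ℕ, 1 ≤ k ∧ ∃ N0 : ℕ, ∀ N : ℕ, N0 ≤ N →
      ∑ w : Fin k → Fin r, Real.negMulLog (freq r x k w N) ≤ ε * k := by
  intro H
  have hr' : (2 : ℝ) ≤ r := by exact_mod_cast hr
  have hlog : 0 < Real.log r := Real.log_pos (by linarith)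
  obtain ⟨k, hk, N0, hN0⟩ := H (Real.log r / 2) (by positivity)
  have h1 : Tendsto (fun N => ∑ w : Fin k → Fin r, Real.negMulLog (freq r x k w N)) l
      (𝓝 (∑ _w : Fin k → Fin r, Real.negMulLog (1 / (r : ℝ) ^ k))) :=
    tendsto_finsetSum _ fun w _ =>
      (Real.continuous_negMulLog.tendsto _).comp (freq_of_weyl l hl x r hr hy k w)
  have h2 := le_of_tendsto h1 (hl (eventually_atTop.2 ⟨N0, hN0⟩))
  simp only [Finset.sum_const, Finset.card_univ, Fintype.card_fun, Fintype.card_fin,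
    nsmul_eq_mul, Real.negMulLog, one_div, Real.log_inv, Real.log_pow] at h2
  push_cast at h2
  have h3 : (r : ℝ) ^ k * (-((r : ℝ) ^ k)⁻¹ * -(k * Real.log r)) = k * Real.log r := by
    field_simp
  rw [h3] at h2
  have : (1 : ℝ) ≤ k := by exact_mod_cast hk
  nlinarith

end Pool.Agent.H234Z.Det
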