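import Mathlib

/-! Weyl criterion along a filter (adapted from helper391 and H705R2). -/

set_option autoImplicit false

open Filter Topology Real MeasureTheory Set

namespace Pool.Agent.H234Z.Det

abbrev Circ : Type := AddCircle (1 : ℝ)

/-- `exp (i t)` -/
noncomputable def ex (t : ℝ) : ℂ := Complex.exp (t * Complex.I)

lemma integral_fourier_eq_zero {n : ℤ} (hn : n ≠ 0) :
    ∫ x : Circ, (fourier n x : ℂ) = 0 := by
  have ha : ∃ a : Circ, (fourier n a : ℂ) ≠ 1 := by
    refine ⟨((1 / (2 * n) : ℝ) : Circ), ?_⟩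
    rw [fourier_coe_apply]
    have hn' : (n : ℂ) ≠ 0 := by exact_mod_cast hn
    have : 2 * (Real.pi : ℂ) * Complex.I * n * ((1 / (2 * n) : ℝ) : ℂ) / ((1 : ℝ) : ℂ) = Real.pi * Complex.I := by
      push_cast
      field_simp
    rw [this, Complex.exp_pi_mul_I]
    norm_num
  obtain ⟨a, ha⟩ := ha
  have h1 : ∫ x : Circ, (fourier n (x + a) : ℂ) = ∫ x : Circ, (fourier n x : ℂ) :=
    integral_add_right_eq_self (fun x => (fourier n x : ℂ)) a
  have h2 : ∀ x : Circ, (fourier n (x + a) : ℂ) = fourier n x * fourier n a := by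
    intro x
    simp only [fourier_apply]
    rw [smul_add, AddCircle.toCircle_add]; simp
  simp_rw [h2] at h1
  rw [integral_mul_const] at h1
  have h3 : (∫ x : Circ, (fourier n x : ℂ)) * ((fourier n a : ℂ) - 1) = 0 := by
    rw [mul_sub, h1]; ring
  rcases mul_eq_zero.1 h3 with h | h
  · exact h
  · exact absurd (sub_eq_zero.1 h) ha


/-- average along a sequence -/
noncomputable def av (y : ℕ → ℝ) (h : Circ → ℂ) (M : ℕ) : ℂ :=
  (∑ m ∈ Finset.range M, h (y m : Circ)) / M

lemma av_norm_sub_le (y : ℕ → ℝ) (f g : C(Circ, ℂ)) (M : ℕ) :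
    ‖av y f M - av y g M‖ ≤ ‖f - g‖ := by
  unfold av
  rcases Nat.eq_zero_or_pos M with rfl | hM
  · simp
  rw [← sub_div, ← Finset.sum_sub_distrib, norm_div, Complex.norm_natCast]
  rw [div_le_iff₀ (by exact_mod_cast hM)]
  calc ‖∑ m ∈ Finset.range M, (f (y m : Circ) - g (y m : Circ))‖
      ≤ ∑ m ∈ Finset.range M, ‖f (y m : Circ) - g (y m : Circ)‖ := norm_sum_le _ _
    _ ≤ ∑ _m ∈ Finset.range M, ‖f - g‖ := by
        gcongr with m _
        exact (f - g).norm_coe_le_norm _
    _ = ‖f - g‖ * M := by simp [mul_comm]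

theorem weyl_seq (l : Filter ℕ) (hl : l ≤ atTop) (y : ℕ → ℝ)
    (hy : ∀ h : ℤ, h ≠ 0 →
      Tendsto (fun N : ℕ => (∑ n ∈ Finset.range N, ex (2 * π * h * y n)) / (N : ℂ)) l (𝓝 0))
    (h : C(Circ, ℂ)) :
    Tendsto (fun M => av y h M) l (𝓝 (∫ x : Circ, h x)) := by
  have hmem : ∀ f ∈ (Submodule.span ℂ (range <| @fourier 1)),
      Tendsto (fun M => av y f M) l (𝓝 (∫ x : Circ, f x)) := by
    intro f hf
    induction hf using Submodule.span_induction with
    | mem f hf =>
      obtain ⟨n, rfl⟩ := hf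
      by_cases hn : n = 0
      · subst hn
        have : ∀ M : ℕ, 0 < M → av y (fun x => (fourier 0 x : ℂ)) M = 1 := by
          intro M hM
          unfold av
          simp only [fourier_zero, Finset.sum_const, Finset.card_range, nsmul_eq_mul, mul_one]
          have : (M : ℂ) ≠ 0 := by exact_mod_cast hM.ne'
          field_simp
        have hint : ∫ x : Circ, (fourier 0 x : ℂ) = 1 := by
          simp [fourier_zero, Measure.real]
        rw [hint]
        refine Tendsto.congr' ?_ tendsto_const_nhds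
        filter_upwards [hl (eventually_gt_atTop 0)] with M hM
        exact (this M hM).symm
      · rw [integral_fourier_eq_zero hn]
        refine (hy n hn).congr fun M => ?_
        unfold av
        congr 1
        refine Finset.sum_congr rfl fun m _ => ?_
        rw [fourier_coe_apply]
        unfold ex
        congr 1
        push_cast
        ring
    | zero =>
      simpa [av] using tendsto_const_nhds
    | add f g hf hg ihf ihg =>
      have hi : ∫ x : Circ, (f + g) x = (∫ x : Circ, f x) + ∫ x : Circ, g x := by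
        have := integral_add (μ := (volume : Measure Circ)) (f := f) (g := g)
          (f.continuous.integrable_of_hasCompactSupport (HasCompactSupport.of_compactSpace _))
          (g.continuous.integrable_of_hasCompactSupport (HasCompactSupport.of_compactSpace _))
        simpa using this
      rw [hi]
      refine (ihf.add ihg).congr (fun M => ?_)
      unfold av
      rw [← add_div, ← Finset.sum_add_distrib]; rfl
    | smul c f hf ihf =>
      have hi : ∫ x : Circ, (c • f) x = c * (∫ x : Circ, f x) := by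
        simp [integral_const_mul]
      rw [hi]
      refine (ihf.const_mul c).congr (fun M => ?_)
      unfold av
      simp only [ContinuousMap.coe_smul, Pi.smul_apply, smul_eq_mul]
      rw [← Finset.mul_sum, mul_div_assoc]
  rw [Metric.tendsto_nhds]
  intro ε hε
  have hcl : h ∈ (Submodule.span ℂ (range <| @fourier 1)).topologicalClosure := by
    rw [span_fourier_closure_eq_top]; trivial
  rw [← SetLike.mem_coe, Submodule.topologicalClosure_coe, Metric.mem_closure_iff] at hcl
  obtain ⟨f, hf, hfd⟩ := hcl (ε / 3) (by positivity)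
  have := Metric.tendsto_nhds.1 (hmem f hf) (ε / 3) (by positivity)
  filter_upwards [this] with M h1
  have h2 : ‖av y h M - av y f M‖ ≤ ‖h - f‖ := av_norm_sub_le y h f M
  have h3 : ‖(∫ x : Circ, f x) - ∫ x : Circ, h x‖ ≤ ‖h - f‖ := by
    rw [← integral_sub
      (f.continuous.integrable_of_hasCompactSupport (HasCompactSupport.of_compactSpace _))
      (h.continuous.integrable_of_hasCompactSupport (HasCompactSupport.of_compactSpace _))]
    calc ‖∫ x : Circ, (f x - h x)‖ ≤ ‖h - f‖ * (volume : Measure Circ).real univ := by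
          apply norm_integral_le_of_norm_le_const
          filter_upwards with x
          rw [norm_sub_rev]
          exact (h - f).norm_coe_le_norm x
      _ = ‖h - f‖ := by simp [Measure.real]
  have h4 : ‖h - f‖ < ε / 3 := by rw [← dist_eq_norm]; exact hfd
  calc dist (av y h M) (∫ x : Circ, h x)
      ≤ dist (av y h M) (av y f M) + dist (av y f M) (∫ x : Circ, f x)
        + dist (∫ x : Circ, f x) (∫ x : Circ, h x) := dist_triangle4 _ _ _ _
    _ < ε / 3 + ε / 3 + ε / 3 := by
        rw [dist_eq_norm, dist_eq_norm (∫ x : Circ, f x)]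
        linarith
    _ = ε := by ring

theorem lower (l : Filter ℕ) (hl : l ≤ atTop) (y : ℕ → ℝ)
    (hy : ∀ h : ℤ, h ≠ 0 →
      Tendsto (fun N : ℕ => (∑ n ∈ Finset.range N, ex (2 * π * h * y n)) / (N : ℂ)) l (𝓝 0))
    (c L : ℝ) (hL1 : L ≤ 1) (P : ℕ → Prop) [DecidablePred P]
    (hP : ∀ n, (∃ q : ℤ, c < y n - q ∧ y n - q < c + L) → P n) (ε : ℝ) (hε : 0 < ε) :
    ∀ᶠ N : ℕ in l, L - ε ≤ (((Finset.range N).filter P).card : ℝ) / N := by
  let z : Circ := ((c + L / 2 : ℝ) : Circ)
  obtain ⟨g, hg0, hg1, hg01⟩ := exists_continuous_zero_one_of_isClosed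
    (Metric.isOpen_ball (x := z) (ε := L / 2)).isClosed_compl
    (Metric.isClosed_closedBall (x := z) (ε := L / 2 - ε / 4))
    (by
      rw [disjoint_compl_left_iff_subset]
      exact Metric.closedBall_subset_ball (by linarith))
  let h : C(Circ, ℂ) := ⟨fun x => (g x : ℂ), by fun_prop⟩
  have hint : L - ε / 2 ≤ (∫ x : Circ, h x).re := by
    have h1 : ∫ x : Circ, h x = ((∫ x : Circ, g x : ℝ) : ℂ) := by
      simp only [h, ContinuousMap.coe_mk]
      exact integral_ofReal
    rw [h1, Complex.ofReal_re]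
    have hm : MeasurableSet (Metric.closedBall z (L / 2 - ε / 4)) := measurableSet_closedBall
    have h2 : ∫ x : Circ, (Metric.closedBall z (L / 2 - ε / 4)).indicator (fun _ => (1 : ℝ)) x ≤
        ∫ x : Circ, g x := by
      apply integral_mono
      · exact (integrable_indicator_iff hm).2 (integrableOn_const (by simp))
      · exact g.continuous.integrable_of_hasCompactSupport (HasCompactSupport.of_compactSpace _)
      · intro x
        by_cases hx : x ∈ Metric.closedBall z (L / 2 - ε / 4)
        · simp only [hx, indicator_of_mem]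
          exact le_of_eq (hg1 hx).symm
        · simp only [hx, not_false_eq_true, indicator_of_notMem]
          exact (hg01 x).1
    rw [integral_indicator hm] at h2
    simp only [integral_const, MeasurableSet.univ, measureReal_restrict_apply, univ_inter,
      smul_eq_mul, mul_one] at h2
    refine le_trans ?_ h2
    rw [Measure.real, AddCircle.volume_closedBall, ENNReal.toReal_ofReal']
    refine le_trans ?_ (le_max_left _ _)
    apply le_min <;> linarith
  have hw' : Tendsto (fun M => (av y h M).re) l (𝓝 (∫ x : Circ, h x).re) :=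
    (Complex.continuous_re.tendsto _).comp (weyl_seq l hl y hy h)
  have hev : ∀ᶠ M in l, L - ε < (av y h M).re := by
    apply hw'.eventually_const_lt
    linarith
  filter_upwards [hev] with M hM
  refine hM.le.trans ?_
  unfold av
  have : (∑ m ∈ Finset.range M, h (y m : Circ)) / (M : ℂ) =
      (((∑ m ∈ Finset.range M, g (y m : Circ)) / M : ℝ) : ℂ) := by
    push_cast; rfl
  rw [this, Complex.ofReal_re]
  gcongr
  rw [Finset.card_filter]
  push_cast
  gcongr with m _
  split_ifs with hm
  · exact (hg01 _).2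
  · apply le_of_eq
    apply hg0
    intro hb
    apply hm
    apply hP
    rw [Metric.mem_ball, dist_eq_norm, ← AddCircle.coe_sub, UnitAddCircle.norm_eq, abs_lt] at hb
    exact ⟨round (y m - (c + L / 2)), by linarith [hb.1], by linarith [hb.2]⟩

lemma digits_arc (b : ℕ) (hb : 2 ≤ b) (k : ℕ) (w : Fin k → ℤ) (hw : ∀ j, 0 ≤ w j ∧ w j < b) :
    ∃ c : ℝ, 0 ≤ c ∧ c + 1 / (b : ℝ) ^ k ≤ 1 ∧ ∀ y : ℝ,
      (∃ l : ℤ, c < y - l ∧ y - l < c + 1 / (b : ℝ) ^ k) →
        ∀ j : Fin k, ⌊y * (b : ℝ) ^ (j.val + 1)⌋ % (b : ℤ) = w j := by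
  have hb0 : (0 : ℝ) < b := by exact_mod_cast (by omega : 0 < b)
  induction k with
  | zero => exact ⟨0, le_rfl, by simp, fun y _ j => j.elim0⟩
  | succ k ih =>
    obtain ⟨c, hc0, hc1, hc⟩ := ih (fun j => w j.succ) (fun j => hw _)
    have h0 : (0 : ℝ) ≤ w 0 := by exact_mod_cast (hw 0).1
    have h1 : (w 0 : ℝ) + 1 ≤ b := by exact_mod_cast (hw 0).2
    have e : 1 / (b : ℝ) ^ (k + 1) = 1 / (b : ℝ) ^ k / b := by
      rw [pow_succ]; field_simp
    refine ⟨(w 0 + c) / b, by positivity, ?_, ?_⟩
    · rw [e, ← add_div, div_le_one hb0]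
      linarith
    · rintro y ⟨l, hl1, hl2⟩
      rw [e, ← add_div, lt_div_iff₀ hb0] at hl2
      rw [div_lt_iff₀ hb0] at hl1
      have hpos : 0 < 1 / (b : ℝ) ^ k := by positivity
      intro j
      refine Fin.cases ?_ (fun j => ?_) j
      · have : ⌊y * (b : ℝ) ^ (((0 : Fin (k + 1)) : ℕ) + 1)⌋ = w 0 + b * l := by
          rw [Int.floor_eq_iff]
          simp only [Fin.val_zero, zero_add, pow_one]
          push_cast
          constructor <;> nlinarith
        rw [this, Int.add_mul_emod_self_left]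
        exact Int.emod_eq_of_lt (hw 0).1 (hw 0).2
      · have := hc (y * b) ⟨w 0 + b * l, by push_cast; nlinarith, by push_cast; nlinarith⟩ j
        rw [← this, Fin.val_succ, pow_succ' (b : ℝ) (j.val + 1), mul_assoc]

lemma partition_trick (l : Filter ℕ) (hl : l ≤ atTop) {ι : Type} (S : Finset ι) (a : ι → ℕ → ℝ) (L : ℝ) (hL : S.card * L = 1)
    (hsum : ∀ N, 1 ≤ N → ∑ w ∈ S, a w N = 1)
    (hlow : ∀ w ∈ S, ∀ ε > 0, ∀ᶠ N in l, L - ε ≤ a w N) (w : ι) (hw : w ∈ S) :
    Tendsto (a w) l (𝓝 L) := by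
  classical
  rw [tendsto_order]
  constructor
  · intro t ht
    filter_upwards [hlow w hw ((L - t) / 2) (by linarith)] with N hN
    linarith
  · intro t ht
    have hc : (0 : ℝ) < S.card := by exact_mod_cast Finset.card_pos.2 ⟨w, hw⟩
    have hε : 0 < (t - L) / S.card := div_pos (by linarith) hc
    have := (Finset.eventually_all S).2 fun v hv => hlow v hv _ hε
    filter_upwards [this, hl (eventually_ge_atTop 1)] with N hN h1
    have h2 := hsum N h1
    rw [← Finset.add_sum_erase S _ hw] at h2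
    have h3 : ∑ _v ∈ S.erase w, (L - (t - L) / S.card) ≤ ∑ v ∈ S.erase w, a v N :=
      Finset.sum_le_sum fun v hv => hN v (Finset.mem_of_mem_erase hv)
    rw [Finset.sum_const, Finset.card_erase_of_mem hw, nsmul_eq_mul,
      Nat.cast_sub (Finset.card_pos.2 ⟨w, hw⟩)] at h3
    have h4 : (S.card : ℝ) * ((t - L) / S.card) = t - L := by field_simp
    push_cast at h3
    nlinarith

theorem normal_of_weyl (l : Filter ℕ) (hl : l ≤ atTop) (x : ℝ) (b : ℕ) (hb : 2 ≤ b)
    (hy : ∀ h : ℤ, h ≠ 0 → Tendsto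
      (fun N : ℕ => (∑ n ∈ Finset.range N, ex (2 * π * h * (x * (b : ℝ) ^ n))) / (N : ℂ)) l (𝓝 0))
    (k : ℕ) (w : Fin k → ℤ) (hw : ∀ j : Fin k, 0 ≤ w j ∧ w j < (b : ℤ)) :
    Tendsto (fun N : ℕ =>
      ((((Finset.range N).filter (fun i : ℕ =>
        ∀ j : Fin k, ⌊x * (b : ℝ) ^ (i + j.val + 1)⌋ % (b : ℤ) = w j)).card : ℝ) / (N : ℝ)))
      l (𝓝 (1 / (b : ℝ) ^ k)) := by
  have hb0 : (0 : ℝ) < b := by exact_mod_cast (by omega : 0 < b)
  let S : Finset (Fin k → ℤ) := Fintype.piFinset fun _ => Finset.Ico (0 : ℤ) b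
  have hS : ∀ v, v ∈ S ↔ ∀ j : Fin k, 0 ≤ v j ∧ v j < (b : ℤ) := by
    intro v
    simp [S, Fintype.mem_piFinset]
  refine partition_trick l hl S (fun w N => ((((Finset.range N).filter (fun i : ℕ =>
        ∀ j : Fin k, ⌊x * (b : ℝ) ^ (i + j.val + 1)⌋ % (b : ℤ) = w j)).card : ℝ) / (N : ℝ)))
    _ ?_ ?_ ?_ w ((hS w).2 hw)
  · simp only [S, Fintype.card_piFinset, Int.card_Ico, sub_zero, Int.toNat_natCast,
      Finset.prod_const, Finset.card_univ, Fintype.card_fin]
    push_cast
    field_simp
  · intro N hN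
    have hN0 : (N : ℝ) ≠ 0 := by exact_mod_cast (by omega : N ≠ 0)
    rw [← Finset.sum_div, div_eq_one_iff_eq hN0]
    have := Finset.card_eq_sum_card_fiberwise (s := Finset.range N) (t := S)
      (f := fun i (j : Fin k) => ⌊x * (b : ℝ) ^ (i + j.val + 1)⌋ % (b : ℤ))
      (fun i _ => by
        have hbz : (0 : ℤ) < b := by exact_mod_cast (by omega : 0 < b)
        exact (hS _).2 fun j => ⟨Int.emod_nonneg _ hbz.ne', Int.emod_lt_of_pos _ hbz⟩)
    rw [Finset.card_range] at this
    conv_rhs => rw [this]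
    push_cast
    refine Finset.sum_congr rfl fun v _ => ?_
    congr 2
    ext i
    simp only [funext_iff]
  · intro v hv ε hε
    obtain ⟨c, hc0, hc1, hc⟩ := digits_arc b hb k v ((hS v).1 hv)
    refine lower l hl (fun n => x * (b : ℝ) ^ n) hy c _ (by linarith) _ (fun n hn j => ?_) ε hε
    rw [← hc _ hn j, mul_assoc, ← pow_add, add_assoc]

lemma interp_real (r : ℕ → ℝ) (hr : ∀ n, -1 ≤ r n)
    (h : Tendsto (fun k : ℕ => (∑ n ∈ Finset.range ((k + 1) ^ 4), r n) / (((k + 1) ^ 4 : ℕ) : ℝ))
      atTop (𝓝 0)) :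
    Tendsto (fun N : ℕ => (∑ n ∈ Finset.range N, r n) / (N : ℝ)) atTop (𝓝 0) := by
  have h1 := tendsto_div_of_monotone_of_exists_subseq_tendsto_div
    (fun N => ∑ n ∈ Finset.range N, (r n + 1)) 1
    (monotone_nat_of_le_succ fun N => by
      rw [Finset.sum_range_succ]
      have := hr N
      linarith)
    (fun a ha => ⟨fun k => (k + 1) ^ 4, ?_, ?_, ?_⟩)
  · have h2 := h1.sub_const 1
    rw [sub_self] at h2
    refine h2.congr' ?_
    filter_upwards [eventually_gt_atTop 0] with N hN
    have : (N : ℝ) ≠ 0 := by exact_mod_cast hN.ne'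
    rw [Finset.sum_add_distrib]
    simp only [Finset.sum_const, Finset.card_range, nsmul_eq_mul, mul_one]
    field_simp
    ring
  · have h2 : Tendsto (fun k : ℕ => (1 + 1 / ((k : ℝ) + 1)) ^ 4) atTop (𝓝 ((1 + 0) ^ 4)) :=
      (tendsto_one_div_add_atTop_nhds_zero_nat.const_add 1).pow 4
    filter_upwards [(tendsto_order.1 h2).2 a (by simpa using ha)] with k hk
    have hp : (0 : ℝ) < (k : ℝ) + 1 := by positivity
    have e : (((k + 1 + 1) ^ 4 : ℕ) : ℝ) = (1 + 1 / ((k : ℝ) + 1)) ^ 4 * ((k : ℝ) + 1) ^ 4 := by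
      push_cast
      field_simp
    rw [e]
    push_cast
    gcongr
  · exact (tendsto_pow_atTop (by norm_num)).comp (tendsto_add_atTop_nat 1)
  · have h2 := h.add_const 1
    rw [zero_add] at h2
    refine h2.congr fun k => ?_
    have : (((k + 1) ^ 4 : ℕ) : ℝ) ≠ 0 := by positivity
    rw [Finset.sum_add_distrib]
    simp only [Finset.sum_const, Finset.card_range, nsmul_eq_mul, mul_one]
    field_simp

lemma interp (z : ℕ → ℂ) (hz : ∀ n, ‖z n‖ ≤ 1)
    (h : Tendsto (fun k : ℕ => (∑ n ∈ Finset.range ((k + 1) ^ 4), z n) / (((k + 1) ^ 4 : ℕ) : ℂ))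
      atTop (𝓝 0)) :
    Tendsto (fun N : ℕ => (∑ n ∈ Finset.range N, z n) / (N : ℂ)) atTop (𝓝 0) := by
  have h1 := interp_real (fun n => (z n).re)
    (fun n => (abs_le.1 ((Complex.abs_re_le_norm _).trans (hz n))).1)
    (by
      have := (Complex.continuous_re.tendsto _).comp h
      simp only [Complex.zero_re] at this
      refine this.congr fun k => ?_
      simp only [Function.comp, Complex.div_natCast_re, Complex.re_sum])
  have h2 := interp_real (fun n => (z n).im)
    (fun n => (abs_le.1 ((Complex.abs_im_le_norm _).trans (hz n))).1)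
    (by
      have := (Complex.continuous_im.tendsto _).comp h
      simp only [Complex.zero_im] at this
      refine this.congr fun k => ?_
      simp only [Function.comp, Complex.div_natCast_im, Complex.im_sum])
  have h3 := (h1.ofReal).add (h2.ofReal.mul_const Complex.I)
  simp only [Complex.ofReal_zero, zero_mul, add_zero] at h3
  refine h3.congr fun N => ?_
  rw [← Complex.re_sum, ← Complex.im_sum, ← Complex.div_natCast_re, ← Complex.div_natCast_im,
    Complex.re_add_im]

end Pool.Agent.H234Z.Det
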