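import Pool.Agent.H494Z.QE.Spec
import Pool.Agent.H726Z.NH.TH

set_option autoImplicit false
set_option linter.unusedSectionVars false
set_option linter.unusedVariables false

/-! Polar decomposition between corners and orthogonalisation of projections. -/

namespace Pool.Agent.H234Z.Pol

open Matrix Finset Pool.Agent.H304Z.NH Pool.Agent.H494Z.QE
open Pool.Agent.H726Z.NH (D D_mul D_star D_nonneg tr_D D_sub)
open scoped MatrixOrder ComplexOrder

variable {n : Type} [Fintype n] [DecidableEq n]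

theorem spec {x : Mat n} (hx : 0 ≤ x) :
    ∃ (V : Mat n) (lam : n → ℝ), IsU V ∧ (∀ i, 0 ≤ lam i) ∧ x = D V lam := by
  have hps : x.PosSemidef := Matrix.nonneg_iff_posSemidef.1 hx
  have hH : x.IsHermitian := hps.isHermitian
  refine ⟨hH.eigenvectorUnitary, hH.eigenvalues, ⟨by
    simpa [star_eq_conjTranspose] using (Unitary.coe_star_mul_self hH.eigenvectorUnitary), by
    simpa [star_eq_conjTranspose] using (Unitary.coe_mul_star_self hH.eigenvectorUnitary)⟩,
    fun i => hps.eigenvalues_nonneg i, ?_⟩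
  have := hH.spectral_theorem
  rw [Unitary.conjStarAlgAut_apply] at this
  exact this

/-- indicator function -/
def ind (A : Finset n) : n → ℝ := fun i => if i ∈ A then 1 else 0

theorem tr_ind {V : Mat n} (hV : IsU V) (A : Finset n) : tr (D V (ind A)) = #A := by
  rw [tr_D hV]; simp [ind]

theorem ind_mul {V : Mat n} (hV : IsU V) {A B : Finset n} (h : A ⊆ B) :
    D V (ind A) * D V (ind B) = D V (ind A) := by
  rw [D_mul hV]
  congr 1
  funext i
  by_cases hi : i ∈ A
  · simp [ind, hi, h hi]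
  · simp [ind, hi]

theorem proj_ind {V : Mat n} (hV : IsU V) (A : Finset n) : IsProj (D V (ind A)) :=
  ⟨D_star _ _, ind_mul hV subset_rfl⟩

theorem proj_spec {p : Mat n} (hp : IsProj p) :
    ∃ (V : Mat n) (A : Finset n), IsU V ∧ p = D V (ind A) := by
  obtain ⟨V, lam, hV, h0, h⟩ := spec hp.nonneg
  refine ⟨V, univ.filter fun i => lam i ≠ 0, hV, ?_⟩
  have h1 : nsq (D V fun i => lam i * lam i - lam i) = 0 := by
    rw [← D_sub, ← D_mul hV, ← h, hp.2, sub_self, nsq_zero]
  rw [nsq_eq, D_star, D_mul hV, tr_D hV,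
    sum_eq_zero_iff_of_nonneg fun i _ => mul_self_nonneg _] at h1
  rw [h]
  congr 1
  funext i
  have h2 := mul_self_eq_zero.1 (h1 i (mem_univ _))
  by_cases hi : lam i = 0
  · simp [ind, hi]
  · have : lam i = 1 := mul_left_cancel₀ hi (by linarith)
    simp [ind, this]

theorem mul_supp {v e : Mat n} (he : IsProj e) (h : vᴴ * v = e) : v * e = v := by
  have h1 : nsq (v * (1 - e)) = 0 := by
    rw [he.compl.nsq_mul, h, Matrix.mul_sub, Matrix.mul_one, he.2, sub_self, tr_zero]
  have := nsq_eq_zero h1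
  rw [Matrix.mul_sub, Matrix.mul_one, sub_eq_zero] at this
  exact this.symm

theorem compare {e f : Mat n} (he : IsProj e) (hf : IsProj f) (h : tr e ≤ tr f) :
    ∃ v : Mat n, vᴴ * v = e ∧ f * v = v := by
  obtain ⟨V, A, hV, rfl⟩ := proj_spec he
  obtain ⟨W, B, hW, rfl⟩ := proj_spec hf
  rw [tr_ind hV, tr_ind hW, Nat.cast_le] at h
  obtain ⟨C, hC, hCc⟩ := exists_subset_card_eq h
  obtain ⟨σ, hσ⟩ := Equiv.Perm.exists_map_finset_eq A C hCc.symm
  let M : Mat n := Matrix.of fun i j => if j ∈ A ∧ i = σ j then 1 else 0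
  have h1 : Mᴴ * M = diagonal fun i => ((ind A i : ℝ) : ℂ) := by
    ext i j
    rw [Matrix.mul_apply, sum_eq_single (σ j)]
    · by_cases hij : i = j
      · subst hij
        by_cases hi : i ∈ A <;> simp [M, ind, hi]
      · have : ¬ j = i := fun e => hij e.symm
        simp [M, hij, this]
    · intro k _ hk
      simp [M, hk]
    · simp
  have h2 : (diagonal fun i => ((ind B i : ℝ) : ℂ)) * M = M := by
    ext i j
    rw [diagonal_mul]
    by_cases hij : j ∈ A ∧ i = σ j
    · have : i ∈ B := hC (hσ ▸ hij.2 ▸ mem_map_of_mem _ hij.1)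
      simp [ind, this]
    · simp [M, hij]
  refine ⟨W * M * Vᴴ, ?_, ?_⟩
  · unfold D
    rw [← h1, conjTranspose_mul, conjTranspose_mul, conjTranspose_conjTranspose]
    calc _ = V * (Mᴴ * ((Wᴴ * W) * (M * Vᴴ))) := by simp only [Matrix.mul_assoc]
      _ = _ := by rw [hW.1, Matrix.one_mul]; simp only [Matrix.mul_assoc]
  · unfold D
    calc _ = W * ((diagonal fun i => ((ind B i : ℝ) : ℂ)) * ((Wᴴ * W) * M)) * Vᴴ := by
          simp only [Matrix.mul_assoc]
      _ = _ := by rw [hW.1, Matrix.one_mul, h2]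

theorem swap {a b : Mat n} (ha : aᴴ = a) (hb : bᴴ = b) (h : a * b = b) : b * a = b := by
  have := congrArg conjTranspose h
  rwa [conjTranspose_mul, ha, hb] at this

theorem proj_sub {p r : Mat n} (hp : IsProj p) (hr : IsProj r) (h : p * r = r) :
    IsProj (p - r) := by
  refine ⟨by rw [conjTranspose_sub, hp.1, hr.1], ?_⟩
  rw [Matrix.sub_mul, Matrix.mul_sub, Matrix.mul_sub, hp.2, h, swap hp.1 hr.1 h, hr.2]
  abel

theorem pol : S_POL := by
  intro n _ _ p q y hp hq htr hpy hyq
  obtain ⟨V, lam, hV, h0, h⟩ := spec (star_mul_nonneg y)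
  set z := D V fun i => √(lam i) with hz
  set zi := D V fun i => (√(lam i))⁻¹ with hzi
  set s := D V (ind (univ.filter fun i => lam i ≠ 0)) with hs
  have hsq : ∀ i, √(lam i) * √(lam i) = lam i := fun i => Real.mul_self_sqrt (h0 i)
  have hne : ∀ i, lam i ≠ 0 → √(lam i) ≠ 0 := fun i hi e => hi (by rw [← hsq, e, mul_zero])
  have hsP : IsProj s := proj_ind hV _
  have hzs : zᴴ = z := D_star _ _
  have hzis : ziᴴ = zi := D_star _ _
  have e1 : z * z = yᴴ * y := by rw [hz, D_mul hV, h]; congr 1; funext i; exact hsq i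
  have e2 : zi * z = s := by
    rw [hz, hzi, D_mul hV, hs]; congr 1; funext i
    by_cases hi : lam i = 0
    · simp [ind, hi]
    · simp [ind, hi, hne i hi]
  have e2' : z * zi = s := by
    have := congrArg conjTranspose e2
    rwa [conjTranspose_mul, hzs, hzis, hsP.1] at this
  have e3 : s * z = z := by
    rw [hz, hs, D_mul hV]; congr 1; funext i
    by_cases hi : lam i = 0 <;> simp [ind, hi]
  have e3' : z * s = z := swap hsP.1 hzs e3
  have hqy : q * yᴴ = yᴴ := by
    have := congrArg conjTranspose hyq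
    rwa [conjTranspose_mul, hq.1] at this
  have hqz : q * z = z := by
    calc q * z = q * (z * s) := by rw [e3']
      _ = q * yᴴ * y * zi := by rw [← e2', ← Matrix.mul_assoc z, e1]; simp only [Matrix.mul_assoc]
      _ = z := by rw [hqy, ← e1, Matrix.mul_assoc, e2', e3']
  have hzq : z * q = z := swap hq.1 hzs hqz
  have hqs : q * s = s := by rw [← e2', ← Matrix.mul_assoc, hqz]
  have hys : y * s = y := by
    have h1 : nsq (y * (1 - s)) = 0 := by
      rw [hsP.compl.nsq_mul, ← e1, Matrix.mul_assoc, Matrix.mul_sub, Matrix.mul_one, e3', sub_self,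
        Matrix.mul_zero, tr_zero]
    have := nsq_eq_zero h1
    rw [Matrix.mul_sub, Matrix.mul_one, sub_eq_zero] at this
    exact this.symm
  set w0 := y * zi with hw0
  have f1 : w0ᴴ * w0 = s := by
    calc _ = zi * (yᴴ * y) * zi := by rw [hw0, conjTranspose_mul, hzis]; simp only [Matrix.mul_assoc]
      _ = (zi * z) * (z * zi) := by rw [← e1]; simp only [Matrix.mul_assoc]
      _ = s := by rw [e2, e2', hsP.2]
  have f2 : w0 * s = w0 := mul_supp hsP f1
  have f3 : p * w0 = w0 := by rw [hw0, ← Matrix.mul_assoc, hpy]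
  have hr : IsProj (w0 * w0ᴴ) := by
    refine ⟨by rw [conjTranspose_mul, conjTranspose_conjTranspose], ?_⟩
    calc _ = w0 * (w0ᴴ * w0) * w0ᴴ := by simp only [Matrix.mul_assoc]
      _ = _ := by rw [f1, f2]
  have hpr : p * (w0 * w0ᴴ) = w0 * w0ᴴ := by rw [← Matrix.mul_assoc, f3]
  have hE := proj_sub hq hsP hqs
  have hF := proj_sub hp hr hpr
  obtain ⟨v, hv1, hv2⟩ := compare hE hF (by
    rw [tr_sub, tr_sub, tr_comm w0, f1]; linarith)
  have g1 : w0ᴴ * v = 0 := by
    have a1 : w0ᴴ * p = w0ᴴ := by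
      have := congrArg conjTranspose f3
      rwa [conjTranspose_mul, hp.1] at this
    have a2 : s * w0ᴴ = w0ᴴ := by
      have := congrArg conjTranspose f2
      rwa [conjTranspose_mul, hsP.1] at this
    rw [← hv2, ← Matrix.mul_assoc, Matrix.mul_sub, a1, ← Matrix.mul_assoc, f1, a2, sub_self,
      Matrix.zero_mul]
  have g2 : vᴴ * w0 = 0 := by
    have := congrArg conjTranspose g1
    rwa [conjTranspose_mul, conjTranspose_conjTranspose, conjTranspose_zero] at this
  have g3 : (w0 + v)ᴴ * (w0 + v) = q := by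
    rw [conjTranspose_add, Matrix.add_mul, Matrix.mul_add, Matrix.mul_add, f1, g1, g2, hv1]
    abel
  have g4 : y = (w0 + v) * z := by
    rw [Matrix.add_mul, ← mul_supp hE hv1, Matrix.mul_assoc v, Matrix.sub_mul, hqz, e3, sub_self,
      Matrix.mul_zero, add_zero, hw0, Matrix.mul_assoc, e2, hys]
  have hz0 : 0 ≤ z := D_nonneg _ fun i => Real.sqrt_nonneg _
  refine ⟨w0 + v, z, ?_, g3, hz0, hqz, g4, ?_⟩
  · rw [Matrix.mul_add, f3, ← hv2, ← Matrix.mul_assoc, Matrix.mul_sub, hp.2, hpr]
  · have a1 : y - (w0 + v) = (w0 + v) * (z - q) := by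
      rw [Matrix.mul_sub, ← g4, mul_supp hq g3]
    have a2 : yᴴ * y - q = (z + q) * (z - q) := by
      rw [Matrix.add_mul, Matrix.mul_sub, Matrix.mul_sub, e1, hzq, hqz, hq.2]; abel
    rw [a1, a2, nsq_mul, nsq_mul, g3]
    refine tr_mul_le' (mul_star_nonneg _) ?_
    rw [conjTranspose_add, hzs, hq.1, Matrix.add_mul, Matrix.mul_add, Matrix.mul_add, e1, hzq, hqz,
      hq.2, ← add_assoc]
    exact le_add_of_nonneg_left (add_nonneg (add_nonneg (star_mul_nonneg y) hz0) hz0)

section blocks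

variable {ι : Type} [Fintype ι] [DecidableEq ι]

/-- a block of a matrix -/
def B (a b : ι) (M : Mat (ι × n)) : Mat n := Matrix.of fun k l => M (a, k) (b, l)

/-- a matrix given by its blocks -/
def mk (F : ι → ι → Mat n) : Mat (ι × n) := Matrix.of fun x y => F x.1 y.1 x.2 y.2

theorem B_mk (F : ι → ι → Mat n) (a b : ι) : B a b (mk F) = F a b := rfl

theorem B_ext {M N : Mat (ι × n)} (h : ∀ a b, B a b M = B a b N) : M = N := by
  ext ⟨a, k⟩ ⟨b, l⟩
  exact congrFun (congrFun (h a b) k) l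

theorem B_mul (a b : ι) (M N : Mat (ι × n)) : B a b (M * N) = ∑ c, B a c M * B c b N := by
  ext k l
  simp [B, Matrix.mul_apply, Fintype.sum_prod_type, Matrix.sum_apply]

theorem B_star (a b : ι) (M : Mat (ι × n)) : B a b Mᴴ = (B b a M)ᴴ := rfl

theorem B_sub (a b : ι) (M N : Mat (ι × n)) : B a b (M - N) = B a b M - B a b N := rfl

theorem tr_B (M : Mat (ι × n)) : tr M = ∑ a, tr (B a a M) := by
  simp [tr, trace, B, Fintype.sum_prod_type, Complex.re_sum]

theorem nsq_B (M : Mat (ι × n)) : nsq M = ∑ a, ∑ b, nsq (B a b M) := by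
  rw [nsq_eq, tr_B, sum_comm]
  refine sum_congr rfl fun a _ => ?_
  rw [B_mul, tr_sum]
  rfl

end blocks

theorem exists_split {ι : Type} [Fintype ι] (t : ι → ℕ) (m : ℕ) (hm : m ≤ ∑ j, t j) :
    ∃ k : ι → ℕ, (∀ j, k j ≤ t j) ∧ ∑ j, k j = m := by
  classical
  induction m with
  | zero => exact ⟨0, fun _ => Nat.zero_le _, by simp⟩
  | succ m ih =>
    obtain ⟨k, hk, hs⟩ := ih (by omega)
    obtain ⟨j, -, hj⟩ := exists_lt_of_sum_lt (s := univ) (f := k) (g := t) (by omega)
    refine ⟨fun i => k i + if i = j then 1 else 0, fun i => ?_, by simp [sum_add_distrib, hs]⟩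
    by_cases h : i = j
    · subst h; simp only [if_true]; omega
    · simpa [h] using hk i

theorem orth (h : S_POL) : S_ORTH := by
  classical
  intro n _ _ ι _ U hU
  rcases isEmpty_or_nonempty ι with hι | ⟨⟨i0⟩⟩
  · exact ⟨U, fun j => (hι.false j).elim, fun j => (hι.false j).elim, fun j => (hι.false j).elim,
      by simp [nsq_zero, tr_zero]⟩
  set O := nsq (∑ j, U j) - tr (∑ j, U j) with hO
  have hPs : (∑ j, U j)ᴴ = ∑ j, U j := by
    rw [conjTranspose_sum]; exact sum_congr rfl fun j _ => (hU j).1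
  have hO1 : O = ∑ a, ∑ b, if a = b then 0 else tr (U a * U b) := by
    rw [hO, nsq_eq, hPs, Finset.sum_mul, tr_sum, tr_sum, ← sum_sub_distrib]
    refine sum_congr rfl fun a _ => ?_
    rw [Finset.mul_sum, tr_sum, sub_eq_iff_eq_add]
    have : tr (U a) = ∑ b, if a = b then tr (U a * U b) else 0 := by simp [(hU a).2]
    rw [this, ← sum_add_distrib]
    exact sum_congr rfl fun b _ => by split_ifs <;> simp
  have hO0 : 0 ≤ O := by
    rw [hO1]
    refine sum_nonneg fun a _ => sum_nonneg fun b _ => ?_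
    split_ifs
    · exact le_rfl
    · exact tr_mul_nonneg (hU a).nonneg (hU b).nonneg
  have hO2 : tr (∑ j, U j) - Fintype.card n ≤ O := by
    have := nsq_nonneg (∑ j, U j - 1)
    rw [nsq_sub, hPs, Matrix.mul_one, isProj_one.nsq_eq, tr_one] at this
    linarith
  choose V A hV hA using fun j => proj_spec (hU j)
  have htr : tr (∑ j, U j) = ((∑ j, #(A j) : ℕ) : ℝ) := by
    rw [tr_sum, Nat.cast_sum]
    exact sum_congr rfl fun j _ => by rw [hA j, tr_ind (hV j)]
  obtain ⟨k, hk, hks⟩ := exists_split (fun j => #(A j)) _ (min_le_left _ (Fintype.card n))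
  choose C hC hCk using fun j => exists_subset_card_eq (hk j)
  set q : ι → Mat n := fun j => D (V j) (ind (C j)) with hq
  have hqP : ∀ j, IsProj (q j) := fun j => proj_ind (hV j) _
  have hqU : ∀ j, q j * U j = q j := fun j => by rw [hA j]; exact ind_mul (hV j) (hC j)
  have hUq : ∀ j, IsProj (U j - q j) := fun j =>
    proj_sub (hU j) (hqP j) (by
      have := congrArg conjTranspose (hqU j)
      rwa [conjTranspose_mul, (hU j).1, (hqP j).1] at this)
  have hle : ∀ j, q j ≤ U j := fun j => sub_nonneg.1 (hUq j).nonneg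
  have htq : ∑ j, tr (q j) = ((∑ j, k j : ℕ) : ℝ) := by
    rw [Nat.cast_sum]
    exact sum_congr rfl fun j _ => by rw [hq, tr_ind (hV j), hCk]
  have hdiff : ∑ j, nsq (q j - U j) ≤ O := by
    have : ∑ j, nsq (q j - U j) = tr (∑ j, U j) - ∑ j, tr (q j) := by
      rw [tr_sum, ← sum_sub_distrib]
      exact sum_congr rfl fun j _ => by rw [nsq_sub_comm, (hUq j).nsq_eq, tr_sub]
    rw [this, htq, hks, Nat.cast_min, ← htr]
    rcases le_total (tr (∑ j, U j)) (Fintype.card n) with c | c
    · rw [min_eq_left c]; linarith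
    · rw [min_eq_right c]; exact hO2
  let P : Mat (ι × n) := mk fun a b => if a = i0 ∧ b = i0 then 1 else 0
  let Q : Mat (ι × n) := mk fun a b => if a = b then q a else 0
  let Y : Mat (ι × n) := mk fun a b => if a = i0 then q b else 0
  have hPm : ∀ (M : Mat (ι × n)) a b, B a b (P * M) = if a = i0 then B i0 b M else 0 := by
    intro M a b
    rw [B_mul, sum_eq_single i0]
    · by_cases c : a = i0 <;> simp [P, B_mk, c]
    · intro c _ hc; simp [P, B_mk, hc]
    · simp
  have hmQ : ∀ (M : Mat (ι × n)) a b, B a b (M * Q) = B a b M * q b := by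
    intro M a b
    rw [B_mul, sum_eq_single b]
    · simp [Q, B_mk]
    · intro c _ hc; simp [Q, B_mk, hc]
    · simp
  have hsm : ∀ M : Mat (ι × n), P * M = M → ∀ a b, B a b (Mᴴ * M) = (B i0 a M)ᴴ * B i0 b M := by
    intro M hM a b
    rw [B_mul, sum_eq_single i0]
    · rfl
    · intro c _ hc
      rw [← hM, hPm, if_neg hc, Matrix.mul_zero]
    · simp
  have hP : IsProj P := by
    refine ⟨B_ext fun a b => ?_, B_ext fun a b => ?_⟩
    · rw [B_star]
      by_cases c : a = i0 <;> by_cases c' : b = i0 <;> simp [P, B_mk, c, c']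
    · rw [hPm]
      by_cases c : a = i0 <;> simp [P, B_mk, c]
  have hQ : IsProj Q := by
    refine ⟨B_ext fun a b => ?_, B_ext fun a b => ?_⟩
    · rw [B_star]
      by_cases c : a = b
      · subst c; simp [Q, B_mk, (hqP a).1]
      · simp [Q, B_mk, c, Ne.symm c]
    · rw [hmQ]
      by_cases c : a = b
      · subst c; simp [Q, B_mk, (hqP a).2]
      · simp [Q, B_mk, c]
  have hPY : P * Y = Y := B_ext fun a b => by rw [hPm]; simp [Y, B_mk]
  have hYQ : Y * Q = Y := B_ext fun a b => by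
    rw [hmQ]
    by_cases c : a = i0 <;> simp [Y, B_mk, c, (hqP b).2]
  obtain ⟨w, z, w1, w2, -, -, -, w3⟩ := h _ P Q Y hP hQ (by
    have a1 : tr Q = ∑ j, tr (q j) := by rw [tr_B]; simp [Q, B_mk]
    have a2 : tr P = Fintype.card n := by
      rw [tr_B, sum_eq_single i0]
      · simp [P, B_mk, tr_one]
      · intro c _ hc; simp [P, B_mk, hc, tr_zero]
      · simp
    rw [a1, a2, htq, hks]
    exact_mod_cast min_le_right _ _) hPY hYQ
  have hW : ∀ a b, (B i0 a w)ᴴ * B i0 b w = if a = b then q a else 0 := fun a b => by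
    rw [← hsm w w1, w2]; rfl
  have hWq : ∀ a, (B i0 a w)ᴴ * B i0 a w = q a := fun a => by rw [hW, if_pos rfl]
  refine ⟨fun j => B i0 j w, fun j => ?_, fun j => by rw [hWq]; exact hqP j,
    fun i j hij => by rw [hW, if_neg hij], ?_⟩
  · show B i0 j w * U j = B i0 j w
    rw [← mul_supp (hqP j) (hWq j), Matrix.mul_assoc, hqU]
  · have b1 : nsq (Yᴴ * Y - Q) ≤ O := by
      rw [nsq_B, hO1]
      refine sum_le_sum fun a _ => sum_le_sum fun b _ => ?_
      have e : B a b (Yᴴ * Y - Q) = q a * q b - if a = b then q a else 0 := by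
        rw [B_sub, hsm Y hPY]; simp [Y, Q, B_mk, (hqP a).1]
      rw [e]
      by_cases c : a = b
      · subst c; simp [(hqP a).2, nsq_zero]
      · rw [if_neg c, if_neg c, sub_zero, nsq_mul, (hqP a).1, (hqP a).2, (hqP b).1, (hqP b).2]
        exact (tr_mul_le (hqP a).nonneg (hle b)).trans (tr_mul_le' (hU b).nonneg (hle a))
    have b2 : ∑ j, nsq (B i0 j w - q j) ≤ nsq (Y - w) := by
      rw [nsq_B]
      refine le_trans (le_of_eq (sum_congr rfl fun j _ => ?_)) (single_le_sum
        (f := fun a => ∑ b, nsq (B a b (Y - w))) (fun a _ => sum_nonneg fun b _ => nsq_nonneg _)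
        (mem_univ i0))
      rw [nsq_sub_comm, B_sub]; simp [Y, B_mk]
    have b3 : ∑ j, nsq (B i0 j w - U j) ≤
        ∑ j, (2 * nsq (B i0 j w - q j) + 2 * nsq (q j - U j)) :=
      sum_le_sum fun j _ => by
        have := nsq_add_le (B i0 j w - q j) (q j - U j)
        rwa [sub_add_sub_cancel] at this
    rw [sum_add_distrib, ← Finset.mul_sum, ← Finset.mul_sum] at b3
    show ∑ j, nsq (B i0 j w - U j) ≤ _
    linarith

end Pool.Agent.H234Z.Pol
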