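import Mathlib

set_option autoImplicit false

namespace Pool.Agent.H234Z.RamseyNice

open Finset

/-- `G` has a vertex cover with at most `r` vertices. -/
def Cov {V : Type} (r : ℕ) (G : SimpleGraph V) : Prop :=
  ∃ C : Finset V, C.card ≤ r ∧ ∀ a b, G.Adj a b → a ∈ C ∨ b ∈ C

/-- `G` has at most eight non-isolated vertices and no clique on six vertices. -/
def Small {V : Type} (G : SimpleGraph V) : Prop :=
  (∃ S : Finset V, S.card ≤ 8 ∧ ∀ a b, G.Adj a b → a ∈ S) ∧
    ¬ ∃ K : Finset V, 6 ≤ K.card ∧ ∀ a ∈ K, ∀ b ∈ K, a ≠ b → G.Adj a b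

/-- The admissible colour classes. -/
def Good {V : Type} (G : SimpleGraph V) : Prop := Cov 4 G ∨ Small G

theorem good_pull {V W : Type} (G : SimpleGraph V) (H : SimpleGraph W) (f : W ↪ V)
    (hf : ∀ a b, H.Adj a b → G.Adj (f a) (f b)) (hG : Good G) : Good H := by
  classical
  rcases hG with ⟨C, hC, hcov⟩ | ⟨⟨S, hS, hsup⟩, hK⟩
  · left
    refine ⟨C.preimage f f.injective.injOn, ?_, ?_⟩
    · calc (C.preimage f f.injective.injOn).card
          = ((C.preimage f f.injective.injOn).map f).card := (Finset.card_map _).symm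
        _ ≤ C.card := by
          apply Finset.card_le_card
          intro x hx
          simp only [Finset.mem_map, Finset.mem_preimage] at hx
          obtain ⟨a, ha, rfl⟩ := hx
          exact ha
        _ ≤ 4 := hC
    · intro a b hab
      simpa [Finset.mem_preimage] using hcov _ _ (hf a b hab)
  · right
    refine ⟨⟨S.preimage f f.injective.injOn, ?_, ?_⟩, ?_⟩
    · calc (S.preimage f f.injective.injOn).card
          = ((S.preimage f f.injective.injOn).map f).card := (Finset.card_map _).symm
        _ ≤ S.card := by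
          apply Finset.card_le_card
          intro x hx
          simp only [Finset.mem_map, Finset.mem_preimage] at hx
          obtain ⟨a, ha, rfl⟩ := hx
          exact ha
        _ ≤ 8 := hS
    · intro a b hab
      simpa [Finset.mem_preimage] using hsup _ _ (hf a b hab)
    · rintro ⟨K, hK6, hKc⟩
      apply hK
      refine ⟨K.map f, by simpa using hK6, ?_⟩
      intro x hx y hy hxy
      simp only [Finset.mem_map] at hx hy
      obtain ⟨a, ha, rfl⟩ := hx
      obtain ⟨b, hb, rfl⟩ := hy
      exact hf a b (hKc a ha b hb (fun h => hxy (by rw [h])))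

/-- A graph without a small vertex cover has a bounded witness set. -/
theorem cov_witness (r : ℕ) : ∃ N : ℕ, ∀ (V : Type) (R : V → V → Prop),
    (¬ ∃ C : Finset V, C.card ≤ r ∧ ∀ a b, R a b → a ∈ C ∨ b ∈ C) →
    ∃ S : Finset V, S.card ≤ N ∧
      ¬ ∃ C : Finset V, C.card ≤ r ∧ ∀ a ∈ S, ∀ b ∈ S, R a b → a ∈ C ∨ b ∈ C := by
  classical
  induction r with
  | zero =>
    refine ⟨2, fun V R h => ?_⟩
    have : ∃ a b, R a b := by
      by_contra hne
      push Not at hne
      exact h ⟨∅, by simp, fun a b hab => absurd hab (hne a b)⟩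
    obtain ⟨u, v, huv⟩ := this
    refine ⟨{u, v}, Finset.card_le_two, ?_⟩
    rintro ⟨C, hC, hcov⟩
    have hC0 : C = ∅ := Finset.card_eq_zero.mp (by omega)
    subst hC0
    have := hcov u (by simp) v (by simp) huv
    simp at this
  | succ r ih =>
    obtain ⟨N, hN⟩ := ih
    refine ⟨2 + N + N, fun V R h => ?_⟩
    have : ∃ a b, R a b := by
      by_contra hne
      push Not at hne
      exact h ⟨∅, by simp, fun a b hab => absurd hab (hne a b)⟩
    obtain ⟨u, v, huv⟩ := this
    have key : ∀ w : V, ∃ S : Finset V, S.card ≤ N ∧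
        ¬ ∃ C : Finset V, C.card ≤ r ∧
          ∀ a ∈ S, ∀ b ∈ S, (R a b ∧ a ≠ w ∧ b ≠ w) → a ∈ C ∨ b ∈ C := by
      intro w
      apply hN V (fun a b => R a b ∧ a ≠ w ∧ b ≠ w)
      rintro ⟨C, hC, hcov⟩
      apply h
      refine ⟨insert w C, (Finset.card_insert_le _ _).trans (by omega), ?_⟩
      intro a b hab
      by_cases ha : a = w
      · left; simp [ha]
      by_cases hb : b = w
      · right; simp [hb]
      rcases hcov a b ⟨hab, ha, hb⟩ with h1 | h1
      · left; simp [h1]
      · right; simp [h1]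
    obtain ⟨Su, hSu, hu⟩ := key u
    obtain ⟨Sv, hSv, hv⟩ := key v
    refine ⟨{u, v} ∪ Su ∪ Sv, ?_, ?_⟩
    · calc ({u, v} ∪ Su ∪ Sv).card ≤ ({u, v} ∪ Su).card + Sv.card := Finset.card_union_le _ _
        _ ≤ (({u, v} : Finset V).card + Su.card) + Sv.card := by
          have := Finset.card_union_le ({u, v} : Finset V) Su
          omega
        _ ≤ 2 + N + N := by
          have : ({u, v} : Finset V).card ≤ 2 := Finset.card_le_two
          omega
    · rintro ⟨C, hC, hcov⟩
      have aux : ∀ (w : V) (S : Finset V), w ∈ C → S ⊆ {u, v} ∪ Su ∪ Sv →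
          ∃ C : Finset V, C.card ≤ r ∧
            ∀ a ∈ S, ∀ b ∈ S, (R a b ∧ a ≠ w ∧ b ≠ w) → a ∈ C ∨ b ∈ C := by
        intro w S hw hS
        refine ⟨C.erase w, ?_, ?_⟩
        · rw [Finset.card_erase_of_mem hw]; omega
        · rintro a ha b hb ⟨hab, haw, hbw⟩
          rcases hcov a (hS ha) b (hS hb) hab with h1 | h1
          · left; exact Finset.mem_erase.mpr ⟨haw, h1⟩
          · right; exact Finset.mem_erase.mpr ⟨hbw, h1⟩
      rcases hcov u (by simp) v (by simp) huv with h1 | h1
      · exact hu (aux u Su h1 (by intro x hx; simp [hx]))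
      · exact hv (aux v Sv h1 (by intro x hx; simp [hx]))

/-- A graph that is not small has a bounded witness set. -/
theorem small_witness {V : Type} [Fintype V] (G : SimpleGraph V) (h : ¬ Small G) :
    ∃ T : Finset V, T.card ≤ 18 ∧
      ¬ ((∃ S : Finset V, S.card ≤ 8 ∧ ∀ a ∈ T, ∀ b ∈ T, G.Adj a b → a ∈ S) ∧
        ¬ ∃ K : Finset V, K ⊆ T ∧ 6 ≤ K.card ∧ ∀ a ∈ K, ∀ b ∈ K, a ≠ b → G.Adj a b) := by
  classical
  unfold Small at h
  rw [not_and_or, not_not] at h
  rcases h with h | ⟨K, hK6, hKc⟩
  · set D : Finset V := Finset.univ.filter (fun a => ∃ b, G.Adj a b) with hD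
    have hD9 : 9 ≤ D.card := by
      by_contra hlt
      apply h
      refine ⟨D, by omega, fun a b hab => ?_⟩
      simp only [hD, Finset.mem_filter, Finset.mem_univ, true_and]
      exact ⟨b, hab⟩
    obtain ⟨D', hD'sub, hD'card⟩ := Finset.exists_subset_card_eq hD9
    have hnb : ∀ a ∈ D', ∃ b, G.Adj a b := by
      intro a ha
      have := hD'sub ha
      simpa [hD] using this
    choose! nb hnb using hnb
    refine ⟨D' ∪ D'.image nb, ?_, ?_⟩
    · calc (D' ∪ D'.image nb).card ≤ D'.card + (D'.image nb).card := Finset.card_union_le _ _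
        _ ≤ 9 + 9 := by
          have := Finset.card_image_le (s := D') (f := nb)
          omega
    · rintro ⟨⟨S, hS, hsup⟩, -⟩
      have : D' ⊆ S := by
        intro a ha
        exact hsup a (by simp [ha]) (nb a)
          (Finset.mem_union_right _ (Finset.mem_image_of_mem _ ha)) (hnb a ha)
      have := Finset.card_le_card this
      omega
  · obtain ⟨K', hK'sub, hK'card⟩ := Finset.exists_subset_card_eq hK6
    refine ⟨K', by omega, ?_⟩
    rintro ⟨-, hno⟩
    exact hno ⟨K', Finset.Subset.refl _, by omega,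
      fun a ha b hb hab => hKc a (hK'sub ha) b (hK'sub hb) hab⟩

/-- Every graph that is not good contains a bounded subgraph that is not good. -/
theorem bad_witness : ∃ N : ℕ, 10 ≤ N ∧ ∀ (n : ℕ) (G : SimpleGraph (Fin n)), ¬ Good G →
    ∃ m : ℕ, m ≤ N ∧ ∃ f : Fin m ↪ Fin n, ¬ Good (G.comap f) := by
  classical
  obtain ⟨N, hN⟩ := cov_witness 4
  refine ⟨N + 18, by omega, fun n G hG => ?_⟩
  unfold Good at hG
  rw [not_or] at hG
  obtain ⟨h1, h2⟩ := hG
  obtain ⟨S, hS, hSc⟩ := hN (Fin n) G.Adj h1
  obtain ⟨T, hT, hTc⟩ := small_witness G h2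
  set U : Finset (Fin n) := S ∪ T with hU
  have hUcard : U.card ≤ N + 18 := (Finset.card_union_le _ _).trans (by omega)
  let f : Fin U.card ↪ Fin n := (U.orderEmbOfFin rfl).toEmbedding
  have hsurj : ∀ x ∈ U, ∃ a, f a = x := by
    intro x hx
    have : x ∈ Set.range (U.orderEmbOfFin rfl) := by
      rw [Finset.range_orderEmbOfFin]; exact hx
    exact this
  refine ⟨U.card, hUcard, f, ?_⟩
  rintro (⟨C, hC, hcov⟩ | ⟨⟨S', hS', hsup⟩, hK⟩)
  · apply hSc
    refine ⟨C.map f, by simpa using hC, ?_⟩
    intro x hx y hy hxy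
    obtain ⟨a, rfl⟩ := hsurj x (Finset.mem_union_left _ hx)
    obtain ⟨b, rfl⟩ := hsurj y (Finset.mem_union_left _ hy)
    rcases hcov a b hxy with h | h
    · left; exact Finset.mem_map_of_mem _ h
    · right; exact Finset.mem_map_of_mem _ h
  · apply hTc
    refine ⟨⟨S'.map f, by simpa using hS', ?_⟩, ?_⟩
    · intro x hx y hy hxy
      obtain ⟨a, rfl⟩ := hsurj x (Finset.mem_union_right _ hx)
      obtain ⟨b, rfl⟩ := hsurj y (Finset.mem_union_right _ hy)
      exact Finset.mem_map_of_mem _ (hsup a b hxy)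
    · rintro ⟨K, hKT, hK6, hKc⟩
      apply hK
      refine ⟨K.preimage f f.injective.injOn, ?_, ?_⟩
      · have : (K.preimage f f.injective.injOn).map f = K := by
          ext x
          simp only [Finset.mem_map, Finset.mem_preimage]
          constructor
          · rintro ⟨a, ha, rfl⟩; exact ha
          · intro hx
            obtain ⟨a, rfl⟩ := hsurj x (Finset.mem_union_right _ (hKT hx))
            exact ⟨a, hx, rfl⟩
        rw [← Finset.card_map f, this]
        exact hK6
      · intro a ha b hb hab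
        rw [Finset.mem_preimage] at ha hb
        exact hKc _ ha _ hb (fun h => hab (f.injective h))

/-- The matching with five edges. -/
def matching5 : SimpleGraph (Fin 10) where
  Adj a b := a ≠ b ∧ a.val / 2 = b.val / 2
  symm := ⟨fun _ _ h => ⟨h.1.symm, h.2.symm⟩⟩
  loopless := ⟨fun _ h => h.1 rfl⟩

theorem matching5_acyclic : matching5.IsAcyclic := by
  intro v p hp
  cases p with
  | nil => exact hp.ne_nil rfl
  | @cons _ a _ h q =>
    cases q with
    | nil => exact h.1 rfl
    | @cons _ b _ h' q' =>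
      have hb : b = v := by
        have h1 := h.1
        have h2 := h.2
        have h3 := h'.1
        have h4 := h'.2
        apply Fin.ext
        have h1' : v.val ≠ a.val := fun e => h1 (Fin.ext e)
        have h3' : a.val ≠ b.val := fun e => h3 (Fin.ext e)
        omega
      subst hb
      have := hp.isTrail.edges_nodup
      simp [Sym2.eq_swap] at this

theorem matching5_bad : ¬ Good matching5 := by
  classical
  rintro (⟨C, hC, hcov⟩ | ⟨⟨S, hS, hsup⟩, -⟩)
  · have himg : (Finset.range 5) ⊆ C.image (fun a : Fin 10 => a.val / 2) := by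
      intro i hi
      rw [Finset.mem_range] at hi
      have hadj : matching5.Adj ⟨2 * i, by omega⟩ ⟨2 * i + 1, by omega⟩ := by
        refine ⟨fun e => ?_, ?_⟩
        · have := congrArg Fin.val e
          simp at this
        · simp only; omega
      rcases hcov _ _ hadj with h | h
      · exact Finset.mem_image.mpr ⟨_, h, by simp only; omega⟩
      · exact Finset.mem_image.mpr ⟨_, h, by simp only; omega⟩
    have h1 := Finset.card_le_card himg
    have h2 := Finset.card_image_le (s := C) (f := fun a : Fin 10 => a.val / 2)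
    rw [Finset.card_range] at h1
    omega
  · have : (Finset.univ : Finset (Fin 10)) ⊆ S := by
      intro a _
      by_cases hpar : a.val % 2 = 0
      · apply hsup a ⟨a.val + 1, by omega⟩
        refine ⟨fun e => ?_, ?_⟩
        · have := congrArg Fin.val e
          simp at this
        · simp only; omega
      · apply hsup a ⟨a.val - 1, by omega⟩
        refine ⟨fun e => ?_, ?_⟩
        · have := congrArg Fin.val e
          simp only at this
          omega
        · simp only; omega
    have := Finset.card_le_card this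
    simp at this
    omega

/-- A colour class of an edge colouring of a graph. -/
def cls {n k : ℕ} (G : SimpleGraph (Fin n)) (c : Sym2 (Fin n) → Fin k) (t : Fin k) :
    SimpleGraph (Fin n) where
  Adj a b := G.Adj a b ∧ c s(a, b) = t
  symm := ⟨fun a b h => ⟨h.1.symm, by rw [Sym2.eq_swap]; exact h.2⟩⟩
  loopless := ⟨fun _ h => G.irrefl h.1⟩

/-- Complete graphs whose colour classes are all good have at most `4 k + 1` vertices. -/
theorem clique_bound (N k : ℕ) (c : Sym2 (Fin N) → Fin k)
    (h : ∀ t, Good (cls ⊤ c t)) : N ≤ 4 * k + 1 := by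
  classical
  by_contra hN
  set A : Finset (Fin k) := Finset.univ.filter (fun t => Cov 4 (cls ⊤ c t)) with hA
  set B : Finset (Fin k) := Finset.univ.filter (fun t => ¬ Cov 4 (cls ⊤ c t)) with hB
  have hAB : A.card + B.card = k := by
    rw [hA, hB, Finset.card_filter_add_card_filter_not]; simp
  have hCex : ∀ t, ∃ C : Finset (Fin N), C.card ≤ 4 ∧
      (t ∈ A → ∀ a b, (cls ⊤ c t).Adj a b → a ∈ C ∨ b ∈ C) := by
    intro t
    by_cases ht : Cov 4 (cls ⊤ c t)
    · obtain ⟨C, hC, hcov⟩ := ht
      exact ⟨C, hC, fun _ => hcov⟩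
    · refine ⟨∅, by simp, fun hta => ?_⟩
      simp [hA, ht] at hta
  choose C hC4 hCcov using hCex
  have hsmall : ∀ t ∈ B, Small (cls ⊤ c t) := by
    intro t ht
    simp only [hB, Finset.mem_filter, Finset.mem_univ, true_and] at ht
    exact (h t).resolve_left ht
  have hSex : ∀ t, ∃ S : Finset (Fin N), S.card ≤ 8 ∧
      (t ∈ B → ∀ a b, (cls ⊤ c t).Adj a b → a ∈ S) := by
    intro t
    by_cases ht : t ∈ B
    · obtain ⟨⟨S, hS, hsup⟩, -⟩ := hsmall t ht
      exact ⟨S, hS, fun _ => hsup⟩
    · exact ⟨∅, by simp, fun h' => absurd h' ht⟩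
  choose S hS8 hSsup using hSex
  set U : Finset (Fin N) := A.biUnion C with hU
  have hUcard : U.card ≤ 4 * A.card := by
    calc U.card ≤ ∑ t ∈ A, (C t).card := Finset.card_biUnion_le
      _ ≤ ∑ _t ∈ A, 4 := Finset.sum_le_sum (fun t _ => hC4 t)
      _ = 4 * A.card := by simp [mul_comm]
  set R : Finset (Fin N) := Finset.univ \ U with hR
  have hRcard : 4 * B.card + 2 ≤ R.card := by
    have : R.card + U.card = N := by
      rw [hR, Finset.card_sdiff_add_card_eq_card (Finset.subset_univ _)]; simp
    omega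
  have hadj : ∀ a b : Fin N, a ≠ b → (cls ⊤ c (c s(a, b))).Adj a b := by
    intro a b hab
    exact ⟨by simpa using hab, rfl⟩
  have hcolB : ∀ a ∈ R, ∀ b ∈ R, a ≠ b → c s(a, b) ∈ B := by
    intro a ha b hb hab
    by_contra hnot
    have hA' : c s(a, b) ∈ A := by
      simp only [hB, Finset.mem_filter, Finset.mem_univ, true_and, not_not] at hnot
      simp [hA, hnot]
    simp only [hR, hU, Finset.mem_sdiff, Finset.mem_univ, true_and, Finset.mem_biUnion,
      not_exists, not_and] at ha hb
    rcases hCcov _ hA' a b (hadj a b hab) with h1 | h1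
    · exact ha _ hA' h1
    · exact hb _ hA' h1
  by_cases hdeg : ∀ v ∈ R, 2 ≤ (B.filter (fun t => v ∈ S t)).card
  · have h1 : ∑ v ∈ R, (B.filter (fun t => v ∈ S t)).card
        = ∑ t ∈ B, (R.filter (fun v => v ∈ S t)).card := by
      simp only [Finset.card_filter]
      exact Finset.sum_comm
    have h2 : ∑ t ∈ B, (R.filter (fun v => v ∈ S t)).card ≤ ∑ _t ∈ B, 8 := by
      apply Finset.sum_le_sum
      intro t _
      refine le_trans (Finset.card_le_card ?_) (hS8 t)
      intro v hv
      exact (Finset.mem_filter.mp hv).2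
    have h3 : ∑ _v ∈ R, 2 ≤ ∑ v ∈ R, (B.filter (fun t => v ∈ S t)).card :=
      Finset.sum_le_sum hdeg
    simp only [Finset.sum_const, smul_eq_mul] at h2 h3
    omega
  · push Not at hdeg
    obtain ⟨v, hv, hvdeg⟩ := hdeg
    have hone : ∀ s ∈ B.filter (fun t => v ∈ S t), ∀ t ∈ B.filter (fun t => v ∈ S t), s = t :=
      Finset.card_le_one.mp (by omega)
    obtain ⟨w, hw, hwv⟩ : ∃ w ∈ R, w ≠ v := by
      apply Finset.exists_mem_ne
      omega
    have hmem : ∀ u ∈ R, u ≠ v → c s(v, u) ∈ B.filter (fun t => v ∈ S t) := by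
      intro u hu huv
      have hb := hcolB v hv u hu huv.symm
      exact Finset.mem_filter.mpr ⟨hb, hSsup _ hb v u (hadj v u huv.symm)⟩
    set t0 := c s(v, w) with ht0
    have ht0B : t0 ∈ B := hcolB v hv w hw hwv.symm
    have hRS : R ⊆ S t0 := by
      intro u hu
      by_cases huv : u = v
      · rw [huv]; exact (Finset.mem_filter.mp (hmem w hw hwv)).2
      · have e : c s(v, u) = t0 := hone _ (hmem u hu huv) _ (hmem w hw hwv)
        apply hSsup t0 ht0B u v
        refine ⟨by simpa using huv, ?_⟩
        rw [Sym2.eq_swap]; exact e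
    have hR8 : R.card ≤ 8 := (Finset.card_le_card hRS).trans (hS8 t0)
    have hB1 : B.card ≤ 1 := by omega
    have hBone : ∀ s ∈ B, ∀ t ∈ B, s = t := Finset.card_le_one.mp hB1
    have hBpos : 1 ≤ B.card := Finset.card_pos.mpr ⟨t0, ht0B⟩
    apply (hsmall t0 ht0B).2
    refine ⟨R, by omega, fun a ha b hb hab => ⟨by simpa using hab, ?_⟩⟩
    exact hBone _ (hcolB a ha b hb hab) _ ht0B

/-- The join of a clique on `4 j + 3` vertices with a five-cycle. -/
def bigG (j : ℕ) : SimpleGraph (Fin (4 * j + 8)) where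
  Adj a b := a ≠ b ∧ (a.val < 4 * j + 3 ∨ b.val < 4 * j + 3 ∨ a.val + 1 = b.val ∨
    b.val + 1 = a.val ∨ a.val + 4 = b.val ∨ b.val + 4 = a.val)
  symm := ⟨fun _ _ h => ⟨h.1.symm, by have := h.2; omega⟩⟩
  loopless := ⟨fun _ h => h.1 rfl⟩

/-- The edge colouring of that graph. -/
def bigC (j : ℕ) : Sym2 (Fin (4 * j + 8)) → Fin (j + 1) :=
  Sym2.lift ⟨fun a b => ⟨min (min a.val b.val / 4) j, by omega⟩, fun a b => by
    simp only [min_comm a.val b.val]⟩

theorem bigC_val (j : ℕ) (a b : Fin (4 * j + 8)) :
    (bigC j s(a, b)).val = min (min a.val b.val / 4) j := rfl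

theorem bigG_good (j : ℕ) (t : Fin (j + 1)) : Good (cls (bigG j) (bigC j) t) := by
  classical
  by_cases ht : t.val < j
  · left
    refine ⟨{⟨4 * t.val, by omega⟩, ⟨4 * t.val + 1, by omega⟩, ⟨4 * t.val + 2, by omega⟩,
      ⟨4 * t.val + 3, by omega⟩}, Finset.card_le_four, ?_⟩
    rintro a b ⟨-, hc⟩
    have hv := bigC_val j a b
    rw [hc] at hv
    simp only [Finset.mem_insert, Finset.mem_singleton, Fin.ext_iff]
    omega
  · right
    have htj : t.val = j := by omega
    have hge : ∀ a b, (cls (bigG j) (bigC j) t).Adj a b → 4 * j ≤ a.val := by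
      rintro a b ⟨-, hc⟩
      have hv := bigC_val j a b
      rw [hc] at hv
      omega
    refine ⟨⟨Finset.univ.filter (fun a => 4 * j ≤ a.val), ?_, ?_⟩, ?_⟩
    · calc (Finset.univ.filter (fun a : Fin (4 * j + 8) => 4 * j ≤ a.val)).card
          ≤ (Finset.range 8).card := by
            apply Finset.card_le_card_of_injOn (fun a => a.val - 4 * j)
            · intro a ha
              have := a.2
              simp only [Finset.coe_range, Set.mem_Iio]
              omega
            · intro a ha b hb hab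
              simp only [Finset.coe_filter, Finset.mem_univ, true_and, Set.mem_ofPred_eq] at ha hb
              simp only at hab
              apply Fin.ext
              omega
        _ = 8 := by simp
    · intro a b hab
      simp only [Finset.mem_filter, Finset.mem_univ, true_and]
      exact hge a b hab
    · rintro ⟨K, hK6, hKc⟩
      have hKge : ∀ a ∈ K, 4 * j ≤ a.val := by
        intro a ha
        obtain ⟨b, hb, hba⟩ : ∃ b ∈ K, b ≠ a := Finset.exists_mem_ne (by omega) a
        exact hge a b (hKc a ha b hb hba.symm)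
      have hlow : (K.filter (fun a => a.val < 4 * j + 3)).card ≤ 3 := by
        calc (K.filter (fun a => a.val < 4 * j + 3)).card ≤ (Finset.range 3).card := by
              apply Finset.card_le_card_of_injOn (fun a => a.val - 4 * j)
              · intro a ha
                simp only [Finset.coe_filter, Set.mem_ofPred_eq] at ha
                simp only [Finset.coe_range, Set.mem_Iio]
                omega
              · intro a ha b hb hab
                simp only [Finset.coe_filter, Set.mem_ofPred_eq] at ha hb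
                simp only at hab
                have := hKge a ha.1
                have := hKge b hb.1
                apply Fin.ext
                omega
          _ = 3 := by simp
      have hsplit := Finset.card_filter_add_card_filter_not (s := K)
        (fun a => a.val < 4 * j + 3)
      have hhigh : 2 < (K.filter (fun a => ¬ a.val < 4 * j + 3)).card := by omega
      obtain ⟨a, b, d, ha, hb, hd, hab, had, hbd⟩ := Finset.two_lt_card_iff.mp hhigh
      rw [Finset.mem_filter] at ha hb hd
      have h1 := (hKc a ha.1 b hb.1 hab).1.2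
      have h2 := (hKc a ha.1 d hd.1 had).1.2
      have h3 := (hKc b hb.1 d hd.1 hbd).1.2
      have := a.2
      have := b.2
      have := d.2
      have := ha.2
      have := hb.2
      have := hd.2
      omega

theorem bigG_not_colorable (j N : ℕ) (hN : N ≤ 4 * j + 5) : ¬ (bigG j).Colorable N := by
  classical
  rintro ⟨φ⟩
  have hv : ∀ a b : Fin (4 * j + 8), (bigG j).Adj a b → φ a ≠ φ b := fun a b h => φ.valid h
  let x : Fin 5 → Fin (4 * j + 8) := fun i => ⟨4 * j + 3 + i.val, by omega⟩
  have hx : ∀ i i' : Fin 5, (i.val + 1 = i'.val ∨ i.val + 4 = i'.val) → φ (x i) ≠ φ (x i') := by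
    intro i i' h
    apply hv
    refine ⟨fun e => ?_, ?_⟩
    · have := congrArg Fin.val e
      simp only [x] at this
      omega
    · simp only [x]; omega
  have h01 := hx 0 1 (by simp)
  have h12 := hx 1 2 (by simp)
  have h23 := hx 2 3 (by simp)
  have h34 := hx 3 4 (by simp)
  have h04 := hx 0 4 (by simp)
  obtain ⟨p, q, r, hpq, hpr, hqr⟩ : ∃ p q r : Fin 5,
      φ (x p) ≠ φ (x q) ∧ φ (x p) ≠ φ (x r) ∧ φ (x q) ≠ φ (x r) := by
    by_cases h02 : φ (x 0) = φ (x 2)
    · by_cases h13 : φ (x 1) = φ (x 3)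
      · exact ⟨0, 1, 4, h01, h04, by rw [h13]; exact h34⟩
      · exact ⟨1, 2, 3, h12, h13, h23⟩
    · exact ⟨0, 1, 2, h01, h02, h12⟩
  set L : Finset (Fin (4 * j + 8)) := Finset.univ.filter (fun a => a.val < 4 * j + 3) with hL
  have hLcard : 4 * j + 3 ≤ L.card := by
    calc 4 * j + 3 = (Finset.univ : Finset (Fin (4 * j + 3))).card := by simp
      _ ≤ L.card := by
        apply Finset.card_le_card_of_injOn (fun a => (⟨a.val, by omega⟩ : Fin (4 * j + 8)))
        · intro a _
          simp [hL]
        · intro a _ b _ hab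
          apply Fin.ext
          simpa using congrArg Fin.val hab
  have hLinj : Set.InjOn φ L := by
    intro a ha b _ hab
    by_contra hne
    simp only [hL, Finset.coe_filter, Finset.mem_univ, true_and, Set.mem_ofPred_eq] at ha
    exact hv a b ⟨hne, Or.inl ha⟩ hab
  have hnot : ∀ i : Fin 5, φ (x i) ∉ L.image φ := by
    intro i hi
    obtain ⟨a, ha, hae⟩ := Finset.mem_image.mp hi
    simp only [hL, Finset.mem_filter, Finset.mem_univ, true_and] at ha
    refine hv a (x i) ⟨fun e => ?_, Or.inl ha⟩ hae
    have := congrArg Fin.val e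
    simp only [x] at this
    omega
  have hcard : (insert (φ (x p)) (insert (φ (x q)) (insert (φ (x r)) (L.image φ)))).card
      = L.card + 3 := by
    rw [Finset.card_insert_of_notMem, Finset.card_insert_of_notMem,
      Finset.card_insert_of_notMem (hnot r), Finset.card_image_of_injOn hLinj]
    · simp only [Finset.mem_insert, not_or]
      exact ⟨hqr, hnot q⟩
    · simp only [Finset.mem_insert, not_or]
      exact ⟨hpq, hpr, hnot p⟩
  have hle := Finset.card_le_univ
    (insert (φ (x p)) (insert (φ (x q)) (insert (φ (x r)) (L.image φ))))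
  rw [hcard, Fintype.card_fin] at hle
  omega

/-- There is a finite family containing a forest that is not `k`-nice for any `k ≥ 1`. -/
theorem exists_family : ∃ (ι : Type) (_ : Fintype ι) (m : ι → ℕ)
    (H : ∀ i, SimpleGraph (Fin (m i))), (∃ i, (H i).IsAcyclic) ∧
    ∀ j : ℕ, ∃ (n : ℕ) (G : SimpleGraph (Fin n)) (c : Sym2 (Fin n) → Fin (j + 1)),
      (∀ i : ι, ¬ ∃ (f : Fin (m i) ↪ Fin n) (col : Fin (j + 1)),
          ∀ a b : Fin (m i), (H i).Adj a b →
            G.Adj (f a : Fin n) (f b : Fin n) ∧
              c s((f a : Fin n), (f b : Fin n)) = col) ∧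
      ¬ ∃ N : ℕ, G.Colorable N ∧
        ∃ c' : Sym2 (Fin N) → Fin (j + 1),
          ∀ i : ι, ¬ ∃ (f : Fin (m i) ↪ Fin N) (col : Fin (j + 1)),
            ∀ a b : Fin (m i), (H i).Adj a b →
              c' s((f a : Fin N), (f b : Fin N)) = col := by
  classical
  obtain ⟨M, hM10, hM⟩ := bad_witness
  let ι : Type := Σ m : Fin (M + 1), {H : SimpleGraph (Fin m.val) // ¬ Good H}
  refine ⟨ι, Fintype.ofFinite ι, fun i => i.1.val, fun i => i.2.1,
    ⟨⟨⟨10, by omega⟩, ⟨matching5, matching5_bad⟩⟩, matching5_acyclic⟩, fun j => ?_⟩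
  refine ⟨4 * j + 8, bigG j, bigC j, ?_, ?_⟩
  · rintro i ⟨f, col, hf⟩
    exact i.2.2 (good_pull (cls (bigG j) (bigC j) col) i.2.1 f hf (bigG_good j col))
  · rintro ⟨N, hcol, c', hc'⟩
    have hgood : ∀ t, Good (cls ⊤ c' t) := by
      intro t
      by_contra hbad
      obtain ⟨m, hm, f, hf⟩ := hM N _ hbad
      apply hc' ⟨⟨m, by omega⟩, ⟨_, hf⟩⟩
      exact ⟨f, t, fun a b hab => hab.2⟩
    have := clique_bound N (j + 1) c' hgood
    exact bigG_not_colorable j N (by omega) hcol

end Pool.Agent.H234Z.RamseyNice
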